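import Pool.Agent.Lib.MP_776035_co.Tiling.Colour

/-! Data of a periodic colouring. -/

set_option autoImplicit false
set_option maxRecDepth 100000

namespace Pool.Agent.Lib.MP_776035_co.Tiling

def E1T : List Tri := [
  ⟨(.ofNat 949724,.ofNat 719762),(.ofNat 966234,.ofNat 766518),(.ofNat 922312,.ofNat 815794),2,107,(.ofNat 1,.ofNat 0),89,(.ofNat 0,.ofNat 1),8,(.ofNat 0,.ofNat 0)⟩,
  ⟨(.ofNat 763043,.ofNat 26256),(.ofNat 827632,.ofNat 31824),(.ofNat 862911,.ofNat 131278),1,127,(.ofNat 0,.ofNat 0),101,(.ofNat 1,.ofNat 0),3,(.ofNat 0,.ofNat 0)⟩,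
  ⟨(.ofNat 36897,.ofNat 551368),(.ofNat 11465,.ofNat 469184),(.ofNat 111065,.ofNat 366681),0,142,(.ofNat 0,.ofNat 0),47,(.ofNat 0,.ofNat 0),11,(.ofNat 0,.ofNat 0)⟩,
  ⟨(.ofNat 688112,.ofNat 26256),(.ofNat 763043,.ofNat 26256),(.ofNat 862911,.ofNat 131278),1,133,(.ofNat 0,.ofNat 0),1,(.ofNat 0,.ofNat 0),4,(.ofNat 0,.ofNat 0)⟩,
  ⟨(.ofNat 688112,.ofNat 26256),(.ofNat 862911,.ofNat 131278),(.ofNat 887846,.ofNat 236301),1,3,(.ofNat 0,.ofNat 0),116,(.ofNat 1,.ofNat 0),10,(.ofNat 0,.ofNat 0)⟩,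
  ⟨(.ofNat 922312,.ofNat 815794),(.ofNat 908071,.ofNat 873930),(.ofNat 876812,.ofNat 898307),3,89,(.ofNat 0,.ofNat 1),83,(.ofNat 0,.ofNat 1),6,(.ofNat 0,.ofNat 0)⟩,
  ⟨(.ofNat 922312,.ofNat 815794),(.ofNat 876812,.ofNat 898307),(.ofNat 778914,.ofNat 945202),3,5,(.ofNat 0,.ofNat 0),69,(.ofNat 0,.ofNat 1),9,(.ofNat 0,.ofNat 0)⟩,
  ⟨(.ofNat 887846,.ofNat 236301),(.ofNat 921038,.ofNat 340548),(.ofNat 895277,.ofNat 393834),1,106,(.ofNat 1,.ofNat 0),126,(.ofNat 0,.ofNat 0),10,(.ofNat 0,.ofNat 0)⟩,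
  ⟨(.ofNat 926516,.ofNat 637075),(.ofNat 949724,.ofNat 719762),(.ofNat 922312,.ofNat 815794),3,105,(.ofNat 1,.ofNat 0),0,(.ofNat 0,.ofNat 0),9,(.ofNat 0,.ofNat 0)⟩,
  ⟨(.ofNat 926516,.ofNat 637075),(.ofNat 922312,.ofNat 815794),(.ofNat 778914,.ofNat 945202),3,8,(.ofNat 0,.ofNat 0),6,(.ofNat 0,.ofNat 0),17,(.ofNat 0,.ofNat 0)⟩,
  ⟨(.ofNat 688112,.ofNat 26256),(.ofNat 887846,.ofNat 236301),(.ofNat 895277,.ofNat 393834),1,4,(.ofNat 0,.ofNat 0),7,(.ofNat 0,.ofNat 0),13,(.ofNat 0,.ofNat 0)⟩,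
  ⟨(.ofNat 36897,.ofNat 551368),(.ofNat 111065,.ofNat 366681),(.ofNat 415558,.ofNat 161565),0,2,(.ofNat 0,.ofNat 0),56,(.ofNat 0,.ofNat 0),14,(.ofNat 0,.ofNat 0)⟩,
  ⟨(.ofNat 415558,.ofNat 161565),(.ofNat 616634,.ofNat 3887),(.ofNat 688112,.ofNat 26256),1,54,(.ofNat 0,.ofNat 0),129,(.ofNat 0,.ofNat 0),13,(.ofNat 0,.ofNat 0)⟩,
  ⟨(.ofNat 415558,.ofNat 161565),(.ofNat 688112,.ofNat 26256),(.ofNat 895277,.ofNat 393834),1,12,(.ofNat 0,.ofNat 0),10,(.ofNat 0,.ofNat 0),14,(.ofNat 0,.ofNat 0)⟩,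
  ⟨(.ofNat 36897,.ofNat 551368),(.ofNat 415558,.ofNat 161565),(.ofNat 895277,.ofNat 393834),1,11,(.ofNat 0,.ofNat 0),13,(.ofNat 0,.ofNat 0),20,(.ofNat 0,.ofNat 0)⟩,
  ⟨(.ofNat 724573,.ofNat 984586),(.ofNat 629226,.ofNat 1003804),(.ofNat 432942,.ofNat 903711),3,70,(.ofNat 0,.ofNat 1),38,(.ofNat 0,.ofNat 1),16,(.ofNat 0,.ofNat 0)⟩,
  ⟨(.ofNat 724573,.ofNat 984586),(.ofNat 432942,.ofNat 903711),(.ofNat 241772,.ofNat 752439),3,15,(.ofNat 0,.ofNat 0),29,(.ofNat 0,.ofNat 1),21,(.ofNat 0,.ofNat 0)⟩,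
  ⟨(.ofNat 895844,.ofNat 538240),(.ofNat 926516,.ofNat 637075),(.ofNat 778914,.ofNat 945202),3,99,(.ofNat 1,.ofNat 0),9,(.ofNat 0,.ofNat 0),22,(.ofNat 0,.ofNat 0)⟩,
  ⟨(.ofNat 241772,.ofNat 752439),(.ofNat 45080,.ofNat 654404),(.ofNat 41008,.ofNat 609628),3,28,(.ofNat 0,.ofNat 1),141,(.ofNat 0,.ofNat 0),19,(.ofNat 0,.ofNat 0)⟩,
  ⟨(.ofNat 241772,.ofNat 752439),(.ofNat 41008,.ofNat 609628),(.ofNat 36897,.ofNat 551368),3,18,(.ofNat 0,.ofNat 0),147,(.ofNat 0,.ofNat 0),20,(.ofNat 0,.ofNat 0)⟩,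
  ⟨(.ofNat 241772,.ofNat 752439),(.ofNat 36897,.ofNat 551368),(.ofNat 895277,.ofNat 393834),3,19,(.ofNat 0,.ofNat 0),14,(.ofNat 0,.ofNat 0),21,(.ofNat 0,.ofNat 0)⟩,
  ⟨(.ofNat 724573,.ofNat 984586),(.ofNat 241772,.ofNat 752439),(.ofNat 895277,.ofNat 393834),3,16,(.ofNat 0,.ofNat 0),20,(.ofNat 0,.ofNat 0),24,(.ofNat 0,.ofNat 0)⟩,
  ⟨(.ofNat 895844,.ofNat 538240),(.ofNat 778914,.ofNat 945202),(.ofNat 724573,.ofNat 984586),3,17,(.ofNat 0,.ofNat 0),74,(.ofNat 0,.ofNat 1),23,(.ofNat 0,.ofNat 0)⟩,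
  ⟨(.ofNat 884635,.ofNat 459473),(.ofNat 895844,.ofNat 538240),(.ofNat 724573,.ofNat 984586),3,123,(.ofNat 0,.ofNat 0),22,(.ofNat 0,.ofNat 0),24,(.ofNat 0,.ofNat 0)⟩,
  ⟨(.ofNat 895277,.ofNat 393834),(.ofNat 884635,.ofNat 459473),(.ofNat 724573,.ofNat 984586),3,126,(.ofNat 0,.ofNat 0),23,(.ofNat 0,.ofNat 0),21,(.ofNat 0,.ofNat 0)⟩,
  ⟨(.negSucc 285331,.negSucc 355588),(.negSucc 324559,.negSucc 274773),(.negSucc 418450,.negSucc 237609),4,48,(.ofNat 0,.ofNat 0),153,(.ofNat 0,.ofNat 0),41,(.ofNat 0,.ofNat 0)⟩,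
  ⟨(.negSucc 831828,.negSucc 53648),(.negSucc 1034232,.negSucc 60035),(.negSucc 1053935,.negSucc 119871),6,114,(.ofNat 0,.ofNat 0),136,(.negSucc 0,.ofNat 0),27,(.ofNat 0,.ofNat 0)⟩,
  ⟨(.negSucc 694432,.negSucc 106159),(.negSucc 831828,.negSucc 53648),(.negSucc 1053935,.negSucc 119871),6,102,(.ofNat 0,.ofNat 0),26,(.ofNat 0,.ofNat 0),34,(.ofNat 0,.ofNat 0)⟩,
  ⟨(.negSucc 872819,.negSucc 989155),(.negSucc 831960,.negSucc 1027093),(.negSucc 635268,.negSucc 929058),4,141,(.ofNat 0,.negSucc 0),18,(.ofNat 0,.negSucc 0),29,(.ofNat 0,.ofNat 0)⟩,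
  ⟨(.negSucc 872819,.negSucc 989155),(.negSucc 635268,.negSucc 929058),(.negSucc 444098,.negSucc 777786),4,28,(.ofNat 0,.ofNat 0),16,(.ofNat 0,.negSucc 0),39,(.ofNat 0,.ofNat 0)⟩,
  ⟨(.negSucc 1028305,.negSucc 697831),(.negSucc 988420,.negSucc 936430),(.negSucc 931334,.negSucc 960466),5,82,(.negSucc 0,.ofNat 0),140,(.ofNat 0,.negSucc 0),31,(.ofNat 0,.ofNat 0)⟩,
  ⟨(.negSucc 1033282,.negSucc 441693),(.negSucc 1028305,.negSucc 697831),(.negSucc 931334,.negSucc 960466),5,81,(.negSucc 0,.ofNat 0),30,(.ofNat 0,.ofNat 0),44,(.ofNat 0,.ofNat 0)⟩,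
  ⟨(.negSucc 1074818,.negSucc 169977),(.negSucc 1101552,.negSucc 225295),(.negSucc 1033282,.negSucc 441693),6,128,(.negSucc 0,.ofNat 0),80,(.negSucc 0,.ofNat 0),45,(.ofNat 0,.ofNat 0)⟩,
  ⟨(.negSucc 503798,.negSucc 199282),(.negSucc 555774,.negSucc 150766),(.negSucc 694432,.negSucc 106159),6,154,(.ofNat 0,.ofNat 0),98,(.ofNat 0,.ofNat 0),34,(.ofNat 0,.ofNat 0)⟩,
  ⟨(.negSucc 503798,.negSucc 199282),(.negSucc 694432,.negSucc 106159),(.negSucc 1053935,.negSucc 119871),6,33,(.ofNat 0,.ofNat 0),27,(.ofNat 0,.ofNat 0),43,(.ofNat 0,.ofNat 0)⟩,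
  ⟨(.negSucc 154621,.negSucc 535438),(.negSucc 145481,.negSucc 518419),(.negSucc 231808,.negSucc 429619),4,77,(.ofNat 0,.ofNat 0),51,(.ofNat 0,.ofNat 0),36,(.ofNat 0,.ofNat 0)⟩,
  ⟨(.negSucc 200329,.negSucc 611455),(.negSucc 154621,.negSucc 535438),(.negSucc 231808,.negSucc 429619),4,72,(.ofNat 0,.ofNat 0),35,(.ofNat 0,.ofNat 0),37,(.ofNat 0,.ofNat 0)⟩,
  ⟨(.negSucc 247814,.negSucc 677693),(.negSucc 200329,.negSucc 611455),(.negSucc 231808,.negSucc 429619),4,70,(.ofNat 0,.ofNat 0),36,(.ofNat 0,.ofNat 0),38,(.ofNat 0,.ofNat 0)⟩,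
  ⟨(.negSucc 444098,.negSucc 777786),(.negSucc 247814,.negSucc 677693),(.negSucc 231808,.negSucc 429619),4,15,(.ofNat 0,.negSucc 0),37,(.ofNat 0,.ofNat 0),39,(.ofNat 0,.ofNat 0)⟩,
  ⟨(.negSucc 872819,.negSucc 989155),(.negSucc 444098,.negSucc 777786),(.negSucc 231808,.negSucc 429619),4,29,(.ofNat 0,.ofNat 0),38,(.ofNat 0,.ofNat 0),40,(.ofNat 0,.ofNat 0)⟩,
  ⟨(.negSucc 872819,.negSucc 989155),(.negSucc 231808,.negSucc 429619),(.negSucc 285331,.negSucc 355588),4,39,(.ofNat 0,.ofNat 0),52,(.ofNat 0,.ofNat 0),41,(.ofNat 0,.ofNat 0)⟩,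
  ⟨(.negSucc 872819,.negSucc 989155),(.negSucc 285331,.negSucc 355588),(.negSucc 418450,.negSucc 237609),4,40,(.ofNat 0,.ofNat 0),25,(.ofNat 0,.ofNat 0),42,(.ofNat 0,.ofNat 0)⟩,
  ⟨(.negSucc 872819,.negSucc 989155),(.negSucc 418450,.negSucc 237609),(.negSucc 503798,.negSucc 199282),6,41,(.ofNat 0,.ofNat 0),156,(.ofNat 0,.ofNat 0),43,(.ofNat 0,.ofNat 0)⟩,
  ⟨(.negSucc 872819,.negSucc 989155),(.negSucc 503798,.negSucc 199282),(.negSucc 1053935,.negSucc 119871),6,42,(.ofNat 0,.ofNat 0),34,(.ofNat 0,.ofNat 0),46,(.ofNat 0,.ofNat 0)⟩,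
  ⟨(.negSucc 1033282,.negSucc 441693),(.negSucc 931334,.negSucc 960466),(.negSucc 872819,.negSucc 989155),6,31,(.ofNat 0,.ofNat 0),143,(.ofNat 0,.negSucc 0),46,(.ofNat 0,.ofNat 0)⟩,
  ⟨(.negSucc 1053935,.negSucc 119871),(.negSucc 1074818,.negSucc 169977),(.negSucc 1033282,.negSucc 441693),6,135,(.negSucc 0,.ofNat 0),32,(.ofNat 0,.ofNat 0),46,(.ofNat 0,.ofNat 0)⟩,
  ⟨(.negSucc 1053935,.negSucc 119871),(.negSucc 1033282,.negSucc 441693),(.negSucc 872819,.negSucc 989155),6,45,(.ofNat 0,.ofNat 0),44,(.ofNat 0,.ofNat 0),43,(.ofNat 0,.ofNat 0)⟩,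
  ⟨(.ofNat 111065,.ofNat 366681),(.ofNat 11465,.ofNat 469184),(.negSucc 167934,.ofNat 455821),7,2,(.ofNat 0,.ofNat 0),142,(.ofNat 0,.ofNat 0),56,(.ofNat 0,.ofNat 0)⟩,
  ⟨(.negSucc 276669,.negSucc 139432),(.negSucc 324559,.negSucc 274773),(.negSucc 285331,.negSucc 355588),8,153,(.ofNat 0,.ofNat 0),25,(.ofNat 0,.ofNat 0),52,(.ofNat 0,.ofNat 0)⟩,
  ⟨(.ofNat 435083,.negSucc 293100),(.ofNat 596594,.negSucc 162659),(.ofNat 607210,.negSucc 68698),8,91,(.ofNat 0,.ofNat 0),130,(.ofNat 0,.ofNat 0),50,(.ofNat 0,.ofNat 0)⟩,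
  ⟨(.ofNat 201125,.negSucc 400801),(.ofNat 435083,.negSucc 293100),(.ofNat 607210,.negSucc 68698),8,94,(.ofNat 0,.ofNat 0),49,(.ofNat 0,.ofNat 0),59,(.ofNat 0,.ofNat 0)⟩,
  ⟨(.negSucc 231808,.negSucc 429619),(.negSucc 145481,.negSucc 518419),(.negSucc 100136,.negSucc 516149),8,35,(.ofNat 0,.ofNat 0),77,(.ofNat 0,.ofNat 0),53,(.ofNat 0,.ofNat 0)⟩,
  ⟨(.negSucc 276669,.negSucc 139432),(.negSucc 285331,.negSucc 355588),(.negSucc 231808,.negSucc 429619),8,48,(.ofNat 0,.ofNat 0),40,(.ofNat 0,.ofNat 0),53,(.ofNat 0,.ofNat 0)⟩,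
  ⟨(.negSucc 276669,.negSucc 139432),(.negSucc 231808,.negSucc 429619),(.negSucc 100136,.negSucc 516149),8,52,(.ofNat 0,.ofNat 0),51,(.ofNat 0,.ofNat 0),57,(.ofNat 0,.ofNat 0)⟩,
  ⟨(.ofNat 603462,.negSucc 53648),(.ofNat 616634,.ofNat 3887),(.ofNat 415558,.ofNat 161565),9,129,(.ofNat 0,.ofNat 0),12,(.ofNat 0,.ofNat 0),61,(.ofNat 0,.ofNat 0)⟩,
  ⟨(.negSucc 41391,.negSucc 513122),(.ofNat 14008,.negSucc 527191),(.ofNat 201125,.negSucc 400801),8,71,(.ofNat 0,.ofNat 0),90,(.ofNat 0,.ofNat 0),58,(.ofNat 0,.ofNat 0)⟩,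
  ⟨(.ofNat 415558,.ofNat 161565),(.ofNat 111065,.ofNat 366681),(.negSucc 167934,.ofNat 455821),9,11,(.ofNat 0,.ofNat 0),47,(.ofNat 0,.ofNat 0),61,(.ofNat 0,.ofNat 0)⟩,
  ⟨(.negSucc 276669,.negSucc 139432),(.negSucc 100136,.negSucc 516149),(.negSucc 41391,.negSucc 513122),8,53,(.ofNat 0,.ofNat 0),78,(.ofNat 0,.ofNat 0),58,(.ofNat 0,.ofNat 0)⟩,
  ⟨(.negSucc 276669,.negSucc 139432),(.negSucc 41391,.negSucc 513122),(.ofNat 201125,.negSucc 400801),8,57,(.ofNat 0,.ofNat 0),55,(.ofNat 0,.ofNat 0),59,(.ofNat 0,.ofNat 0)⟩,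
  ⟨(.negSucc 276669,.negSucc 139432),(.ofNat 201125,.negSucc 400801),(.ofNat 607210,.negSucc 68698),8,58,(.ofNat 0,.ofNat 0),50,(.ofNat 0,.ofNat 0),60,(.ofNat 0,.ofNat 0)⟩,
  ⟨(.negSucc 290924,.negSucc 10275),(.negSucc 276669,.negSucc 139432),(.ofNat 607210,.negSucc 68698),9,155,(.ofNat 0,.ofNat 0),59,(.ofNat 0,.ofNat 0),63,(.ofNat 0,.ofNat 0)⟩,
  ⟨(.ofNat 603462,.negSucc 53648),(.ofNat 415558,.ofNat 161565),(.negSucc 167934,.ofNat 455821),9,54,(.ofNat 0,.ofNat 0),56,(.ofNat 0,.ofNat 0),68,(.ofNat 0,.ofNat 0)⟩,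
  ⟨(.negSucc 252062,.ofNat 170662),(.negSucc 298219,.ofNat 6928),(.negSucc 290924,.negSucc 10275),9,100,(.ofNat 0,.ofNat 0),159,(.ofNat 0,.ofNat 0),63,(.ofNat 0,.ofNat 0)⟩,
  ⟨(.negSucc 252062,.ofNat 170662),(.negSucc 290924,.negSucc 10275),(.ofNat 607210,.negSucc 68698),9,62,(.ofNat 0,.ofNat 0),60,(.ofNat 0,.ofNat 0),64,(.ofNat 0,.ofNat 0)⟩,
  ⟨(.negSucc 221509,.ofNat 315066),(.negSucc 252062,.ofNat 170662),(.ofNat 607210,.negSucc 68698),9,104,(.ofNat 0,.ofNat 0),63,(.ofNat 0,.ofNat 0),65,(.ofNat 0,.ofNat 0)⟩,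
  ⟨(.negSucc 180567,.ofNat 453692),(.negSucc 221509,.ofNat 315066),(.ofNat 607210,.negSucc 68698),9,103,(.ofNat 0,.ofNat 0),64,(.ofNat 0,.ofNat 0),66,(.ofNat 0,.ofNat 0)⟩,
  ⟨(.negSucc 180567,.ofNat 453692),(.ofNat 607210,.negSucc 68698),(.ofNat 603462,.negSucc 53648),9,65,(.ofNat 0,.ofNat 0),139,(.ofNat 0,.ofNat 0),67,(.ofNat 0,.ofNat 0)⟩,
  ⟨(.negSucc 173831,.ofNat 454716),(.negSucc 180567,.ofNat 453692),(.ofNat 603462,.negSucc 53648),9,150,(.ofNat 0,.ofNat 0),66,(.ofNat 0,.ofNat 0),68,(.ofNat 0,.ofNat 0)⟩,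
  ⟨(.ofNat 603462,.negSucc 53648),(.negSucc 167934,.ofNat 455821),(.negSucc 173831,.ofNat 454716),9,61,(.ofNat 0,.ofNat 0),151,(.ofNat 0,.ofNat 0),67,(.ofNat 0,.ofNat 0)⟩,
  ⟨(.negSucc 98126,.negSucc 736295),(.negSucc 228,.negSucc 783190),(.ofNat 4259,.negSucc 683783),10,6,(.ofNat 0,.negSucc 0),83,(.ofNat 0,.ofNat 0),73,(.ofNat 0,.ofNat 0)⟩,
  ⟨(.negSucc 200329,.negSucc 611455),(.negSucc 247814,.negSucc 677693),(.negSucc 152467,.negSucc 696911),10,37,(.ofNat 0,.ofNat 0),15,(.ofNat 0,.negSucc 0),72,(.ofNat 0,.ofNat 0)⟩,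
  ⟨(.negSucc 11393,.negSucc 621464),(.ofNat 14008,.negSucc 527191),(.negSucc 41391,.negSucc 513122),10,90,(.ofNat 0,.ofNat 0),55,(.ofNat 0,.ofNat 0),76,(.ofNat 0,.ofNat 0)⟩,
  ⟨(.negSucc 154621,.negSucc 535438),(.negSucc 200329,.negSucc 611455),(.negSucc 152467,.negSucc 696911),10,36,(.ofNat 0,.ofNat 0),70,(.ofNat 0,.ofNat 0),75,(.ofNat 0,.ofNat 0)⟩,
  ⟨(.negSucc 98126,.negSucc 736295),(.ofNat 4259,.negSucc 683783),(.negSucc 11393,.negSucc 621464),10,69,(.ofNat 0,.ofNat 0),97,(.ofNat 0,.ofNat 0),74,(.ofNat 0,.ofNat 0)⟩,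
  ⟨(.negSucc 152467,.negSucc 696911),(.negSucc 98126,.negSucc 736295),(.negSucc 11393,.negSucc 621464),10,22,(.ofNat 0,.negSucc 0),73,(.ofNat 0,.ofNat 0),75,(.ofNat 0,.ofNat 0)⟩,
  ⟨(.negSucc 154621,.negSucc 535438),(.negSucc 152467,.negSucc 696911),(.negSucc 11393,.negSucc 621464),10,72,(.ofNat 0,.ofNat 0),74,(.ofNat 0,.ofNat 0),76,(.ofNat 0,.ofNat 0)⟩,
  ⟨(.negSucc 154621,.negSucc 535438),(.negSucc 11393,.negSucc 621464),(.negSucc 41391,.negSucc 513122),10,75,(.ofNat 0,.ofNat 0),71,(.ofNat 0,.ofNat 0),78,(.ofNat 0,.ofNat 0)⟩,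
  ⟨(.negSucc 100136,.negSucc 516149),(.negSucc 145481,.negSucc 518419),(.negSucc 154621,.negSucc 535438),10,51,(.ofNat 0,.ofNat 0),35,(.ofNat 0,.ofNat 0),78,(.ofNat 0,.ofNat 0)⟩,
  ⟨(.negSucc 41391,.negSucc 513122),(.negSucc 100136,.negSucc 516149),(.negSucc 154621,.negSucc 535438),10,57,(.ofNat 0,.ofNat 0),77,(.ofNat 0,.ofNat 0),76,(.ofNat 0,.ofNat 0)⟩,
  ⟨(.ofNat 576383,.negSucc 1051362),(.ofNat 803230,.negSucc 1141074),(.ofNat 824287,.negSucc 1064490),12,110,(.ofNat 1,.negSucc 0),146,(.ofNat 1,.negSucc 0),84,(.ofNat 0,.ofNat 0)⟩,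
  ⟨(.ofNat 881570,.negSucc 441693),(.ofNat 813300,.negSucc 225295),(.ofNat 715922,.negSucc 211182),11,32,(.ofNat 1,.ofNat 0),128,(.ofNat 0,.ofNat 0),81,(.ofNat 0,.ofNat 0)⟩,
  ⟨(.ofNat 886547,.negSucc 697831),(.ofNat 881570,.negSucc 441693),(.ofNat 715922,.negSucc 211182),11,31,(.ofNat 1,.ofNat 0),80,(.ofNat 0,.ofNat 0),86,(.ofNat 0,.ofNat 0)⟩,
  ⟨(.ofNat 858604,.negSucc 998851),(.ofNat 926432,.negSucc 936430),(.ofNat 886547,.negSucc 697831),12,140,(.ofNat 1,.negSucc 0),30,(.ofNat 1,.ofNat 0),85,(.ofNat 0,.ofNat 0)⟩,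
  ⟨(.ofNat 4259,.negSucc 683783),(.negSucc 228,.negSucc 783190),(.ofNat 31030,.negSucc 807567),13,69,(.ofNat 0,.ofNat 0),5,(.ofNat 0,.negSucc 0),96,(.ofNat 0,.ofNat 0)⟩,
  ⟨(.ofNat 576383,.negSucc 1051362),(.ofNat 824287,.negSucc 1064490),(.ofNat 858604,.negSucc 998851),12,79,(.ofNat 0,.ofNat 0),145,(.ofNat 1,.negSucc 0),85,(.ofNat 0,.ofNat 0)⟩,
  ⟨(.ofNat 576383,.negSucc 1051362),(.ofNat 858604,.negSucc 998851),(.ofNat 886547,.negSucc 697831),12,84,(.ofNat 0,.ofNat 0),82,(.ofNat 0,.ofNat 0),86,(.ofNat 0,.ofNat 0)⟩,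
  ⟨(.ofNat 576383,.negSucc 1051362),(.ofNat 886547,.negSucc 697831),(.ofNat 715922,.negSucc 211182),12,85,(.ofNat 0,.ofNat 0),81,(.ofNat 0,.ofNat 0),87,(.ofNat 0,.ofNat 0)⟩,
  ⟨(.ofNat 347810,.negSucc 972595),(.ofNat 576383,.negSucc 1051362),(.ofNat 715922,.negSucc 211182),12,109,(.ofNat 1,.negSucc 0),86,(.ofNat 0,.ofNat 0),88,(.ofNat 0,.ofNat 0)⟩,
  ⟨(.ofNat 89193,.negSucc 914979),(.ofNat 347810,.negSucc 972595),(.ofNat 715922,.negSucc 211182),13,107,(.ofNat 1,.negSucc 0),87,(.ofNat 0,.ofNat 0),93,(.ofNat 0,.ofNat 0)⟩,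
  ⟨(.ofNat 31030,.negSucc 807567),(.ofNat 45271,.negSucc 865703),(.ofNat 89193,.negSucc 914979),13,5,(.ofNat 0,.negSucc 0),0,(.ofNat 0,.negSucc 0),96,(.ofNat 0,.ofNat 0)⟩,
  ⟨(.ofNat 201125,.negSucc 400801),(.ofNat 14008,.negSucc 527191),(.negSucc 11393,.negSucc 621464),13,55,(.ofNat 0,.ofNat 0),71,(.ofNat 0,.ofNat 0),95,(.ofNat 0,.ofNat 0)⟩,
  ⟨(.ofNat 639731,.negSucc 184926),(.ofNat 596594,.negSucc 162659),(.ofNat 435083,.negSucc 293100),13,130,(.ofNat 0,.ofNat 0),49,(.ofNat 0,.ofNat 0),92,(.ofNat 0,.ofNat 0)⟩,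
  ⟨(.ofNat 715922,.negSucc 211182),(.ofNat 639731,.negSucc 184926),(.ofNat 435083,.negSucc 293100),13,131,(.ofNat 0,.ofNat 0),91,(.ofNat 0,.ofNat 0),93,(.ofNat 0,.ofNat 0)⟩,
  ⟨(.ofNat 89193,.negSucc 914979),(.ofNat 715922,.negSucc 211182),(.ofNat 435083,.negSucc 293100),13,88,(.ofNat 0,.ofNat 0),92,(.ofNat 0,.ofNat 0),94,(.ofNat 0,.ofNat 0)⟩,
  ⟨(.ofNat 89193,.negSucc 914979),(.ofNat 435083,.negSucc 293100),(.ofNat 201125,.negSucc 400801),13,93,(.ofNat 0,.ofNat 0),50,(.ofNat 0,.ofNat 0),95,(.ofNat 0,.ofNat 0)⟩,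
  ⟨(.ofNat 89193,.negSucc 914979),(.ofNat 201125,.negSucc 400801),(.negSucc 11393,.negSucc 621464),13,94,(.ofNat 0,.ofNat 0),90,(.ofNat 0,.ofNat 0),97,(.ofNat 0,.ofNat 0)⟩,
  ⟨(.ofNat 4259,.negSucc 683783),(.ofNat 31030,.negSucc 807567),(.ofNat 89193,.negSucc 914979),13,83,(.ofNat 0,.ofNat 0),89,(.ofNat 0,.ofNat 0),97,(.ofNat 0,.ofNat 0)⟩,
  ⟨(.negSucc 11393,.negSucc 621464),(.ofNat 4259,.negSucc 683783),(.ofNat 89193,.negSucc 914979),13,73,(.ofNat 0,.ofNat 0),96,(.ofNat 0,.ofNat 0),95,(.ofNat 0,.ofNat 0)⟩,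
  ⟨(.negSucc 694432,.negSucc 106159),(.negSucc 555774,.negSucc 150766),(.negSucc 502129,.negSucc 53648),14,33,(.ofNat 0,.ofNat 0),154,(.ofNat 0,.ofNat 0),102,(.ofNat 0,.ofNat 0)⟩,
  ⟨(.negSucc 988336,.ofNat 637075),(.negSucc 1019008,.ofNat 538240),(.negSucc 949681,.ofNat 498857),15,17,(.negSucc 0,.ofNat 0),123,(.negSucc 0,.ofNat 0),105,(.ofNat 0,.ofNat 0)⟩,
  ⟨(.negSucc 416219,.ofNat 0),(.negSucc 298219,.ofNat 6928),(.negSucc 252062,.ofNat 170662),15,159,(.ofNat 0,.ofNat 0),62,(.ofNat 0,.ofNat 0),104,(.ofNat 0,.ofNat 0)⟩,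
  ⟨(.negSucc 1051941,.ofNat 131278),(.negSucc 1087220,.ofNat 31824),(.negSucc 1061587,.negSucc 17827),15,1,(.negSucc 0,.ofNat 0),127,(.negSucc 0,.ofNat 0),115,(.ofNat 0,.ofNat 0)⟩,
  ⟨(.negSucc 831828,.negSucc 53648),(.negSucc 694432,.negSucc 106159),(.negSucc 502129,.negSucc 53648),15,27,(.ofNat 0,.ofNat 0),98,(.ofNat 0,.ofNat 0),112,(.ofNat 0,.ofNat 0)⟩,
  ⟨(.negSucc 221509,.ofNat 315066),(.negSucc 180567,.ofNat 453692),(.negSucc 212814,.ofNat 498845),15,65,(.ofNat 0,.ofNat 0),150,(.ofNat 0,.ofNat 0),111,(.ofNat 0,.ofNat 0)⟩,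
  ⟨(.negSucc 416219,.ofNat 0),(.negSucc 252062,.ofNat 170662),(.negSucc 221509,.ofNat 315066),15,100,(.ofNat 0,.ofNat 0),64,(.ofNat 0,.ofNat 0),111,(.ofNat 0,.ofNat 0)⟩,
  ⟨(.negSucc 965128,.ofNat 719762),(.negSucc 988336,.ofNat 637075),(.negSucc 949681,.ofNat 498857),15,8,(.negSucc 0,.ofNat 0),99,(.ofNat 0,.ofNat 0),108,(.ofNat 0,.ofNat 0)⟩,
  ⟨(.negSucc 909067,.ofNat 433218),(.negSucc 993814,.ofNat 340548),(.negSucc 1027006,.ofNat 236301),15,125,(.negSucc 0,.ofNat 0),7,(.negSucc 0,.ofNat 0),117,(.ofNat 0,.ofNat 0)⟩,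
  ⟨(.negSucc 690001,.ofNat 708902),(.negSucc 948618,.ofNat 766518),(.negSucc 965128,.ofNat 719762),15,88,(.negSucc 0,.ofNat 1),0,(.negSucc 0,.ofNat 0),108,(.ofNat 0,.ofNat 0)⟩,
  ⟨(.negSucc 690001,.ofNat 708902),(.negSucc 965128,.ofNat 719762),(.negSucc 949681,.ofNat 498857),15,107,(.ofNat 0,.ofNat 0),105,(.ofNat 0,.ofNat 0),109,(.ofNat 0,.ofNat 0)⟩,
  ⟨(.negSucc 461428,.ofNat 630135),(.negSucc 690001,.ofNat 708902),(.negSucc 949681,.ofNat 498857),15,87,(.negSucc 0,.ofNat 1),108,(.ofNat 0,.ofNat 0),110,(.ofNat 0,.ofNat 0)⟩,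
  ⟨(.negSucc 234581,.ofNat 540423),(.negSucc 461428,.ofNat 630135),(.negSucc 949681,.ofNat 498857),15,79,(.negSucc 0,.ofNat 1),109,(.ofNat 0,.ofNat 0),118,(.ofNat 0,.ofNat 0)⟩,
  ⟨(.negSucc 416219,.ofNat 0),(.negSucc 221509,.ofNat 315066),(.negSucc 212814,.ofNat 498845),15,104,(.ofNat 0,.ofNat 0),103,(.ofNat 0,.ofNat 0),113,(.ofNat 0,.ofNat 0)⟩,
  ⟨(.negSucc 831828,.negSucc 53648),(.negSucc 502129,.negSucc 53648),(.negSucc 416219,.ofNat 0),15,102,(.ofNat 0,.ofNat 0),158,(.ofNat 0,.ofNat 0),113,(.ofNat 0,.ofNat 0)⟩,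
  ⟨(.negSucc 831828,.negSucc 53648),(.negSucc 416219,.ofNat 0),(.negSucc 212814,.ofNat 498845),15,112,(.ofNat 0,.ofNat 0),111,(.ofNat 0,.ofNat 0),114,(.ofNat 0,.ofNat 0)⟩,
  ⟨(.negSucc 1034232,.negSucc 60035),(.negSucc 831828,.negSucc 53648),(.negSucc 212814,.ofNat 498845),15,26,(.ofNat 0,.ofNat 0),113,(.ofNat 0,.ofNat 0),121,(.ofNat 0,.ofNat 0)⟩,
  ⟨(.negSucc 1051941,.ofNat 131278),(.negSucc 1061587,.negSucc 17827),(.negSucc 1042679,.negSucc 39152),15,101,(.ofNat 0,.ofNat 0),137,(.negSucc 0,.ofNat 0),116,(.ofNat 0,.ofNat 0)⟩,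
  ⟨(.negSucc 1027006,.ofNat 236301),(.negSucc 1051941,.ofNat 131278),(.negSucc 1042679,.negSucc 39152),15,4,(.negSucc 0,.ofNat 0),115,(.ofNat 0,.ofNat 0),117,(.ofNat 0,.ofNat 0)⟩,
  ⟨(.negSucc 909067,.ofNat 433218),(.negSucc 1027006,.ofNat 236301),(.negSucc 1042679,.negSucc 39152),15,106,(.ofNat 0,.ofNat 0),116,(.ofNat 0,.ofNat 0),119,(.ofNat 0,.ofNat 0)⟩,
  ⟨(.negSucc 234581,.ofNat 540423),(.negSucc 949681,.ofNat 498857),(.negSucc 909067,.ofNat 433218),15,110,(.ofNat 0,.ofNat 0),124,(.negSucc 0,.ofNat 0),119,(.ofNat 0,.ofNat 0)⟩,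
  ⟨(.negSucc 234581,.ofNat 540423),(.negSucc 909067,.ofNat 433218),(.negSucc 1042679,.negSucc 39152),15,118,(.ofNat 0,.ofNat 0),117,(.ofNat 0,.ofNat 0),120,(.ofNat 0,.ofNat 0)⟩,
  ⟨(.negSucc 215903,.ofNat 503990),(.negSucc 234581,.ofNat 540423),(.negSucc 1042679,.negSucc 39152),15,149,(.ofNat 0,.ofNat 0),119,(.ofNat 0,.ofNat 0),122,(.ofNat 0,.ofNat 0)⟩,
  ⟨(.negSucc 1042679,.negSucc 39152),(.negSucc 1034232,.negSucc 60035),(.negSucc 212814,.ofNat 498845),15,137,(.negSucc 0,.ofNat 0),114,(.ofNat 0,.ofNat 0),122,(.ofNat 0,.ofNat 0)⟩,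
  ⟨(.negSucc 1042679,.negSucc 39152),(.negSucc 212814,.ofNat 498845),(.negSucc 215903,.ofNat 503990),15,121,(.ofNat 0,.ofNat 0),152,(.ofNat 0,.ofNat 0),120,(.ofNat 0,.ofNat 0)⟩,
  ⟨(.ofNat 965171,.ofNat 498857),(.ofNat 895844,.ofNat 538240),(.ofNat 884635,.ofNat 459473),16,99,(.ofNat 1,.ofNat 0),23,(.ofNat 0,.ofNat 0),124,(.ofNat 0,.ofNat 0)⟩,
  ⟨(.ofNat 1005785,.ofNat 433218),(.ofNat 965171,.ofNat 498857),(.ofNat 884635,.ofNat 459473),16,118,(.ofNat 1,.ofNat 0),123,(.ofNat 0,.ofNat 0),125,(.ofNat 0,.ofNat 0)⟩,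
  ⟨(.ofNat 921038,.ofNat 340548),(.ofNat 1005785,.ofNat 433218),(.ofNat 884635,.ofNat 459473),16,106,(.ofNat 1,.ofNat 0),124,(.ofNat 0,.ofNat 0),126,(.ofNat 0,.ofNat 0)⟩,
  ⟨(.ofNat 884635,.ofNat 459473),(.ofNat 895277,.ofNat 393834),(.ofNat 921038,.ofNat 340548),16,24,(.ofNat 0,.ofNat 0),7,(.ofNat 0,.ofNat 0),125,(.ofNat 0,.ofNat 0)⟩,
  ⟨(.ofNat 853265,.negSucc 17827),(.ofNat 827632,.ofNat 31824),(.ofNat 763043,.ofNat 26256),17,101,(.ofNat 1,.ofNat 0),1,(.ofNat 0,.ofNat 0),134,(.ofNat 0,.ofNat 0)⟩,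
  ⟨(.ofNat 715922,.negSucc 211182),(.ofNat 813300,.negSucc 225295),(.ofNat 840034,.negSucc 169977),17,80,(.ofNat 0,.ofNat 0),32,(.ofNat 1,.ofNat 0),132,(.ofNat 0,.ofNat 0)⟩,
  ⟨(.ofNat 688112,.ofNat 26256),(.ofNat 616634,.ofNat 3887),(.ofNat 603462,.negSucc 53648),17,12,(.ofNat 0,.ofNat 0),54,(.ofNat 0,.ofNat 0),133,(.ofNat 0,.ofNat 0)⟩,
  ⟨(.ofNat 607210,.negSucc 68698),(.ofNat 596594,.negSucc 162659),(.ofNat 639731,.negSucc 184926),17,49,(.ofNat 0,.ofNat 0),91,(.ofNat 0,.ofNat 0),131,(.ofNat 0,.ofNat 0)⟩,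
  ⟨(.ofNat 607210,.negSucc 68698),(.ofNat 639731,.negSucc 184926),(.ofNat 715922,.negSucc 211182),17,130,(.ofNat 0,.ofNat 0),92,(.ofNat 0,.ofNat 0),132,(.ofNat 0,.ofNat 0)⟩,
  ⟨(.ofNat 607210,.negSucc 68698),(.ofNat 715922,.negSucc 211182),(.ofNat 840034,.negSucc 169977),17,131,(.ofNat 0,.ofNat 0),128,(.ofNat 0,.ofNat 0),135,(.ofNat 0,.ofNat 0)⟩,
  ⟨(.ofNat 763043,.ofNat 26256),(.ofNat 688112,.ofNat 26256),(.ofNat 603462,.negSucc 53648),17,3,(.ofNat 0,.ofNat 0),129,(.ofNat 0,.ofNat 0),134,(.ofNat 0,.ofNat 0)⟩,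
  ⟨(.ofNat 853265,.negSucc 17827),(.ofNat 763043,.ofNat 26256),(.ofNat 603462,.negSucc 53648),17,127,(.ofNat 0,.ofNat 0),133,(.ofNat 0,.ofNat 0),139,(.ofNat 0,.ofNat 0)⟩,
  ⟨(.ofNat 607210,.negSucc 68698),(.ofNat 840034,.negSucc 169977),(.ofNat 860917,.negSucc 119871),17,132,(.ofNat 0,.ofNat 0),45,(.ofNat 1,.ofNat 0),136,(.ofNat 0,.ofNat 0)⟩,
  ⟨(.ofNat 607210,.negSucc 68698),(.ofNat 860917,.negSucc 119871),(.ofNat 880620,.negSucc 60035),17,135,(.ofNat 0,.ofNat 0),26,(.ofNat 1,.ofNat 0),138,(.ofNat 0,.ofNat 0)⟩,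
  ⟨(.ofNat 880620,.negSucc 60035),(.ofNat 872173,.negSucc 39152),(.ofNat 853265,.negSucc 17827),17,121,(.ofNat 1,.ofNat 0),115,(.ofNat 1,.ofNat 0),138,(.ofNat 0,.ofNat 0)⟩,
  ⟨(.ofNat 607210,.negSucc 68698),(.ofNat 880620,.negSucc 60035),(.ofNat 853265,.negSucc 17827),17,136,(.ofNat 0,.ofNat 0),137,(.ofNat 0,.ofNat 0),139,(.ofNat 0,.ofNat 0)⟩,
  ⟨(.ofNat 603462,.negSucc 53648),(.ofNat 607210,.negSucc 68698),(.ofNat 853265,.negSucc 17827),17,66,(.ofNat 0,.ofNat 0),138,(.ofNat 0,.ofNat 0),134,(.ofNat 0,.ofNat 0)⟩,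
  ⟨(.negSucc 54293,.ofNat 721031),(.negSucc 111379,.ofNat 745067),(.negSucc 179207,.ofNat 682646),18,30,(.ofNat 0,.ofNat 1),82,(.negSucc 0,.ofNat 1),144,(.ofNat 0,.ofNat 0)⟩,
  ⟨(.ofNat 41008,.ofNat 609628),(.ofNat 45080,.ofNat 654404),(.ofNat 4221,.ofNat 692342),18,18,(.ofNat 0,.ofNat 0),28,(.ofNat 0,.ofNat 1),143,(.ofNat 0,.ofNat 0)⟩,
  ⟨(.negSucc 167934,.ofNat 455821),(.ofNat 11465,.ofNat 469184),(.ofNat 36897,.ofNat 551368),18,47,(.ofNat 0,.ofNat 0),2,(.ofNat 0,.ofNat 0),148,(.ofNat 0,.ofNat 0)⟩,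
  ⟨(.ofNat 41008,.ofNat 609628),(.ofNat 4221,.ofNat 692342),(.negSucc 54293,.ofNat 721031),18,141,(.ofNat 0,.ofNat 0),44,(.ofNat 0,.ofNat 1),144,(.ofNat 0,.ofNat 0)⟩,
  ⟨(.ofNat 41008,.ofNat 609628),(.negSucc 54293,.ofNat 721031),(.negSucc 179207,.ofNat 682646),18,143,(.ofNat 0,.ofNat 0),140,(.ofNat 0,.ofNat 0),145,(.ofNat 0,.ofNat 0)⟩,
  ⟨(.ofNat 41008,.ofNat 609628),(.negSucc 179207,.ofNat 682646),(.negSucc 213524,.ofNat 617007),18,144,(.ofNat 0,.ofNat 0),84,(.negSucc 0,.ofNat 1),146,(.ofNat 0,.ofNat 0)⟩,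
  ⟨(.ofNat 41008,.ofNat 609628),(.negSucc 213524,.ofNat 617007),(.negSucc 234581,.ofNat 540423),18,145,(.ofNat 0,.ofNat 0),79,(.negSucc 0,.ofNat 1),147,(.ofNat 0,.ofNat 0)⟩,
  ⟨(.ofNat 36897,.ofNat 551368),(.ofNat 41008,.ofNat 609628),(.negSucc 234581,.ofNat 540423),18,19,(.ofNat 0,.ofNat 0),146,(.ofNat 0,.ofNat 0),148,(.ofNat 0,.ofNat 0)⟩,
  ⟨(.negSucc 167934,.ofNat 455821),(.ofNat 36897,.ofNat 551368),(.negSucc 234581,.ofNat 540423),18,142,(.ofNat 0,.ofNat 0),147,(.ofNat 0,.ofNat 0),149,(.ofNat 0,.ofNat 0)⟩,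
  ⟨(.negSucc 167934,.ofNat 455821),(.negSucc 234581,.ofNat 540423),(.negSucc 215903,.ofNat 503990),18,148,(.ofNat 0,.ofNat 0),120,(.ofNat 0,.ofNat 0),152,(.ofNat 0,.ofNat 0)⟩,
  ⟨(.negSucc 212814,.ofNat 498845),(.negSucc 180567,.ofNat 453692),(.negSucc 173831,.ofNat 454716),18,103,(.ofNat 0,.ofNat 0),67,(.ofNat 0,.ofNat 0),151,(.ofNat 0,.ofNat 0)⟩,
  ⟨(.negSucc 212814,.ofNat 498845),(.negSucc 173831,.ofNat 454716),(.negSucc 167934,.ofNat 455821),18,150,(.ofNat 0,.ofNat 0),68,(.ofNat 0,.ofNat 0),152,(.ofNat 0,.ofNat 0)⟩,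
  ⟨(.negSucc 215903,.ofNat 503990),(.negSucc 212814,.ofNat 498845),(.negSucc 167934,.ofNat 455821),18,122,(.ofNat 0,.ofNat 0),151,(.ofNat 0,.ofNat 0),149,(.ofNat 0,.ofNat 0)⟩,
  ⟨(.negSucc 418450,.negSucc 237609),(.negSucc 324559,.negSucc 274773),(.negSucc 276669,.negSucc 139432),19,25,(.ofNat 0,.ofNat 0),48,(.ofNat 0,.ofNat 0),155,(.ofNat 0,.ofNat 0)⟩,
  ⟨(.negSucc 502129,.negSucc 53648),(.negSucc 555774,.negSucc 150766),(.negSucc 503798,.negSucc 199282),19,98,(.ofNat 0,.ofNat 0),33,(.ofNat 0,.ofNat 0),156,(.ofNat 0,.ofNat 0)⟩,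
  ⟨(.negSucc 418450,.negSucc 237609),(.negSucc 276669,.negSucc 139432),(.negSucc 290924,.negSucc 10275),19,153,(.ofNat 0,.ofNat 0),60,(.ofNat 0,.ofNat 0),157,(.ofNat 0,.ofNat 0)⟩,
  ⟨(.negSucc 502129,.negSucc 53648),(.negSucc 503798,.negSucc 199282),(.negSucc 418450,.negSucc 237609),19,154,(.ofNat 0,.ofNat 0),42,(.ofNat 0,.ofNat 0),157,(.ofNat 0,.ofNat 0)⟩,
  ⟨(.negSucc 502129,.negSucc 53648),(.negSucc 418450,.negSucc 237609),(.negSucc 290924,.negSucc 10275),19,156,(.ofNat 0,.ofNat 0),155,(.ofNat 0,.ofNat 0),158,(.ofNat 0,.ofNat 0)⟩,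
  ⟨(.negSucc 416219,.ofNat 0),(.negSucc 502129,.negSucc 53648),(.negSucc 290924,.negSucc 10275),19,112,(.ofNat 0,.ofNat 0),157,(.ofNat 0,.ofNat 0),159,(.ofNat 0,.ofNat 0)⟩,
  ⟨(.negSucc 290924,.negSucc 10275),(.negSucc 298219,.ofNat 6928),(.negSucc 416219,.ofNat 0),19,62,(.ofNat 0,.ofNat 0),100,(.ofNat 0,.ofNat 0),158,(.ofNat 0,.ofNat 0)⟩]

def E1G : List Grp := [
  ⟨0,[(.ofNat 36897,.ofNat 551368),(.ofNat 11465,.ofNat 469184),(.ofNat 111065,.ofNat 366681),(.ofNat 415558,.ofNat 161565)]⟩,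
  ⟨0,[(.ofNat 763043,.ofNat 26256),(.ofNat 827632,.ofNat 31824),(.ofNat 862911,.ofNat 131278),(.ofNat 688112,.ofNat 26256),(.ofNat 887846,.ofNat 236301),(.ofNat 921038,.ofNat 340548),(.ofNat 895277,.ofNat 393834),(.ofNat 415558,.ofNat 161565),(.ofNat 616634,.ofNat 3887),(.ofNat 36897,.ofNat 551368)]⟩,
  ⟨0,[(.ofNat 949724,.ofNat 719762),(.ofNat 966234,.ofNat 766518),(.ofNat 922312,.ofNat 815794)]⟩,
  ⟨0,[(.ofNat 922312,.ofNat 815794),(.ofNat 908071,.ofNat 873930),(.ofNat 876812,.ofNat 898307),(.ofNat 778914,.ofNat 945202),(.ofNat 926516,.ofNat 637075),(.ofNat 949724,.ofNat 719762),(.ofNat 724573,.ofNat 984586),(.ofNat 629226,.ofNat 1003804),(.ofNat 432942,.ofNat 903711),(.ofNat 241772,.ofNat 752439),(.ofNat 895844,.ofNat 538240),(.ofNat 45080,.ofNat 654404),(.ofNat 41008,.ofNat 609628),(.ofNat 36897,.ofNat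 551368),(.ofNat 895277,.ofNat 393834),(.ofNat 884635,.ofNat 459473)]⟩,
  ⟨3,[(.negSucc 285331,.negSucc 355588),(.negSucc 324559,.negSucc 274773),(.negSucc 418450,.negSucc 237609),(.negSucc 872819,.negSucc 989155),(.negSucc 831960,.negSucc 1027093),(.negSucc 635268,.negSucc 929058),(.negSucc 444098,.negSucc 777786),(.negSucc 154621,.negSucc 535438),(.negSucc 145481,.negSucc 518419),(.negSucc 231808,.negSucc 429619),(.negSucc 200329,.negSucc 611455),(.negSucc 247814,.negSucc 677693)]⟩,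
  ⟨3,[(.negSucc 1028305,.negSucc 697831),(.negSucc 988420,.negSucc 936430),(.negSucc 931334,.negSucc 960466),(.negSucc 1033282,.negSucc 441693)]⟩,
  ⟨3,[(.negSucc 831828,.negSucc 53648),(.negSucc 1034232,.negSucc 60035),(.negSucc 1053935,.negSucc 119871),(.negSucc 694432,.negSucc 106159),(.negSucc 1074818,.negSucc 169977),(.negSucc 1101552,.negSucc 225295),(.negSucc 1033282,.negSucc 441693),(.negSucc 503798,.negSucc 199282),(.negSucc 555774,.negSucc 150766),(.negSucc 872819,.negSucc 989155),(.negSucc 418450,.negSucc 237609),(.negSucc 931334,.negSucc 960466)]⟩,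
  ⟨2,[(.ofNat 111065,.ofNat 366681),(.ofNat 11465,.ofNat 469184),(.negSucc 167934,.ofNat 455821)]⟩,
  ⟨2,[(.negSucc 276669,.negSucc 139432),(.negSucc 324559,.negSucc 274773),(.negSucc 285331,.negSucc 355588),(.ofNat 435083,.negSucc 293100),(.ofNat 596594,.negSucc 162659),(.ofNat 607210,.negSucc 68698),(.ofNat 201125,.negSucc 400801),(.negSucc 231808,.negSucc 429619),(.negSucc 145481,.negSucc 518419),(.negSucc 100136,.negSucc 516149),(.negSucc 41391,.negSucc 513122),(.ofNat 14008,.negSucc 527191)]⟩,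
  ⟨2,[(.ofNat 603462,.negSucc 53648),(.ofNat 616634,.ofNat 3887),(.ofNat 415558,.ofNat 161565),(.ofNat 111065,.ofNat 366681),(.negSucc 167934,.ofNat 455821),(.negSucc 290924,.negSucc 10275),(.negSucc 276669,.negSucc 139432),(.ofNat 607210,.negSucc 68698),(.negSucc 252062,.ofNat 170662),(.negSucc 298219,.ofNat 6928),(.negSucc 221509,.ofNat 315066),(.negSucc 180567,.ofNat 453692),(.negSucc 173831,.ofNat 454716)]⟩,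
  ⟨5,[(.negSucc 98126,.negSucc 736295),(.negSucc 228,.negSucc 783190),(.ofNat 4259,.negSucc 683783),(.negSucc 200329,.negSucc 611455),(.negSucc 247814,.negSucc 677693),(.negSucc 152467,.negSucc 696911),(.negSucc 11393,.negSucc 621464),(.ofNat 14008,.negSucc 527191),(.negSucc 41391,.negSucc 513122),(.negSucc 154621,.negSucc 535438),(.negSucc 100136,.negSucc 516149),(.negSucc 145481,.negSucc 518419)]⟩,
  ⟨4,[(.ofNat 881570,.negSucc 441693),(.ofNat 813300,.negSucc 225295),(.ofNat 715922,.negSucc 211182),(.ofNat 886547,.negSucc 697831)]⟩,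
  ⟨4,[(.ofNat 576383,.negSucc 1051362),(.ofNat 803230,.negSucc 1141074),(.ofNat 824287,.negSucc 1064490),(.ofNat 858604,.negSucc 998851),(.ofNat 926432,.negSucc 936430),(.ofNat 886547,.negSucc 697831),(.ofNat 715922,.negSucc 211182),(.ofNat 347810,.negSucc 972595)]⟩,
  ⟨4,[(.ofNat 4259,.negSucc 683783),(.negSucc 228,.negSucc 783190),(.ofNat 31030,.negSucc 807567),(.ofNat 89193,.negSucc 914979),(.ofNat 347810,.negSucc 972595),(.ofNat 715922,.negSucc 211182),(.ofNat 45271,.negSucc 865703),(.ofNat 201125,.negSucc 400801),(.ofNat 14008,.negSucc 527191),(.negSucc 11393,.negSucc 621464),(.ofNat 639731,.negSucc 184926),(.ofNat 596594,.negSucc 162659),(.ofNat 435083,.negSucc 293100)]⟩,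
  ⟨1,[(.negSucc 694432,.negSucc 106159),(.negSucc 555774,.negSucc 150766),(.negSucc 502129,.negSucc 53648)]⟩,
  ⟨1,[(.negSucc 988336,.ofNat 637075),(.negSucc 1019008,.ofNat 538240),(.negSucc 949681,.ofNat 498857),(.negSucc 416219,.ofNat 0),(.negSucc 298219,.ofNat 6928),(.negSucc 252062,.ofNat 170662),(.negSucc 1051941,.ofNat 131278),(.negSucc 1087220,.ofNat 31824),(.negSucc 1061587,.negSucc 17827),(.negSucc 831828,.negSucc 53648),(.negSucc 694432,.negSucc 106159),(.negSucc 502129,.negSucc 53648),(.negSucc 221509,.ofNat 315066),(.negSucc 180567,.ofNat 453692),(.negSucc 212814,.ofNat 498845),(.negSucc 965128,.ofNat 719762),(.negSucc 909067,.ofNat 433218),(.negSucc 993814,.ofNat 340548),(.negSucc 1027006,.ofNat 236301),(.negSucc 690001,.ofNat 708902),(.negSucc 948618,.ofNat 766518),(.negSucc 461428,.ofNat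 630135),(.negSucc 234581,.ofNat 540423),(.negSucc 1034232,.negSucc 60035),(.negSucc 1042679,.negSucc 39152),(.negSucc 215903,.ofNat 503990)]⟩,
  ⟨5,[(.ofNat 965171,.ofNat 498857),(.ofNat 895844,.ofNat 538240),(.ofNat 884635,.ofNat 459473),(.ofNat 1005785,.ofNat 433218),(.ofNat 921038,.ofNat 340548),(.ofNat 895277,.ofNat 393834)]⟩,
  ⟨5,[(.ofNat 853265,.negSucc 17827),(.ofNat 827632,.ofNat 31824),(.ofNat 763043,.ofNat 26256),(.ofNat 715922,.negSucc 211182),(.ofNat 813300,.negSucc 225295),(.ofNat 840034,.negSucc 169977),(.ofNat 688112,.ofNat 26256),(.ofNat 616634,.ofNat 3887),(.ofNat 603462,.negSucc 53648),(.ofNat 607210,.negSucc 68698),(.ofNat 596594,.negSucc 162659),(.ofNat 639731,.negSucc 184926),(.ofNat 860917,.negSucc 119871),(.ofNat 880620,.negSucc 60035),(.ofNat 872173,.negSucc 39152)]⟩,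
  ⟨5,[(.negSucc 54293,.ofNat 721031),(.negSucc 111379,.ofNat 745067),(.negSucc 179207,.ofNat 682646),(.ofNat 41008,.ofNat 609628),(.ofNat 45080,.ofNat 654404),(.ofNat 4221,.ofNat 692342),(.negSucc 167934,.ofNat 455821),(.ofNat 11465,.ofNat 469184),(.ofNat 36897,.ofNat 551368),(.negSucc 213524,.ofNat 617007),(.negSucc 234581,.ofNat 540423),(.negSucc 215903,.ofNat 503990),(.negSucc 212814,.ofNat 498845),(.negSucc 180567,.ofNat 453692),(.negSucc 173831,.ofNat 454716)]⟩,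
  ⟨5,[(.negSucc 418450,.negSucc 237609),(.negSucc 324559,.negSucc 274773),(.negSucc 276669,.negSucc 139432),(.negSucc 502129,.negSucc 53648),(.negSucc 555774,.negSucc 150766),(.negSucc 503798,.negSucc 199282),(.negSucc 290924,.negSucc 10275),(.negSucc 416219,.ofNat 0),(.negSucc 298219,.ofNat 6928)]⟩]

def E1C : List (ℤ × ℤ) := [
  (.negSucc 0,.ofNat 0),(.negSucc 0,.ofNat 0),(.negSucc 0,.ofNat 0),(.negSucc 0,.negSucc 0),(.negSucc 0,.ofNat 0),(.negSucc 0,.ofNat 1),(.ofNat 0,.negSucc 0),(.ofNat 0,.ofNat 0),(.ofNat 0,.ofNat 1),(.ofNat 1,.negSucc 0),(.ofNat 1,.ofNat 0),(.ofNat 1,.ofNat 1),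
  (.ofNat 1,.ofNat 0),(.ofNat 1,.ofNat 0),(.ofNat 1,.ofNat 0),(.negSucc 0,.ofNat 0),(.negSucc 0,.ofNat 0),(.negSucc 0,.ofNat 1),(.negSucc 0,.negSucc 0),(.negSucc 0,.ofNat 0),(.ofNat 0,.ofNat 1),(.ofNat 0,.negSucc 0),(.ofNat 0,.ofNat 0),(.ofNat 1,.ofNat 1),
  (.ofNat 1,.negSucc 0),(.ofNat 1,.ofNat 0),(.ofNat 1,.ofNat 0),(.ofNat 1,.ofNat 0),(.ofNat 1,.ofNat 0),(.ofNat 1,.ofNat 0),(.negSucc 0,.ofNat 0),(.negSucc 0,.ofNat 0),(.negSucc 0,.ofNat 1),(.negSucc 0,.negSucc 0),(.negSucc 2,.ofNat 1),(.ofNat 0,.ofNat 1),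
  (.ofNat 0,.negSucc 0),(.ofNat 0,.ofNat 0),(.ofNat 1,.ofNat 1),(.ofNat 1,.negSucc 0),(.ofNat 1,.ofNat 0),(.ofNat 1,.ofNat 0),(.ofNat 1,.ofNat 0),(.ofNat 1,.ofNat 0),(.ofNat 1,.ofNat 0),(.negSucc 0,.ofNat 0),(.negSucc 0,.ofNat 0),(.negSucc 0,.ofNat 1),
  (.negSucc 0,.ofNat 0),(.negSucc 38,.ofNat 7),(.ofNat 0,.ofNat 1),(.negSucc 19,.negSucc 34),(.ofNat 0,.ofNat 0),(.ofNat 1,.ofNat 1),(.ofNat 1,.negSucc 0),(.ofNat 1,.ofNat 0),(.ofNat 1,.ofNat 1),(.ofNat 1,.ofNat 0),(.ofNat 1,.ofNat 0),(.ofNat 1,.ofNat 0),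
  (.negSucc 0,.ofNat 0),(.negSucc 0,.ofNat 0),(.negSucc 0,.ofNat 0),(.negSucc 0,.ofNat 0),(.negSucc 0,.ofNat 0),(.negSucc 0,.ofNat 1),(.negSucc 0,.negSucc 0),(.ofNat 0,.ofNat 0),(.ofNat 0,.ofNat 1),(.ofNat 0,.negSucc 0),(.ofNat 1,.ofNat 0),(.ofNat 1,.ofNat 1),
  (.ofNat 1,.negSucc 0),(.ofNat 1,.ofNat 0),(.ofNat 1,.ofNat 0),(.negSucc 0,.ofNat 0),(.negSucc 0,.ofNat 0),(.negSucc 0,.ofNat 0),(.negSucc 0,.negSucc 0),(.negSucc 0,.ofNat 0),(.negSucc 1,.ofNat 3),(.ofNat 0,.negSucc 0),(.ofNat 0,.ofNat 0),(.ofNat 0,.ofNat 1),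
  (.ofNat 2,.negSucc 2),(.ofNat 1,.ofNat 0),(.ofNat 1,.ofNat 1),(.ofNat 1,.ofNat 0),(.ofNat 1,.ofNat 0),(.ofNat 1,.ofNat 0),(.negSucc 0,.ofNat 0),(.negSucc 0,.ofNat 0),(.negSucc 0,.ofNat 1),(.negSucc 0,.ofNat 0),(.negSucc 2,.ofNat 1),(.ofNat 0,.ofNat 1),
  (.negSucc 0,.negSucc 2),(.ofNat 0,.ofNat 0),(.ofNat 0,.ofNat 1),(.ofNat 1,.negSucc 0),(.ofNat 1,.ofNat 0),(.ofNat 1,.ofNat 1),(.ofNat 1,.ofNat 0),(.ofNat 1,.ofNat 0),(.ofNat 1,.ofNat 0),(.negSucc 0,.ofNat 0),(.negSucc 0,.ofNat 0),(.negSucc 0,.ofNat 1),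
  (.negSucc 0,.ofNat 0),(.negSucc 0,.ofNat 0),(.ofNat 0,.ofNat 1),(.negSucc 1844,.negSucc 2365),(.ofNat 0,.ofNat 0),(.ofNat 0,.ofNat 1),(.ofNat 6,.negSucc 7),(.ofNat 1,.ofNat 0),(.ofNat 1,.ofNat 1),(.ofNat 1,.ofNat 0),(.ofNat 1,.ofNat 0),(.ofNat 1,.ofNat 0),
  (.negSucc 0,.ofNat 0),(.negSucc 0,.ofNat 0),(.negSucc 0,.ofNat 0),(.negSucc 0,.ofNat 0),(.negSucc 0,.ofNat 0),(.negSucc 0,.ofNat 1),(.negSucc 0,.negSucc 0),(.ofNat 0,.ofNat 0),(.ofNat 0,.ofNat 1),(.ofNat 0,.negSucc 0),(.ofNat 3,.negSucc 0),(.ofNat 1,.ofNat 1),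
  (.ofNat 1,.negSucc 0),(.ofNat 1,.ofNat 0),(.ofNat 1,.ofNat 0),(.negSucc 0,.ofNat 0),(.negSucc 0,.ofNat 0),(.negSucc 0,.ofNat 0),(.negSucc 0,.negSucc 0),(.negSucc 0,.ofNat 0),(.negSucc 0,.ofNat 1),(.ofNat 0,.negSucc 0),(.ofNat 0,.ofNat 0),(.ofNat 1,.ofNat 3),
  (.ofNat 0,.negSucc 0),(.ofNat 3,.negSucc 0),(.ofNat 1,.ofNat 0),(.ofNat 1,.negSucc 0),(.ofNat 1,.ofNat 0),(.ofNat 1,.ofNat 0),(.negSucc 0,.ofNat 0),(.negSucc 0,.ofNat 0),(.negSucc 0,.ofNat 0),(.negSucc 0,.negSucc 0),(.negSucc 0,.ofNat 0),(.negSucc 0,.ofNat 1),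
  (.ofNat 0,.negSucc 0),(.ofNat 0,.ofNat 0),(.ofNat 0,.ofNat 1),(.ofNat 1,.negSucc 0),(.ofNat 1,.ofNat 0),(.ofNat 1,.ofNat 1),(.ofNat 1,.ofNat 0),(.ofNat 1,.ofNat 0),(.ofNat 1,.ofNat 0),(.negSucc 0,.ofNat 0),(.negSucc 0,.ofNat 0),(.negSucc 0,.ofNat 0),
  (.negSucc 0,.ofNat 0),(.negSucc 0,.ofNat 0),(.negSucc 0,.ofNat 1),(.negSucc 0,.negSucc 0),(.ofNat 0,.ofNat 0),(.ofNat 0,.ofNat 1),(.ofNat 0,.negSucc 0),(.ofNat 298,.negSucc 33),(.ofNat 1,.ofNat 1),(.ofNat 1,.negSucc 0),(.ofNat 1,.ofNat 0),(.ofNat 1,.ofNat 0),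
  (.negSucc 0,.ofNat 0),(.negSucc 0,.ofNat 0),(.negSucc 0,.ofNat 0),(.negSucc 0,.negSucc 0),(.negSucc 0,.ofNat 0),(.negSucc 0,.ofNat 1),(.negSucc 0,.negSucc 0),(.ofNat 0,.ofNat 0),(.ofNat 20,.ofNat 35),(.ofNat 0,.negSucc 0),(.ofNat 39,.negSucc 6),(.ofNat 1,.ofNat 0),
  (.ofNat 1,.negSucc 0),(.ofNat 1,.ofNat 0),(.ofNat 1,.ofNat 0),(.negSucc 0,.ofNat 0),(.negSucc 0,.ofNat 0),(.negSucc 0,.ofNat 0),(.negSucc 0,.negSucc 0),(.negSucc 0,.ofNat 0),(.negSucc 5,.ofNat 8),(.ofNat 0,.negSucc 0),(.ofNat 0,.ofNat 0),(.ofNat 1845,.ofNat 2366),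
  (.ofNat 0,.negSucc 0),(.ofNat 1,.ofNat 0),(.ofNat 1,.ofNat 0),(.ofNat 1,.negSucc 0),(.ofNat 1,.ofNat 0),(.ofNat 1,.ofNat 0),(.negSucc 0,.ofNat 0),(.negSucc 0,.ofNat 0),(.negSucc 0,.ofNat 1),(.negSucc 0,.negSucc 0),(.negSucc 297,.ofNat 34),(.ofNat 0,.ofNat 1),
  (.ofNat 0,.negSucc 0),(.ofNat 0,.ofNat 0),(.ofNat 1,.ofNat 1),(.ofNat 1,.negSucc 0),(.ofNat 1,.ofNat 0),(.ofNat 1,.ofNat 0),(.ofNat 1,.ofNat 0),(.ofNat 1,.ofNat 0),(.ofNat 1,.ofNat 0),(.negSucc 0,.ofNat 0),(.negSucc 0,.ofNat 0),(.negSucc 0,.ofNat 0),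
  (.negSucc 0,.negSucc 0),(.negSucc 0,.ofNat 0),(.negSucc 0,.ofNat 1),(.ofNat 0,.negSucc 0),(.ofNat 0,.ofNat 0),(.ofNat 0,.ofNat 1),(.ofNat 1,.negSucc 0),(.ofNat 1,.ofNat 0),(.ofNat 1,.ofNat 1),(.ofNat 1,.ofNat 0),(.ofNat 1,.ofNat 0),(.ofNat 1,.ofNat 0),
  (.negSucc 0,.ofNat 0),(.negSucc 0,.ofNat 0),(.negSucc 0,.ofNat 0),(.negSucc 0,.negSucc 0),(.negSucc 0,.ofNat 0),(.negSucc 0,.ofNat 1),(.negSucc 110,.negSucc 278),(.ofNat 0,.ofNat 0),(.ofNat 111,.ofNat 279),(.ofNat 1,.negSucc 0),(.ofNat 1,.ofNat 0),(.ofNat 1,.ofNat 1),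
  (.ofNat 1,.ofNat 0),(.ofNat 1,.ofNat 0),(.ofNat 1,.ofNat 0),(.negSucc 0,.ofNat 0),(.negSucc 0,.ofNat 0),(.negSucc 0,.ofNat 0),(.negSucc 0,.ofNat 0),(.negSucc 0,.ofNat 0),(.negSucc 0,.ofNat 1),(.negSucc 0,.negSucc 0),(.ofNat 0,.ofNat 0),(.ofNat 1,.ofNat 3),
  (.ofNat 0,.negSucc 0),(.ofNat 1,.ofNat 0),(.ofNat 1,.ofNat 1),(.ofNat 1,.negSucc 0),(.ofNat 1,.ofNat 0),(.ofNat 1,.ofNat 0),(.negSucc 0,.ofNat 0),(.negSucc 0,.ofNat 0),(.negSucc 0,.ofNat 1),(.negSucc 0,.ofNat 0),(.negSucc 0,.ofNat 0),(.negSucc 0,.ofNat 1),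
  (.negSucc 20,.negSucc 33),(.ofNat 0,.ofNat 0),(.ofNat 1,.ofNat 3),(.ofNat 22,.negSucc 33),(.ofNat 39,.ofNat 9),(.ofNat 1,.ofNat 1),(.ofNat 1,.ofNat 0),(.ofNat 1,.ofNat 0),(.ofNat 1,.ofNat 0),(.negSucc 0,.ofNat 0),(.negSucc 0,.ofNat 0),(.negSucc 0,.ofNat 1),
  (.negSucc 0,.negSucc 0),(.negSucc 0,.ofNat 0),(.ofNat 0,.ofNat 1),(.negSucc 0,.negSucc 2),(.ofNat 0,.ofNat 0),(.ofNat 1,.ofNat 1),(.ofNat 1,.negSucc 0),(.ofNat 1,.ofNat 0),(.ofNat 1,.ofNat 0),(.ofNat 1,.ofNat 0),(.ofNat 1,.ofNat 0),(.ofNat 1,.ofNat 0),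
  (.negSucc 0,.ofNat 0),(.negSucc 0,.ofNat 0),(.negSucc 0,.ofNat 0),(.negSucc 0,.negSucc 0),(.negSucc 0,.ofNat 0),(.negSucc 0,.ofNat 1),(.ofNat 0,.negSucc 0),(.ofNat 0,.ofNat 0),(.ofNat 0,.ofNat 1),(.ofNat 1,.negSucc 0),(.ofNat 1,.ofNat 0),(.ofNat 1,.ofNat 1),
  (.ofNat 1,.ofNat 0),(.ofNat 1,.ofNat 0),(.ofNat 1,.ofNat 0),(.negSucc 0,.ofNat 0),(.negSucc 0,.ofNat 0),(.negSucc 0,.ofNat 1),(.negSucc 0,.ofNat 0),(.negSucc 0,.ofNat 0),(.ofNat 0,.ofNat 1),(.negSucc 132,.negSucc 268),(.ofNat 0,.ofNat 0),(.ofNat 0,.ofNat 1),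
  (.ofNat 1,.negSucc 0),(.ofNat 1,.ofNat 0),(.ofNat 1,.ofNat 1),(.ofNat 1,.ofNat 0),(.ofNat 1,.ofNat 0),(.ofNat 1,.ofNat 0),(.negSucc 0,.ofNat 0),(.negSucc 0,.ofNat 0),(.negSucc 0,.ofNat 0),(.negSucc 0,.negSucc 0),(.negSucc 38,.negSucc 8),(.negSucc 21,.ofNat 34),
  (.negSucc 0,.negSucc 2),(.ofNat 0,.ofNat 0),(.ofNat 21,.ofNat 34),(.ofNat 1,.negSucc 0),(.ofNat 1,.ofNat 0),(.ofNat 1,.ofNat 0),(.ofNat 1,.negSucc 0),(.ofNat 1,.ofNat 0),(.ofNat 1,.ofNat 0),(.negSucc 0,.ofNat 0),(.negSucc 0,.ofNat 0),(.negSucc 0,.ofNat 0),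
  (.negSucc 0,.negSucc 0),(.negSucc 0,.ofNat 0),(.negSucc 0,.ofNat 1),(.ofNat 0,.negSucc 0),(.ofNat 0,.ofNat 0),(.ofNat 133,.ofNat 269),(.ofNat 0,.negSucc 0),(.ofNat 1,.ofNat 0),(.ofNat 1,.ofNat 0),(.ofNat 1,.negSucc 0),(.ofNat 1,.ofNat 0),(.ofNat 1,.ofNat 0),
  (.negSucc 0,.ofNat 0),(.negSucc 0,.ofNat 0),(.negSucc 0,.ofNat 0),(.negSucc 0,.negSucc 0),(.negSucc 0,.ofNat 0),(.negSucc 0,.ofNat 1),(.negSucc 4,.negSucc 8),(.ofNat 0,.ofNat 0),(.ofNat 5,.ofNat 9),(.ofNat 1,.negSucc 0),(.ofNat 1,.ofNat 0),(.ofNat 1,.ofNat 1),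
  (.ofNat 1,.ofNat 0),(.ofNat 1,.ofNat 0),(.ofNat 1,.ofNat 0),(.negSucc 0,.ofNat 0),(.negSucc 0,.ofNat 0),(.negSucc 0,.ofNat 0),(.negSucc 0,.negSucc 0),(.negSucc 0,.ofNat 0),(.negSucc 0,.ofNat 1),(.ofNat 0,.negSucc 0),(.ofNat 0,.ofNat 0),(.ofNat 0,.ofNat 1),
  (.ofNat 1,.negSucc 0),(.ofNat 1,.ofNat 0),(.ofNat 1,.ofNat 1),(.ofNat 1,.ofNat 0),(.ofNat 1,.ofNat 0),(.ofNat 1,.ofNat 0),(.negSucc 0,.ofNat 0),(.negSucc 0,.ofNat 0),(.negSucc 0,.ofNat 0),(.negSucc 0,.negSucc 0),(.negSucc 0,.ofNat 0),(.negSucc 18,.ofNat 35),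
  (.ofNat 0,.negSucc 0),(.ofNat 0,.ofNat 0),(.ofNat 21511,.ofNat 20912),(.ofNat 0,.negSucc 0),(.ofNat 1,.ofNat 0),(.ofNat 1,.ofNat 0),(.ofNat 1,.negSucc 0),(.ofNat 1,.ofNat 0),(.ofNat 1,.ofNat 0),(.negSucc 0,.ofNat 0),(.negSucc 0,.ofNat 0),(.negSucc 0,.ofNat 0),
  (.negSucc 0,.negSucc 0),(.negSucc 0,.ofNat 0),(.negSucc 0,.ofNat 1),(.ofNat 0,.negSucc 0),(.ofNat 0,.ofNat 0),(.ofNat 1,.ofNat 1),(.ofNat 1,.negSucc 0),(.ofNat 1,.ofNat 0),(.ofNat 1,.ofNat 0),(.ofNat 1,.negSucc 0),(.ofNat 1,.ofNat 0),(.ofNat 1,.ofNat 0),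
  (.negSucc 0,.ofNat 0),(.negSucc 0,.ofNat 0),(.negSucc 0,.ofNat 1),(.negSucc 0,.ofNat 0),(.negSucc 0,.ofNat 0),(.ofNat 0,.ofNat 1),(.negSucc 21510,.negSucc 20911),(.ofNat 0,.ofNat 0),(.ofNat 0,.ofNat 1),(.ofNat 19,.negSucc 34),(.ofNat 1,.ofNat 0),(.ofNat 1,.ofNat 1),
  (.ofNat 1,.ofNat 0),(.ofNat 1,.ofNat 0),(.ofNat 1,.ofNat 0),(.negSucc 0,.ofNat 0),(.negSucc 0,.ofNat 0),(.negSucc 0,.ofNat 0),(.negSucc 0,.negSucc 0),(.negSucc 297,.ofNat 34),(.negSucc 0,.ofNat 1),(.ofNat 0,.negSucc 0),(.ofNat 0,.ofNat 0),(.ofNat 0,.ofNat 1),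
  (.ofNat 1,.negSucc 0),(.ofNat 298,.negSucc 33),(.ofNat 1,.ofNat 1),(.ofNat 1,.ofNat 0),(.ofNat 1,.ofNat 0),(.ofNat 1,.ofNat 0),(.negSucc 0,.ofNat 0),(.negSucc 0,.ofNat 0),(.negSucc 0,.ofNat 1),(.negSucc 0,.ofNat 0),(.negSucc 9,.ofNat 2),(.ofNat 0,.ofNat 1),
  (.negSucc 22,.negSucc 32),(.ofNat 0,.ofNat 0),(.ofNat 0,.ofNat 1),(.ofNat 19,.negSucc 34),(.ofNat 1,.ofNat 0),(.ofNat 1,.ofNat 1),(.ofNat 1,.ofNat 0),(.ofNat 1,.ofNat 0),(.ofNat 1,.ofNat 0),(.negSucc 0,.ofNat 0),(.negSucc 0,.ofNat 0),(.negSucc 0,.ofNat 1),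
  (.negSucc 0,.ofNat 0),(.negSucc 0,.ofNat 0),(.negSucc 0,.ofNat 1),(.negSucc 0,.negSucc 0),(.ofNat 0,.ofNat 0),(.ofNat 0,.ofNat 1),(.ofNat 1,.negSucc 0),(.ofNat 1,.ofNat 0),(.ofNat 1,.ofNat 1),(.ofNat 1,.ofNat 0),(.ofNat 1,.ofNat 0),(.ofNat 1,.ofNat 0),
  (.negSucc 0,.ofNat 0),(.negSucc 0,.ofNat 0),(.negSucc 0,.ofNat 0),(.negSucc 0,.negSucc 0),(.negSucc 0,.ofNat 0),(.negSucc 18,.ofNat 35),(.ofNat 0,.negSucc 0),(.ofNat 0,.ofNat 0),(.ofNat 23,.ofNat 33),(.ofNat 0,.negSucc 0),(.ofNat 10,.negSucc 1),(.ofNat 1,.ofNat 0),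
  (.ofNat 1,.negSucc 0),(.ofNat 1,.ofNat 0),(.ofNat 1,.ofNat 0),(.negSucc 0,.ofNat 0),(.negSucc 0,.ofNat 0),(.negSucc 0,.ofNat 0),(.negSucc 0,.negSucc 0),(.negSucc 299,.negSucc 0),(.negSucc 1,.ofNat 3),(.ofNat 0,.negSucc 0),(.ofNat 0,.ofNat 0),(.ofNat 0,.ofNat 1),
  (.ofNat 2,.negSucc 2),(.ofNat 300,.ofNat 1),(.ofNat 1,.ofNat 1),(.ofNat 1,.ofNat 0),(.ofNat 1,.ofNat 0),(.ofNat 1,.ofNat 0),(.negSucc 0,.ofNat 0),(.negSucc 0,.ofNat 0),(.negSucc 0,.ofNat 0),(.negSucc 0,.negSucc 0),(.negSucc 0,.ofNat 0),(.negSucc 0,.ofNat 1),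
  (.ofNat 0,.negSucc 0),(.ofNat 0,.ofNat 0),(.ofNat 0,.ofNat 1),(.ofNat 1,.negSucc 0),(.ofNat 1,.ofNat 0),(.ofNat 1,.ofNat 1),(.ofNat 1,.ofNat 0),(.ofNat 1,.ofNat 0),(.ofNat 1,.ofNat 0),(.negSucc 0,.ofNat 0),(.negSucc 0,.ofNat 0),(.negSucc 0,.ofNat 1),
  (.negSucc 0,.ofNat 0),(.negSucc 0,.ofNat 1),(.ofNat 0,.ofNat 1),(.ofNat 0,.negSucc 0),(.ofNat 1,.ofNat 1),(.ofNat 1,.ofNat 1),(.ofNat 1,.ofNat 0),(.ofNat 1,.ofNat 0),(.ofNat 1,.ofNat 1),(.ofNat 1,.ofNat 0),(.ofNat 1,.ofNat 0),(.ofNat 1,.ofNat 0),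
  (.negSucc 0,.ofNat 0),(.negSucc 0,.ofNat 0),(.negSucc 0,.ofNat 1),(.negSucc 0,.negSucc 0),(.negSucc 0,.ofNat 0),(.ofNat 0,.ofNat 1),(.ofNat 0,.negSucc 0),(.ofNat 1,.ofNat 1),(.ofNat 1,.ofNat 1),(.ofNat 1,.negSucc 0),(.ofNat 1,.ofNat 0),(.ofNat 1,.ofNat 1),
  (.ofNat 1,.ofNat 0),(.ofNat 1,.ofNat 0),(.ofNat 1,.ofNat 0),(.negSucc 0,.ofNat 0),(.negSucc 0,.ofNat 0),(.negSucc 0,.ofNat 1),(.negSucc 0,.ofNat 0),(.negSucc 0,.ofNat 1),(.ofNat 0,.ofNat 1),(.negSucc 0,.ofNat 0),(.ofNat 0,.ofNat 1),(.ofNat 0,.ofNat 1),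
  (.ofNat 1,.ofNat 0),(.ofNat 1,.ofNat 1),(.ofNat 1,.ofNat 1),(.ofNat 1,.ofNat 0),(.ofNat 1,.ofNat 0),(.ofNat 1,.ofNat 1),(.negSucc 0,.ofNat 0),(.negSucc 0,.ofNat 0),(.negSucc 0,.ofNat 1),(.negSucc 0,.ofNat 0),(.negSucc 0,.ofNat 0),(.negSucc 0,.ofNat 1),
  (.negSucc 0,.negSucc 0),(.negSucc 177,.ofNat 242),(.ofNat 0,.ofNat 1),(.ofNat 1,.negSucc 0),(.ofNat 1,.ofNat 0),(.ofNat 1,.ofNat 1),(.ofNat 1,.ofNat 0),(.ofNat 1,.ofNat 0),(.ofNat 1,.ofNat 0),(.negSucc 0,.ofNat 0),(.negSucc 0,.ofNat 0),(.negSucc 0,.ofNat 0),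
  (.negSucc 0,.negSucc 0),(.negSucc 0,.ofNat 0),(.negSucc 0,.ofNat 1),(.ofNat 0,.negSucc 0),(.ofNat 0,.ofNat 0),(.ofNat 0,.ofNat 1),(.ofNat 1,.negSucc 0),(.ofNat 1,.ofNat 0),(.ofNat 1,.ofNat 1),(.ofNat 1,.ofNat 0),(.ofNat 1,.ofNat 0),(.ofNat 1,.ofNat 0),
  (.negSucc 0,.ofNat 0),(.negSucc 0,.ofNat 0),(.negSucc 0,.ofNat 0),(.negSucc 0,.negSucc 0),(.negSucc 0,.ofNat 0),(.negSucc 0,.ofNat 1),(.ofNat 0,.negSucc 0),(.ofNat 0,.ofNat 0),(.ofNat 2,.ofNat 3),(.ofNat 0,.negSucc 0),(.ofNat 1,.ofNat 0),(.ofNat 1,.ofNat 0),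
  (.ofNat 1,.negSucc 0),(.ofNat 1,.ofNat 0),(.ofNat 1,.ofNat 0),(.negSucc 0,.ofNat 0),(.negSucc 0,.ofNat 0),(.negSucc 0,.ofNat 0),(.negSucc 0,.ofNat 0),(.negSucc 0,.ofNat 0),(.negSucc 0,.ofNat 1),(.negSucc 0,.negSucc 0),(.ofNat 0,.ofNat 0),(.ofNat 9,.ofNat 39),
  (.ofNat 0,.negSucc 0),(.ofNat 1,.ofNat 0),(.ofNat 1,.ofNat 1),(.ofNat 1,.negSucc 0),(.ofNat 1,.ofNat 0),(.ofNat 1,.ofNat 0),(.negSucc 0,.ofNat 0),(.negSucc 0,.ofNat 0),(.negSucc 0,.ofNat 1),(.negSucc 0,.ofNat 0),(.negSucc 0,.ofNat 0),(.ofNat 0,.ofNat 1),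
  (.negSucc 1,.negSucc 2),(.ofNat 0,.ofNat 0),(.ofNat 0,.ofNat 1),(.ofNat 1,.negSucc 0),(.ofNat 1,.ofNat 0),(.ofNat 1,.ofNat 1),(.ofNat 1,.ofNat 0),(.ofNat 1,.ofNat 0),(.ofNat 1,.ofNat 0),(.negSucc 0,.ofNat 0),(.negSucc 0,.ofNat 0),(.negSucc 0,.ofNat 0),
  (.negSucc 0,.negSucc 0),(.negSucc 0,.ofNat 0),(.negSucc 0,.ofNat 1),(.negSucc 0,.negSucc 2),(.ofNat 0,.ofNat 0),(.ofNat 1,.ofNat 3),(.ofNat 1,.negSucc 0),(.ofNat 1,.ofNat 0),(.ofNat 1,.ofNat 1),(.ofNat 1,.ofNat 0),(.ofNat 1,.ofNat 0),(.ofNat 1,.ofNat 0),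
  (.negSucc 0,.ofNat 0),(.negSucc 0,.ofNat 0),(.negSucc 0,.ofNat 0),(.negSucc 0,.ofNat 0),(.negSucc 0,.ofNat 0),(.negSucc 0,.ofNat 1),(.negSucc 0,.negSucc 0),(.ofNat 0,.ofNat 0),(.ofNat 1,.ofNat 3),(.ofNat 21,.negSucc 33),(.ofNat 296,.ofNat 46),(.ofNat 1,.ofNat 1),
  (.ofNat 1,.negSucc 0),(.ofNat 1,.ofNat 0),(.ofNat 1,.ofNat 0),(.negSucc 0,.ofNat 0),(.negSucc 0,.ofNat 0),(.negSucc 0,.ofNat 1),(.negSucc 0,.negSucc 0),(.negSucc 0,.ofNat 0),(.ofNat 0,.ofNat 1),(.negSucc 8,.negSucc 38),(.ofNat 0,.ofNat 0),(.ofNat 1,.ofNat 1),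
  (.ofNat 1,.negSucc 0),(.ofNat 1,.ofNat 0),(.ofNat 1,.ofNat 0),(.ofNat 1,.ofNat 0),(.ofNat 1,.ofNat 0),(.ofNat 1,.ofNat 0),(.negSucc 0,.ofNat 0),(.negSucc 0,.ofNat 0),(.negSucc 0,.ofNat 1),(.negSucc 0,.negSucc 0),(.negSucc 295,.negSucc 45),(.negSucc 20,.ofNat 34),
  (.negSucc 0,.negSucc 2),(.ofNat 0,.ofNat 0),(.ofNat 1,.ofNat 1),(.ofNat 1,.negSucc 0),(.ofNat 1,.ofNat 0),(.ofNat 1,.ofNat 0),(.ofNat 1,.ofNat 0),(.ofNat 1,.ofNat 0),(.ofNat 1,.ofNat 0),(.negSucc 0,.ofNat 0),(.negSucc 0,.ofNat 0),(.negSucc 0,.ofNat 0),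
  (.negSucc 0,.negSucc 0),(.negSucc 0,.ofNat 0),(.negSucc 0,.ofNat 1),(.negSucc 110,.negSucc 278),(.ofNat 0,.ofNat 0),(.ofNat 111,.ofNat 279),(.ofNat 1,.negSucc 0),(.ofNat 1,.ofNat 0),(.ofNat 1,.ofNat 1),(.ofNat 1,.ofNat 0),(.ofNat 1,.ofNat 0),(.ofNat 1,.ofNat 0),
  (.negSucc 0,.ofNat 0),(.negSucc 0,.ofNat 0),(.negSucc 0,.ofNat 0),(.negSucc 0,.negSucc 0),(.negSucc 0,.ofNat 0),(.negSucc 0,.ofNat 1),(.ofNat 0,.negSucc 0),(.ofNat 0,.ofNat 0),(.ofNat 0,.ofNat 1),(.ofNat 1,.negSucc 0),(.ofNat 1,.ofNat 0),(.ofNat 1,.ofNat 1),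
  (.ofNat 1,.ofNat 0),(.ofNat 1,.ofNat 0),(.ofNat 1,.ofNat 0),(.negSucc 0,.ofNat 0),(.negSucc 0,.ofNat 0),(.negSucc 0,.ofNat 1),(.negSucc 0,.ofNat 0),(.negSucc 0,.ofNat 0),(.ofNat 0,.ofNat 1),(.negSucc 0,.negSucc 0),(.ofNat 0,.ofNat 0),(.ofNat 0,.ofNat 1),
  (.ofNat 193,.negSucc 228),(.ofNat 1,.ofNat 0),(.ofNat 1,.ofNat 1),(.ofNat 1,.ofNat 0),(.ofNat 1,.ofNat 0),(.ofNat 1,.ofNat 0),(.negSucc 0,.ofNat 0),(.negSucc 0,.ofNat 0),(.negSucc 0,.ofNat 0),(.negSucc 0,.negSucc 0),(.negSucc 0,.ofNat 0),(.negSucc 192,.ofNat 229),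
  (.ofNat 0,.negSucc 0),(.ofNat 0,.ofNat 0),(.ofNat 1,.ofNat 1),(.ofNat 0,.negSucc 0),(.ofNat 1,.ofNat 0),(.ofNat 1,.ofNat 0),(.ofNat 1,.negSucc 0),(.ofNat 1,.ofNat 0),(.ofNat 1,.ofNat 0),(.negSucc 0,.ofNat 0),(.negSucc 0,.ofNat 0),(.negSucc 0,.ofNat 0),
  (.negSucc 0,.negSucc 0),(.negSucc 0,.ofNat 0),(.negSucc 115,.ofNat 277),(.negSucc 0,.negSucc 2),(.ofNat 0,.ofNat 0),(.ofNat 1,.ofNat 3),(.ofNat 116,.negSucc 276),(.ofNat 1,.ofNat 0),(.ofNat 1,.ofNat 1),(.ofNat 1,.ofNat 0),(.ofNat 1,.ofNat 0),(.ofNat 1,.ofNat 0),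
  (.negSucc 0,.ofNat 0),(.negSucc 0,.ofNat 0),(.negSucc 0,.ofNat 0),(.negSucc 0,.negSucc 0),(.negSucc 0,.ofNat 0),(.negSucc 0,.ofNat 0),(.negSucc 0,.negSucc 0),(.negSucc 0,.negSucc 0),(.ofNat 0,.ofNat 1),(.ofNat 0,.negSucc 0),(.ofNat 1,.negSucc 0),(.ofNat 1,.ofNat 0),
  (.ofNat 1,.negSucc 0),(.ofNat 1,.ofNat 0),(.ofNat 1,.ofNat 0),(.negSucc 0,.ofNat 0),(.negSucc 0,.ofNat 0),(.negSucc 0,.ofNat 0),(.negSucc 0,.negSucc 0),(.negSucc 0,.ofNat 0),(.negSucc 0,.ofNat 1),(.ofNat 0,.negSucc 0),(.ofNat 0,.ofNat 0),(.ofNat 0,.ofNat 1),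
  (.ofNat 1,.negSucc 0),(.ofNat 1,.ofNat 0),(.ofNat 1,.ofNat 1),(.ofNat 1,.ofNat 0),(.ofNat 1,.ofNat 0),(.ofNat 1,.ofNat 0),(.negSucc 0,.ofNat 0),(.negSucc 0,.ofNat 0),(.negSucc 0,.ofNat 0),(.negSucc 0,.negSucc 0),(.negSucc 0,.ofNat 0),(.negSucc 0,.ofNat 1),
  (.ofNat 0,.negSucc 0),(.ofNat 0,.negSucc 0),(.ofNat 1,.ofNat 1),(.ofNat 0,.negSucc 0),(.ofNat 1,.ofNat 0),(.ofNat 1,.ofNat 0),(.ofNat 1,.negSucc 0),(.ofNat 1,.ofNat 0),(.ofNat 1,.ofNat 0),(.negSucc 0,.ofNat 0),(.negSucc 0,.ofNat 0),(.negSucc 0,.ofNat 0),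
  (.negSucc 0,.ofNat 0),(.negSucc 0,.ofNat 0),(.negSucc 0,.ofNat 1),(.negSucc 0,.negSucc 0),(.negSucc 0,.ofNat 0),(.ofNat 0,.ofNat 1),(.ofNat 0,.negSucc 0),(.ofNat 1,.ofNat 0),(.ofNat 1,.ofNat 1),(.ofNat 1,.negSucc 0),(.ofNat 1,.ofNat 0),(.ofNat 1,.ofNat 0),
  (.negSucc 0,.ofNat 0),(.negSucc 0,.ofNat 0),(.negSucc 0,.ofNat 0),(.negSucc 0,.ofNat 0),(.negSucc 0,.ofNat 0),(.negSucc 0,.ofNat 0),(.negSucc 0,.negSucc 0),(.negSucc 0,.ofNat 0),(.ofNat 0,.ofNat 1),(.ofNat 0,.negSucc 0),(.ofNat 1,.negSucc 0),(.ofNat 1,.ofNat 1),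
  (.ofNat 1,.negSucc 0),(.ofNat 1,.ofNat 0),(.ofNat 1,.ofNat 0),(.negSucc 0,.ofNat 0),(.negSucc 0,.ofNat 0),(.negSucc 0,.ofNat 0),(.negSucc 0,.negSucc 0),(.negSucc 0,.ofNat 0),(.negSucc 0,.ofNat 1),(.negSucc 0,.negSucc 0),(.negSucc 0,.negSucc 0),(.ofNat 0,.ofNat 1),
  (.ofNat 0,.negSucc 0),(.ofNat 1,.ofNat 0),(.ofNat 1,.ofNat 1),(.ofNat 1,.negSucc 0),(.ofNat 1,.ofNat 0),(.ofNat 1,.ofNat 0),(.negSucc 0,.ofNat 0),(.negSucc 0,.ofNat 0),(.negSucc 0,.ofNat 1),(.negSucc 0,.ofNat 0),(.negSucc 0,.ofNat 0),(.ofNat 0,.ofNat 1),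
  (.negSucc 0,.negSucc 0),(.ofNat 0,.ofNat 1),(.ofNat 0,.ofNat 1),(.ofNat 1,.negSucc 0),(.ofNat 1,.ofNat 0),(.ofNat 1,.ofNat 1),(.ofNat 1,.ofNat 0),(.ofNat 1,.ofNat 0),(.ofNat 1,.ofNat 0),(.negSucc 0,.ofNat 0),(.negSucc 0,.ofNat 0),(.negSucc 0,.ofNat 0),
  (.negSucc 0,.negSucc 0),(.negSucc 0,.ofNat 0),(.negSucc 0,.ofNat 1),(.ofNat 0,.negSucc 0),(.ofNat 0,.ofNat 0),(.ofNat 0,.ofNat 1),(.ofNat 1,.negSucc 0),(.ofNat 1,.ofNat 0),(.ofNat 1,.ofNat 1),(.ofNat 1,.ofNat 0),(.ofNat 1,.ofNat 0),(.ofNat 1,.ofNat 0),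
  (.negSucc 0,.ofNat 0),(.negSucc 0,.ofNat 0),(.negSucc 0,.ofNat 1),(.negSucc 0,.ofNat 0),(.negSucc 0,.ofNat 0),(.negSucc 0,.ofNat 1),(.negSucc 0,.ofNat 0),(.negSucc 0,.ofNat 1),(.ofNat 0,.ofNat 1),(.ofNat 0,.negSucc 0),(.ofNat 1,.ofNat 1),(.ofNat 1,.ofNat 1),
  (.ofNat 1,.ofNat 0),(.ofNat 1,.ofNat 0),(.ofNat 1,.ofNat 1),(.negSucc 0,.ofNat 0),(.negSucc 0,.ofNat 0),(.negSucc 0,.ofNat 0),(.negSucc 0,.ofNat 0),(.negSucc 0,.ofNat 0),(.negSucc 0,.ofNat 1),(.negSucc 0,.negSucc 0),(.negSucc 0,.ofNat 0),(.ofNat 0,.ofNat 1),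
  (.ofNat 0,.negSucc 0),(.ofNat 1,.ofNat 0),(.ofNat 1,.ofNat 1),(.ofNat 1,.negSucc 0),(.ofNat 1,.ofNat 0),(.ofNat 1,.ofNat 0),(.negSucc 0,.negSucc 0),(.negSucc 0,.ofNat 0),(.negSucc 0,.ofNat 0),(.negSucc 0,.negSucc 0),(.negSucc 0,.negSucc 0),(.negSucc 0,.ofNat 0),
  (.ofNat 0,.negSucc 0),(.ofNat 0,.negSucc 0),(.ofNat 1,.ofNat 0),(.ofNat 0,.negSucc 0),(.ofNat 1,.negSucc 0),(.ofNat 1,.ofNat 0),(.ofNat 1,.negSucc 0),(.ofNat 1,.ofNat 0),(.ofNat 1,.ofNat 0),(.negSucc 0,.ofNat 0),(.negSucc 0,.ofNat 0),(.negSucc 0,.ofNat 1),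
  (.negSucc 0,.negSucc 0),(.negSucc 0,.ofNat 0),(.ofNat 0,.ofNat 1),(.ofNat 0,.negSucc 0),(.ofNat 1,.ofNat 0),(.ofNat 1,.ofNat 1),(.ofNat 1,.negSucc 0),(.ofNat 1,.ofNat 0),(.ofNat 1,.ofNat 0),(.ofNat 1,.ofNat 0),(.ofNat 1,.ofNat 0),(.ofNat 1,.ofNat 0),
  (.negSucc 0,.negSucc 0),(.negSucc 0,.ofNat 0),(.negSucc 0,.ofNat 0),(.negSucc 0,.negSucc 0),(.negSucc 0,.negSucc 0),(.ofNat 0,.ofNat 1),(.ofNat 0,.negSucc 0),(.ofNat 1,.negSucc 0),(.ofNat 1,.ofNat 0),(.ofNat 1,.negSucc 0),(.ofNat 1,.ofNat 0),(.ofNat 1,.ofNat 0),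
  (.ofNat 1,.negSucc 0),(.ofNat 1,.ofNat 0),(.ofNat 1,.ofNat 0),(.negSucc 0,.ofNat 0),(.negSucc 0,.ofNat 0),(.negSucc 0,.ofNat 0),(.negSucc 0,.negSucc 0),(.negSucc 0,.ofNat 0),(.negSucc 0,.ofNat 1),(.ofNat 0,.negSucc 0),(.ofNat 0,.ofNat 0),(.ofNat 0,.ofNat 1),
  (.ofNat 1,.negSucc 0),(.ofNat 1,.ofNat 0),(.ofNat 1,.ofNat 1),(.ofNat 1,.ofNat 0),(.ofNat 1,.ofNat 0),(.ofNat 1,.ofNat 0),(.negSucc 0,.ofNat 0),(.negSucc 0,.ofNat 0),(.negSucc 0,.ofNat 0),(.negSucc 0,.negSucc 0),(.negSucc 0,.ofNat 0),(.negSucc 0,.ofNat 1),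
  (.ofNat 0,.negSucc 0),(.ofNat 0,.negSucc 0),(.ofNat 1,.ofNat 1),(.ofNat 0,.negSucc 0),(.ofNat 1,.ofNat 0),(.ofNat 1,.ofNat 0),(.ofNat 1,.negSucc 0),(.ofNat 1,.ofNat 0),(.ofNat 1,.ofNat 0),(.negSucc 0,.ofNat 0),(.negSucc 0,.ofNat 0),(.negSucc 0,.ofNat 0),
  (.negSucc 0,.negSucc 0),(.negSucc 0,.ofNat 0),(.negSucc 0,.ofNat 1),(.ofNat 0,.negSucc 0),(.ofNat 178,.negSucc 241),(.ofNat 1,.ofNat 1),(.ofNat 1,.negSucc 0),(.ofNat 1,.ofNat 0),(.ofNat 1,.ofNat 0),(.ofNat 1,.negSucc 0),(.ofNat 1,.ofNat 0),(.ofNat 1,.ofNat 0),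
  (.negSucc 0,.ofNat 0),(.negSucc 0,.ofNat 0),(.negSucc 0,.ofNat 1),(.negSucc 0,.negSucc 0),(.negSucc 0,.ofNat 1),(.ofNat 0,.ofNat 1),(.ofNat 0,.negSucc 0),(.ofNat 1,.ofNat 0),(.ofNat 1,.ofNat 1),(.ofNat 1,.ofNat 0),(.ofNat 1,.ofNat 0),(.ofNat 1,.ofNat 0),
  (.ofNat 1,.ofNat 0),(.ofNat 1,.ofNat 0),(.ofNat 1,.ofNat 0),(.negSucc 0,.ofNat 0),(.negSucc 0,.ofNat 0),(.negSucc 0,.ofNat 1),(.negSucc 0,.negSucc 0),(.negSucc 0,.ofNat 0),(.ofNat 0,.ofNat 1),(.ofNat 0,.negSucc 0),(.ofNat 1,.ofNat 0),(.ofNat 1,.ofNat 1),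
  (.ofNat 1,.negSucc 0),(.ofNat 1,.ofNat 0),(.ofNat 1,.ofNat 0),(.ofNat 1,.ofNat 0),(.ofNat 1,.ofNat 0),(.ofNat 1,.ofNat 0),(.negSucc 0,.ofNat 0),(.negSucc 0,.ofNat 0),(.negSucc 0,.ofNat 1),(.negSucc 0,.ofNat 0),(.negSucc 0,.ofNat 0),(.ofNat 0,.ofNat 1),
  (.negSucc 0,.negSucc 0),(.ofNat 0,.ofNat 1),(.ofNat 0,.ofNat 1),(.ofNat 1,.negSucc 0),(.ofNat 1,.ofNat 0),(.ofNat 1,.ofNat 1),(.ofNat 1,.ofNat 0),(.ofNat 1,.ofNat 0),(.ofNat 1,.ofNat 0),(.negSucc 0,.ofNat 0),(.negSucc 0,.ofNat 0),(.negSucc 0,.ofNat 0),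
  (.negSucc 0,.negSucc 0),(.negSucc 0,.ofNat 0),(.negSucc 0,.ofNat 1),(.ofNat 0,.negSucc 0),(.ofNat 0,.ofNat 0),(.ofNat 0,.ofNat 1),(.ofNat 1,.negSucc 0),(.ofNat 1,.ofNat 0),(.ofNat 1,.ofNat 1),(.ofNat 1,.ofNat 0),(.ofNat 1,.ofNat 0),(.ofNat 1,.ofNat 0)]

def E1 : Data where
  La := 1914853
  Lb := 877041
  Lc := 1681498
  T := E1T
  G := E1G
  M := 1000000
  lo := 302000
  hi := 302370
  Y0 := -1141075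
  Y1 := 1003804
  X0 := -1101553
  X1 := 1005785
  Mm := 2
  Nn := 1
  S := [(.negSucc 1,.negSucc 0),(.negSucc 1,.ofNat 0),(.negSucc 1,.ofNat 1),(.negSucc 0,.negSucc 0),(.negSucc 0,.ofNat 0),(.negSucc 0,.ofNat 1),(.ofNat 0,.negSucc 0),(.ofNat 0,.ofNat 0),(.ofNat 0,.ofNat 1),(.ofNat 1,.negSucc 0),(.ofNat 1,.ofNat 0),(.ofNat 1,.ofNat 1),(.ofNat 2,.negSucc 0),(.ofNat 2,.ofNat 0),(.ofNat 2,.ofNat 1)]
  cert := E1C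

theorem E1_ok : E1.OK = true := by decide +kernel

end Pool.Agent.Lib.MP_776035_co.Tiling
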