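import Pool.Agent.Lib.MP_776035_co.Tiling.Colour

/-! Data of a periodic colouring. -/

set_option autoImplicit false
set_option maxRecDepth 100000

namespace Pool.Agent.Lib.MP_776035_co.Tiling

def E2T : List Tri := [
  ⟨(.ofNat 949724,.ofNat 719762),(.ofNat 964852,.ofNat 767546),(.ofNat 922438,.ofNat 815899),2,107,(.ofNat 1,.ofNat 0),89,(.ofNat 0,.ofNat 1),6,(.ofNat 0,.ofNat 0)⟩,
  ⟨(.ofNat 763043,.ofNat 26256),(.ofNat 824937,.ofNat 35149),(.ofNat 862911,.ofNat 131278),1,127,(.ofNat 0,.ofNat 0),101,(.ofNat 1,.ofNat 0),3,(.ofNat 0,.ofNat 0)⟩,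
  ⟨(.ofNat 34055,.ofNat 551368),(.ofNat 9755,.ofNat 471264),(.ofNat 110693,.ofNat 366318),1,142,(.ofNat 0,.ofNat 0),47,(.ofNat 0,.ofNat 0),14,(.ofNat 0,.ofNat 0)⟩,
  ⟨(.ofNat 688112,.ofNat 26256),(.ofNat 763043,.ofNat 26256),(.ofNat 862911,.ofNat 131278),1,133,(.ofNat 0,.ofNat 0),1,(.ofNat 0,.ofNat 0),4,(.ofNat 0,.ofNat 0)⟩,
  ⟨(.ofNat 688112,.ofNat 26256),(.ofNat 862911,.ofNat 131278),(.ofNat 887846,.ofNat 236301),1,3,(.ofNat 0,.ofNat 0),116,(.ofNat 1,.ofNat 0),10,(.ofNat 0,.ofNat 0)⟩,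
  ⟨(.ofNat 887846,.ofNat 236301),(.ofNat 921038,.ofNat 340548),(.ofNat 895277,.ofNat 393834),1,106,(.ofNat 1,.ofNat 0),126,(.ofNat 0,.ofNat 0),10,(.ofNat 0,.ofNat 0)⟩,
  ⟨(.ofNat 926516,.ofNat 637075),(.ofNat 949724,.ofNat 719762),(.ofNat 922438,.ofNat 815899),2,105,(.ofNat 1,.ofNat 0),0,(.ofNat 0,.ofNat 0),9,(.ofNat 0,.ofNat 0)⟩,
  ⟨(.ofNat 922438,.ofNat 815899),(.ofNat 906867,.ofNat 872386),(.ofNat 875809,.ofNat 896867),2,89,(.ofNat 0,.ofNat 1),83,(.ofNat 0,.ofNat 1),8,(.ofNat 0,.ofNat 0)⟩,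
  ⟨(.ofNat 922438,.ofNat 815899),(.ofNat 875809,.ofNat 896867),(.ofNat 778914,.ofNat 945202),2,7,(.ofNat 0,.ofNat 0),69,(.ofNat 0,.ofNat 1),9,(.ofNat 0,.ofNat 0)⟩,
  ⟨(.ofNat 926516,.ofNat 637075),(.ofNat 922438,.ofNat 815899),(.ofNat 778914,.ofNat 945202),2,6,(.ofNat 0,.ofNat 0),8,(.ofNat 0,.ofNat 0),17,(.ofNat 0,.ofNat 0)⟩,
  ⟨(.ofNat 688112,.ofNat 26256),(.ofNat 887846,.ofNat 236301),(.ofNat 895277,.ofNat 393834),1,4,(.ofNat 0,.ofNat 0),5,(.ofNat 0,.ofNat 0),12,(.ofNat 0,.ofNat 0)⟩,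
  ⟨(.ofNat 415661,.ofNat 161696),(.ofNat 617623,.ofNat 2503),(.ofNat 688112,.ofNat 26256),0,54,(.ofNat 0,.ofNat 0),129,(.ofNat 0,.ofNat 0),12,(.ofNat 0,.ofNat 0)⟩,
  ⟨(.ofNat 415661,.ofNat 161696),(.ofNat 688112,.ofNat 26256),(.ofNat 895277,.ofNat 393834),1,11,(.ofNat 0,.ofNat 0),10,(.ofNat 0,.ofNat 0),13,(.ofNat 0,.ofNat 0)⟩,
  ⟨(.ofNat 110693,.ofNat 366318),(.ofNat 415661,.ofNat 161696),(.ofNat 895277,.ofNat 393834),1,56,(.ofNat 0,.ofNat 0),12,(.ofNat 0,.ofNat 0),14,(.ofNat 0,.ofNat 0)⟩,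
  ⟨(.ofNat 34055,.ofNat 551368),(.ofNat 110693,.ofNat 366318),(.ofNat 895277,.ofNat 393834),1,2,(.ofNat 0,.ofNat 0),13,(.ofNat 0,.ofNat 0),20,(.ofNat 0,.ofNat 0)⟩,
  ⟨(.ofNat 724573,.ofNat 984586),(.ofNat 630038,.ofNat 1002423),(.ofNat 430100,.ofNat 903711),2,70,(.ofNat 0,.ofNat 1),38,(.ofNat 0,.ofNat 1),16,(.ofNat 0,.ofNat 0)⟩,
  ⟨(.ofNat 724573,.ofNat 984586),(.ofNat 430100,.ofNat 903711),(.ofNat 238930,.ofNat 752439),2,15,(.ofNat 0,.ofNat 0),29,(.ofNat 0,.ofNat 1),21,(.ofNat 0,.ofNat 0)⟩,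
  ⟨(.ofNat 895844,.ofNat 538240),(.ofNat 926516,.ofNat 637075),(.ofNat 778914,.ofNat 945202),2,98,(.ofNat 1,.ofNat 0),9,(.ofNat 0,.ofNat 0),22,(.ofNat 0,.ofNat 0)⟩,
  ⟨(.ofNat 238930,.ofNat 752439),(.ofNat 40904,.ofNat 655863),(.ofNat 38166,.ofNat 609628),2,28,(.ofNat 0,.ofNat 1),141,(.ofNat 0,.ofNat 0),19,(.ofNat 0,.ofNat 0)⟩,
  ⟨(.ofNat 238930,.ofNat 752439),(.ofNat 38166,.ofNat 609628),(.ofNat 34055,.ofNat 551368),2,18,(.ofNat 0,.ofNat 0),147,(.ofNat 0,.ofNat 0),20,(.ofNat 0,.ofNat 0)⟩,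
  ⟨(.ofNat 238930,.ofNat 752439),(.ofNat 34055,.ofNat 551368),(.ofNat 895277,.ofNat 393834),2,19,(.ofNat 0,.ofNat 0),14,(.ofNat 0,.ofNat 0),21,(.ofNat 0,.ofNat 0)⟩,
  ⟨(.ofNat 724573,.ofNat 984586),(.ofNat 238930,.ofNat 752439),(.ofNat 895277,.ofNat 393834),2,16,(.ofNat 0,.ofNat 0),20,(.ofNat 0,.ofNat 0),24,(.ofNat 0,.ofNat 0)⟩,
  ⟨(.ofNat 895844,.ofNat 538240),(.ofNat 778914,.ofNat 945202),(.ofNat 724573,.ofNat 984586),2,17,(.ofNat 0,.ofNat 0),74,(.ofNat 0,.ofNat 1),23,(.ofNat 0,.ofNat 0)⟩,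
  ⟨(.ofNat 884635,.ofNat 459473),(.ofNat 895844,.ofNat 538240),(.ofNat 724573,.ofNat 984586),2,123,(.ofNat 0,.ofNat 0),22,(.ofNat 0,.ofNat 0),24,(.ofNat 0,.ofNat 0)⟩,
  ⟨(.ofNat 895277,.ofNat 393834),(.ofNat 884635,.ofNat 459473),(.ofNat 724573,.ofNat 984586),2,126,(.ofNat 0,.ofNat 0),23,(.ofNat 0,.ofNat 0),21,(.ofNat 0,.ofNat 0)⟩,
  ⟨(.negSucc 288668,.negSucc 353572),(.negSucc 328502,.negSucc 273406),(.negSucc 422032,.negSucc 236208),3,48,(.ofNat 0,.ofNat 0),153,(.ofNat 0,.ofNat 0),41,(.ofNat 0,.ofNat 0)⟩,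
  ⟨(.negSucc 835165,.negSucc 51632),(.negSucc 1036545,.negSucc 62732),(.negSucc 1057272,.negSucc 117855),5,114,(.ofNat 0,.ofNat 0),135,(.negSucc 0,.ofNat 0),27,(.ofNat 0,.ofNat 0)⟩,
  ⟨(.negSucc 697769,.negSucc 104143),(.negSucc 835165,.negSucc 51632),(.negSucc 1057272,.negSucc 117855),5,102,(.ofNat 0,.ofNat 0),26,(.ofNat 0,.ofNat 0),33,(.ofNat 0,.ofNat 0)⟩,
  ⟨(.negSucc 876156,.negSucc 987139),(.negSucc 836631,.negSucc 1023618),(.negSucc 638605,.negSucc 927042),3,141,(.ofNat 0,.negSucc 0),18,(.ofNat 0,.negSucc 0),29,(.ofNat 0,.ofNat 0)⟩,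
  ⟨(.negSucc 876156,.negSucc 987139),(.negSucc 638605,.negSucc 927042),(.negSucc 447435,.negSucc 775770),3,28,(.ofNat 0,.ofNat 0),16,(.ofNat 0,.negSucc 0),39,(.ofNat 0,.ofNat 0)⟩,
  ⟨(.negSucc 1031642,.negSucc 695815),(.negSucc 990525,.negSucc 931885),(.negSucc 934671,.negSucc 958450),4,82,(.negSucc 0,.ofNat 0),140,(.ofNat 0,.negSucc 0),31,(.ofNat 0,.ofNat 0)⟩,
  ⟨(.negSucc 1036619,.negSucc 439677),(.negSucc 1031642,.negSucc 695815),(.negSucc 934671,.negSucc 958450),4,81,(.negSucc 0,.ofNat 0),30,(.ofNat 0,.ofNat 0),44,(.ofNat 0,.ofNat 0)⟩,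
  ⟨(.negSucc 507135,.negSucc 197266),(.negSucc 557936,.negSucc 147962),(.negSucc 697769,.negSucc 104143),5,154,(.ofNat 0,.ofNat 0),99,(.ofNat 0,.ofNat 0),33,(.ofNat 0,.ofNat 0)⟩,
  ⟨(.negSucc 507135,.negSucc 197266),(.negSucc 697769,.negSucc 104143),(.negSucc 1057272,.negSucc 117855),5,32,(.ofNat 0,.ofNat 0),27,(.ofNat 0,.ofNat 0),43,(.ofNat 0,.ofNat 0)⟩,
  ⟨(.negSucc 1078155,.negSucc 167961),(.negSucc 1102419,.negSucc 226318),(.negSucc 1036619,.negSucc 439677),5,128,(.negSucc 0,.ofNat 0),80,(.negSucc 0,.ofNat 0),45,(.ofNat 0,.ofNat 0)⟩,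
  ⟨(.negSucc 154467,.negSucc 533773),(.negSucc 145484,.negSucc 516608),(.negSucc 233321,.negSucc 425836),3,77,(.ofNat 0,.ofNat 0),51,(.ofNat 0,.ofNat 0),36,(.ofNat 0,.ofNat 0)⟩,
  ⟨(.negSucc 200824,.negSucc 609439),(.negSucc 154467,.negSucc 533773),(.negSucc 233321,.negSucc 425836),3,72,(.ofNat 0,.ofNat 0),35,(.ofNat 0,.ofNat 0),37,(.ofNat 0,.ofNat 0)⟩,
  ⟨(.negSucc 247497,.negSucc 677058),(.negSucc 200824,.negSucc 609439),(.negSucc 233321,.negSucc 425836),3,70,(.ofNat 0,.ofNat 0),36,(.ofNat 0,.ofNat 0),38,(.ofNat 0,.ofNat 0)⟩,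
  ⟨(.negSucc 447435,.negSucc 775770),(.negSucc 247497,.negSucc 677058),(.negSucc 233321,.negSucc 425836),3,15,(.ofNat 0,.negSucc 0),37,(.ofNat 0,.ofNat 0),39,(.ofNat 0,.ofNat 0)⟩,
  ⟨(.negSucc 876156,.negSucc 987139),(.negSucc 447435,.negSucc 775770),(.negSucc 233321,.negSucc 425836),3,29,(.ofNat 0,.ofNat 0),38,(.ofNat 0,.ofNat 0),40,(.ofNat 0,.ofNat 0)⟩,
  ⟨(.negSucc 876156,.negSucc 987139),(.negSucc 233321,.negSucc 425836),(.negSucc 288668,.negSucc 353572),3,39,(.ofNat 0,.ofNat 0),52,(.ofNat 0,.ofNat 0),41,(.ofNat 0,.ofNat 0)⟩,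
  ⟨(.negSucc 876156,.negSucc 987139),(.negSucc 288668,.negSucc 353572),(.negSucc 422032,.negSucc 236208),3,40,(.ofNat 0,.ofNat 0),25,(.ofNat 0,.ofNat 0),42,(.ofNat 0,.ofNat 0)⟩,
  ⟨(.negSucc 876156,.negSucc 987139),(.negSucc 422032,.negSucc 236208),(.negSucc 507135,.negSucc 197266),5,41,(.ofNat 0,.ofNat 0),156,(.ofNat 0,.ofNat 0),43,(.ofNat 0,.ofNat 0)⟩,
  ⟨(.negSucc 876156,.negSucc 987139),(.negSucc 507135,.negSucc 197266),(.negSucc 1057272,.negSucc 117855),5,42,(.ofNat 0,.ofNat 0),33,(.ofNat 0,.ofNat 0),46,(.ofNat 0,.ofNat 0)⟩,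
  ⟨(.negSucc 1036619,.negSucc 439677),(.negSucc 934671,.negSucc 958450),(.negSucc 876156,.negSucc 987139),5,31,(.ofNat 0,.ofNat 0),143,(.ofNat 0,.negSucc 0),46,(.ofNat 0,.ofNat 0)⟩,
  ⟨(.negSucc 1057272,.negSucc 117855),(.negSucc 1078155,.negSucc 167961),(.negSucc 1036619,.negSucc 439677),5,136,(.negSucc 0,.ofNat 0),34,(.ofNat 0,.ofNat 0),46,(.ofNat 0,.ofNat 0)⟩,
  ⟨(.negSucc 1057272,.negSucc 117855),(.negSucc 1036619,.negSucc 439677),(.negSucc 876156,.negSucc 987139),5,45,(.ofNat 0,.ofNat 0),44,(.ofNat 0,.ofNat 0),43,(.ofNat 0,.ofNat 0)⟩,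
  ⟨(.ofNat 110693,.ofNat 366318),(.ofNat 9755,.ofNat 471264),(.negSucc 170776,.ofNat 455821),7,2,(.ofNat 0,.ofNat 0),142,(.ofNat 0,.ofNat 0),56,(.ofNat 0,.ofNat 0)⟩,
  ⟨(.negSucc 280006,.negSucc 137416),(.negSucc 328502,.negSucc 273406),(.negSucc 288668,.negSucc 353572),6,153,(.ofNat 0,.ofNat 0),25,(.ofNat 0,.ofNat 0),52,(.ofNat 0,.ofNat 0)⟩,
  ⟨(.ofNat 434588,.negSucc 291084),(.ofNat 595445,.negSucc 161723),(.ofNat 606082,.negSucc 66610),6,91,(.ofNat 0,.ofNat 0),130,(.ofNat 0,.ofNat 0),50,(.ofNat 0,.ofNat 0)⟩,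
  ⟨(.ofNat 200630,.negSucc 398785),(.ofNat 434588,.negSucc 291084),(.ofNat 606082,.negSucc 66610),6,94,(.ofNat 0,.ofNat 0),49,(.ofNat 0,.ofNat 0),59,(.ofNat 0,.ofNat 0)⟩,
  ⟨(.negSucc 233321,.negSucc 425836),(.negSucc 145484,.negSucc 516608),(.negSucc 100631,.negSucc 514133),6,35,(.ofNat 0,.ofNat 0),77,(.ofNat 0,.ofNat 0),53,(.ofNat 0,.ofNat 0)⟩,
  ⟨(.negSucc 280006,.negSucc 137416),(.negSucc 288668,.negSucc 353572),(.negSucc 233321,.negSucc 425836),6,48,(.ofNat 0,.ofNat 0),40,(.ofNat 0,.ofNat 0),53,(.ofNat 0,.ofNat 0)⟩,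
  ⟨(.negSucc 280006,.negSucc 137416),(.negSucc 233321,.negSucc 425836),(.negSucc 100631,.negSucc 514133),6,52,(.ofNat 0,.ofNat 0),51,(.ofNat 0,.ofNat 0),57,(.ofNat 0,.ofNat 0)⟩,
  ⟨(.ofNat 602967,.negSucc 51632),(.ofNat 617623,.ofNat 2503),(.ofNat 415661,.ofNat 161696),8,129,(.ofNat 0,.ofNat 0),11,(.ofNat 0,.ofNat 0),61,(.ofNat 0,.ofNat 0)⟩,
  ⟨(.negSucc 41886,.negSucc 511106),(.ofNat 13762,.negSucc 524844),(.ofNat 200630,.negSucc 398785),6,71,(.ofNat 0,.ofNat 0),90,(.ofNat 0,.ofNat 0),58,(.ofNat 0,.ofNat 0)⟩,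
  ⟨(.ofNat 415661,.ofNat 161696),(.ofNat 110693,.ofNat 366318),(.negSucc 170776,.ofNat 455821),8,13,(.ofNat 0,.ofNat 0),47,(.ofNat 0,.ofNat 0),61,(.ofNat 0,.ofNat 0)⟩,
  ⟨(.negSucc 280006,.negSucc 137416),(.negSucc 100631,.negSucc 514133),(.negSucc 41886,.negSucc 511106),6,53,(.ofNat 0,.ofNat 0),78,(.ofNat 0,.ofNat 0),58,(.ofNat 0,.ofNat 0)⟩,
  ⟨(.negSucc 280006,.negSucc 137416),(.negSucc 41886,.negSucc 511106),(.ofNat 200630,.negSucc 398785),6,57,(.ofNat 0,.ofNat 0),55,(.ofNat 0,.ofNat 0),59,(.ofNat 0,.ofNat 0)⟩,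
  ⟨(.negSucc 280006,.negSucc 137416),(.ofNat 200630,.negSucc 398785),(.ofNat 606082,.negSucc 66610),6,58,(.ofNat 0,.ofNat 0),50,(.ofNat 0,.ofNat 0),60,(.ofNat 0,.ofNat 0)⟩,
  ⟨(.negSucc 294261,.negSucc 8259),(.negSucc 280006,.negSucc 137416),(.ofNat 606082,.negSucc 66610),8,155,(.ofNat 0,.ofNat 0),59,(.ofNat 0,.ofNat 0),63,(.ofNat 0,.ofNat 0)⟩,
  ⟨(.ofNat 602967,.negSucc 51632),(.ofNat 415661,.ofNat 161696),(.negSucc 170776,.ofNat 455821),8,54,(.ofNat 0,.ofNat 0),56,(.ofNat 0,.ofNat 0),66,(.ofNat 0,.ofNat 0)⟩,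
  ⟨(.negSucc 254904,.ofNat 170662),(.negSucc 300096,.ofNat 9973),(.negSucc 294261,.negSucc 8259),8,100,(.ofNat 0,.ofNat 0),159,(.ofNat 0,.ofNat 0),63,(.ofNat 0,.ofNat 0)⟩,
  ⟨(.negSucc 254904,.ofNat 170662),(.negSucc 294261,.negSucc 8259),(.ofNat 606082,.negSucc 66610),8,62,(.ofNat 0,.ofNat 0),60,(.ofNat 0,.ofNat 0),64,(.ofNat 0,.ofNat 0)⟩,
  ⟨(.negSucc 224351,.ofNat 315066),(.negSucc 254904,.ofNat 170662),(.ofNat 606082,.negSucc 66610),8,104,(.ofNat 0,.ofNat 0),63,(.ofNat 0,.ofNat 0),65,(.ofNat 0,.ofNat 0)⟩,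
  ⟨(.negSucc 185237,.ofNat 455151),(.negSucc 224351,.ofNat 315066),(.ofNat 606082,.negSucc 66610),8,103,(.ofNat 0,.ofNat 0),64,(.ofNat 0,.ofNat 0),67,(.ofNat 0,.ofNat 0)⟩,
  ⟨(.ofNat 606082,.negSucc 66610),(.ofNat 602967,.negSucc 51632),(.negSucc 170776,.ofNat 455821),8,139,(.ofNat 0,.ofNat 0),61,(.ofNat 0,.ofNat 0),68,(.ofNat 0,.ofNat 0)⟩,
  ⟨(.negSucc 176673,.ofNat 454716),(.negSucc 185237,.ofNat 455151),(.ofNat 606082,.negSucc 66610),8,149,(.ofNat 0,.ofNat 0),65,(.ofNat 0,.ofNat 0),68,(.ofNat 0,.ofNat 0)⟩,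
  ⟨(.ofNat 606082,.negSucc 66610),(.negSucc 170776,.ofNat 455821),(.negSucc 176673,.ofNat 454716),8,66,(.ofNat 0,.ofNat 0),151,(.ofNat 0,.ofNat 0),67,(.ofNat 0,.ofNat 0)⟩,
  ⟨(.negSucc 98621,.negSucc 734279),(.negSucc 1726,.negSucc 782614),(.ofNat 3764,.negSucc 681767),9,8,(.ofNat 0,.negSucc 0),83,(.ofNat 0,.ofNat 0),73,(.ofNat 0,.ofNat 0)⟩,
  ⟨(.negSucc 200824,.negSucc 609439),(.negSucc 247497,.negSucc 677058),(.negSucc 152962,.negSucc 694895),9,37,(.ofNat 0,.ofNat 0),15,(.ofNat 0,.negSucc 0),72,(.ofNat 0,.ofNat 0)⟩,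
  ⟨(.negSucc 11888,.negSucc 619448),(.ofNat 13762,.negSucc 524844),(.negSucc 41886,.negSucc 511106),9,90,(.ofNat 0,.ofNat 0),55,(.ofNat 0,.ofNat 0),76,(.ofNat 0,.ofNat 0)⟩,
  ⟨(.negSucc 154467,.negSucc 533773),(.negSucc 200824,.negSucc 609439),(.negSucc 152962,.negSucc 694895),9,36,(.ofNat 0,.ofNat 0),70,(.ofNat 0,.ofNat 0),75,(.ofNat 0,.ofNat 0)⟩,
  ⟨(.negSucc 98621,.negSucc 734279),(.ofNat 3764,.negSucc 681767),(.negSucc 11888,.negSucc 619448),9,69,(.ofNat 0,.ofNat 0),97,(.ofNat 0,.ofNat 0),74,(.ofNat 0,.ofNat 0)⟩,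
  ⟨(.negSucc 152962,.negSucc 694895),(.negSucc 98621,.negSucc 734279),(.negSucc 11888,.negSucc 619448),9,22,(.ofNat 0,.negSucc 0),73,(.ofNat 0,.ofNat 0),75,(.ofNat 0,.ofNat 0)⟩,
  ⟨(.negSucc 154467,.negSucc 533773),(.negSucc 152962,.negSucc 694895),(.negSucc 11888,.negSucc 619448),9,72,(.ofNat 0,.ofNat 0),74,(.ofNat 0,.ofNat 0),76,(.ofNat 0,.ofNat 0)⟩,
  ⟨(.negSucc 154467,.negSucc 533773),(.negSucc 11888,.negSucc 619448),(.negSucc 41886,.negSucc 511106),9,75,(.ofNat 0,.ofNat 0),71,(.ofNat 0,.ofNat 0),78,(.ofNat 0,.ofNat 0)⟩,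
  ⟨(.negSucc 100631,.negSucc 514133),(.negSucc 145484,.negSucc 516608),(.negSucc 154467,.negSucc 533773),9,51,(.ofNat 0,.ofNat 0),35,(.ofNat 0,.ofNat 0),78,(.ofNat 0,.ofNat 0)⟩,
  ⟨(.negSucc 41886,.negSucc 511106),(.negSucc 100631,.negSucc 514133),(.negSucc 154467,.negSucc 533773),9,57,(.ofNat 0,.ofNat 0),77,(.ofNat 0,.ofNat 0),76,(.ofNat 0,.ofNat 0)⟩,
  ⟨(.ofNat 575888,.negSucc 1049346),(.ofNat 802052,.negSucc 1140144),(.ofNat 823792,.negSucc 1062474),11,110,(.ofNat 1,.negSucc 0),146,(.ofNat 1,.negSucc 0),84,(.ofNat 0,.ofNat 0)⟩,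
  ⟨(.ofNat 881075,.negSucc 439677),(.ofNat 815275,.negSucc 226318),(.ofNat 715427,.negSucc 209166),10,34,(.ofNat 1,.ofNat 0),128,(.ofNat 0,.ofNat 0),81,(.ofNat 0,.ofNat 0)⟩,
  ⟨(.ofNat 886052,.negSucc 695815),(.ofNat 881075,.negSucc 439677),(.ofNat 715427,.negSucc 209166),10,31,(.ofNat 1,.ofNat 0),80,(.ofNat 0,.ofNat 0),86,(.ofNat 0,.ofNat 0)⟩,
  ⟨(.ofNat 858109,.negSucc 996835),(.ofNat 927169,.negSucc 931885),(.ofNat 886052,.negSucc 695815),11,140,(.ofNat 1,.negSucc 0),30,(.ofNat 1,.ofNat 0),85,(.ofNat 0,.ofNat 0)⟩,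
  ⟨(.ofNat 3764,.negSucc 681767),(.negSucc 1726,.negSucc 782614),(.ofNat 29331,.negSucc 807095),12,69,(.ofNat 0,.ofNat 0),7,(.ofNat 0,.negSucc 0),96,(.ofNat 0,.ofNat 0)⟩,
  ⟨(.ofNat 575888,.negSucc 1049346),(.ofNat 823792,.negSucc 1062474),(.ofNat 858109,.negSucc 996835),11,79,(.ofNat 0,.ofNat 0),145,(.ofNat 1,.negSucc 0),85,(.ofNat 0,.ofNat 0)⟩,
  ⟨(.ofNat 575888,.negSucc 1049346),(.ofNat 858109,.negSucc 996835),(.ofNat 886052,.negSucc 695815),11,84,(.ofNat 0,.ofNat 0),82,(.ofNat 0,.ofNat 0),86,(.ofNat 0,.ofNat 0)⟩,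
  ⟨(.ofNat 575888,.negSucc 1049346),(.ofNat 886052,.negSucc 695815),(.ofNat 715427,.negSucc 209166),11,85,(.ofNat 0,.ofNat 0),81,(.ofNat 0,.ofNat 0),87,(.ofNat 0,.ofNat 0)⟩,
  ⟨(.ofNat 347315,.negSucc 970579),(.ofNat 575888,.negSucc 1049346),(.ofNat 715427,.negSucc 209166),11,109,(.ofNat 1,.negSucc 0),86,(.ofNat 0,.ofNat 0),88,(.ofNat 0,.ofNat 0)⟩,
  ⟨(.ofNat 87316,.negSucc 911935),(.ofNat 347315,.negSucc 970579),(.ofNat 715427,.negSucc 209166),12,107,(.ofNat 1,.negSucc 0),87,(.ofNat 0,.ofNat 0),93,(.ofNat 0,.ofNat 0)⟩,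
  ⟨(.ofNat 29331,.negSucc 807095),(.ofNat 44902,.negSucc 863582),(.ofNat 87316,.negSucc 911935),12,7,(.ofNat 0,.negSucc 0),0,(.ofNat 0,.negSucc 0),96,(.ofNat 0,.ofNat 0)⟩,
  ⟨(.ofNat 200630,.negSucc 398785),(.ofNat 13762,.negSucc 524844),(.negSucc 11888,.negSucc 619448),12,55,(.ofNat 0,.ofNat 0),71,(.ofNat 0,.ofNat 0),95,(.ofNat 0,.ofNat 0)⟩,
  ⟨(.ofNat 639236,.negSucc 182910),(.ofNat 595445,.negSucc 161723),(.ofNat 434588,.negSucc 291084),12,130,(.ofNat 0,.ofNat 0),49,(.ofNat 0,.ofNat 0),92,(.ofNat 0,.ofNat 0)⟩,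
  ⟨(.ofNat 715427,.negSucc 209166),(.ofNat 639236,.negSucc 182910),(.ofNat 434588,.negSucc 291084),12,131,(.ofNat 0,.ofNat 0),91,(.ofNat 0,.ofNat 0),93,(.ofNat 0,.ofNat 0)⟩,
  ⟨(.ofNat 87316,.negSucc 911935),(.ofNat 715427,.negSucc 209166),(.ofNat 434588,.negSucc 291084),12,88,(.ofNat 0,.ofNat 0),92,(.ofNat 0,.ofNat 0),94,(.ofNat 0,.ofNat 0)⟩,
  ⟨(.ofNat 87316,.negSucc 911935),(.ofNat 434588,.negSucc 291084),(.ofNat 200630,.negSucc 398785),12,93,(.ofNat 0,.ofNat 0),50,(.ofNat 0,.ofNat 0),95,(.ofNat 0,.ofNat 0)⟩,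
  ⟨(.ofNat 87316,.negSucc 911935),(.ofNat 200630,.negSucc 398785),(.negSucc 11888,.negSucc 619448),12,94,(.ofNat 0,.ofNat 0),90,(.ofNat 0,.ofNat 0),97,(.ofNat 0,.ofNat 0)⟩,
  ⟨(.ofNat 3764,.negSucc 681767),(.ofNat 29331,.negSucc 807095),(.ofNat 87316,.negSucc 911935),12,83,(.ofNat 0,.ofNat 0),89,(.ofNat 0,.ofNat 0),97,(.ofNat 0,.ofNat 0)⟩,
  ⟨(.negSucc 11888,.negSucc 619448),(.ofNat 3764,.negSucc 681767),(.ofNat 87316,.negSucc 911935),12,73,(.ofNat 0,.ofNat 0),96,(.ofNat 0,.ofNat 0),95,(.ofNat 0,.ofNat 0)⟩,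
  ⟨(.negSucc 991178,.ofNat 637075),(.negSucc 1021850,.ofNat 538240),(.negSucc 952523,.ofNat 498857),14,17,(.negSucc 0,.ofNat 0),123,(.negSucc 0,.ofNat 0),105,(.ofNat 0,.ofNat 0)⟩,
  ⟨(.negSucc 697769,.negSucc 104143),(.negSucc 557936,.negSucc 147962),(.negSucc 505466,.negSucc 51632),13,32,(.ofNat 0,.ofNat 0),154,(.ofNat 0,.ofNat 0),102,(.ofNat 0,.ofNat 0)⟩,
  ⟨(.negSucc 419061,.ofNat 0),(.negSucc 300096,.ofNat 9973),(.negSucc 254904,.ofNat 170662),14,159,(.ofNat 0,.ofNat 0),62,(.ofNat 0,.ofNat 0),104,(.ofNat 0,.ofNat 0)⟩,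
  ⟨(.negSucc 1054783,.ofNat 131278),(.negSucc 1092757,.ofNat 35149),(.negSucc 1064429,.negSucc 17827),14,1,(.negSucc 0,.ofNat 0),127,(.negSucc 0,.ofNat 0),115,(.ofNat 0,.ofNat 0)⟩,
  ⟨(.negSucc 835165,.negSucc 51632),(.negSucc 697769,.negSucc 104143),(.negSucc 505466,.negSucc 51632),14,27,(.ofNat 0,.ofNat 0),99,(.ofNat 0,.ofNat 0),112,(.ofNat 0,.ofNat 0)⟩,
  ⟨(.negSucc 224351,.ofNat 315066),(.negSucc 185237,.ofNat 455151),(.negSucc 215656,.ofNat 498845),14,65,(.ofNat 0,.ofNat 0),149,(.ofNat 0,.ofNat 0),111,(.ofNat 0,.ofNat 0)⟩,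
  ⟨(.negSucc 419061,.ofNat 0),(.negSucc 254904,.ofNat 170662),(.negSucc 224351,.ofNat 315066),14,100,(.ofNat 0,.ofNat 0),64,(.ofNat 0,.ofNat 0),111,(.ofNat 0,.ofNat 0)⟩,
  ⟨(.negSucc 967970,.ofNat 719762),(.negSucc 991178,.ofNat 637075),(.negSucc 952523,.ofNat 498857),14,6,(.negSucc 0,.ofNat 0),98,(.ofNat 0,.ofNat 0),108,(.ofNat 0,.ofNat 0)⟩,
  ⟨(.negSucc 911909,.ofNat 433218),(.negSucc 996656,.ofNat 340548),(.negSucc 1029848,.ofNat 236301),14,125,(.negSucc 0,.ofNat 0),5,(.negSucc 0,.ofNat 0),117,(.ofNat 0,.ofNat 0)⟩,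
  ⟨(.negSucc 692843,.ofNat 708902),(.negSucc 952842,.ofNat 767546),(.negSucc 967970,.ofNat 719762),14,88,(.negSucc 0,.ofNat 1),0,(.negSucc 0,.ofNat 0),108,(.ofNat 0,.ofNat 0)⟩,
  ⟨(.negSucc 692843,.ofNat 708902),(.negSucc 967970,.ofNat 719762),(.negSucc 952523,.ofNat 498857),14,107,(.ofNat 0,.ofNat 0),105,(.ofNat 0,.ofNat 0),109,(.ofNat 0,.ofNat 0)⟩,
  ⟨(.negSucc 464270,.ofNat 630135),(.negSucc 692843,.ofNat 708902),(.negSucc 952523,.ofNat 498857),14,87,(.negSucc 0,.ofNat 1),108,(.ofNat 0,.ofNat 0),110,(.ofNat 0,.ofNat 0)⟩,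
  ⟨(.negSucc 238106,.ofNat 539337),(.negSucc 464270,.ofNat 630135),(.negSucc 952523,.ofNat 498857),14,79,(.negSucc 0,.ofNat 1),109,(.ofNat 0,.ofNat 0),118,(.ofNat 0,.ofNat 0)⟩,
  ⟨(.negSucc 419061,.ofNat 0),(.negSucc 224351,.ofNat 315066),(.negSucc 215656,.ofNat 498845),14,104,(.ofNat 0,.ofNat 0),103,(.ofNat 0,.ofNat 0),113,(.ofNat 0,.ofNat 0)⟩,
  ⟨(.negSucc 835165,.negSucc 51632),(.negSucc 505466,.negSucc 51632),(.negSucc 419061,.ofNat 0),14,102,(.ofNat 0,.ofNat 0),158,(.ofNat 0,.ofNat 0),113,(.ofNat 0,.ofNat 0)⟩,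
  ⟨(.negSucc 835165,.negSucc 51632),(.negSucc 419061,.ofNat 0),(.negSucc 215656,.ofNat 498845),14,112,(.ofNat 0,.ofNat 0),111,(.ofNat 0,.ofNat 0),114,(.ofNat 0,.ofNat 0)⟩,
  ⟨(.negSucc 1036545,.negSucc 62732),(.negSucc 835165,.negSucc 51632),(.negSucc 215656,.ofNat 498845),14,26,(.ofNat 0,.ofNat 0),113,(.ofNat 0,.ofNat 0),121,(.ofNat 0,.ofNat 0)⟩,
  ⟨(.negSucc 1054783,.ofNat 131278),(.negSucc 1064429,.negSucc 17827),(.negSucc 1046620,.negSucc 37407),14,101,(.ofNat 0,.ofNat 0),138,(.negSucc 0,.ofNat 0),116,(.ofNat 0,.ofNat 0)⟩,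
  ⟨(.negSucc 1029848,.ofNat 236301),(.negSucc 1054783,.ofNat 131278),(.negSucc 1046620,.negSucc 37407),14,4,(.negSucc 0,.ofNat 0),115,(.ofNat 0,.ofNat 0),117,(.ofNat 0,.ofNat 0)⟩,
  ⟨(.negSucc 911909,.ofNat 433218),(.negSucc 1029848,.ofNat 236301),(.negSucc 1046620,.negSucc 37407),14,106,(.ofNat 0,.ofNat 0),116,(.ofNat 0,.ofNat 0),119,(.ofNat 0,.ofNat 0)⟩,
  ⟨(.negSucc 238106,.ofNat 539337),(.negSucc 952523,.ofNat 498857),(.negSucc 911909,.ofNat 433218),14,110,(.ofNat 0,.ofNat 0),124,(.negSucc 0,.ofNat 0),119,(.ofNat 0,.ofNat 0)⟩,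
  ⟨(.negSucc 238106,.ofNat 539337),(.negSucc 911909,.ofNat 433218),(.negSucc 1046620,.negSucc 37407),14,118,(.ofNat 0,.ofNat 0),117,(.ofNat 0,.ofNat 0),120,(.ofNat 0,.ofNat 0)⟩,
  ⟨(.negSucc 218745,.ofNat 503990),(.negSucc 238106,.ofNat 539337),(.negSucc 1046620,.negSucc 37407),14,150,(.ofNat 0,.ofNat 0),119,(.ofNat 0,.ofNat 0),122,(.ofNat 0,.ofNat 0)⟩,
  ⟨(.negSucc 1046620,.negSucc 37407),(.negSucc 1036545,.negSucc 62732),(.negSucc 215656,.ofNat 498845),14,135,(.negSucc 0,.ofNat 0),114,(.ofNat 0,.ofNat 0),122,(.ofNat 0,.ofNat 0)⟩,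
  ⟨(.negSucc 1046620,.negSucc 37407),(.negSucc 215656,.ofNat 498845),(.negSucc 218745,.ofNat 503990),14,121,(.ofNat 0,.ofNat 0),152,(.ofNat 0,.ofNat 0),120,(.ofNat 0,.ofNat 0)⟩,
  ⟨(.ofNat 965171,.ofNat 498857),(.ofNat 895844,.ofNat 538240),(.ofNat 884635,.ofNat 459473),15,98,(.ofNat 1,.ofNat 0),23,(.ofNat 0,.ofNat 0),124,(.ofNat 0,.ofNat 0)⟩,
  ⟨(.ofNat 1005785,.ofNat 433218),(.ofNat 965171,.ofNat 498857),(.ofNat 884635,.ofNat 459473),15,118,(.ofNat 1,.ofNat 0),123,(.ofNat 0,.ofNat 0),125,(.ofNat 0,.ofNat 0)⟩,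
  ⟨(.ofNat 921038,.ofNat 340548),(.ofNat 1005785,.ofNat 433218),(.ofNat 884635,.ofNat 459473),15,106,(.ofNat 1,.ofNat 0),124,(.ofNat 0,.ofNat 0),126,(.ofNat 0,.ofNat 0)⟩,
  ⟨(.ofNat 884635,.ofNat 459473),(.ofNat 895277,.ofNat 393834),(.ofNat 921038,.ofNat 340548),15,24,(.ofNat 0,.ofNat 0),5,(.ofNat 0,.ofNat 0),125,(.ofNat 0,.ofNat 0)⟩,
  ⟨(.ofNat 853265,.negSucc 17827),(.ofNat 824937,.ofNat 35149),(.ofNat 763043,.ofNat 26256),16,101,(.ofNat 1,.ofNat 0),1,(.ofNat 0,.ofNat 0),134,(.ofNat 0,.ofNat 0)⟩,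
  ⟨(.ofNat 715427,.negSucc 209166),(.ofNat 815275,.negSucc 226318),(.ofNat 839539,.negSucc 167961),16,80,(.ofNat 0,.ofNat 0),34,(.ofNat 1,.ofNat 0),132,(.ofNat 0,.ofNat 0)⟩,
  ⟨(.ofNat 688112,.ofNat 26256),(.ofNat 617623,.ofNat 2503),(.ofNat 602967,.negSucc 51632),16,11,(.ofNat 0,.ofNat 0),54,(.ofNat 0,.ofNat 0),133,(.ofNat 0,.ofNat 0)⟩,
  ⟨(.ofNat 606082,.negSucc 66610),(.ofNat 595445,.negSucc 161723),(.ofNat 639236,.negSucc 182910),16,49,(.ofNat 0,.ofNat 0),91,(.ofNat 0,.ofNat 0),131,(.ofNat 0,.ofNat 0)⟩,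
  ⟨(.ofNat 606082,.negSucc 66610),(.ofNat 639236,.negSucc 182910),(.ofNat 715427,.negSucc 209166),16,130,(.ofNat 0,.ofNat 0),92,(.ofNat 0,.ofNat 0),132,(.ofNat 0,.ofNat 0)⟩,
  ⟨(.ofNat 606082,.negSucc 66610),(.ofNat 715427,.negSucc 209166),(.ofNat 839539,.negSucc 167961),16,131,(.ofNat 0,.ofNat 0),128,(.ofNat 0,.ofNat 0),136,(.ofNat 0,.ofNat 0)⟩,
  ⟨(.ofNat 763043,.ofNat 26256),(.ofNat 688112,.ofNat 26256),(.ofNat 602967,.negSucc 51632),16,3,(.ofNat 0,.ofNat 0),129,(.ofNat 0,.ofNat 0),134,(.ofNat 0,.ofNat 0)⟩,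
  ⟨(.ofNat 853265,.negSucc 17827),(.ofNat 763043,.ofNat 26256),(.ofNat 602967,.negSucc 51632),16,127,(.ofNat 0,.ofNat 0),133,(.ofNat 0,.ofNat 0),139,(.ofNat 0,.ofNat 0)⟩,
  ⟨(.ofNat 860422,.negSucc 117855),(.ofNat 881149,.negSucc 62732),(.ofNat 871074,.negSucc 37407),16,26,(.ofNat 1,.ofNat 0),121,(.ofNat 1,.ofNat 0),137,(.ofNat 0,.ofNat 0)⟩,
  ⟨(.ofNat 606082,.negSucc 66610),(.ofNat 839539,.negSucc 167961),(.ofNat 860422,.negSucc 117855),16,132,(.ofNat 0,.ofNat 0),45,(.ofNat 1,.ofNat 0),137,(.ofNat 0,.ofNat 0)⟩,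
  ⟨(.ofNat 606082,.negSucc 66610),(.ofNat 860422,.negSucc 117855),(.ofNat 871074,.negSucc 37407),16,136,(.ofNat 0,.ofNat 0),135,(.ofNat 0,.ofNat 0),138,(.ofNat 0,.ofNat 0)⟩,
  ⟨(.ofNat 606082,.negSucc 66610),(.ofNat 871074,.negSucc 37407),(.ofNat 853265,.negSucc 17827),16,137,(.ofNat 0,.ofNat 0),115,(.ofNat 1,.ofNat 0),139,(.ofNat 0,.ofNat 0)⟩,
  ⟨(.ofNat 602967,.negSucc 51632),(.ofNat 606082,.negSucc 66610),(.ofNat 853265,.negSucc 17827),16,66,(.ofNat 0,.ofNat 0),138,(.ofNat 0,.ofNat 0),134,(.ofNat 0,.ofNat 0)⟩,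
  ⟨(.negSucc 57135,.ofNat 721031),(.negSucc 112989,.ofNat 747596),(.negSucc 182049,.ofNat 682646),17,30,(.ofNat 0,.ofNat 1),82,(.negSucc 0,.ofNat 1),144,(.ofNat 0,.ofNat 0)⟩,
  ⟨(.ofNat 38166,.ofNat 609628),(.ofNat 40904,.ofNat 655863),(.ofNat 1379,.ofNat 692342),17,18,(.ofNat 0,.ofNat 0),28,(.ofNat 0,.ofNat 1),143,(.ofNat 0,.ofNat 0)⟩,
  ⟨(.negSucc 170776,.ofNat 455821),(.ofNat 9755,.ofNat 471264),(.ofNat 34055,.ofNat 551368),17,47,(.ofNat 0,.ofNat 0),2,(.ofNat 0,.ofNat 0),148,(.ofNat 0,.ofNat 0)⟩,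
  ⟨(.ofNat 38166,.ofNat 609628),(.ofNat 1379,.ofNat 692342),(.negSucc 57135,.ofNat 721031),17,141,(.ofNat 0,.ofNat 0),44,(.ofNat 0,.ofNat 1),144,(.ofNat 0,.ofNat 0)⟩,
  ⟨(.ofNat 38166,.ofNat 609628),(.negSucc 57135,.ofNat 721031),(.negSucc 182049,.ofNat 682646),17,143,(.ofNat 0,.ofNat 0),140,(.ofNat 0,.ofNat 0),145,(.ofNat 0,.ofNat 0)⟩,
  ⟨(.ofNat 38166,.ofNat 609628),(.negSucc 182049,.ofNat 682646),(.negSucc 216366,.ofNat 617007),17,144,(.ofNat 0,.ofNat 0),84,(.negSucc 0,.ofNat 1),146,(.ofNat 0,.ofNat 0)⟩,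
  ⟨(.ofNat 38166,.ofNat 609628),(.negSucc 216366,.ofNat 617007),(.negSucc 238106,.ofNat 539337),17,145,(.ofNat 0,.ofNat 0),79,(.negSucc 0,.ofNat 1),147,(.ofNat 0,.ofNat 0)⟩,
  ⟨(.ofNat 34055,.ofNat 551368),(.ofNat 38166,.ofNat 609628),(.negSucc 238106,.ofNat 539337),17,19,(.ofNat 0,.ofNat 0),146,(.ofNat 0,.ofNat 0),148,(.ofNat 0,.ofNat 0)⟩,
  ⟨(.negSucc 170776,.ofNat 455821),(.ofNat 34055,.ofNat 551368),(.negSucc 238106,.ofNat 539337),17,142,(.ofNat 0,.ofNat 0),147,(.ofNat 0,.ofNat 0),150,(.ofNat 0,.ofNat 0)⟩,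
  ⟨(.negSucc 215656,.ofNat 498845),(.negSucc 185237,.ofNat 455151),(.negSucc 176673,.ofNat 454716),17,103,(.ofNat 0,.ofNat 0),67,(.ofNat 0,.ofNat 0),151,(.ofNat 0,.ofNat 0)⟩,
  ⟨(.negSucc 170776,.ofNat 455821),(.negSucc 238106,.ofNat 539337),(.negSucc 218745,.ofNat 503990),17,148,(.ofNat 0,.ofNat 0),120,(.ofNat 0,.ofNat 0),152,(.ofNat 0,.ofNat 0)⟩,
  ⟨(.negSucc 215656,.ofNat 498845),(.negSucc 176673,.ofNat 454716),(.negSucc 170776,.ofNat 455821),17,149,(.ofNat 0,.ofNat 0),68,(.ofNat 0,.ofNat 0),152,(.ofNat 0,.ofNat 0)⟩,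
  ⟨(.negSucc 218745,.ofNat 503990),(.negSucc 215656,.ofNat 498845),(.negSucc 170776,.ofNat 455821),17,122,(.ofNat 0,.ofNat 0),151,(.ofNat 0,.ofNat 0),150,(.ofNat 0,.ofNat 0)⟩,
  ⟨(.negSucc 422032,.negSucc 236208),(.negSucc 328502,.negSucc 273406),(.negSucc 280006,.negSucc 137416),18,25,(.ofNat 0,.ofNat 0),48,(.ofNat 0,.ofNat 0),155,(.ofNat 0,.ofNat 0)⟩,
  ⟨(.negSucc 505466,.negSucc 51632),(.negSucc 557936,.negSucc 147962),(.negSucc 507135,.negSucc 197266),18,99,(.ofNat 0,.ofNat 0),32,(.ofNat 0,.ofNat 0),156,(.ofNat 0,.ofNat 0)⟩,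
  ⟨(.negSucc 422032,.negSucc 236208),(.negSucc 280006,.negSucc 137416),(.negSucc 294261,.negSucc 8259),18,153,(.ofNat 0,.ofNat 0),60,(.ofNat 0,.ofNat 0),157,(.ofNat 0,.ofNat 0)⟩,
  ⟨(.negSucc 505466,.negSucc 51632),(.negSucc 507135,.negSucc 197266),(.negSucc 422032,.negSucc 236208),18,154,(.ofNat 0,.ofNat 0),42,(.ofNat 0,.ofNat 0),157,(.ofNat 0,.ofNat 0)⟩,
  ⟨(.negSucc 505466,.negSucc 51632),(.negSucc 422032,.negSucc 236208),(.negSucc 294261,.negSucc 8259),18,156,(.ofNat 0,.ofNat 0),155,(.ofNat 0,.ofNat 0),158,(.ofNat 0,.ofNat 0)⟩,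
  ⟨(.negSucc 419061,.ofNat 0),(.negSucc 505466,.negSucc 51632),(.negSucc 294261,.negSucc 8259),18,112,(.ofNat 0,.ofNat 0),157,(.ofNat 0,.ofNat 0),159,(.ofNat 0,.ofNat 0)⟩,
  ⟨(.negSucc 294261,.negSucc 8259),(.negSucc 300096,.ofNat 9973),(.negSucc 419061,.ofNat 0),18,62,(.ofNat 0,.ofNat 0),100,(.ofNat 0,.ofNat 0),158,(.ofNat 0,.ofNat 0)⟩]

def E2G : List Grp := [
  ⟨0,[(.ofNat 415661,.ofNat 161696),(.ofNat 617623,.ofNat 2503),(.ofNat 688112,.ofNat 26256)]⟩,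
  ⟨0,[(.ofNat 763043,.ofNat 26256),(.ofNat 824937,.ofNat 35149),(.ofNat 862911,.ofNat 131278),(.ofNat 34055,.ofNat 551368),(.ofNat 9755,.ofNat 471264),(.ofNat 110693,.ofNat 366318),(.ofNat 688112,.ofNat 26256),(.ofNat 887846,.ofNat 236301),(.ofNat 921038,.ofNat 340548),(.ofNat 895277,.ofNat 393834),(.ofNat 415661,.ofNat 161696)]⟩,
  ⟨0,[(.ofNat 949724,.ofNat 719762),(.ofNat 964852,.ofNat 767546),(.ofNat 922438,.ofNat 815899),(.ofNat 926516,.ofNat 637075),(.ofNat 906867,.ofNat 872386),(.ofNat 875809,.ofNat 896867),(.ofNat 778914,.ofNat 945202),(.ofNat 724573,.ofNat 984586),(.ofNat 630038,.ofNat 1002423),(.ofNat 430100,.ofNat 903711),(.ofNat 238930,.ofNat 752439),(.ofNat 895844,.ofNat 538240),(.ofNat 40904,.ofNat 655863),(.ofNat 38166,.ofNat 609628),(.ofNat 34055,.ofNat 551368),(.ofNat 895277,.ofNat 393834),(.ofNat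 884635,.ofNat 459473)]⟩,
  ⟨3,[(.negSucc 288668,.negSucc 353572),(.negSucc 328502,.negSucc 273406),(.negSucc 422032,.negSucc 236208),(.negSucc 876156,.negSucc 987139),(.negSucc 836631,.negSucc 1023618),(.negSucc 638605,.negSucc 927042),(.negSucc 447435,.negSucc 775770),(.negSucc 154467,.negSucc 533773),(.negSucc 145484,.negSucc 516608),(.negSucc 233321,.negSucc 425836),(.negSucc 200824,.negSucc 609439),(.negSucc 247497,.negSucc 677058)]⟩,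
  ⟨3,[(.negSucc 1031642,.negSucc 695815),(.negSucc 990525,.negSucc 931885),(.negSucc 934671,.negSucc 958450),(.negSucc 1036619,.negSucc 439677)]⟩,
  ⟨3,[(.negSucc 835165,.negSucc 51632),(.negSucc 1036545,.negSucc 62732),(.negSucc 1057272,.negSucc 117855),(.negSucc 697769,.negSucc 104143),(.negSucc 507135,.negSucc 197266),(.negSucc 557936,.negSucc 147962),(.negSucc 1078155,.negSucc 167961),(.negSucc 1102419,.negSucc 226318),(.negSucc 1036619,.negSucc 439677),(.negSucc 876156,.negSucc 987139),(.negSucc 422032,.negSucc 236208),(.negSucc 934671,.negSucc 958450)]⟩,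
  ⟨2,[(.negSucc 280006,.negSucc 137416),(.negSucc 328502,.negSucc 273406),(.negSucc 288668,.negSucc 353572),(.ofNat 434588,.negSucc 291084),(.ofNat 595445,.negSucc 161723),(.ofNat 606082,.negSucc 66610),(.ofNat 200630,.negSucc 398785),(.negSucc 233321,.negSucc 425836),(.negSucc 145484,.negSucc 516608),(.negSucc 100631,.negSucc 514133),(.negSucc 41886,.negSucc 511106),(.ofNat 13762,.negSucc 524844)]⟩,
  ⟨2,[(.ofNat 110693,.ofNat 366318),(.ofNat 9755,.ofNat 471264),(.negSucc 170776,.ofNat 455821)]⟩,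
  ⟨2,[(.ofNat 602967,.negSucc 51632),(.ofNat 617623,.ofNat 2503),(.ofNat 415661,.ofNat 161696),(.ofNat 110693,.ofNat 366318),(.negSucc 170776,.ofNat 455821),(.negSucc 294261,.negSucc 8259),(.negSucc 280006,.negSucc 137416),(.ofNat 606082,.negSucc 66610),(.negSucc 254904,.ofNat 170662),(.negSucc 300096,.ofNat 9973),(.negSucc 224351,.ofNat 315066),(.negSucc 185237,.ofNat 455151),(.negSucc 176673,.ofNat 454716)]⟩,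
  ⟨5,[(.negSucc 98621,.negSucc 734279),(.negSucc 1726,.negSucc 782614),(.ofNat 3764,.negSucc 681767),(.negSucc 200824,.negSucc 609439),(.negSucc 247497,.negSucc 677058),(.negSucc 152962,.negSucc 694895),(.negSucc 11888,.negSucc 619448),(.ofNat 13762,.negSucc 524844),(.negSucc 41886,.negSucc 511106),(.negSucc 154467,.negSucc 533773),(.negSucc 100631,.negSucc 514133),(.negSucc 145484,.negSucc 516608)]⟩,
  ⟨4,[(.ofNat 881075,.negSucc 439677),(.ofNat 815275,.negSucc 226318),(.ofNat 715427,.negSucc 209166),(.ofNat 886052,.negSucc 695815)]⟩,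
  ⟨4,[(.ofNat 575888,.negSucc 1049346),(.ofNat 802052,.negSucc 1140144),(.ofNat 823792,.negSucc 1062474),(.ofNat 858109,.negSucc 996835),(.ofNat 927169,.negSucc 931885),(.ofNat 886052,.negSucc 695815),(.ofNat 715427,.negSucc 209166),(.ofNat 347315,.negSucc 970579)]⟩,
  ⟨4,[(.ofNat 3764,.negSucc 681767),(.negSucc 1726,.negSucc 782614),(.ofNat 29331,.negSucc 807095),(.ofNat 87316,.negSucc 911935),(.ofNat 347315,.negSucc 970579),(.ofNat 715427,.negSucc 209166),(.ofNat 44902,.negSucc 863582),(.ofNat 200630,.negSucc 398785),(.ofNat 13762,.negSucc 524844),(.negSucc 11888,.negSucc 619448),(.ofNat 639236,.negSucc 182910),(.ofNat 595445,.negSucc 161723),(.ofNat 434588,.negSucc 291084)]⟩,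
  ⟨1,[(.negSucc 697769,.negSucc 104143),(.negSucc 557936,.negSucc 147962),(.negSucc 505466,.negSucc 51632)]⟩,
  ⟨1,[(.negSucc 991178,.ofNat 637075),(.negSucc 1021850,.ofNat 538240),(.negSucc 952523,.ofNat 498857),(.negSucc 419061,.ofNat 0),(.negSucc 300096,.ofNat 9973),(.negSucc 254904,.ofNat 170662),(.negSucc 1054783,.ofNat 131278),(.negSucc 1092757,.ofNat 35149),(.negSucc 1064429,.negSucc 17827),(.negSucc 835165,.negSucc 51632),(.negSucc 697769,.negSucc 104143),(.negSucc 505466,.negSucc 51632),(.negSucc 224351,.ofNat 315066),(.negSucc 185237,.ofNat 455151),(.negSucc 215656,.ofNat 498845),(.negSucc 967970,.ofNat 719762),(.negSucc 911909,.ofNat 433218),(.negSucc 996656,.ofNat 340548),(.negSucc 1029848,.ofNat 236301),(.negSucc 692843,.ofNat 708902),(.negSucc 952842,.ofNat 767546),(.negSucc 464270,.ofNat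 630135),(.negSucc 238106,.ofNat 539337),(.negSucc 1036545,.negSucc 62732),(.negSucc 1046620,.negSucc 37407),(.negSucc 218745,.ofNat 503990)]⟩,
  ⟨5,[(.ofNat 965171,.ofNat 498857),(.ofNat 895844,.ofNat 538240),(.ofNat 884635,.ofNat 459473),(.ofNat 1005785,.ofNat 433218),(.ofNat 921038,.ofNat 340548),(.ofNat 895277,.ofNat 393834)]⟩,
  ⟨5,[(.ofNat 853265,.negSucc 17827),(.ofNat 824937,.ofNat 35149),(.ofNat 763043,.ofNat 26256),(.ofNat 715427,.negSucc 209166),(.ofNat 815275,.negSucc 226318),(.ofNat 839539,.negSucc 167961),(.ofNat 688112,.ofNat 26256),(.ofNat 617623,.ofNat 2503),(.ofNat 602967,.negSucc 51632),(.ofNat 606082,.negSucc 66610),(.ofNat 595445,.negSucc 161723),(.ofNat 639236,.negSucc 182910),(.ofNat 860422,.negSucc 117855),(.ofNat 881149,.negSucc 62732),(.ofNat 871074,.negSucc 37407)]⟩,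
  ⟨5,[(.negSucc 57135,.ofNat 721031),(.negSucc 112989,.ofNat 747596),(.negSucc 182049,.ofNat 682646),(.ofNat 38166,.ofNat 609628),(.ofNat 40904,.ofNat 655863),(.ofNat 1379,.ofNat 692342),(.negSucc 170776,.ofNat 455821),(.ofNat 9755,.ofNat 471264),(.ofNat 34055,.ofNat 551368),(.negSucc 216366,.ofNat 617007),(.negSucc 238106,.ofNat 539337),(.negSucc 215656,.ofNat 498845),(.negSucc 185237,.ofNat 455151),(.negSucc 176673,.ofNat 454716),(.negSucc 218745,.ofNat 503990)]⟩,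
  ⟨5,[(.negSucc 422032,.negSucc 236208),(.negSucc 328502,.negSucc 273406),(.negSucc 280006,.negSucc 137416),(.negSucc 505466,.negSucc 51632),(.negSucc 557936,.negSucc 147962),(.negSucc 507135,.negSucc 197266),(.negSucc 294261,.negSucc 8259),(.negSucc 419061,.ofNat 0),(.negSucc 300096,.ofNat 9973)]⟩]

def E2C : List (ℤ × ℤ) := [
  (.negSucc 0,.ofNat 0),(.negSucc 0,.ofNat 0),(.negSucc 0,.ofNat 0),(.negSucc 0,.negSucc 0),(.negSucc 0,.ofNat 0),(.negSucc 0,.ofNat 1),(.ofNat 0,.negSucc 0),(.ofNat 0,.ofNat 0),(.ofNat 0,.ofNat 1),(.ofNat 1,.negSucc 0),(.ofNat 1,.ofNat 0),(.ofNat 1,.ofNat 1),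
  (.ofNat 1,.ofNat 0),(.ofNat 1,.ofNat 0),(.ofNat 1,.ofNat 0),(.negSucc 0,.ofNat 0),(.negSucc 0,.ofNat 0),(.negSucc 0,.ofNat 1),(.negSucc 0,.ofNat 0),(.negSucc 0,.ofNat 0),(.ofNat 0,.ofNat 1),(.negSucc 0,.negSucc 0),(.ofNat 0,.ofNat 0),(.ofNat 0,.ofNat 1),
  (.ofNat 1,.negSucc 0),(.ofNat 1,.ofNat 0),(.ofNat 1,.ofNat 1),(.ofNat 1,.ofNat 0),(.ofNat 1,.ofNat 0),(.ofNat 1,.ofNat 0),(.negSucc 0,.ofNat 0),(.negSucc 0,.ofNat 0),(.negSucc 0,.ofNat 1),(.negSucc 0,.ofNat 0),(.negSucc 0,.ofNat 0),(.ofNat 0,.ofNat 1),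
  (.negSucc 185,.negSucc 235),(.ofNat 0,.ofNat 0),(.ofNat 0,.ofNat 1),(.ofNat 1,.negSucc 0),(.ofNat 1,.ofNat 0),(.ofNat 1,.ofNat 1),(.ofNat 1,.ofNat 0),(.ofNat 1,.ofNat 0),(.ofNat 1,.ofNat 0),(.negSucc 0,.ofNat 0),(.negSucc 0,.ofNat 0),(.negSucc 0,.ofNat 0),
  (.negSucc 0,.negSucc 0),(.negSucc 0,.ofNat 0),(.negSucc 0,.ofNat 1),(.ofNat 0,.negSucc 0),(.ofNat 0,.ofNat 0),(.ofNat 1,.ofNat 1),(.ofNat 0,.negSucc 0),(.ofNat 1,.ofNat 0),(.ofNat 1,.ofNat 0),(.ofNat 1,.negSucc 0),(.ofNat 1,.ofNat 0),(.ofNat 1,.ofNat 0),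
  (.negSucc 0,.ofNat 0),(.negSucc 0,.ofNat 0),(.negSucc 0,.ofNat 0),(.negSucc 0,.negSucc 0),(.negSucc 0,.ofNat 0),(.negSucc 1,.ofNat 3),(.ofNat 0,.negSucc 0),(.ofNat 0,.ofNat 0),(.ofNat 0,.ofNat 1),(.ofNat 2,.negSucc 2),(.ofNat 1,.ofNat 0),(.ofNat 1,.ofNat 1),
  (.ofNat 1,.ofNat 0),(.ofNat 1,.ofNat 0),(.ofNat 1,.ofNat 0),(.negSucc 0,.ofNat 0),(.negSucc 0,.ofNat 0),(.negSucc 0,.ofNat 1),(.negSucc 0,.ofNat 0),(.negSucc 294,.ofNat 55),(.ofNat 0,.ofNat 1),(.negSucc 22,.negSucc 32),(.ofNat 0,.ofNat 0),(.ofNat 0,.ofNat 1),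
  (.ofNat 21,.negSucc 33),(.ofNat 1,.ofNat 0),(.ofNat 1,.ofNat 1),(.ofNat 1,.ofNat 0),(.ofNat 1,.ofNat 0),(.ofNat 1,.ofNat 0),(.negSucc 0,.ofNat 0),(.negSucc 0,.ofNat 0),(.negSucc 0,.ofNat 0),(.negSucc 0,.negSucc 0),(.negSucc 0,.ofNat 0),(.negSucc 0,.ofNat 1),
  (.ofNat 0,.negSucc 0),(.ofNat 0,.ofNat 0),(.ofNat 186,.ofNat 236),(.ofNat 0,.negSucc 0),(.ofNat 1,.ofNat 0),(.ofNat 1,.ofNat 0),(.ofNat 1,.negSucc 0),(.ofNat 1,.ofNat 0),(.ofNat 1,.ofNat 0),(.negSucc 0,.ofNat 0),(.negSucc 0,.ofNat 0),(.negSucc 0,.ofNat 0),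
  (.negSucc 0,.negSucc 0),(.negSucc 0,.ofNat 0),(.negSucc 20,.ofNat 34),(.ofNat 0,.negSucc 0),(.ofNat 0,.ofNat 0),(.ofNat 23,.ofNat 33),(.ofNat 0,.negSucc 0),(.ofNat 295,.negSucc 54),(.ofNat 1,.ofNat 0),(.ofNat 1,.negSucc 0),(.ofNat 1,.ofNat 0),(.ofNat 1,.ofNat 0),
  (.negSucc 0,.ofNat 0),(.negSucc 0,.ofNat 0),(.negSucc 0,.ofNat 0),(.negSucc 0,.negSucc 0),(.negSucc 297,.ofNat 34),(.negSucc 0,.ofNat 1),(.ofNat 0,.negSucc 0),(.ofNat 0,.ofNat 0),(.ofNat 0,.ofNat 1),(.ofNat 1,.negSucc 0),(.ofNat 298,.negSucc 33),(.ofNat 1,.ofNat 1),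
  (.ofNat 1,.ofNat 0),(.ofNat 1,.ofNat 0),(.ofNat 1,.ofNat 0),(.negSucc 0,.ofNat 0),(.negSucc 0,.ofNat 0),(.negSucc 0,.ofNat 0),(.negSucc 0,.negSucc 0),(.negSucc 0,.ofNat 0),(.negSucc 0,.ofNat 1),(.negSucc 110,.negSucc 278),(.ofNat 0,.ofNat 0),(.ofNat 111,.ofNat 279),
  (.ofNat 1,.negSucc 0),(.ofNat 1,.ofNat 0),(.ofNat 1,.ofNat 1),(.ofNat 1,.ofNat 0),(.ofNat 1,.ofNat 0),(.ofNat 1,.ofNat 0),(.negSucc 0,.ofNat 0),(.negSucc 0,.ofNat 0),(.negSucc 0,.ofNat 0),(.negSucc 0,.ofNat 0),(.negSucc 0,.ofNat 0),(.negSucc 0,.ofNat 1),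
  (.negSucc 0,.negSucc 0),(.ofNat 0,.ofNat 0),(.ofNat 1,.ofNat 3),(.ofNat 0,.negSucc 0),(.ofNat 1,.ofNat 0),(.ofNat 1,.ofNat 1),(.ofNat 1,.negSucc 0),(.ofNat 1,.ofNat 0),(.ofNat 1,.ofNat 0),(.negSucc 0,.ofNat 0),(.negSucc 0,.ofNat 0),(.negSucc 0,.ofNat 1),
  (.negSucc 0,.ofNat 0),(.negSucc 0,.ofNat 0),(.negSucc 0,.ofNat 1),(.negSucc 21,.negSucc 33),(.ofNat 0,.ofNat 0),(.ofNat 1,.ofNat 3),(.ofNat 17,.negSucc 35),(.ofNat 39,.ofNat 9),(.ofNat 1,.ofNat 1),(.ofNat 1,.ofNat 0),(.ofNat 1,.ofNat 0),(.ofNat 1,.ofNat 0),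
  (.negSucc 0,.ofNat 0),(.negSucc 0,.ofNat 0),(.negSucc 0,.ofNat 1),(.negSucc 0,.negSucc 0),(.negSucc 0,.ofNat 0),(.ofNat 0,.ofNat 1),(.negSucc 0,.negSucc 2),(.ofNat 0,.ofNat 0),(.ofNat 1,.ofNat 1),(.ofNat 1,.negSucc 0),(.ofNat 1,.ofNat 0),(.ofNat 1,.ofNat 0),
  (.ofNat 1,.ofNat 0),(.ofNat 1,.ofNat 0),(.ofNat 1,.ofNat 0),(.negSucc 0,.ofNat 0),(.negSucc 0,.ofNat 0),(.negSucc 0,.ofNat 0),(.negSucc 0,.negSucc 0),(.negSucc 0,.ofNat 0),(.negSucc 0,.ofNat 1),(.ofNat 0,.negSucc 0),(.ofNat 0,.ofNat 0),(.ofNat 0,.ofNat 1),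
  (.ofNat 1,.negSucc 0),(.ofNat 1,.ofNat 0),(.ofNat 1,.ofNat 1),(.ofNat 1,.ofNat 0),(.ofNat 1,.ofNat 0),(.ofNat 1,.ofNat 0),(.negSucc 0,.ofNat 0),(.negSucc 0,.ofNat 0),(.negSucc 0,.ofNat 1),(.negSucc 0,.ofNat 0),(.negSucc 0,.ofNat 0),(.ofNat 0,.ofNat 1),
  (.negSucc 132,.negSucc 268),(.ofNat 0,.ofNat 0),(.ofNat 0,.ofNat 1),(.ofNat 1,.negSucc 0),(.ofNat 1,.ofNat 0),(.ofNat 1,.ofNat 1),(.ofNat 1,.ofNat 0),(.ofNat 1,.ofNat 0),(.ofNat 1,.ofNat 0),(.negSucc 0,.ofNat 0),(.negSucc 0,.ofNat 0),(.negSucc 0,.ofNat 0),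
  (.negSucc 0,.negSucc 0),(.negSucc 38,.negSucc 8),(.negSucc 16,.ofNat 36),(.negSucc 0,.negSucc 2),(.ofNat 0,.ofNat 0),(.ofNat 22,.ofNat 34),(.ofNat 1,.negSucc 0),(.ofNat 1,.ofNat 0),(.ofNat 1,.ofNat 0),(.ofNat 1,.negSucc 0),(.ofNat 1,.ofNat 0),(.ofNat 1,.ofNat 0),
  (.negSucc 0,.ofNat 0),(.negSucc 0,.ofNat 0),(.negSucc 0,.ofNat 0),(.negSucc 0,.negSucc 0),(.negSucc 0,.ofNat 0),(.negSucc 0,.ofNat 1),(.ofNat 0,.negSucc 0),(.ofNat 0,.ofNat 0),(.ofNat 133,.ofNat 269),(.ofNat 0,.negSucc 0),(.ofNat 1,.ofNat 0),(.ofNat 1,.ofNat 0),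
  (.ofNat 1,.negSucc 0),(.ofNat 1,.ofNat 0),(.ofNat 1,.ofNat 0),(.negSucc 0,.ofNat 0),(.negSucc 0,.ofNat 0),(.negSucc 0,.ofNat 0),(.negSucc 0,.negSucc 0),(.negSucc 0,.ofNat 0),(.negSucc 0,.ofNat 1),(.negSucc 4,.negSucc 8),(.ofNat 0,.ofNat 0),(.ofNat 5,.ofNat 9),
  (.ofNat 1,.negSucc 0),(.ofNat 1,.ofNat 0),(.ofNat 1,.ofNat 1),(.ofNat 1,.ofNat 0),(.ofNat 1,.ofNat 0),(.ofNat 1,.ofNat 0),(.negSucc 0,.ofNat 0),(.negSucc 0,.ofNat 0),(.negSucc 0,.ofNat 0),(.negSucc 0,.negSucc 0),(.negSucc 297,.ofNat 34),(.negSucc 0,.ofNat 1),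
  (.ofNat 0,.negSucc 0),(.ofNat 0,.ofNat 0),(.ofNat 0,.ofNat 1),(.ofNat 1,.negSucc 0),(.ofNat 298,.negSucc 33),(.ofNat 1,.ofNat 1),(.ofNat 1,.ofNat 0),(.ofNat 1,.ofNat 0),(.ofNat 1,.ofNat 0),(.negSucc 0,.ofNat 0),(.negSucc 0,.ofNat 0),(.negSucc 0,.ofNat 1),
  (.negSucc 0,.ofNat 0),(.negSucc 0,.ofNat 0),(.ofNat 0,.ofNat 1),(.negSucc 21558,.negSucc 20861),(.ofNat 0,.ofNat 0),(.ofNat 0,.ofNat 1),(.ofNat 19,.negSucc 34),(.ofNat 1,.ofNat 0),(.ofNat 1,.ofNat 1),(.ofNat 1,.ofNat 0),(.ofNat 1,.ofNat 0),(.ofNat 1,.ofNat 0),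
  (.negSucc 0,.ofNat 0),(.negSucc 0,.ofNat 0),(.negSucc 0,.ofNat 1),(.negSucc 0,.ofNat 0),(.negSucc 9,.ofNat 2),(.ofNat 0,.ofNat 1),(.negSucc 22,.negSucc 32),(.ofNat 0,.ofNat 0),(.ofNat 0,.ofNat 1),(.ofNat 19,.negSucc 34),(.ofNat 1,.ofNat 0),(.ofNat 1,.ofNat 1),
  (.ofNat 1,.ofNat 0),(.ofNat 1,.ofNat 0),(.ofNat 1,.ofNat 0),(.negSucc 0,.ofNat 0),(.negSucc 0,.ofNat 0),(.negSucc 0,.ofNat 0),(.negSucc 0,.negSucc 0),(.negSucc 0,.ofNat 0),(.negSucc 18,.ofNat 35),(.ofNat 0,.negSucc 0),(.ofNat 0,.ofNat 0),(.ofNat 21559,.ofNat 20862),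
  (.ofNat 0,.negSucc 0),(.ofNat 1,.ofNat 0),(.ofNat 1,.ofNat 0),(.ofNat 1,.negSucc 0),(.ofNat 1,.ofNat 0),(.ofNat 1,.ofNat 0),(.negSucc 0,.ofNat 0),(.negSucc 0,.ofNat 0),(.negSucc 0,.ofNat 0),(.negSucc 0,.negSucc 0),(.negSucc 0,.ofNat 0),(.negSucc 0,.ofNat 1),
  (.ofNat 0,.negSucc 0),(.ofNat 0,.ofNat 0),(.ofNat 0,.ofNat 1),(.ofNat 1,.negSucc 0),(.ofNat 1,.ofNat 0),(.ofNat 1,.ofNat 1),(.ofNat 1,.ofNat 0),(.ofNat 1,.ofNat 0),(.ofNat 1,.ofNat 0),(.negSucc 0,.ofNat 0),(.negSucc 0,.ofNat 0),(.negSucc 0,.ofNat 0),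
  (.negSucc 0,.negSucc 0),(.negSucc 0,.ofNat 0),(.negSucc 0,.ofNat 1),(.ofNat 0,.negSucc 0),(.ofNat 0,.ofNat 0),(.ofNat 1,.ofNat 1),(.ofNat 1,.negSucc 0),(.ofNat 1,.ofNat 0),(.ofNat 1,.ofNat 0),(.ofNat 1,.negSucc 0),(.ofNat 1,.ofNat 0),(.ofNat 1,.ofNat 0),
  (.negSucc 0,.ofNat 0),(.negSucc 0,.ofNat 0),(.negSucc 0,.ofNat 0),(.negSucc 0,.negSucc 0),(.negSucc 0,.ofNat 0),(.negSucc 18,.ofNat 35),(.ofNat 0,.negSucc 0),(.ofNat 0,.ofNat 0),(.ofNat 23,.ofNat 33),(.ofNat 0,.negSucc 0),(.ofNat 10,.negSucc 1),(.ofNat 1,.ofNat 0),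
  (.ofNat 1,.negSucc 0),(.ofNat 1,.ofNat 0),(.ofNat 1,.ofNat 0),(.negSucc 0,.ofNat 0),(.negSucc 0,.ofNat 0),(.negSucc 0,.ofNat 1),(.negSucc 0,.ofNat 0),(.negSucc 0,.ofNat 0),(.negSucc 0,.ofNat 1),(.negSucc 0,.negSucc 0),(.ofNat 0,.ofNat 0),(.ofNat 0,.ofNat 1),
  (.ofNat 1,.negSucc 0),(.ofNat 1,.ofNat 0),(.ofNat 1,.ofNat 1),(.ofNat 1,.ofNat 0),(.ofNat 1,.ofNat 0),(.ofNat 1,.ofNat 0),(.negSucc 0,.ofNat 0),(.negSucc 0,.ofNat 0),(.negSucc 0,.ofNat 0),(.negSucc 0,.negSucc 0),(.negSucc 299,.negSucc 1),(.negSucc 1,.ofNat 3),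
  (.ofNat 0,.negSucc 0),(.ofNat 0,.ofNat 0),(.ofNat 0,.ofNat 1),(.ofNat 2,.negSucc 2),(.ofNat 300,.ofNat 2),(.ofNat 1,.ofNat 1),(.ofNat 1,.ofNat 0),(.ofNat 1,.ofNat 0),(.ofNat 1,.ofNat 0),(.negSucc 0,.ofNat 0),(.negSucc 0,.ofNat 0),(.negSucc 0,.ofNat 0),
  (.negSucc 0,.negSucc 0),(.negSucc 0,.ofNat 0),(.negSucc 0,.ofNat 1),(.ofNat 0,.negSucc 0),(.ofNat 0,.ofNat 0),(.ofNat 0,.ofNat 1),(.ofNat 1,.negSucc 0),(.ofNat 1,.ofNat 0),(.ofNat 1,.ofNat 1),(.ofNat 1,.ofNat 0),(.ofNat 1,.ofNat 0),(.ofNat 1,.ofNat 0),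
  (.negSucc 0,.ofNat 0),(.negSucc 0,.ofNat 0),(.negSucc 0,.ofNat 1),(.negSucc 0,.ofNat 0),(.negSucc 0,.ofNat 1),(.ofNat 0,.ofNat 1),(.ofNat 0,.negSucc 0),(.ofNat 1,.ofNat 1),(.ofNat 1,.ofNat 1),(.ofNat 1,.ofNat 0),(.ofNat 1,.ofNat 0),(.ofNat 1,.ofNat 1),
  (.ofNat 1,.ofNat 0),(.ofNat 1,.ofNat 0),(.ofNat 1,.ofNat 0),(.negSucc 0,.ofNat 0),(.negSucc 0,.ofNat 0),(.negSucc 0,.ofNat 1),(.negSucc 0,.negSucc 0),(.negSucc 0,.ofNat 0),(.ofNat 0,.ofNat 1),(.ofNat 0,.negSucc 0),(.ofNat 1,.ofNat 1),(.ofNat 1,.ofNat 1),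
  (.ofNat 1,.negSucc 0),(.ofNat 1,.ofNat 0),(.ofNat 1,.ofNat 1),(.ofNat 1,.ofNat 0),(.ofNat 1,.ofNat 0),(.ofNat 1,.ofNat 0),(.negSucc 0,.ofNat 0),(.negSucc 0,.ofNat 0),(.negSucc 0,.ofNat 1),(.negSucc 0,.ofNat 0),(.negSucc 0,.ofNat 1),(.ofNat 0,.ofNat 1),
  (.negSucc 0,.ofNat 0),(.ofNat 0,.ofNat 1),(.ofNat 0,.ofNat 1),(.ofNat 1,.ofNat 0),(.ofNat 1,.ofNat 1),(.ofNat 1,.ofNat 1),(.ofNat 1,.ofNat 0),(.ofNat 1,.ofNat 0),(.ofNat 1,.ofNat 1),(.negSucc 0,.ofNat 0),(.negSucc 0,.ofNat 0),(.negSucc 0,.ofNat 1),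
  (.negSucc 0,.ofNat 0),(.negSucc 0,.ofNat 0),(.negSucc 0,.ofNat 1),(.negSucc 0,.negSucc 0),(.negSucc 5,.ofNat 8),(.ofNat 0,.ofNat 1),(.ofNat 1,.negSucc 0),(.ofNat 1,.ofNat 0),(.ofNat 1,.ofNat 1),(.ofNat 1,.ofNat 0),(.ofNat 1,.ofNat 0),(.ofNat 1,.ofNat 0),
  (.negSucc 0,.ofNat 0),(.negSucc 0,.ofNat 0),(.negSucc 0,.ofNat 0),(.negSucc 0,.negSucc 0),(.negSucc 0,.ofNat 0),(.negSucc 0,.ofNat 1),(.ofNat 0,.negSucc 0),(.ofNat 0,.ofNat 0),(.ofNat 0,.ofNat 1),(.ofNat 1,.negSucc 0),(.ofNat 1,.ofNat 0),(.ofNat 1,.ofNat 1),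
  (.ofNat 1,.ofNat 0),(.ofNat 1,.ofNat 0),(.ofNat 1,.ofNat 0),(.negSucc 0,.ofNat 0),(.negSucc 0,.ofNat 0),(.negSucc 0,.ofNat 0),(.negSucc 0,.negSucc 0),(.negSucc 0,.ofNat 0),(.negSucc 0,.ofNat 1),(.ofNat 0,.negSucc 0),(.ofNat 0,.ofNat 0),(.ofNat 2,.ofNat 3),
  (.ofNat 0,.negSucc 0),(.ofNat 1,.ofNat 0),(.ofNat 1,.ofNat 0),(.ofNat 1,.negSucc 0),(.ofNat 1,.ofNat 0),(.ofNat 1,.ofNat 0),(.negSucc 0,.ofNat 0),(.negSucc 0,.ofNat 0),(.negSucc 0,.ofNat 0),(.negSucc 0,.ofNat 0),(.negSucc 0,.ofNat 0),(.negSucc 0,.ofNat 1),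
  (.negSucc 0,.negSucc 0),(.ofNat 0,.ofNat 0),(.ofNat 9,.ofNat 39),(.ofNat 0,.negSucc 0),(.ofNat 1,.ofNat 0),(.ofNat 1,.ofNat 1),(.ofNat 1,.negSucc 0),(.ofNat 1,.ofNat 0),(.ofNat 1,.ofNat 0),(.negSucc 0,.ofNat 0),(.negSucc 0,.ofNat 0),(.negSucc 0,.ofNat 1),
  (.negSucc 0,.ofNat 0),(.negSucc 0,.ofNat 0),(.ofNat 0,.ofNat 1),(.negSucc 1,.negSucc 2),(.ofNat 0,.ofNat 0),(.ofNat 0,.ofNat 1),(.ofNat 1,.negSucc 0),(.ofNat 1,.ofNat 0),(.ofNat 1,.ofNat 1),(.ofNat 1,.ofNat 0),(.ofNat 1,.ofNat 0),(.ofNat 1,.ofNat 0),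
  (.negSucc 0,.ofNat 0),(.negSucc 0,.ofNat 0),(.negSucc 0,.ofNat 0),(.negSucc 0,.negSucc 0),(.negSucc 0,.ofNat 0),(.negSucc 0,.ofNat 1),(.negSucc 0,.negSucc 2),(.ofNat 0,.ofNat 0),(.ofNat 1,.ofNat 3),(.ofNat 1,.negSucc 0),(.ofNat 1,.ofNat 0),(.ofNat 1,.ofNat 1),
  (.ofNat 1,.ofNat 0),(.ofNat 1,.ofNat 0),(.ofNat 1,.ofNat 0),(.negSucc 0,.ofNat 0),(.negSucc 0,.ofNat 0),(.negSucc 0,.ofNat 0),(.negSucc 0,.ofNat 0),(.negSucc 0,.ofNat 0),(.negSucc 0,.ofNat 1),(.negSucc 0,.negSucc 0),(.ofNat 0,.ofNat 0),(.ofNat 1,.ofNat 3),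
  (.ofNat 21,.negSucc 33),(.ofNat 40,.ofNat 6),(.ofNat 1,.ofNat 1),(.ofNat 1,.negSucc 0),(.ofNat 1,.ofNat 0),(.ofNat 1,.ofNat 0),(.negSucc 0,.ofNat 0),(.negSucc 0,.ofNat 0),(.negSucc 0,.ofNat 1),(.negSucc 0,.negSucc 0),(.negSucc 0,.ofNat 0),(.ofNat 0,.ofNat 1),
  (.negSucc 8,.negSucc 38),(.ofNat 0,.ofNat 0),(.ofNat 1,.ofNat 1),(.ofNat 1,.negSucc 0),(.ofNat 1,.ofNat 0),(.ofNat 1,.ofNat 0),(.ofNat 1,.ofNat 0),(.ofNat 1,.ofNat 0),(.ofNat 1,.ofNat 0),(.negSucc 0,.ofNat 0),(.negSucc 0,.ofNat 0),(.negSucc 0,.ofNat 1),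
  (.negSucc 0,.negSucc 0),(.negSucc 39,.negSucc 5),(.negSucc 20,.ofNat 34),(.negSucc 0,.negSucc 2),(.ofNat 0,.ofNat 0),(.ofNat 1,.ofNat 1),(.ofNat 1,.negSucc 0),(.ofNat 1,.ofNat 0),(.ofNat 1,.ofNat 0),(.ofNat 1,.ofNat 0),(.ofNat 1,.ofNat 0),(.ofNat 1,.ofNat 0),
  (.negSucc 0,.ofNat 0),(.negSucc 0,.ofNat 0),(.negSucc 0,.ofNat 0),(.negSucc 0,.negSucc 0),(.negSucc 0,.ofNat 0),(.negSucc 0,.ofNat 1),(.negSucc 1102,.negSucc 2789),(.ofNat 0,.ofNat 0),(.ofNat 1103,.ofNat 2790),(.ofNat 1,.negSucc 0),(.ofNat 1,.ofNat 0),(.ofNat 1,.ofNat 1),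
  (.ofNat 1,.ofNat 0),(.ofNat 1,.ofNat 0),(.ofNat 1,.ofNat 0),(.negSucc 0,.ofNat 0),(.negSucc 0,.ofNat 0),(.negSucc 0,.ofNat 0),(.negSucc 0,.negSucc 0),(.negSucc 0,.ofNat 0),(.negSucc 0,.ofNat 1),(.ofNat 0,.negSucc 0),(.ofNat 0,.ofNat 0),(.ofNat 0,.ofNat 1),
  (.ofNat 1,.negSucc 0),(.ofNat 1,.ofNat 0),(.ofNat 1,.ofNat 1),(.ofNat 1,.ofNat 0),(.ofNat 1,.ofNat 0),(.ofNat 1,.ofNat 0),(.negSucc 0,.ofNat 0),(.negSucc 0,.ofNat 0),(.negSucc 0,.ofNat 1),(.negSucc 0,.ofNat 0),(.negSucc 0,.ofNat 0),(.ofNat 0,.ofNat 1),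
  (.negSucc 0,.negSucc 0),(.ofNat 0,.ofNat 0),(.ofNat 0,.ofNat 1),(.ofNat 194,.negSucc 228),(.ofNat 1,.ofNat 0),(.ofNat 1,.ofNat 1),(.ofNat 1,.ofNat 0),(.ofNat 1,.ofNat 0),(.ofNat 1,.ofNat 0),(.negSucc 0,.ofNat 0),(.negSucc 0,.ofNat 0),(.negSucc 0,.ofNat 0),
  (.negSucc 0,.negSucc 0),(.negSucc 0,.ofNat 0),(.negSucc 193,.ofNat 229),(.ofNat 0,.negSucc 0),(.ofNat 0,.ofNat 0),(.ofNat 1,.ofNat 1),(.ofNat 0,.negSucc 0),(.ofNat 1,.ofNat 0),(.ofNat 1,.ofNat 0),(.ofNat 1,.negSucc 0),(.ofNat 1,.ofNat 0),(.ofNat 1,.ofNat 0),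
  (.negSucc 0,.ofNat 0),(.negSucc 0,.ofNat 0),(.negSucc 0,.ofNat 0),(.negSucc 0,.negSucc 0),(.negSucc 0,.ofNat 0),(.negSucc 115,.ofNat 277),(.negSucc 0,.negSucc 2),(.ofNat 0,.ofNat 0),(.ofNat 1,.ofNat 3),(.ofNat 116,.negSucc 276),(.ofNat 1,.ofNat 0),(.ofNat 1,.ofNat 1),
  (.ofNat 1,.ofNat 0),(.ofNat 1,.ofNat 0),(.ofNat 1,.ofNat 0),(.negSucc 0,.ofNat 0),(.negSucc 0,.ofNat 0),(.negSucc 0,.ofNat 0),(.negSucc 0,.negSucc 0),(.negSucc 0,.ofNat 0),(.negSucc 0,.ofNat 0),(.negSucc 0,.negSucc 0),(.negSucc 0,.negSucc 0),(.ofNat 0,.ofNat 1),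
  (.ofNat 0,.negSucc 0),(.ofNat 1,.negSucc 0),(.ofNat 1,.ofNat 0),(.ofNat 1,.negSucc 0),(.ofNat 1,.ofNat 0),(.ofNat 1,.ofNat 0),(.negSucc 0,.ofNat 0),(.negSucc 0,.ofNat 0),(.negSucc 0,.ofNat 0),(.negSucc 0,.negSucc 0),(.negSucc 0,.ofNat 0),(.negSucc 0,.ofNat 1),
  (.ofNat 0,.negSucc 0),(.ofNat 0,.ofNat 0),(.ofNat 0,.ofNat 1),(.ofNat 1,.negSucc 0),(.ofNat 1,.ofNat 0),(.ofNat 1,.ofNat 1),(.ofNat 1,.ofNat 0),(.ofNat 1,.ofNat 0),(.ofNat 1,.ofNat 0),(.negSucc 0,.ofNat 0),(.negSucc 0,.ofNat 0),(.negSucc 0,.ofNat 0),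
  (.negSucc 0,.negSucc 0),(.negSucc 0,.ofNat 0),(.negSucc 0,.ofNat 1),(.ofNat 0,.negSucc 0),(.ofNat 0,.negSucc 0),(.ofNat 1,.ofNat 1),(.ofNat 0,.negSucc 0),(.ofNat 1,.ofNat 0),(.ofNat 1,.ofNat 0),(.ofNat 1,.negSucc 0),(.ofNat 1,.ofNat 0),(.ofNat 1,.ofNat 0),
  (.negSucc 0,.ofNat 0),(.negSucc 0,.ofNat 0),(.negSucc 0,.ofNat 0),(.negSucc 0,.ofNat 0),(.negSucc 0,.ofNat 0),(.negSucc 0,.ofNat 1),(.negSucc 0,.negSucc 0),(.negSucc 0,.ofNat 0),(.ofNat 0,.ofNat 1),(.ofNat 0,.negSucc 0),(.ofNat 1,.ofNat 0),(.ofNat 1,.ofNat 1),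
  (.ofNat 1,.negSucc 0),(.ofNat 1,.ofNat 0),(.ofNat 1,.ofNat 0),(.negSucc 0,.ofNat 0),(.negSucc 0,.ofNat 0),(.negSucc 0,.ofNat 0),(.negSucc 0,.ofNat 0),(.negSucc 0,.ofNat 0),(.negSucc 0,.ofNat 0),(.negSucc 0,.negSucc 0),(.negSucc 0,.ofNat 0),(.ofNat 0,.ofNat 1),
  (.ofNat 0,.negSucc 0),(.ofNat 1,.negSucc 0),(.ofNat 1,.ofNat 1),(.ofNat 1,.negSucc 0),(.ofNat 1,.ofNat 0),(.ofNat 1,.ofNat 0),(.negSucc 0,.ofNat 0),(.negSucc 0,.ofNat 0),(.negSucc 0,.ofNat 0),(.negSucc 0,.negSucc 0),(.negSucc 0,.ofNat 0),(.negSucc 0,.ofNat 1),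
  (.negSucc 0,.negSucc 0),(.negSucc 0,.negSucc 0),(.ofNat 0,.ofNat 1),(.ofNat 0,.negSucc 0),(.ofNat 1,.ofNat 0),(.ofNat 1,.ofNat 1),(.ofNat 1,.negSucc 0),(.ofNat 1,.ofNat 0),(.ofNat 1,.ofNat 0),(.negSucc 0,.ofNat 0),(.negSucc 0,.ofNat 0),(.negSucc 0,.ofNat 1),
  (.negSucc 0,.ofNat 0),(.negSucc 0,.ofNat 0),(.ofNat 0,.ofNat 1),(.negSucc 0,.negSucc 0),(.ofNat 0,.ofNat 1),(.ofNat 0,.ofNat 1),(.ofNat 1,.negSucc 0),(.ofNat 1,.ofNat 0),(.ofNat 1,.ofNat 1),(.ofNat 1,.ofNat 0),(.ofNat 1,.ofNat 0),(.ofNat 1,.ofNat 0),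
  (.negSucc 0,.ofNat 0),(.negSucc 0,.ofNat 0),(.negSucc 0,.ofNat 0),(.negSucc 0,.negSucc 0),(.negSucc 0,.ofNat 0),(.negSucc 0,.ofNat 1),(.ofNat 0,.negSucc 0),(.ofNat 0,.ofNat 0),(.ofNat 0,.ofNat 1),(.ofNat 1,.negSucc 0),(.ofNat 1,.ofNat 0),(.ofNat 1,.ofNat 1),
  (.ofNat 1,.ofNat 0),(.ofNat 1,.ofNat 0),(.ofNat 1,.ofNat 0),(.negSucc 0,.ofNat 0),(.negSucc 0,.ofNat 0),(.negSucc 0,.ofNat 1),(.negSucc 0,.ofNat 0),(.negSucc 0,.ofNat 0),(.negSucc 0,.ofNat 1),(.negSucc 0,.negSucc 0),(.negSucc 0,.ofNat 1),(.ofNat 0,.ofNat 1),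
  (.ofNat 0,.negSucc 0),(.ofNat 1,.ofNat 1),(.ofNat 1,.ofNat 1),(.ofNat 1,.ofNat 0),(.ofNat 1,.ofNat 0),(.ofNat 1,.ofNat 1),(.negSucc 0,.ofNat 0),(.negSucc 0,.ofNat 0),(.negSucc 0,.ofNat 0),(.negSucc 0,.ofNat 0),(.negSucc 0,.ofNat 0),(.negSucc 0,.ofNat 1),
  (.negSucc 0,.negSucc 0),(.negSucc 0,.ofNat 0),(.ofNat 0,.ofNat 1),(.ofNat 0,.negSucc 0),(.ofNat 1,.ofNat 0),(.ofNat 1,.ofNat 1),(.ofNat 1,.negSucc 0),(.ofNat 1,.ofNat 0),(.ofNat 1,.ofNat 0),(.negSucc 0,.negSucc 0),(.negSucc 0,.ofNat 0),(.negSucc 0,.ofNat 0),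
  (.negSucc 0,.negSucc 0),(.negSucc 0,.negSucc 0),(.negSucc 0,.ofNat 0),(.ofNat 0,.negSucc 0),(.ofNat 0,.negSucc 0),(.ofNat 1,.ofNat 0),(.ofNat 0,.negSucc 0),(.ofNat 1,.negSucc 0),(.ofNat 1,.ofNat 0),(.ofNat 1,.negSucc 0),(.ofNat 1,.ofNat 0),(.ofNat 1,.ofNat 0),
  (.negSucc 0,.ofNat 0),(.negSucc 0,.ofNat 0),(.negSucc 0,.ofNat 1),(.negSucc 0,.negSucc 0),(.negSucc 0,.ofNat 0),(.ofNat 0,.ofNat 1),(.ofNat 0,.negSucc 0),(.ofNat 1,.ofNat 0),(.ofNat 1,.ofNat 1),(.ofNat 1,.negSucc 0),(.ofNat 1,.ofNat 0),(.ofNat 1,.ofNat 0),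
  (.ofNat 1,.ofNat 0),(.ofNat 1,.ofNat 0),(.ofNat 1,.ofNat 0),(.negSucc 0,.negSucc 0),(.negSucc 0,.ofNat 0),(.negSucc 0,.ofNat 0),(.negSucc 0,.negSucc 0),(.negSucc 0,.negSucc 0),(.ofNat 0,.ofNat 1),(.ofNat 0,.negSucc 0),(.ofNat 1,.negSucc 0),(.ofNat 1,.ofNat 1),
  (.ofNat 1,.negSucc 0),(.ofNat 1,.ofNat 0),(.ofNat 1,.ofNat 0),(.ofNat 1,.negSucc 0),(.ofNat 1,.ofNat 0),(.ofNat 1,.ofNat 0),(.negSucc 0,.ofNat 0),(.negSucc 0,.ofNat 0),(.negSucc 0,.ofNat 0),(.negSucc 0,.negSucc 0),(.negSucc 0,.ofNat 0),(.negSucc 0,.ofNat 1),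
  (.ofNat 0,.negSucc 0),(.ofNat 0,.ofNat 0),(.ofNat 0,.ofNat 1),(.ofNat 1,.negSucc 0),(.ofNat 1,.ofNat 0),(.ofNat 1,.ofNat 1),(.ofNat 1,.ofNat 0),(.ofNat 1,.ofNat 0),(.ofNat 1,.ofNat 0),(.negSucc 0,.ofNat 0),(.negSucc 0,.ofNat 0),(.negSucc 0,.ofNat 0),
  (.negSucc 0,.negSucc 0),(.negSucc 0,.ofNat 0),(.negSucc 0,.ofNat 1),(.ofNat 0,.negSucc 0),(.ofNat 0,.negSucc 0),(.ofNat 1,.ofNat 1),(.ofNat 0,.negSucc 0),(.ofNat 1,.ofNat 0),(.ofNat 1,.ofNat 0),(.ofNat 1,.negSucc 0),(.ofNat 1,.ofNat 0),(.ofNat 1,.ofNat 0),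
  (.negSucc 0,.ofNat 0),(.negSucc 0,.ofNat 0),(.negSucc 0,.ofNat 0),(.negSucc 0,.negSucc 0),(.negSucc 0,.ofNat 0),(.negSucc 0,.ofNat 1),(.ofNat 0,.negSucc 0),(.ofNat 6,.negSucc 7),(.ofNat 1,.ofNat 1),(.ofNat 1,.negSucc 0),(.ofNat 1,.ofNat 0),(.ofNat 1,.ofNat 0),
  (.ofNat 1,.negSucc 0),(.ofNat 1,.ofNat 0),(.ofNat 1,.ofNat 0),(.negSucc 0,.ofNat 0),(.negSucc 0,.ofNat 0),(.negSucc 0,.ofNat 1),(.negSucc 0,.negSucc 0),(.negSucc 0,.ofNat 1),(.ofNat 0,.ofNat 1),(.ofNat 0,.negSucc 0),(.ofNat 1,.ofNat 0),(.ofNat 1,.ofNat 1),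
  (.ofNat 1,.ofNat 0),(.ofNat 1,.ofNat 0),(.ofNat 1,.ofNat 0),(.ofNat 1,.ofNat 0),(.ofNat 1,.ofNat 0),(.ofNat 1,.ofNat 0),(.negSucc 0,.ofNat 0),(.negSucc 0,.ofNat 0),(.negSucc 0,.ofNat 1),(.negSucc 0,.negSucc 0),(.negSucc 0,.ofNat 0),(.ofNat 0,.ofNat 1),
  (.ofNat 0,.negSucc 0),(.ofNat 1,.ofNat 0),(.ofNat 1,.ofNat 1),(.ofNat 1,.negSucc 0),(.ofNat 1,.ofNat 0),(.ofNat 1,.ofNat 0),(.ofNat 1,.ofNat 0),(.ofNat 1,.ofNat 0),(.ofNat 1,.ofNat 0),(.negSucc 0,.ofNat 0),(.negSucc 0,.ofNat 0),(.negSucc 0,.ofNat 1),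
  (.negSucc 0,.ofNat 0),(.negSucc 0,.ofNat 0),(.ofNat 0,.ofNat 1),(.negSucc 0,.negSucc 0),(.ofNat 0,.ofNat 1),(.ofNat 0,.ofNat 1),(.ofNat 1,.negSucc 0),(.ofNat 1,.ofNat 0),(.ofNat 1,.ofNat 1),(.ofNat 1,.ofNat 0),(.ofNat 1,.ofNat 0),(.ofNat 1,.ofNat 0),
  (.negSucc 0,.ofNat 0),(.negSucc 0,.ofNat 0),(.negSucc 0,.ofNat 0),(.negSucc 0,.negSucc 0),(.negSucc 0,.ofNat 0),(.negSucc 0,.ofNat 1),(.ofNat 0,.negSucc 0),(.ofNat 0,.ofNat 0),(.ofNat 0,.ofNat 1),(.ofNat 1,.negSucc 0),(.ofNat 1,.ofNat 0),(.ofNat 1,.ofNat 1),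
  (.ofNat 1,.ofNat 0),(.ofNat 1,.ofNat 0),(.ofNat 1,.ofNat 0)]

def E2 : Data where
  La := 1917695
  Lb := 877536
  Lc := 1679482
  T := E2T
  G := E2G
  M := 1000000
  lo := 302370
  hi := 304370
  Y0 := -1140145
  Y1 := 1002423
  X0 := -1102420
  X1 := 1005785
  Mm := 2
  Nn := 1
  S := [(.negSucc 1,.negSucc 0),(.negSucc 1,.ofNat 0),(.negSucc 1,.ofNat 1),(.negSucc 0,.negSucc 0),(.negSucc 0,.ofNat 0),(.negSucc 0,.ofNat 1),(.ofNat 0,.negSucc 0),(.ofNat 0,.ofNat 0),(.ofNat 0,.ofNat 1),(.ofNat 1,.negSucc 0),(.ofNat 1,.ofNat 0),(.ofNat 1,.ofNat 1),(.ofNat 2,.negSucc 0),(.ofNat 2,.ofNat 0),(.ofNat 2,.ofNat 1)]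
  cert := E2C

theorem E2_ok : E2.OK = true := by decide +kernel

end Pool.Agent.Lib.MP_776035_co.Tiling
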