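import Pool.Agent.Lib.MP_776035_co.Tiling.Colour

/-! Data of a periodic colouring. -/

set_option autoImplicit false
set_option maxRecDepth 100000

namespace Pool.Agent.Lib.MP_776035_co.Tiling

def E3T : List Tri := [
  ⟨(.ofNat 949724,.ofNat 719762),(.ofNat 966453,.ofNat 766023),(.ofNat 922808,.ofNat 816204),2,107,(.ofNat 1,.ofNat 0),94,(.ofNat 0,.ofNat 1),6,(.ofNat 0,.ofNat 0)⟩,
  ⟨(.ofNat 43055,.ofNat 551368),(.ofNat 14090,.ofNat 461068),(.ofNat 108092,.ofNat 363786),0,142,(.ofNat 0,.ofNat 0),47,(.ofNat 0,.ofNat 0),8,(.ofNat 0,.ofNat 0)⟩,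
  ⟨(.ofNat 763043,.ofNat 26256),(.ofNat 829740,.ofNat 33120),(.ofNat 862911,.ofNat 131278),1,127,(.ofNat 0,.ofNat 0),101,(.ofNat 1,.ofNat 0),3,(.ofNat 0,.ofNat 0)⟩,
  ⟨(.ofNat 688112,.ofNat 26256),(.ofNat 763043,.ofNat 26256),(.ofNat 862911,.ofNat 131278),1,133,(.ofNat 0,.ofNat 0),2,(.ofNat 0,.ofNat 0),4,(.ofNat 0,.ofNat 0)⟩,
  ⟨(.ofNat 688112,.ofNat 26256),(.ofNat 862911,.ofNat 131278),(.ofNat 887846,.ofNat 236301),1,3,(.ofNat 0,.ofNat 0),116,(.ofNat 1,.ofNat 0),7,(.ofNat 0,.ofNat 0)⟩,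
  ⟨(.ofNat 887846,.ofNat 236301),(.ofNat 921038,.ofNat 340548),(.ofNat 895277,.ofNat 393834),1,106,(.ofNat 1,.ofNat 0),126,(.ofNat 0,.ofNat 0),7,(.ofNat 0,.ofNat 0)⟩,
  ⟨(.ofNat 926516,.ofNat 637075),(.ofNat 949724,.ofNat 719762),(.ofNat 922808,.ofNat 816204),3,105,(.ofNat 1,.ofNat 0),0,(.ofNat 0,.ofNat 0),17,(.ofNat 0,.ofNat 0)⟩,
  ⟨(.ofNat 688112,.ofNat 26256),(.ofNat 887846,.ofNat 236301),(.ofNat 895277,.ofNat 393834),1,4,(.ofNat 0,.ofNat 0),5,(.ofNat 0,.ofNat 0),10,(.ofNat 0,.ofNat 0)⟩,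
  ⟨(.ofNat 43055,.ofNat 551368),(.ofNat 108092,.ofNat 363786),(.ofNat 415661,.ofNat 161697),0,1,(.ofNat 0,.ofNat 0),60,(.ofNat 0,.ofNat 0),11,(.ofNat 0,.ofNat 0)⟩,
  ⟨(.ofNat 415661,.ofNat 161697),(.ofNat 615952,.ofNat 4261),(.ofNat 688112,.ofNat 26256),1,54,(.ofNat 0,.ofNat 0),128,(.ofNat 0,.ofNat 0),10,(.ofNat 0,.ofNat 0)⟩,
  ⟨(.ofNat 415661,.ofNat 161697),(.ofNat 688112,.ofNat 26256),(.ofNat 895277,.ofNat 393834),1,9,(.ofNat 0,.ofNat 0),7,(.ofNat 0,.ofNat 0),11,(.ofNat 0,.ofNat 0)⟩,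
  ⟨(.ofNat 43055,.ofNat 551368),(.ofNat 415661,.ofNat 161697),(.ofNat 895277,.ofNat 393834),1,8,(.ofNat 0,.ofNat 0),10,(.ofNat 0,.ofNat 0),20,(.ofNat 0,.ofNat 0)⟩,
  ⟨(.ofNat 724573,.ofNat 984586),(.ofNat 635337,.ofNat 1004070),(.ofNat 439100,.ofNat 903711),3,70,(.ofNat 0,.ofNat 1),33,(.ofNat 0,.ofNat 1),14,(.ofNat 0,.ofNat 0)⟩,
  ⟨(.ofNat 247930,.ofNat 752439),(.ofNat 52350,.ofNat 662133),(.ofNat 47166,.ofNat 609628),3,29,(.ofNat 0,.ofNat 1),140,(.ofNat 0,.ofNat 0),19,(.ofNat 0,.ofNat 0)⟩,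
  ⟨(.ofNat 724573,.ofNat 984586),(.ofNat 439100,.ofNat 903711),(.ofNat 247930,.ofNat 752439),3,12,(.ofNat 0,.ofNat 0),30,(.ofNat 0,.ofNat 1),21,(.ofNat 0,.ofNat 0)⟩,
  ⟨(.ofNat 922808,.ofNat 816204),(.ofNat 905151,.ofNat 870162),(.ofNat 883667,.ofNat 890944),3,94,(.ofNat 0,.ofNat 1),95,(.ofNat 0,.ofNat 1),16,(.ofNat 0,.ofNat 0)⟩,
  ⟨(.ofNat 922808,.ofNat 816204),(.ofNat 883667,.ofNat 890944),(.ofNat 778914,.ofNat 945202),3,15,(.ofNat 0,.ofNat 0),69,(.ofNat 0,.ofNat 1),17,(.ofNat 0,.ofNat 0)⟩,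
  ⟨(.ofNat 926516,.ofNat 637075),(.ofNat 922808,.ofNat 816204),(.ofNat 778914,.ofNat 945202),3,6,(.ofNat 0,.ofNat 0),16,(.ofNat 0,.ofNat 0),18,(.ofNat 0,.ofNat 0)⟩,
  ⟨(.ofNat 895844,.ofNat 538240),(.ofNat 926516,.ofNat 637075),(.ofNat 778914,.ofNat 945202),3,99,(.ofNat 1,.ofNat 0),17,(.ofNat 0,.ofNat 0),22,(.ofNat 0,.ofNat 0)⟩,
  ⟨(.ofNat 247930,.ofNat 752439),(.ofNat 47166,.ofNat 609628),(.ofNat 43055,.ofNat 551368),3,13,(.ofNat 0,.ofNat 0),148,(.ofNat 0,.ofNat 0),20,(.ofNat 0,.ofNat 0)⟩,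
  ⟨(.ofNat 247930,.ofNat 752439),(.ofNat 43055,.ofNat 551368),(.ofNat 895277,.ofNat 393834),3,19,(.ofNat 0,.ofNat 0),11,(.ofNat 0,.ofNat 0),21,(.ofNat 0,.ofNat 0)⟩,
  ⟨(.ofNat 724573,.ofNat 984586),(.ofNat 247930,.ofNat 752439),(.ofNat 895277,.ofNat 393834),3,14,(.ofNat 0,.ofNat 0),20,(.ofNat 0,.ofNat 0),24,(.ofNat 0,.ofNat 0)⟩,
  ⟨(.ofNat 895844,.ofNat 538240),(.ofNat 778914,.ofNat 945202),(.ofNat 724573,.ofNat 984586),3,18,(.ofNat 0,.ofNat 0),74,(.ofNat 0,.ofNat 1),23,(.ofNat 0,.ofNat 0)⟩,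
  ⟨(.ofNat 884635,.ofNat 459473),(.ofNat 895844,.ofNat 538240),(.ofNat 724573,.ofNat 984586),3,123,(.ofNat 0,.ofNat 0),22,(.ofNat 0,.ofNat 0),24,(.ofNat 0,.ofNat 0)⟩,
  ⟨(.ofNat 895277,.ofNat 393834),(.ofNat 884635,.ofNat 459473),(.ofNat 724573,.ofNat 984586),3,126,(.ofNat 0,.ofNat 0),23,(.ofNat 0,.ofNat 0),21,(.ofNat 0,.ofNat 0)⟩,
  ⟨(.negSucc 275063,.negSucc 356839),(.negSucc 316838,.negSucc 267224),(.negSucc 408427,.negSucc 239475),5,48,(.ofNat 0,.ofNat 0),153,(.ofNat 0,.ofNat 0),43,(.ofNat 0,.ofNat 0)⟩,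
  ⟨(.negSucc 821560,.negSucc 54899),(.negSucc 1024544,.negSucc 61668),(.negSucc 1043667,.negSucc 121122),6,114,(.ofNat 0,.ofNat 0),136,(.negSucc 0,.ofNat 0),27,(.ofNat 0,.ofNat 0)⟩,
  ⟨(.negSucc 684164,.negSucc 107410),(.negSucc 821560,.negSucc 54899),(.negSucc 1043667,.negSucc 121122),6,102,(.ofNat 0,.ofNat 0),26,(.ofNat 0,.ofNat 0),34,(.ofNat 0,.ofNat 0)⟩,
  ⟨(.negSucc 1018037,.negSucc 699082),(.negSucc 977982,.negSucc 941601),(.negSucc 921066,.negSucc 961717),6,82,(.negSucc 0,.ofNat 0),141,(.ofNat 0,.negSucc 0),31,(.ofNat 0,.ofNat 0)⟩,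
  ⟨(.negSucc 862551,.negSucc 990406),(.negSucc 820580,.negSucc 1020615),(.negSucc 625000,.negSucc 930309),6,140,(.ofNat 0,.negSucc 0),13,(.ofNat 0,.negSucc 0),30,(.ofNat 0,.ofNat 0)⟩,
  ⟨(.negSucc 862551,.negSucc 990406),(.negSucc 625000,.negSucc 930309),(.negSucc 433830,.negSucc 779037),6,29,(.ofNat 0,.ofNat 0),14,(.ofNat 0,.negSucc 0),41,(.ofNat 0,.ofNat 0)⟩,
  ⟨(.negSucc 1023014,.negSucc 442944),(.negSucc 1018037,.negSucc 699082),(.negSucc 921066,.negSucc 961717),6,81,(.negSucc 0,.ofNat 0),28,(.ofNat 0,.ofNat 0),36,(.ofNat 0,.ofNat 0)⟩,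
  ⟨(.negSucc 1064550,.negSucc 171228),(.negSucc 1092801,.negSucc 225223),(.negSucc 1023014,.negSucc 442944),4,129,(.negSucc 0,.ofNat 0),80,(.negSucc 0,.ofNat 0),35,(.ofNat 0,.ofNat 0)⟩,
  ⟨(.negSucc 433830,.negSucc 779037),(.negSucc 237593,.negSucc 678678),(.negSucc 196219,.negSucc 612706),6,12,(.ofNat 0,.negSucc 0),70,(.ofNat 0,.ofNat 0),40,(.ofNat 0,.ofNat 0)⟩,
  ⟨(.negSucc 684164,.negSucc 107410),(.negSucc 1043667,.negSucc 121122),(.negSucc 1064550,.negSucc 171228),6,27,(.ofNat 0,.ofNat 0),135,(.negSucc 0,.ofNat 0),35,(.ofNat 0,.ofNat 0)⟩,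
  ⟨(.negSucc 684164,.negSucc 107410),(.negSucc 1064550,.negSucc 171228),(.negSucc 1023014,.negSucc 442944),6,34,(.ofNat 0,.ofNat 0),32,(.ofNat 0,.ofNat 0),36,(.ofNat 0,.ofNat 0)⟩,
  ⟨(.negSucc 684164,.negSucc 107410),(.negSucc 1023014,.negSucc 442944),(.negSucc 921066,.negSucc 961717),6,35,(.ofNat 0,.ofNat 0),31,(.ofNat 0,.ofNat 0),37,(.ofNat 0,.ofNat 0)⟩,
  ⟨(.negSucc 552323,.negSucc 153254),(.negSucc 684164,.negSucc 107410),(.negSucc 921066,.negSucc 961717),6,98,(.ofNat 0,.ofNat 0),36,(.ofNat 0,.ofNat 0),45,(.ofNat 0,.ofNat 0)⟩,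
  ⟨(.negSucc 149699,.negSucc 537127),(.negSucc 139449,.negSucc 527071),(.negSucc 219716,.negSucc 429103),6,78,(.ofNat 0,.ofNat 0),49,(.ofNat 0,.ofNat 0),39,(.ofNat 0,.ofNat 0)⟩,
  ⟨(.negSucc 196219,.negSucc 612706),(.negSucc 149699,.negSucc 537127),(.negSucc 219716,.negSucc 429103),6,72,(.ofNat 0,.ofNat 0),38,(.ofNat 0,.ofNat 0),40,(.ofNat 0,.ofNat 0)⟩,
  ⟨(.negSucc 433830,.negSucc 779037),(.negSucc 196219,.negSucc 612706),(.negSucc 219716,.negSucc 429103),6,33,(.ofNat 0,.ofNat 0),39,(.ofNat 0,.ofNat 0),41,(.ofNat 0,.ofNat 0)⟩,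
  ⟨(.negSucc 862551,.negSucc 990406),(.negSucc 433830,.negSucc 779037),(.negSucc 219716,.negSucc 429103),6,30,(.ofNat 0,.ofNat 0),40,(.ofNat 0,.ofNat 0),42,(.ofNat 0,.ofNat 0)⟩,
  ⟨(.negSucc 862551,.negSucc 990406),(.negSucc 219716,.negSucc 429103),(.negSucc 275063,.negSucc 356839),6,41,(.ofNat 0,.ofNat 0),52,(.ofNat 0,.ofNat 0),43,(.ofNat 0,.ofNat 0)⟩,
  ⟨(.negSucc 862551,.negSucc 990406),(.negSucc 275063,.negSucc 356839),(.negSucc 408427,.negSucc 239475),6,42,(.ofNat 0,.ofNat 0),25,(.ofNat 0,.ofNat 0),44,(.ofNat 0,.ofNat 0)⟩,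
  ⟨(.negSucc 862551,.negSucc 990406),(.negSucc 408427,.negSucc 239475),(.negSucc 493530,.negSucc 200533),6,43,(.ofNat 0,.ofNat 0),156,(.ofNat 0,.ofNat 0),46,(.ofNat 0,.ofNat 0)⟩,
  ⟨(.negSucc 493530,.negSucc 200533),(.negSucc 552323,.negSucc 153254),(.negSucc 921066,.negSucc 961717),6,154,(.ofNat 0,.ofNat 0),37,(.ofNat 0,.ofNat 0),46,(.ofNat 0,.ofNat 0)⟩,
  ⟨(.negSucc 493530,.negSucc 200533),(.negSucc 921066,.negSucc 961717),(.negSucc 862551,.negSucc 990406),6,45,(.ofNat 0,.ofNat 0),144,(.ofNat 0,.negSucc 0),44,(.ofNat 0,.ofNat 0)⟩,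
  ⟨(.ofNat 108092,.ofNat 363786),(.ofNat 14090,.ofNat 461068),(.negSucc 161776,.ofNat 455821),7,1,(.ofNat 0,.ofNat 0),142,(.ofNat 0,.ofNat 0),61,(.ofNat 0,.ofNat 0)⟩,
  ⟨(.negSucc 266401,.negSucc 140683),(.negSucc 316838,.negSucc 267224),(.negSucc 275063,.negSucc 356839),8,153,(.ofNat 0,.ofNat 0),25,(.ofNat 0,.ofNat 0),52,(.ofNat 0,.ofNat 0)⟩,
  ⟨(.negSucc 219716,.negSucc 429103),(.negSucc 139449,.negSucc 527071),(.negSucc 96026,.negSucc 517400),8,38,(.ofNat 0,.ofNat 0),78,(.ofNat 0,.ofNat 0),53,(.ofNat 0,.ofNat 0)⟩,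
  ⟨(.ofNat 439193,.negSucc 294351),(.ofNat 597264,.negSucc 163334),(.ofNat 607071,.negSucc 69457),8,89,(.ofNat 0,.ofNat 0),130,(.ofNat 0,.ofNat 0),51,(.ofNat 0,.ofNat 0)⟩,
  ⟨(.ofNat 205235,.negSucc 402052),(.ofNat 439193,.negSucc 294351),(.ofNat 607071,.negSucc 69457),8,92,(.ofNat 0,.ofNat 0),50,(.ofNat 0,.ofNat 0),58,(.ofNat 0,.ofNat 0)⟩,
  ⟨(.negSucc 266401,.negSucc 140683),(.negSucc 275063,.negSucc 356839),(.negSucc 219716,.negSucc 429103),8,48,(.ofNat 0,.ofNat 0),42,(.ofNat 0,.ofNat 0),53,(.ofNat 0,.ofNat 0)⟩,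
  ⟨(.negSucc 266401,.negSucc 140683),(.negSucc 219716,.negSucc 429103),(.negSucc 96026,.negSucc 517400),8,52,(.ofNat 0,.ofNat 0),49,(.ofNat 0,.ofNat 0),56,(.ofNat 0,.ofNat 0)⟩,
  ⟨(.ofNat 607572,.negSucc 54899),(.ofNat 615952,.ofNat 4261),(.ofNat 415661,.ofNat 161697),9,128,(.ofNat 0,.ofNat 0),9,(.ofNat 0,.ofNat 0),60,(.ofNat 0,.ofNat 0)⟩,
  ⟨(.negSucc 37281,.negSucc 514373),(.ofNat 23156,.negSucc 521678),(.ofNat 205235,.negSucc 402052),8,71,(.ofNat 0,.ofNat 0),88,(.ofNat 0,.ofNat 0),57,(.ofNat 0,.ofNat 0)⟩,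
  ⟨(.negSucc 266401,.negSucc 140683),(.negSucc 96026,.negSucc 517400),(.negSucc 37281,.negSucc 514373),8,53,(.ofNat 0,.ofNat 0),77,(.ofNat 0,.ofNat 0),57,(.ofNat 0,.ofNat 0)⟩,
  ⟨(.negSucc 266401,.negSucc 140683),(.negSucc 37281,.negSucc 514373),(.ofNat 205235,.negSucc 402052),8,56,(.ofNat 0,.ofNat 0),55,(.ofNat 0,.ofNat 0),58,(.ofNat 0,.ofNat 0)⟩,
  ⟨(.negSucc 266401,.negSucc 140683),(.ofNat 205235,.negSucc 402052),(.ofNat 607071,.negSucc 69457),8,57,(.ofNat 0,.ofNat 0),51,(.ofNat 0,.ofNat 0),59,(.ofNat 0,.ofNat 0)⟩,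
  ⟨(.negSucc 282471,.negSucc 12474),(.negSucc 266401,.negSucc 140683),(.ofNat 607071,.negSucc 69457),9,155,(.ofNat 0,.ofNat 0),58,(.ofNat 0,.ofNat 0),63,(.ofNat 0,.ofNat 0)⟩,
  ⟨(.ofNat 607572,.negSucc 54899),(.ofNat 415661,.ofNat 161697),(.ofNat 108092,.ofNat 363786),9,54,(.ofNat 0,.ofNat 0),8,(.ofNat 0,.ofNat 0),61,(.ofNat 0,.ofNat 0)⟩,
  ⟨(.ofNat 607572,.negSucc 54899),(.ofNat 108092,.ofNat 363786),(.negSucc 161776,.ofNat 455821),9,60,(.ofNat 0,.ofNat 0),47,(.ofNat 0,.ofNat 0),66,(.ofNat 0,.ofNat 0)⟩,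
  ⟨(.negSucc 245904,.ofNat 170662),(.negSucc 292740,.ofNat 5666),(.negSucc 282471,.negSucc 12474),9,100,(.ofNat 0,.ofNat 0),159,(.ofNat 0,.ofNat 0),63,(.ofNat 0,.ofNat 0)⟩,
  ⟨(.negSucc 245904,.ofNat 170662),(.negSucc 282471,.negSucc 12474),(.ofNat 607071,.negSucc 69457),9,62,(.ofNat 0,.ofNat 0),59,(.ofNat 0,.ofNat 0),64,(.ofNat 0,.ofNat 0)⟩,
  ⟨(.negSucc 215351,.ofNat 315066),(.negSucc 245904,.ofNat 170662),(.ofNat 607071,.negSucc 69457),9,104,(.ofNat 0,.ofNat 0),63,(.ofNat 0,.ofNat 0),65,(.ofNat 0,.ofNat 0)⟩,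
  ⟨(.negSucc 174029,.ofNat 458684),(.negSucc 215351,.ofNat 315066),(.ofNat 607071,.negSucc 69457),9,103,(.ofNat 0,.ofNat 0),64,(.ofNat 0,.ofNat 0),68,(.ofNat 0,.ofNat 0)⟩,
  ⟨(.ofNat 607071,.negSucc 69457),(.ofNat 607572,.negSucc 54899),(.negSucc 161776,.ofNat 455821),9,139,(.ofNat 0,.ofNat 0),61,(.ofNat 0,.ofNat 0),67,(.ofNat 0,.ofNat 0)⟩,
  ⟨(.ofNat 607071,.negSucc 69457),(.negSucc 161776,.ofNat 455821),(.negSucc 167673,.ofNat 454716),9,66,(.ofNat 0,.ofNat 0),143,(.ofNat 0,.ofNat 0),68,(.ofNat 0,.ofNat 0)⟩,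
  ⟨(.ofNat 607071,.negSucc 69457),(.negSucc 167673,.ofNat 454716),(.negSucc 174029,.ofNat 458684),9,67,(.ofNat 0,.ofNat 0),143,(.ofNat 0,.ofNat 0),65,(.ofNat 0,.ofNat 0)⟩,
  ⟨(.negSucc 94016,.negSucc 737546),(.ofNat 10736,.negSucc 791804),(.ofNat 8369,.negSucc 685034),10,16,(.ofNat 0,.negSucc 0),95,(.ofNat 0,.ofNat 0),73,(.ofNat 0,.ofNat 0)⟩,
  ⟨(.negSucc 196219,.negSucc 612706),(.negSucc 237593,.negSucc 678678),(.negSucc 148357,.negSucc 698162),10,33,(.ofNat 0,.ofNat 0),12,(.ofNat 0,.negSucc 0),72,(.ofNat 0,.ofNat 0)⟩,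
  ⟨(.negSucc 7283,.negSucc 622715),(.ofNat 23156,.negSucc 521678),(.negSucc 37281,.negSucc 514373),10,88,(.ofNat 0,.ofNat 0),55,(.ofNat 0,.ofNat 0),76,(.ofNat 0,.ofNat 0)⟩,
  ⟨(.negSucc 149699,.negSucc 537127),(.negSucc 196219,.negSucc 612706),(.negSucc 148357,.negSucc 698162),10,39,(.ofNat 0,.ofNat 0),70,(.ofNat 0,.ofNat 0),75,(.ofNat 0,.ofNat 0)⟩,
  ⟨(.negSucc 94016,.negSucc 737546),(.ofNat 8369,.negSucc 685034),(.negSucc 7283,.negSucc 622715),10,69,(.ofNat 0,.ofNat 0),97,(.ofNat 0,.ofNat 0),74,(.ofNat 0,.ofNat 0)⟩,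
  ⟨(.negSucc 148357,.negSucc 698162),(.negSucc 94016,.negSucc 737546),(.negSucc 7283,.negSucc 622715),10,22,(.ofNat 0,.negSucc 0),73,(.ofNat 0,.ofNat 0),75,(.ofNat 0,.ofNat 0)⟩,
  ⟨(.negSucc 149699,.negSucc 537127),(.negSucc 148357,.negSucc 698162),(.negSucc 7283,.negSucc 622715),10,72,(.ofNat 0,.ofNat 0),74,(.ofNat 0,.ofNat 0),76,(.ofNat 0,.ofNat 0)⟩,
  ⟨(.negSucc 149699,.negSucc 537127),(.negSucc 7283,.negSucc 622715),(.negSucc 37281,.negSucc 514373),10,75,(.ofNat 0,.ofNat 0),71,(.ofNat 0,.ofNat 0),77,(.ofNat 0,.ofNat 0)⟩,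
  ⟨(.negSucc 149699,.negSucc 537127),(.negSucc 37281,.negSucc 514373),(.negSucc 96026,.negSucc 517400),10,76,(.ofNat 0,.ofNat 0),56,(.ofNat 0,.ofNat 0),78,(.ofNat 0,.ofNat 0)⟩,
  ⟨(.negSucc 96026,.negSucc 517400),(.negSucc 139449,.negSucc 527071),(.negSucc 149699,.negSucc 537127),10,49,(.ofNat 0,.ofNat 0),38,(.ofNat 0,.ofNat 0),77,(.ofNat 0,.ofNat 0)⟩,
  ⟨(.ofNat 580493,.negSucc 1052613),(.ofNat 808468,.negSucc 1140773),(.ofNat 828397,.negSucc 1065741),12,110,(.ofNat 1,.negSucc 0),147,(.ofNat 1,.negSucc 0),83,(.ofNat 0,.ofNat 0)⟩,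
  ⟨(.ofNat 885680,.negSucc 442944),(.ofNat 815893,.negSucc 225223),(.ofNat 720032,.negSucc 212433),11,32,(.ofNat 1,.ofNat 0),129,(.ofNat 0,.ofNat 0),81,(.ofNat 0,.ofNat 0)⟩,
  ⟨(.ofNat 890657,.negSucc 699082),(.ofNat 885680,.negSucc 442944),(.ofNat 720032,.negSucc 212433),11,31,(.ofNat 1,.ofNat 0),80,(.ofNat 0,.ofNat 0),85,(.ofNat 0,.ofNat 0)⟩,
  ⟨(.ofNat 862714,.negSucc 1000102),(.ofNat 930712,.negSucc 941601),(.ofNat 890657,.negSucc 699082),12,141,(.ofNat 1,.negSucc 0),28,(.ofNat 1,.ofNat 0),84,(.ofNat 0,.ofNat 0)⟩,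
  ⟨(.ofNat 580493,.negSucc 1052613),(.ofNat 828397,.negSucc 1065741),(.ofNat 862714,.negSucc 1000102),12,79,(.ofNat 0,.ofNat 0),146,(.ofNat 1,.negSucc 0),84,(.ofNat 0,.ofNat 0)⟩,
  ⟨(.ofNat 580493,.negSucc 1052613),(.ofNat 862714,.negSucc 1000102),(.ofNat 890657,.negSucc 699082),12,83,(.ofNat 0,.ofNat 0),82,(.ofNat 0,.ofNat 0),85,(.ofNat 0,.ofNat 0)⟩,
  ⟨(.ofNat 580493,.negSucc 1052613),(.ofNat 890657,.negSucc 699082),(.ofNat 720032,.negSucc 212433),12,84,(.ofNat 0,.ofNat 0),81,(.ofNat 0,.ofNat 0),86,(.ofNat 0,.ofNat 0)⟩,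
  ⟨(.ofNat 351920,.negSucc 973846),(.ofNat 580493,.negSucc 1052613),(.ofNat 720032,.negSucc 212433),12,109,(.ofNat 1,.negSucc 0),85,(.ofNat 0,.ofNat 0),87,(.ofNat 0,.ofNat 0)⟩,
  ⟨(.ofNat 93522,.negSucc 916725),(.ofNat 351920,.negSucc 973846),(.ofNat 720032,.negSucc 212433),13,107,(.ofNat 1,.negSucc 0),86,(.ofNat 0,.ofNat 0),91,(.ofNat 0,.ofNat 0)⟩,
  ⟨(.ofNat 205235,.negSucc 402052),(.ofNat 23156,.negSucc 521678),(.negSucc 7283,.negSucc 622715),13,55,(.ofNat 0,.ofNat 0),71,(.ofNat 0,.ofNat 0),93,(.ofNat 0,.ofNat 0)⟩,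
  ⟨(.ofNat 643841,.negSucc 186177),(.ofNat 597264,.negSucc 163334),(.ofNat 439193,.negSucc 294351),13,130,(.ofNat 0,.ofNat 0),50,(.ofNat 0,.ofNat 0),90,(.ofNat 0,.ofNat 0)⟩,
  ⟨(.ofNat 720032,.negSucc 212433),(.ofNat 643841,.negSucc 186177),(.ofNat 439193,.negSucc 294351),13,131,(.ofNat 0,.ofNat 0),89,(.ofNat 0,.ofNat 0),91,(.ofNat 0,.ofNat 0)⟩,
  ⟨(.ofNat 93522,.negSucc 916725),(.ofNat 720032,.negSucc 212433),(.ofNat 439193,.negSucc 294351),13,87,(.ofNat 0,.ofNat 0),90,(.ofNat 0,.ofNat 0),92,(.ofNat 0,.ofNat 0)⟩,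
  ⟨(.ofNat 93522,.negSucc 916725),(.ofNat 439193,.negSucc 294351),(.ofNat 205235,.negSucc 402052),13,91,(.ofNat 0,.ofNat 0),51,(.ofNat 0,.ofNat 0),93,(.ofNat 0,.ofNat 0)⟩,
  ⟨(.ofNat 93522,.negSucc 916725),(.ofNat 205235,.negSucc 402052),(.negSucc 7283,.negSucc 622715),13,92,(.ofNat 0,.ofNat 0),88,(.ofNat 0,.ofNat 0),97,(.ofNat 0,.ofNat 0)⟩,
  ⟨(.ofNat 32220,.negSucc 812586),(.ofNat 49877,.negSucc 866544),(.ofNat 93522,.negSucc 916725),13,15,(.ofNat 0,.negSucc 0),0,(.ofNat 0,.negSucc 0),96,(.ofNat 0,.ofNat 0)⟩,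
  ⟨(.ofNat 8369,.negSucc 685034),(.ofNat 10736,.negSucc 791804),(.ofNat 32220,.negSucc 812586),13,69,(.ofNat 0,.ofNat 0),15,(.ofNat 0,.negSucc 0),96,(.ofNat 0,.ofNat 0)⟩,
  ⟨(.ofNat 8369,.negSucc 685034),(.ofNat 32220,.negSucc 812586),(.ofNat 93522,.negSucc 916725),13,95,(.ofNat 0,.ofNat 0),94,(.ofNat 0,.ofNat 0),97,(.ofNat 0,.ofNat 0)⟩,
  ⟨(.negSucc 7283,.negSucc 622715),(.ofNat 8369,.negSucc 685034),(.ofNat 93522,.negSucc 916725),13,73,(.ofNat 0,.ofNat 0),96,(.ofNat 0,.ofNat 0),93,(.ofNat 0,.ofNat 0)⟩,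
  ⟨(.negSucc 684164,.negSucc 107410),(.negSucc 552323,.negSucc 153254),(.negSucc 491861,.negSucc 54899),14,37,(.ofNat 0,.ofNat 0),154,(.ofNat 0,.ofNat 0),102,(.ofNat 0,.ofNat 0)⟩,
  ⟨(.negSucc 982178,.ofNat 637075),(.negSucc 1012850,.ofNat 538240),(.negSucc 943523,.ofNat 498857),15,18,(.negSucc 0,.ofNat 0),123,(.negSucc 0,.ofNat 0),105,(.ofNat 0,.ofNat 0)⟩,
  ⟨(.negSucc 410061,.ofNat 0),(.negSucc 292740,.ofNat 5666),(.negSucc 245904,.ofNat 170662),15,159,(.ofNat 0,.ofNat 0),62,(.ofNat 0,.ofNat 0),104,(.ofNat 0,.ofNat 0)⟩,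
  ⟨(.negSucc 1045783,.ofNat 131278),(.negSucc 1078954,.ofNat 33120),(.negSucc 1053701,.negSucc 16891),15,2,(.negSucc 0,.ofNat 0),127,(.negSucc 0,.ofNat 0),115,(.ofNat 0,.ofNat 0)⟩,
  ⟨(.negSucc 821560,.negSucc 54899),(.negSucc 684164,.negSucc 107410),(.negSucc 491861,.negSucc 54899),15,27,(.ofNat 0,.ofNat 0),98,(.ofNat 0,.ofNat 0),112,(.ofNat 0,.ofNat 0)⟩,
  ⟨(.negSucc 215351,.ofNat 315066),(.negSucc 174029,.ofNat 458684),(.negSucc 205118,.ofNat 499808),15,65,(.ofNat 0,.ofNat 0),150,(.ofNat 0,.ofNat 0),111,(.ofNat 0,.ofNat 0)⟩,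
  ⟨(.negSucc 410061,.ofNat 0),(.negSucc 245904,.ofNat 170662),(.negSucc 215351,.ofNat 315066),15,100,(.ofNat 0,.ofNat 0),64,(.ofNat 0,.ofNat 0),111,(.ofNat 0,.ofNat 0)⟩,
  ⟨(.negSucc 958970,.ofNat 719762),(.negSucc 982178,.ofNat 637075),(.negSucc 943523,.ofNat 498857),15,6,(.negSucc 0,.ofNat 0),99,(.ofNat 0,.ofNat 0),108,(.ofNat 0,.ofNat 0)⟩,
  ⟨(.negSucc 902909,.ofNat 433218),(.negSucc 987656,.ofNat 340548),(.negSucc 1020848,.ofNat 236301),15,125,(.negSucc 0,.ofNat 0),5,(.negSucc 0,.ofNat 0),117,(.ofNat 0,.ofNat 0)⟩,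
  ⟨(.negSucc 683843,.ofNat 708902),(.negSucc 942241,.ofNat 766023),(.negSucc 958970,.ofNat 719762),15,87,(.negSucc 0,.ofNat 1),0,(.negSucc 0,.ofNat 0),108,(.ofNat 0,.ofNat 0)⟩,
  ⟨(.negSucc 683843,.ofNat 708902),(.negSucc 958970,.ofNat 719762),(.negSucc 943523,.ofNat 498857),15,107,(.ofNat 0,.ofNat 0),105,(.ofNat 0,.ofNat 0),109,(.ofNat 0,.ofNat 0)⟩,
  ⟨(.negSucc 455270,.ofNat 630135),(.negSucc 683843,.ofNat 708902),(.negSucc 943523,.ofNat 498857),15,86,(.negSucc 0,.ofNat 1),108,(.ofNat 0,.ofNat 0),110,(.ofNat 0,.ofNat 0)⟩,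
  ⟨(.negSucc 227295,.ofNat 541975),(.negSucc 455270,.ofNat 630135),(.negSucc 943523,.ofNat 498857),15,79,(.negSucc 0,.ofNat 1),109,(.ofNat 0,.ofNat 0),118,(.ofNat 0,.ofNat 0)⟩,
  ⟨(.negSucc 410061,.ofNat 0),(.negSucc 215351,.ofNat 315066),(.negSucc 205118,.ofNat 499808),15,104,(.ofNat 0,.ofNat 0),103,(.ofNat 0,.ofNat 0),113,(.ofNat 0,.ofNat 0)⟩,
  ⟨(.negSucc 821560,.negSucc 54899),(.negSucc 491861,.negSucc 54899),(.negSucc 410061,.ofNat 0),15,102,(.ofNat 0,.ofNat 0),158,(.ofNat 0,.ofNat 0),113,(.ofNat 0,.ofNat 0)⟩,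
  ⟨(.negSucc 821560,.negSucc 54899),(.negSucc 410061,.ofNat 0),(.negSucc 205118,.ofNat 499808),15,112,(.ofNat 0,.ofNat 0),111,(.ofNat 0,.ofNat 0),114,(.ofNat 0,.ofNat 0)⟩,
  ⟨(.negSucc 1024544,.negSucc 61668),(.negSucc 821560,.negSucc 54899),(.negSucc 205118,.ofNat 499808),15,26,(.ofNat 0,.ofNat 0),113,(.ofNat 0,.ofNat 0),121,(.ofNat 0,.ofNat 0)⟩,
  ⟨(.negSucc 1045783,.ofNat 131278),(.negSucc 1053701,.negSucc 16891),(.negSucc 1033436,.negSucc 40862),15,101,(.ofNat 0,.ofNat 0),137,(.negSucc 0,.ofNat 0),116,(.ofNat 0,.ofNat 0)⟩,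
  ⟨(.negSucc 1020848,.ofNat 236301),(.negSucc 1045783,.ofNat 131278),(.negSucc 1033436,.negSucc 40862),15,4,(.negSucc 0,.ofNat 0),115,(.ofNat 0,.ofNat 0),117,(.ofNat 0,.ofNat 0)⟩,
  ⟨(.negSucc 902909,.ofNat 433218),(.negSucc 1020848,.ofNat 236301),(.negSucc 1033436,.negSucc 40862),15,106,(.ofNat 0,.ofNat 0),116,(.ofNat 0,.ofNat 0),119,(.ofNat 0,.ofNat 0)⟩,
  ⟨(.negSucc 227295,.ofNat 541975),(.negSucc 943523,.ofNat 498857),(.negSucc 902909,.ofNat 433218),15,110,(.ofNat 0,.ofNat 0),124,(.negSucc 0,.ofNat 0),119,(.ofNat 0,.ofNat 0)⟩,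
  ⟨(.negSucc 227295,.ofNat 541975),(.negSucc 902909,.ofNat 433218),(.negSucc 1033436,.negSucc 40862),15,118,(.ofNat 0,.ofNat 0),117,(.ofNat 0,.ofNat 0),120,(.ofNat 0,.ofNat 0)⟩,
  ⟨(.negSucc 208267,.ofNat 504915),(.negSucc 227295,.ofNat 541975),(.negSucc 1033436,.negSucc 40862),15,152,(.ofNat 0,.ofNat 0),119,(.ofNat 0,.ofNat 0),122,(.ofNat 0,.ofNat 0)⟩,
  ⟨(.negSucc 1033436,.negSucc 40862),(.negSucc 1024544,.negSucc 61668),(.negSucc 205118,.ofNat 499808),15,137,(.negSucc 0,.ofNat 0),114,(.ofNat 0,.ofNat 0),122,(.ofNat 0,.ofNat 0)⟩,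
  ⟨(.negSucc 1033436,.negSucc 40862),(.negSucc 205118,.ofNat 499808),(.negSucc 208267,.ofNat 504915),15,121,(.ofNat 0,.ofNat 0),152,(.ofNat 0,.ofNat 0),120,(.ofNat 0,.ofNat 0)⟩,
  ⟨(.ofNat 965171,.ofNat 498857),(.ofNat 895844,.ofNat 538240),(.ofNat 884635,.ofNat 459473),16,99,(.ofNat 1,.ofNat 0),23,(.ofNat 0,.ofNat 0),124,(.ofNat 0,.ofNat 0)⟩,
  ⟨(.ofNat 1005785,.ofNat 433218),(.ofNat 965171,.ofNat 498857),(.ofNat 884635,.ofNat 459473),16,118,(.ofNat 1,.ofNat 0),123,(.ofNat 0,.ofNat 0),125,(.ofNat 0,.ofNat 0)⟩,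
  ⟨(.ofNat 921038,.ofNat 340548),(.ofNat 1005785,.ofNat 433218),(.ofNat 884635,.ofNat 459473),16,106,(.ofNat 1,.ofNat 0),124,(.ofNat 0,.ofNat 0),126,(.ofNat 0,.ofNat 0)⟩,
  ⟨(.ofNat 884635,.ofNat 459473),(.ofNat 895277,.ofNat 393834),(.ofNat 921038,.ofNat 340548),16,24,(.ofNat 0,.ofNat 0),5,(.ofNat 0,.ofNat 0),125,(.ofNat 0,.ofNat 0)⟩,
  ⟨(.ofNat 854993,.negSucc 16891),(.ofNat 829740,.ofNat 33120),(.ofNat 763043,.ofNat 26256),17,101,(.ofNat 1,.ofNat 0),2,(.ofNat 0,.ofNat 0),134,(.ofNat 0,.ofNat 0)⟩,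
  ⟨(.ofNat 688112,.ofNat 26256),(.ofNat 615952,.ofNat 4261),(.ofNat 607572,.negSucc 54899),17,9,(.ofNat 0,.ofNat 0),54,(.ofNat 0,.ofNat 0),133,(.ofNat 0,.ofNat 0)⟩,
  ⟨(.ofNat 720032,.negSucc 212433),(.ofNat 815893,.negSucc 225223),(.ofNat 844144,.negSucc 171228),17,80,(.ofNat 0,.ofNat 0),32,(.ofNat 1,.ofNat 0),132,(.ofNat 0,.ofNat 0)⟩,
  ⟨(.ofNat 607071,.negSucc 69457),(.ofNat 597264,.negSucc 163334),(.ofNat 643841,.negSucc 186177),17,50,(.ofNat 0,.ofNat 0),89,(.ofNat 0,.ofNat 0),131,(.ofNat 0,.ofNat 0)⟩,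
  ⟨(.ofNat 607071,.negSucc 69457),(.ofNat 643841,.negSucc 186177),(.ofNat 720032,.negSucc 212433),17,130,(.ofNat 0,.ofNat 0),90,(.ofNat 0,.ofNat 0),132,(.ofNat 0,.ofNat 0)⟩,
  ⟨(.ofNat 607071,.negSucc 69457),(.ofNat 720032,.negSucc 212433),(.ofNat 844144,.negSucc 171228),17,131,(.ofNat 0,.ofNat 0),129,(.ofNat 0,.ofNat 0),135,(.ofNat 0,.ofNat 0)⟩,
  ⟨(.ofNat 763043,.ofNat 26256),(.ofNat 688112,.ofNat 26256),(.ofNat 607572,.negSucc 54899),17,3,(.ofNat 0,.ofNat 0),128,(.ofNat 0,.ofNat 0),134,(.ofNat 0,.ofNat 0)⟩,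
  ⟨(.ofNat 854993,.negSucc 16891),(.ofNat 763043,.ofNat 26256),(.ofNat 607572,.negSucc 54899),17,127,(.ofNat 0,.ofNat 0),133,(.ofNat 0,.ofNat 0),139,(.ofNat 0,.ofNat 0)⟩,
  ⟨(.ofNat 607071,.negSucc 69457),(.ofNat 844144,.negSucc 171228),(.ofNat 865027,.negSucc 121122),17,132,(.ofNat 0,.ofNat 0),34,(.ofNat 1,.ofNat 0),136,(.ofNat 0,.ofNat 0)⟩,
  ⟨(.ofNat 607071,.negSucc 69457),(.ofNat 865027,.negSucc 121122),(.ofNat 884150,.negSucc 61668),17,135,(.ofNat 0,.ofNat 0),26,(.ofNat 1,.ofNat 0),138,(.ofNat 0,.ofNat 0)⟩,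
  ⟨(.ofNat 884150,.negSucc 61668),(.ofNat 875258,.negSucc 40862),(.ofNat 854993,.negSucc 16891),17,121,(.ofNat 1,.ofNat 0),115,(.ofNat 1,.ofNat 0),138,(.ofNat 0,.ofNat 0)⟩,
  ⟨(.ofNat 607071,.negSucc 69457),(.ofNat 884150,.negSucc 61668),(.ofNat 854993,.negSucc 16891),17,136,(.ofNat 0,.ofNat 0),137,(.ofNat 0,.ofNat 0),139,(.ofNat 0,.ofNat 0)⟩,
  ⟨(.ofNat 607572,.negSucc 54899),(.ofNat 607071,.negSucc 69457),(.ofNat 854993,.negSucc 16891),17,66,(.ofNat 0,.ofNat 0),138,(.ofNat 0,.ofNat 0),134,(.ofNat 0,.ofNat 0)⟩,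
  ⟨(.ofNat 47166,.ofNat 609628),(.ofNat 52350,.ofNat 662133),(.ofNat 10379,.ofNat 692342),18,13,(.ofNat 0,.ofNat 0),29,(.ofNat 0,.ofNat 1),144,(.ofNat 0,.ofNat 0)⟩,
  ⟨(.negSucc 48135,.ofNat 721031),(.negSucc 105051,.ofNat 741147),(.negSucc 173049,.ofNat 682646),18,28,(.ofNat 0,.ofNat 1),82,(.negSucc 0,.ofNat 1),145,(.ofNat 0,.ofNat 0)⟩,
  ⟨(.negSucc 161776,.ofNat 455821),(.ofNat 14090,.ofNat 461068),(.ofNat 43055,.ofNat 551368),18,47,(.ofNat 0,.ofNat 0),1,(.ofNat 0,.ofNat 0),149,(.ofNat 0,.ofNat 0)⟩,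
  ⟨(.negSucc 174029,.ofNat 458684),(.negSucc 167673,.ofNat 454716),(.negSucc 161776,.ofNat 455821),18,68,(.ofNat 0,.ofNat 0),67,(.ofNat 0,.ofNat 0),150,(.ofNat 0,.ofNat 0)⟩,
  ⟨(.ofNat 47166,.ofNat 609628),(.ofNat 10379,.ofNat 692342),(.negSucc 48135,.ofNat 721031),18,140,(.ofNat 0,.ofNat 0),46,(.ofNat 0,.ofNat 1),145,(.ofNat 0,.ofNat 0)⟩,
  ⟨(.ofNat 47166,.ofNat 609628),(.negSucc 48135,.ofNat 721031),(.negSucc 173049,.ofNat 682646),18,144,(.ofNat 0,.ofNat 0),141,(.ofNat 0,.ofNat 0),146,(.ofNat 0,.ofNat 0)⟩,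
  ⟨(.ofNat 47166,.ofNat 609628),(.negSucc 173049,.ofNat 682646),(.negSucc 207366,.ofNat 617007),18,145,(.ofNat 0,.ofNat 0),83,(.negSucc 0,.ofNat 1),147,(.ofNat 0,.ofNat 0)⟩,
  ⟨(.ofNat 47166,.ofNat 609628),(.negSucc 207366,.ofNat 617007),(.negSucc 227295,.ofNat 541975),18,146,(.ofNat 0,.ofNat 0),79,(.negSucc 0,.ofNat 1),148,(.ofNat 0,.ofNat 0)⟩,
  ⟨(.ofNat 43055,.ofNat 551368),(.ofNat 47166,.ofNat 609628),(.negSucc 227295,.ofNat 541975),18,19,(.ofNat 0,.ofNat 0),147,(.ofNat 0,.ofNat 0),149,(.ofNat 0,.ofNat 0)⟩,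
  ⟨(.negSucc 161776,.ofNat 455821),(.ofNat 43055,.ofNat 551368),(.negSucc 227295,.ofNat 541975),18,142,(.ofNat 0,.ofNat 0),148,(.ofNat 0,.ofNat 0),151,(.ofNat 0,.ofNat 0)⟩,
  ⟨(.negSucc 205118,.ofNat 499808),(.negSucc 174029,.ofNat 458684),(.negSucc 161776,.ofNat 455821),18,103,(.ofNat 0,.ofNat 0),143,(.ofNat 0,.ofNat 0),151,(.ofNat 0,.ofNat 0)⟩,
  ⟨(.negSucc 205118,.ofNat 499808),(.negSucc 161776,.ofNat 455821),(.negSucc 227295,.ofNat 541975),18,150,(.ofNat 0,.ofNat 0),149,(.ofNat 0,.ofNat 0),152,(.ofNat 0,.ofNat 0)⟩,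
  ⟨(.negSucc 227295,.ofNat 541975),(.negSucc 208267,.ofNat 504915),(.negSucc 205118,.ofNat 499808),18,120,(.ofNat 0,.ofNat 0),122,(.ofNat 0,.ofNat 0),151,(.ofNat 0,.ofNat 0)⟩,
  ⟨(.negSucc 408427,.negSucc 239475),(.negSucc 316838,.negSucc 267224),(.negSucc 266401,.negSucc 140683),19,25,(.ofNat 0,.ofNat 0),48,(.ofNat 0,.ofNat 0),155,(.ofNat 0,.ofNat 0)⟩,
  ⟨(.negSucc 491861,.negSucc 54899),(.negSucc 552323,.negSucc 153254),(.negSucc 493530,.negSucc 200533),19,98,(.ofNat 0,.ofNat 0),45,(.ofNat 0,.ofNat 0),156,(.ofNat 0,.ofNat 0)⟩,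
  ⟨(.negSucc 408427,.negSucc 239475),(.negSucc 266401,.negSucc 140683),(.negSucc 282471,.negSucc 12474),19,153,(.ofNat 0,.ofNat 0),59,(.ofNat 0,.ofNat 0),157,(.ofNat 0,.ofNat 0)⟩,
  ⟨(.negSucc 491861,.negSucc 54899),(.negSucc 493530,.negSucc 200533),(.negSucc 408427,.negSucc 239475),19,154,(.ofNat 0,.ofNat 0),44,(.ofNat 0,.ofNat 0),157,(.ofNat 0,.ofNat 0)⟩,
  ⟨(.negSucc 491861,.negSucc 54899),(.negSucc 408427,.negSucc 239475),(.negSucc 282471,.negSucc 12474),19,156,(.ofNat 0,.ofNat 0),155,(.ofNat 0,.ofNat 0),158,(.ofNat 0,.ofNat 0)⟩,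
  ⟨(.negSucc 410061,.ofNat 0),(.negSucc 491861,.negSucc 54899),(.negSucc 282471,.negSucc 12474),19,112,(.ofNat 0,.ofNat 0),157,(.ofNat 0,.ofNat 0),159,(.ofNat 0,.ofNat 0)⟩,
  ⟨(.negSucc 282471,.negSucc 12474),(.negSucc 292740,.ofNat 5666),(.negSucc 410061,.ofNat 0),19,62,(.ofNat 0,.ofNat 0),100,(.ofNat 0,.ofNat 0),158,(.ofNat 0,.ofNat 0)⟩]

def E3G : List Grp := [
  ⟨0,[(.ofNat 43055,.ofNat 551368),(.ofNat 14090,.ofNat 461068),(.ofNat 108092,.ofNat 363786),(.ofNat 415661,.ofNat 161697)]⟩,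
  ⟨0,[(.ofNat 763043,.ofNat 26256),(.ofNat 829740,.ofNat 33120),(.ofNat 862911,.ofNat 131278),(.ofNat 688112,.ofNat 26256),(.ofNat 887846,.ofNat 236301),(.ofNat 921038,.ofNat 340548),(.ofNat 895277,.ofNat 393834),(.ofNat 415661,.ofNat 161697),(.ofNat 615952,.ofNat 4261),(.ofNat 43055,.ofNat 551368)]⟩,
  ⟨0,[(.ofNat 949724,.ofNat 719762),(.ofNat 966453,.ofNat 766023),(.ofNat 922808,.ofNat 816204)]⟩,
  ⟨0,[(.ofNat 926516,.ofNat 637075),(.ofNat 949724,.ofNat 719762),(.ofNat 922808,.ofNat 816204),(.ofNat 724573,.ofNat 984586),(.ofNat 635337,.ofNat 1004070),(.ofNat 439100,.ofNat 903711),(.ofNat 247930,.ofNat 752439),(.ofNat 52350,.ofNat 662133),(.ofNat 47166,.ofNat 609628),(.ofNat 905151,.ofNat 870162),(.ofNat 883667,.ofNat 890944),(.ofNat 778914,.ofNat 945202),(.ofNat 895844,.ofNat 538240),(.ofNat 43055,.ofNat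 551368),(.ofNat 895277,.ofNat 393834),(.ofNat 884635,.ofNat 459473)]⟩,
  ⟨3,[(.negSucc 1064550,.negSucc 171228),(.negSucc 1092801,.negSucc 225223),(.negSucc 1023014,.negSucc 442944)]⟩,
  ⟨3,[(.negSucc 275063,.negSucc 356839),(.negSucc 316838,.negSucc 267224),(.negSucc 408427,.negSucc 239475)]⟩,
  ⟨3,[(.negSucc 821560,.negSucc 54899),(.negSucc 1024544,.negSucc 61668),(.negSucc 1043667,.negSucc 121122),(.negSucc 684164,.negSucc 107410),(.negSucc 1018037,.negSucc 699082),(.negSucc 977982,.negSucc 941601),(.negSucc 921066,.negSucc 961717),(.negSucc 862551,.negSucc 990406),(.negSucc 820580,.negSucc 1020615),(.negSucc 625000,.negSucc 930309),(.negSucc 433830,.negSucc 779037),(.negSucc 1023014,.negSucc 442944),(.negSucc 237593,.negSucc 678678),(.negSucc 196219,.negSucc 612706),(.negSucc 1064550,.negSucc 171228),(.negSucc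 552323,.negSucc 153254),(.negSucc 149699,.negSucc 537127),(.negSucc 139449,.negSucc 527071),(.negSucc 219716,.negSucc 429103),(.negSucc 275063,.negSucc 356839),(.negSucc 408427,.negSucc 239475),(.negSucc 493530,.negSucc 200533)]⟩,
  ⟨2,[(.ofNat 108092,.ofNat 363786),(.ofNat 14090,.ofNat 461068),(.negSucc 161776,.ofNat 455821)]⟩,
  ⟨2,[(.negSucc 266401,.negSucc 140683),(.negSucc 316838,.negSucc 267224),(.negSucc 275063,.negSucc 356839),(.negSucc 219716,.negSucc 429103),(.negSucc 139449,.negSucc 527071),(.negSucc 96026,.negSucc 517400),(.ofNat 439193,.negSucc 294351),(.ofNat 597264,.negSucc 163334),(.ofNat 607071,.negSucc 69457),(.ofNat 205235,.negSucc 402052),(.negSucc 37281,.negSucc 514373),(.ofNat 23156,.negSucc 521678)]⟩,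
  ⟨2,[(.ofNat 607572,.negSucc 54899),(.ofNat 615952,.ofNat 4261),(.ofNat 415661,.ofNat 161697),(.negSucc 282471,.negSucc 12474),(.negSucc 266401,.negSucc 140683),(.ofNat 607071,.negSucc 69457),(.ofNat 108092,.ofNat 363786),(.negSucc 161776,.ofNat 455821),(.negSucc 245904,.ofNat 170662),(.negSucc 292740,.ofNat 5666),(.negSucc 215351,.ofNat 315066),(.negSucc 174029,.ofNat 458684),(.negSucc 167673,.ofNat 454716)]⟩,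
  ⟨5,[(.negSucc 94016,.negSucc 737546),(.ofNat 10736,.negSucc 791804),(.ofNat 8369,.negSucc 685034),(.negSucc 196219,.negSucc 612706),(.negSucc 237593,.negSucc 678678),(.negSucc 148357,.negSucc 698162),(.negSucc 7283,.negSucc 622715),(.ofNat 23156,.negSucc 521678),(.negSucc 37281,.negSucc 514373),(.negSucc 149699,.negSucc 537127),(.negSucc 96026,.negSucc 517400),(.negSucc 139449,.negSucc 527071)]⟩,
  ⟨4,[(.ofNat 885680,.negSucc 442944),(.ofNat 815893,.negSucc 225223),(.ofNat 720032,.negSucc 212433),(.ofNat 890657,.negSucc 699082)]⟩,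
  ⟨4,[(.ofNat 580493,.negSucc 1052613),(.ofNat 808468,.negSucc 1140773),(.ofNat 828397,.negSucc 1065741),(.ofNat 862714,.negSucc 1000102),(.ofNat 930712,.negSucc 941601),(.ofNat 890657,.negSucc 699082),(.ofNat 720032,.negSucc 212433),(.ofNat 351920,.negSucc 973846)]⟩,
  ⟨4,[(.ofNat 93522,.negSucc 916725),(.ofNat 351920,.negSucc 973846),(.ofNat 720032,.negSucc 212433),(.ofNat 205235,.negSucc 402052),(.ofNat 23156,.negSucc 521678),(.negSucc 7283,.negSucc 622715),(.ofNat 643841,.negSucc 186177),(.ofNat 597264,.negSucc 163334),(.ofNat 439193,.negSucc 294351),(.ofNat 32220,.negSucc 812586),(.ofNat 49877,.negSucc 866544),(.ofNat 8369,.negSucc 685034),(.ofNat 10736,.negSucc 791804)]⟩,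
  ⟨1,[(.negSucc 684164,.negSucc 107410),(.negSucc 552323,.negSucc 153254),(.negSucc 491861,.negSucc 54899)]⟩,
  ⟨1,[(.negSucc 982178,.ofNat 637075),(.negSucc 1012850,.ofNat 538240),(.negSucc 943523,.ofNat 498857),(.negSucc 410061,.ofNat 0),(.negSucc 292740,.ofNat 5666),(.negSucc 245904,.ofNat 170662),(.negSucc 1045783,.ofNat 131278),(.negSucc 1078954,.ofNat 33120),(.negSucc 1053701,.negSucc 16891),(.negSucc 821560,.negSucc 54899),(.negSucc 684164,.negSucc 107410),(.negSucc 491861,.negSucc 54899),(.negSucc 215351,.ofNat 315066),(.negSucc 174029,.ofNat 458684),(.negSucc 205118,.ofNat 499808),(.negSucc 958970,.ofNat 719762),(.negSucc 902909,.ofNat 433218),(.negSucc 987656,.ofNat 340548),(.negSucc 1020848,.ofNat 236301),(.negSucc 683843,.ofNat 708902),(.negSucc 942241,.ofNat 766023),(.negSucc 455270,.ofNat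 630135),(.negSucc 227295,.ofNat 541975),(.negSucc 1024544,.negSucc 61668),(.negSucc 1033436,.negSucc 40862),(.negSucc 208267,.ofNat 504915)]⟩,
  ⟨5,[(.ofNat 965171,.ofNat 498857),(.ofNat 895844,.ofNat 538240),(.ofNat 884635,.ofNat 459473),(.ofNat 1005785,.ofNat 433218),(.ofNat 921038,.ofNat 340548),(.ofNat 895277,.ofNat 393834)]⟩,
  ⟨5,[(.ofNat 854993,.negSucc 16891),(.ofNat 829740,.ofNat 33120),(.ofNat 763043,.ofNat 26256),(.ofNat 688112,.ofNat 26256),(.ofNat 615952,.ofNat 4261),(.ofNat 607572,.negSucc 54899),(.ofNat 720032,.negSucc 212433),(.ofNat 815893,.negSucc 225223),(.ofNat 844144,.negSucc 171228),(.ofNat 607071,.negSucc 69457),(.ofNat 597264,.negSucc 163334),(.ofNat 643841,.negSucc 186177),(.ofNat 865027,.negSucc 121122),(.ofNat 884150,.negSucc 61668),(.ofNat 875258,.negSucc 40862)]⟩,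
  ⟨5,[(.ofNat 47166,.ofNat 609628),(.ofNat 52350,.ofNat 662133),(.ofNat 10379,.ofNat 692342),(.negSucc 48135,.ofNat 721031),(.negSucc 105051,.ofNat 741147),(.negSucc 173049,.ofNat 682646),(.negSucc 161776,.ofNat 455821),(.ofNat 14090,.ofNat 461068),(.ofNat 43055,.ofNat 551368),(.negSucc 174029,.ofNat 458684),(.negSucc 167673,.ofNat 454716),(.negSucc 207366,.ofNat 617007),(.negSucc 227295,.ofNat 541975),(.negSucc 205118,.ofNat 499808),(.negSucc 208267,.ofNat 504915)]⟩,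
  ⟨5,[(.negSucc 408427,.negSucc 239475),(.negSucc 316838,.negSucc 267224),(.negSucc 266401,.negSucc 140683),(.negSucc 491861,.negSucc 54899),(.negSucc 552323,.negSucc 153254),(.negSucc 493530,.negSucc 200533),(.negSucc 282471,.negSucc 12474),(.negSucc 410061,.ofNat 0),(.negSucc 292740,.ofNat 5666)]⟩]

def E3C : List (ℤ × ℤ) := [
  (.negSucc 0,.ofNat 0),(.negSucc 0,.ofNat 0),(.negSucc 0,.ofNat 0),(.negSucc 0,.negSucc 0),(.negSucc 0,.ofNat 0),(.negSucc 0,.ofNat 1),(.ofNat 0,.negSucc 0),(.ofNat 0,.ofNat 0),(.ofNat 0,.ofNat 1),(.ofNat 1,.negSucc 0),(.ofNat 1,.ofNat 0),(.ofNat 1,.ofNat 1),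
  (.ofNat 1,.ofNat 0),(.ofNat 1,.ofNat 0),(.ofNat 1,.ofNat 0),(.negSucc 0,.ofNat 0),(.negSucc 0,.ofNat 0),(.negSucc 0,.ofNat 1),(.negSucc 0,.negSucc 0),(.negSucc 0,.ofNat 0),(.ofNat 0,.ofNat 1),(.ofNat 0,.negSucc 0),(.ofNat 0,.ofNat 0),(.ofNat 1,.ofNat 1),
  (.ofNat 1,.negSucc 0),(.ofNat 1,.ofNat 0),(.ofNat 1,.ofNat 0),(.ofNat 1,.ofNat 0),(.ofNat 1,.ofNat 0),(.ofNat 1,.ofNat 0),(.negSucc 0,.ofNat 0),(.negSucc 0,.ofNat 0),(.negSucc 0,.ofNat 1),(.negSucc 0,.negSucc 0),(.negSucc 2,.ofNat 1),(.ofNat 0,.ofNat 1),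
  (.ofNat 0,.negSucc 0),(.ofNat 0,.ofNat 0),(.ofNat 1,.ofNat 1),(.ofNat 1,.negSucc 0),(.ofNat 1,.ofNat 0),(.ofNat 1,.ofNat 0),(.ofNat 1,.ofNat 0),(.ofNat 1,.ofNat 0),(.ofNat 1,.ofNat 0),(.negSucc 0,.ofNat 0),(.negSucc 0,.ofNat 0),(.negSucc 0,.ofNat 1),
  (.negSucc 0,.ofNat 0),(.negSucc 295,.ofNat 49),(.ofNat 0,.ofNat 1),(.negSucc 19,.negSucc 33),(.ofNat 0,.ofNat 0),(.ofNat 1,.ofNat 1),(.ofNat 1,.negSucc 0),(.ofNat 1,.ofNat 0),(.ofNat 1,.ofNat 1),(.ofNat 1,.ofNat 0),(.ofNat 1,.ofNat 0),(.ofNat 1,.ofNat 0),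
  (.negSucc 0,.ofNat 0),(.negSucc 0,.ofNat 0),(.negSucc 0,.ofNat 0),(.negSucc 0,.ofNat 0),(.negSucc 0,.ofNat 0),(.negSucc 0,.ofNat 1),(.negSucc 0,.negSucc 0),(.ofNat 0,.ofNat 0),(.ofNat 0,.ofNat 1),(.ofNat 0,.negSucc 0),(.ofNat 1,.ofNat 0),(.ofNat 1,.ofNat 1),
  (.ofNat 1,.negSucc 0),(.ofNat 1,.ofNat 0),(.ofNat 1,.ofNat 0),(.negSucc 0,.ofNat 0),(.negSucc 0,.ofNat 0),(.negSucc 0,.ofNat 0),(.negSucc 0,.negSucc 0),(.negSucc 0,.ofNat 0),(.negSucc 1,.ofNat 3),(.ofNat 0,.negSucc 0),(.ofNat 0,.ofNat 0),(.ofNat 0,.ofNat 1),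
  (.ofNat 2,.negSucc 2),(.ofNat 1,.ofNat 0),(.ofNat 1,.ofNat 1),(.ofNat 1,.ofNat 0),(.ofNat 1,.ofNat 0),(.ofNat 1,.ofNat 0),(.negSucc 0,.ofNat 0),(.negSucc 0,.ofNat 0),(.negSucc 0,.ofNat 1),(.negSucc 0,.ofNat 0),(.negSucc 2,.ofNat 1),(.ofNat 0,.ofNat 1),
  (.negSucc 0,.negSucc 2),(.ofNat 0,.ofNat 0),(.ofNat 0,.ofNat 1),(.ofNat 1,.negSucc 0),(.ofNat 1,.ofNat 0),(.ofNat 1,.ofNat 1),(.ofNat 1,.ofNat 0),(.ofNat 1,.ofNat 0),(.ofNat 1,.ofNat 0),(.negSucc 0,.ofNat 0),(.negSucc 0,.ofNat 0),(.negSucc 0,.ofNat 1),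
  (.negSucc 0,.ofNat 0),(.negSucc 0,.ofNat 0),(.ofNat 0,.ofNat 1),(.negSucc 181,.negSucc 238),(.ofNat 0,.ofNat 0),(.ofNat 0,.ofNat 1),(.ofNat 21,.negSucc 33),(.ofNat 1,.ofNat 0),(.ofNat 1,.ofNat 1),(.ofNat 1,.ofNat 0),(.ofNat 1,.ofNat 0),(.ofNat 1,.ofNat 0),
  (.negSucc 0,.ofNat 0),(.negSucc 0,.ofNat 0),(.negSucc 0,.ofNat 0),(.negSucc 0,.ofNat 0),(.negSucc 0,.ofNat 0),(.negSucc 0,.ofNat 1),(.negSucc 0,.negSucc 0),(.ofNat 0,.ofNat 0),(.ofNat 0,.ofNat 1),(.ofNat 0,.negSucc 0),(.ofNat 3,.negSucc 0),(.ofNat 1,.ofNat 1),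
  (.ofNat 1,.negSucc 0),(.ofNat 1,.ofNat 0),(.ofNat 1,.ofNat 0),(.negSucc 0,.ofNat 0),(.negSucc 0,.ofNat 0),(.negSucc 0,.ofNat 0),(.negSucc 0,.negSucc 0),(.negSucc 0,.ofNat 0),(.negSucc 0,.ofNat 1),(.ofNat 0,.negSucc 0),(.ofNat 0,.ofNat 0),(.ofNat 1,.ofNat 3),
  (.ofNat 0,.negSucc 0),(.ofNat 3,.negSucc 0),(.ofNat 1,.ofNat 0),(.ofNat 1,.negSucc 0),(.ofNat 1,.ofNat 0),(.ofNat 1,.ofNat 0),(.negSucc 0,.ofNat 0),(.negSucc 0,.ofNat 0),(.negSucc 0,.ofNat 0),(.negSucc 0,.negSucc 0),(.negSucc 0,.ofNat 0),(.negSucc 0,.ofNat 1),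
  (.ofNat 0,.negSucc 0),(.ofNat 0,.ofNat 0),(.ofNat 0,.ofNat 1),(.ofNat 1,.negSucc 0),(.ofNat 1,.ofNat 0),(.ofNat 1,.ofNat 1),(.ofNat 1,.ofNat 0),(.ofNat 1,.ofNat 0),(.ofNat 1,.ofNat 0),(.negSucc 0,.ofNat 0),(.negSucc 0,.ofNat 0),(.negSucc 0,.ofNat 0),
  (.negSucc 0,.ofNat 0),(.negSucc 0,.ofNat 0),(.negSucc 0,.ofNat 1),(.negSucc 0,.negSucc 0),(.ofNat 0,.ofNat 0),(.ofNat 0,.ofNat 1),(.ofNat 0,.negSucc 0),(.ofNat 298,.negSucc 30),(.ofNat 1,.ofNat 1),(.ofNat 1,.negSucc 0),(.ofNat 1,.ofNat 0),(.ofNat 1,.ofNat 0),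
  (.negSucc 0,.ofNat 0),(.negSucc 0,.ofNat 0),(.negSucc 0,.ofNat 0),(.negSucc 0,.negSucc 0),(.negSucc 0,.ofNat 0),(.negSucc 0,.ofNat 1),(.negSucc 0,.negSucc 0),(.ofNat 0,.ofNat 0),(.ofNat 20,.ofNat 34),(.ofNat 0,.negSucc 0),(.ofNat 296,.negSucc 48),(.ofNat 1,.ofNat 0),
  (.ofNat 1,.negSucc 0),(.ofNat 1,.ofNat 0),(.ofNat 1,.ofNat 0),(.negSucc 0,.ofNat 0),(.negSucc 0,.ofNat 0),(.negSucc 0,.ofNat 0),(.negSucc 0,.negSucc 0),(.negSucc 0,.ofNat 0),(.negSucc 20,.ofNat 34),(.ofNat 0,.negSucc 0),(.ofNat 0,.ofNat 0),(.ofNat 182,.ofNat 239),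
  (.ofNat 0,.negSucc 0),(.ofNat 1,.ofNat 0),(.ofNat 1,.ofNat 0),(.ofNat 1,.negSucc 0),(.ofNat 1,.ofNat 0),(.ofNat 1,.ofNat 0),(.negSucc 0,.ofNat 0),(.negSucc 0,.ofNat 0),(.negSucc 0,.ofNat 1),(.negSucc 0,.negSucc 0),(.negSucc 297,.ofNat 31),(.ofNat 0,.ofNat 1),
  (.ofNat 0,.negSucc 0),(.ofNat 0,.ofNat 0),(.ofNat 1,.ofNat 1),(.ofNat 1,.negSucc 0),(.ofNat 1,.ofNat 0),(.ofNat 1,.ofNat 0),(.ofNat 1,.ofNat 0),(.ofNat 1,.ofNat 0),(.ofNat 1,.ofNat 0),(.negSucc 0,.ofNat 0),(.negSucc 0,.ofNat 0),(.negSucc 0,.ofNat 0),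
  (.negSucc 0,.negSucc 0),(.negSucc 0,.ofNat 0),(.negSucc 0,.ofNat 1),(.ofNat 0,.negSucc 0),(.ofNat 0,.ofNat 0),(.ofNat 0,.ofNat 1),(.ofNat 1,.negSucc 0),(.ofNat 1,.ofNat 0),(.ofNat 1,.ofNat 1),(.ofNat 1,.ofNat 0),(.ofNat 1,.ofNat 0),(.ofNat 1,.ofNat 0),
  (.negSucc 0,.ofNat 0),(.negSucc 0,.ofNat 0),(.negSucc 0,.ofNat 0),(.negSucc 0,.negSucc 0),(.negSucc 0,.ofNat 0),(.negSucc 0,.ofNat 1),(.ofNat 0,.negSucc 0),(.ofNat 0,.ofNat 0),(.ofNat 0,.ofNat 1),(.ofNat 1,.negSucc 0),(.ofNat 1,.ofNat 0),(.ofNat 1,.ofNat 1),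
  (.ofNat 1,.ofNat 0),(.ofNat 1,.ofNat 0),(.ofNat 1,.ofNat 0),(.negSucc 0,.ofNat 0),(.negSucc 0,.ofNat 0),(.negSucc 0,.ofNat 1),(.negSucc 0,.negSucc 0),(.negSucc 0,.ofNat 0),(.ofNat 0,.ofNat 1),(.ofNat 0,.negSucc 0),(.ofNat 0,.ofNat 0),(.ofNat 1,.ofNat 1),
  (.ofNat 1,.negSucc 0),(.ofNat 1,.ofNat 0),(.ofNat 1,.ofNat 0),(.ofNat 1,.ofNat 0),(.ofNat 1,.ofNat 0),(.ofNat 1,.ofNat 0),(.negSucc 0,.ofNat 0),(.negSucc 0,.ofNat 0),(.negSucc 0,.ofNat 1),(.negSucc 0,.negSucc 0),(.negSucc 37,.negSucc 11),(.negSucc 0,.ofNat 3),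
  (.ofNat 0,.negSucc 0),(.ofNat 0,.ofNat 0),(.ofNat 1,.ofNat 1),(.ofNat 1,.negSucc 0),(.ofNat 1,.ofNat 0),(.ofNat 1,.ofNat 0),(.ofNat 1,.ofNat 0),(.ofNat 1,.ofNat 0),(.ofNat 1,.ofNat 0),(.negSucc 0,.ofNat 0),(.negSucc 0,.ofNat 0),(.negSucc 0,.ofNat 0),
  (.negSucc 0,.ofNat 0),(.negSucc 0,.ofNat 0),(.negSucc 0,.ofNat 1),(.negSucc 0,.negSucc 0),(.ofNat 0,.ofNat 0),(.ofNat 0,.ofNat 1),(.ofNat 0,.negSucc 0),(.ofNat 1,.ofNat 0),(.ofNat 1,.ofNat 1),(.ofNat 1,.negSucc 0),(.ofNat 1,.ofNat 0),(.ofNat 1,.ofNat 0),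
  (.negSucc 0,.ofNat 0),(.negSucc 0,.ofNat 0),(.negSucc 0,.ofNat 0),(.negSucc 0,.negSucc 0),(.negSucc 0,.ofNat 0),(.negSucc 0,.ofNat 1),(.ofNat 0,.negSucc 0),(.ofNat 0,.ofNat 0),(.ofNat 0,.ofNat 1),(.ofNat 1,.negSucc 0),(.ofNat 1,.ofNat 0),(.ofNat 1,.ofNat 1),
  (.ofNat 1,.ofNat 0),(.ofNat 1,.ofNat 0),(.ofNat 1,.ofNat 0),(.negSucc 0,.ofNat 0),(.negSucc 0,.ofNat 0),(.negSucc 0,.ofNat 0),(.negSucc 0,.negSucc 0),(.negSucc 0,.ofNat 0),(.negSucc 0,.ofNat 1),(.negSucc 0,.negSucc 0),(.ofNat 0,.ofNat 0),(.ofNat 111,.ofNat 279),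
  (.ofNat 0,.negSucc 0),(.ofNat 1,.ofNat 0),(.ofNat 1,.ofNat 1),(.ofNat 1,.negSucc 0),(.ofNat 1,.ofNat 0),(.ofNat 1,.ofNat 0),(.negSucc 0,.ofNat 0),(.negSucc 0,.ofNat 0),(.negSucc 0,.ofNat 0),(.negSucc 0,.ofNat 0),(.negSucc 0,.ofNat 0),(.negSucc 0,.ofNat 1),
  (.negSucc 0,.negSucc 0),(.ofNat 0,.ofNat 0),(.ofNat 0,.ofNat 1),(.ofNat 1,.negSucc 2),(.ofNat 38,.ofNat 12),(.ofNat 1,.ofNat 1),(.ofNat 1,.negSucc 0),(.ofNat 1,.ofNat 0),(.ofNat 1,.ofNat 0),(.negSucc 0,.ofNat 0),(.negSucc 0,.ofNat 0),(.negSucc 0,.ofNat 1),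
  (.negSucc 0,.negSucc 0),(.negSucc 0,.ofNat 0),(.ofNat 0,.ofNat 1),(.negSucc 110,.negSucc 278),(.ofNat 0,.ofNat 0),(.ofNat 1,.ofNat 1),(.ofNat 1,.negSucc 0),(.ofNat 1,.ofNat 0),(.ofNat 1,.ofNat 1),(.ofNat 1,.ofNat 0),(.ofNat 1,.ofNat 0),(.ofNat 1,.ofNat 0),
  (.negSucc 0,.ofNat 0),(.negSucc 0,.ofNat 0),(.negSucc 0,.ofNat 0),(.negSucc 0,.negSucc 0),(.negSucc 39,.negSucc 3),(.negSucc 1,.ofNat 3),(.negSucc 1345,.negSucc 2680),(.ofNat 0,.ofNat 0),(.ofNat 1346,.ofNat 2681),(.ofNat 2,.negSucc 2),(.ofNat 40,.ofNat 4),(.ofNat 1,.ofNat 1),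
  (.ofNat 1,.ofNat 0),(.ofNat 1,.ofNat 0),(.ofNat 1,.ofNat 0),(.negSucc 0,.ofNat 0),(.negSucc 0,.ofNat 0),(.negSucc 0,.ofNat 0),(.negSucc 0,.negSucc 0),(.negSucc 0,.ofNat 0),(.negSucc 0,.ofNat 1),(.ofNat 0,.negSucc 0),(.ofNat 0,.ofNat 0),(.ofNat 0,.ofNat 1),
  (.ofNat 1,.negSucc 0),(.ofNat 1,.ofNat 0),(.ofNat 1,.ofNat 1),(.ofNat 1,.ofNat 0),(.ofNat 1,.ofNat 0),(.ofNat 1,.ofNat 0),(.negSucc 0,.ofNat 0),(.negSucc 0,.ofNat 0),(.negSucc 0,.ofNat 0),(.negSucc 0,.negSucc 0),(.negSucc 0,.ofNat 0),(.negSucc 18,.ofNat 35),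
  (.ofNat 0,.negSucc 0),(.ofNat 0,.ofNat 0),(.ofNat 2157,.ofNat 2085),(.ofNat 0,.negSucc 0),(.ofNat 1,.ofNat 0),(.ofNat 1,.ofNat 0),(.ofNat 1,.negSucc 0),(.ofNat 1,.ofNat 0),(.ofNat 1,.ofNat 0),(.negSucc 0,.ofNat 0),(.negSucc 0,.ofNat 0),(.negSucc 0,.ofNat 0),
  (.negSucc 0,.negSucc 0),(.negSucc 0,.ofNat 0),(.negSucc 0,.ofNat 1),(.ofNat 0,.negSucc 0),(.ofNat 0,.ofNat 0),(.ofNat 1,.ofNat 1),(.ofNat 1,.negSucc 0),(.ofNat 1,.ofNat 0),(.ofNat 1,.ofNat 0),(.ofNat 1,.negSucc 0),(.ofNat 1,.ofNat 0),(.ofNat 1,.ofNat 0),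
  (.negSucc 0,.ofNat 0),(.negSucc 0,.ofNat 0),(.negSucc 0,.ofNat 1),(.negSucc 0,.ofNat 0),(.negSucc 0,.ofNat 0),(.ofNat 0,.ofNat 1),(.negSucc 2156,.negSucc 2084),(.ofNat 0,.ofNat 0),(.ofNat 0,.ofNat 1),(.ofNat 19,.negSucc 34),(.ofNat 1,.ofNat 0),(.ofNat 1,.ofNat 1),
  (.ofNat 1,.ofNat 0),(.ofNat 1,.ofNat 0),(.ofNat 1,.ofNat 0),(.negSucc 0,.ofNat 0),(.negSucc 0,.ofNat 0),(.negSucc 0,.ofNat 0),(.negSucc 0,.negSucc 0),(.negSucc 2983,.ofNat 312),(.negSucc 0,.ofNat 1),(.ofNat 0,.negSucc 0),(.ofNat 0,.ofNat 0),(.ofNat 0,.ofNat 1),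
  (.ofNat 1,.negSucc 0),(.ofNat 2984,.negSucc 311),(.ofNat 1,.ofNat 1),(.ofNat 1,.ofNat 0),(.ofNat 1,.ofNat 0),(.ofNat 1,.ofNat 0),(.negSucc 0,.ofNat 0),(.negSucc 0,.ofNat 0),(.negSucc 0,.ofNat 1),(.negSucc 0,.ofNat 0),(.negSucc 9,.ofNat 2),(.ofNat 0,.ofNat 1),
  (.negSucc 21,.negSucc 32),(.ofNat 0,.ofNat 0),(.ofNat 0,.ofNat 1),(.ofNat 19,.negSucc 34),(.ofNat 1,.ofNat 0),(.ofNat 1,.ofNat 1),(.ofNat 1,.ofNat 0),(.ofNat 1,.ofNat 0),(.ofNat 1,.ofNat 0),(.negSucc 0,.ofNat 0),(.negSucc 0,.ofNat 0),(.negSucc 0,.ofNat 1),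
  (.negSucc 0,.ofNat 0),(.negSucc 0,.ofNat 0),(.negSucc 0,.ofNat 1),(.negSucc 0,.negSucc 0),(.ofNat 0,.ofNat 0),(.ofNat 0,.ofNat 1),(.ofNat 1,.negSucc 0),(.ofNat 1,.ofNat 0),(.ofNat 1,.ofNat 1),(.ofNat 1,.ofNat 0),(.ofNat 1,.ofNat 0),(.ofNat 1,.ofNat 0),
  (.negSucc 0,.ofNat 0),(.negSucc 0,.ofNat 0),(.negSucc 0,.ofNat 0),(.negSucc 0,.negSucc 0),(.negSucc 0,.ofNat 0),(.negSucc 18,.ofNat 35),(.ofNat 0,.negSucc 0),(.ofNat 0,.ofNat 0),(.ofNat 22,.ofNat 33),(.ofNat 0,.negSucc 0),(.ofNat 10,.negSucc 1),(.ofNat 1,.ofNat 0),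
  (.ofNat 1,.negSucc 0),(.ofNat 1,.ofNat 0),(.ofNat 1,.ofNat 0),(.negSucc 0,.ofNat 0),(.negSucc 0,.ofNat 0),(.negSucc 0,.ofNat 0),(.negSucc 0,.negSucc 0),(.negSucc 0,.ofNat 0),(.negSucc 1,.ofNat 3),(.ofNat 0,.negSucc 0),(.ofNat 0,.ofNat 0),(.ofNat 0,.ofNat 1),
  (.ofNat 2,.negSucc 2),(.ofNat 1,.ofNat 0),(.ofNat 1,.ofNat 1),(.ofNat 1,.ofNat 0),(.ofNat 1,.ofNat 0),(.ofNat 1,.ofNat 0),(.negSucc 0,.ofNat 0),(.negSucc 0,.ofNat 0),(.negSucc 0,.ofNat 0),(.negSucc 0,.negSucc 0),(.negSucc 0,.ofNat 0),(.negSucc 0,.ofNat 1),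
  (.ofNat 0,.negSucc 0),(.ofNat 0,.ofNat 0),(.ofNat 0,.ofNat 1),(.ofNat 1,.negSucc 0),(.ofNat 1,.ofNat 0),(.ofNat 1,.ofNat 1),(.ofNat 1,.ofNat 0),(.ofNat 1,.ofNat 0),(.ofNat 1,.ofNat 0),(.negSucc 0,.ofNat 0),(.negSucc 0,.ofNat 0),(.negSucc 0,.ofNat 1),
  (.negSucc 0,.ofNat 0),(.negSucc 0,.ofNat 1),(.ofNat 0,.ofNat 1),(.ofNat 0,.negSucc 0),(.ofNat 1,.ofNat 1),(.ofNat 1,.ofNat 1),(.ofNat 1,.ofNat 0),(.ofNat 1,.ofNat 0),(.ofNat 1,.ofNat 1),(.ofNat 1,.ofNat 0),(.ofNat 1,.ofNat 0),(.ofNat 1,.ofNat 0),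
  (.negSucc 0,.ofNat 0),(.negSucc 0,.ofNat 0),(.negSucc 0,.ofNat 1),(.negSucc 0,.negSucc 0),(.negSucc 0,.ofNat 0),(.ofNat 0,.ofNat 1),(.ofNat 0,.negSucc 0),(.ofNat 1,.ofNat 1),(.ofNat 1,.ofNat 1),(.ofNat 1,.negSucc 0),(.ofNat 1,.ofNat 0),(.ofNat 1,.ofNat 1),
  (.ofNat 1,.ofNat 0),(.ofNat 1,.ofNat 0),(.ofNat 1,.ofNat 0),(.negSucc 0,.ofNat 0),(.negSucc 0,.ofNat 0),(.negSucc 0,.ofNat 1),(.negSucc 0,.ofNat 0),(.negSucc 0,.ofNat 1),(.ofNat 0,.ofNat 1),(.negSucc 0,.negSucc 0),(.ofNat 0,.ofNat 1),(.ofNat 0,.ofNat 1),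
  (.ofNat 1,.ofNat 0),(.ofNat 1,.ofNat 1),(.ofNat 1,.ofNat 1),(.ofNat 1,.ofNat 0),(.ofNat 1,.ofNat 0),(.ofNat 1,.ofNat 1),(.negSucc 0,.ofNat 0),(.negSucc 0,.ofNat 0),(.negSucc 0,.ofNat 1),(.negSucc 0,.ofNat 0),(.negSucc 0,.ofNat 0),(.negSucc 0,.ofNat 1),
  (.negSucc 0,.negSucc 0),(.negSucc 168,.ofNat 248),(.ofNat 0,.ofNat 1),(.ofNat 1,.negSucc 0),(.ofNat 1,.ofNat 0),(.ofNat 1,.ofNat 1),(.ofNat 1,.ofNat 0),(.ofNat 1,.ofNat 0),(.ofNat 1,.ofNat 0),(.negSucc 0,.ofNat 0),(.negSucc 0,.ofNat 0),(.negSucc 0,.ofNat 0),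
  (.negSucc 0,.negSucc 0),(.negSucc 0,.ofNat 0),(.negSucc 0,.ofNat 1),(.ofNat 0,.negSucc 0),(.ofNat 0,.ofNat 0),(.ofNat 0,.ofNat 1),(.ofNat 1,.negSucc 0),(.ofNat 1,.ofNat 0),(.ofNat 1,.ofNat 1),(.ofNat 1,.ofNat 0),(.ofNat 1,.ofNat 0),(.ofNat 1,.ofNat 0),
  (.negSucc 0,.ofNat 0),(.negSucc 0,.ofNat 0),(.negSucc 0,.ofNat 0),(.negSucc 0,.negSucc 0),(.negSucc 0,.ofNat 0),(.negSucc 0,.ofNat 1),(.ofNat 0,.negSucc 0),(.ofNat 0,.ofNat 0),(.ofNat 2,.ofNat 3),(.ofNat 0,.negSucc 0),(.ofNat 1,.ofNat 0),(.ofNat 1,.ofNat 0),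
  (.ofNat 1,.negSucc 0),(.ofNat 1,.ofNat 0),(.ofNat 1,.ofNat 0),(.negSucc 0,.ofNat 0),(.negSucc 0,.ofNat 0),(.negSucc 0,.ofNat 0),(.negSucc 0,.ofNat 0),(.negSucc 0,.ofNat 0),(.negSucc 0,.ofNat 1),(.negSucc 0,.negSucc 0),(.ofNat 0,.ofNat 0),(.ofNat 65,.ofNat 293),
  (.ofNat 0,.negSucc 0),(.ofNat 1,.ofNat 0),(.ofNat 1,.ofNat 1),(.ofNat 1,.negSucc 0),(.ofNat 1,.ofNat 0),(.ofNat 1,.ofNat 0),(.negSucc 0,.ofNat 0),(.negSucc 0,.ofNat 0),(.negSucc 0,.ofNat 1),(.negSucc 0,.ofNat 0),(.negSucc 0,.ofNat 0),(.ofNat 0,.ofNat 1),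
  (.negSucc 1,.negSucc 2),(.ofNat 0,.ofNat 0),(.ofNat 0,.ofNat 1),(.ofNat 1,.negSucc 0),(.ofNat 1,.ofNat 0),(.ofNat 1,.ofNat 1),(.ofNat 1,.ofNat 0),(.ofNat 1,.ofNat 0),(.ofNat 1,.ofNat 0),(.negSucc 0,.ofNat 0),(.negSucc 0,.ofNat 0),(.negSucc 0,.ofNat 0),
  (.negSucc 0,.negSucc 0),(.negSucc 0,.ofNat 0),(.negSucc 0,.ofNat 1),(.negSucc 0,.negSucc 2),(.ofNat 0,.ofNat 0),(.ofNat 1,.ofNat 3),(.ofNat 1,.negSucc 0),(.ofNat 1,.ofNat 0),(.ofNat 1,.ofNat 1),(.ofNat 1,.ofNat 0),(.ofNat 1,.ofNat 0),(.ofNat 1,.ofNat 0),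
  (.negSucc 0,.ofNat 0),(.negSucc 0,.ofNat 0),(.negSucc 0,.ofNat 0),(.negSucc 0,.ofNat 0),(.negSucc 0,.ofNat 0),(.negSucc 0,.ofNat 1),(.negSucc 0,.negSucc 0),(.ofNat 0,.ofNat 0),(.ofNat 1,.ofNat 3),(.ofNat 21,.negSucc 33),(.ofNat 40,.ofNat 6),(.ofNat 1,.ofNat 1),
  (.ofNat 1,.negSucc 0),(.ofNat 1,.ofNat 0),(.ofNat 1,.ofNat 0),(.negSucc 0,.ofNat 0),(.negSucc 0,.ofNat 0),(.negSucc 0,.ofNat 1),(.negSucc 0,.negSucc 0),(.negSucc 0,.ofNat 0),(.ofNat 0,.ofNat 1),(.negSucc 64,.negSucc 292),(.ofNat 0,.ofNat 0),(.ofNat 1,.ofNat 1),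
  (.ofNat 1,.negSucc 0),(.ofNat 1,.ofNat 0),(.ofNat 1,.ofNat 0),(.ofNat 1,.ofNat 0),(.ofNat 1,.ofNat 0),(.ofNat 1,.ofNat 0),(.negSucc 0,.ofNat 0),(.negSucc 0,.ofNat 0),(.negSucc 0,.ofNat 1),(.negSucc 0,.negSucc 0),(.negSucc 39,.negSucc 5),(.negSucc 20,.ofNat 34),
  (.negSucc 0,.negSucc 2),(.ofNat 0,.ofNat 0),(.ofNat 1,.ofNat 1),(.ofNat 1,.negSucc 0),(.ofNat 1,.ofNat 0),(.ofNat 1,.ofNat 0),(.ofNat 1,.ofNat 0),(.ofNat 1,.ofNat 0),(.ofNat 1,.ofNat 0),(.negSucc 0,.ofNat 0),(.negSucc 0,.ofNat 0),(.negSucc 0,.ofNat 0),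
  (.negSucc 0,.negSucc 0),(.negSucc 0,.ofNat 0),(.negSucc 0,.ofNat 1),(.negSucc 110,.negSucc 278),(.ofNat 0,.ofNat 0),(.ofNat 111,.ofNat 279),(.ofNat 1,.negSucc 0),(.ofNat 1,.ofNat 0),(.ofNat 1,.ofNat 1),(.ofNat 1,.ofNat 0),(.ofNat 1,.ofNat 0),(.ofNat 1,.ofNat 0),
  (.negSucc 0,.ofNat 0),(.negSucc 0,.ofNat 0),(.negSucc 0,.ofNat 0),(.negSucc 0,.negSucc 0),(.negSucc 0,.ofNat 0),(.negSucc 0,.ofNat 1),(.ofNat 0,.negSucc 0),(.ofNat 0,.ofNat 0),(.ofNat 0,.ofNat 1),(.ofNat 1,.negSucc 0),(.ofNat 1,.ofNat 0),(.ofNat 1,.ofNat 1),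
  (.ofNat 1,.ofNat 0),(.ofNat 1,.ofNat 0),(.ofNat 1,.ofNat 0),(.negSucc 0,.ofNat 0),(.negSucc 0,.ofNat 0),(.negSucc 0,.ofNat 1),(.negSucc 0,.ofNat 0),(.negSucc 0,.ofNat 0),(.ofNat 0,.ofNat 1),(.negSucc 0,.negSucc 0),(.ofNat 0,.ofNat 0),(.ofNat 0,.ofNat 1),
  (.ofNat 194,.negSucc 228),(.ofNat 1,.ofNat 0),(.ofNat 1,.ofNat 1),(.ofNat 1,.ofNat 0),(.ofNat 1,.ofNat 0),(.ofNat 1,.ofNat 0),(.negSucc 0,.ofNat 0),(.negSucc 0,.ofNat 0),(.negSucc 0,.ofNat 0),(.negSucc 0,.negSucc 0),(.negSucc 0,.ofNat 0),(.negSucc 193,.ofNat 229),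
  (.ofNat 0,.negSucc 0),(.ofNat 0,.ofNat 0),(.ofNat 1,.ofNat 1),(.ofNat 0,.negSucc 0),(.ofNat 1,.ofNat 0),(.ofNat 1,.ofNat 0),(.ofNat 1,.negSucc 0),(.ofNat 1,.ofNat 0),(.ofNat 1,.ofNat 0),(.negSucc 0,.ofNat 0),(.negSucc 0,.ofNat 0),(.negSucc 0,.ofNat 0),
  (.negSucc 0,.negSucc 0),(.negSucc 0,.ofNat 0),(.negSucc 115,.ofNat 277),(.negSucc 0,.negSucc 2),(.ofNat 0,.ofNat 0),(.ofNat 1,.ofNat 3),(.ofNat 116,.negSucc 276),(.ofNat 1,.ofNat 0),(.ofNat 1,.ofNat 1),(.ofNat 1,.ofNat 0),(.ofNat 1,.ofNat 0),(.ofNat 1,.ofNat 0),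
  (.negSucc 0,.ofNat 0),(.negSucc 0,.ofNat 0),(.negSucc 0,.ofNat 0),(.negSucc 0,.negSucc 0),(.negSucc 0,.ofNat 0),(.negSucc 0,.ofNat 0),(.negSucc 0,.negSucc 0),(.negSucc 0,.negSucc 0),(.ofNat 0,.ofNat 1),(.ofNat 0,.negSucc 0),(.ofNat 1,.negSucc 0),(.ofNat 1,.ofNat 0),
  (.ofNat 1,.negSucc 0),(.ofNat 1,.ofNat 0),(.ofNat 1,.ofNat 0),(.negSucc 0,.ofNat 0),(.negSucc 0,.ofNat 0),(.negSucc 0,.ofNat 0),(.negSucc 0,.negSucc 0),(.negSucc 0,.ofNat 0),(.negSucc 0,.ofNat 1),(.ofNat 0,.negSucc 0),(.ofNat 0,.ofNat 0),(.ofNat 0,.ofNat 1),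
  (.ofNat 1,.negSucc 0),(.ofNat 1,.ofNat 0),(.ofNat 1,.ofNat 1),(.ofNat 1,.ofNat 0),(.ofNat 1,.ofNat 0),(.ofNat 1,.ofNat 0),(.negSucc 0,.ofNat 0),(.negSucc 0,.ofNat 0),(.negSucc 0,.ofNat 0),(.negSucc 0,.negSucc 0),(.negSucc 0,.ofNat 0),(.negSucc 0,.ofNat 1),
  (.ofNat 0,.negSucc 0),(.negSucc 0,.negSucc 2),(.ofNat 1,.ofNat 1),(.ofNat 0,.negSucc 0),(.ofNat 1,.ofNat 0),(.ofNat 1,.ofNat 0),(.ofNat 1,.negSucc 0),(.ofNat 1,.ofNat 0),(.ofNat 1,.ofNat 0),(.negSucc 0,.ofNat 0),(.negSucc 0,.ofNat 0),(.negSucc 0,.ofNat 0),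
  (.negSucc 0,.ofNat 0),(.negSucc 0,.ofNat 0),(.negSucc 0,.ofNat 1),(.negSucc 0,.negSucc 0),(.negSucc 0,.ofNat 0),(.ofNat 0,.ofNat 1),(.ofNat 0,.negSucc 0),(.ofNat 1,.ofNat 0),(.ofNat 1,.ofNat 1),(.ofNat 1,.negSucc 0),(.ofNat 1,.ofNat 0),(.ofNat 1,.ofNat 0),
  (.negSucc 0,.ofNat 0),(.negSucc 0,.ofNat 0),(.negSucc 0,.ofNat 0),(.negSucc 0,.ofNat 0),(.negSucc 0,.ofNat 0),(.negSucc 0,.ofNat 0),(.negSucc 0,.negSucc 0),(.negSucc 0,.ofNat 0),(.ofNat 0,.ofNat 1),(.ofNat 0,.negSucc 0),(.ofNat 1,.negSucc 0),(.ofNat 1,.ofNat 1),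
  (.ofNat 1,.negSucc 0),(.ofNat 1,.ofNat 0),(.ofNat 1,.ofNat 0),(.negSucc 0,.ofNat 0),(.negSucc 0,.ofNat 0),(.negSucc 0,.ofNat 0),(.negSucc 0,.negSucc 0),(.negSucc 0,.ofNat 0),(.negSucc 0,.ofNat 1),(.negSucc 0,.negSucc 0),(.negSucc 0,.negSucc 0),(.ofNat 0,.ofNat 1),
  (.ofNat 0,.negSucc 0),(.ofNat 1,.ofNat 0),(.ofNat 1,.ofNat 1),(.ofNat 1,.negSucc 0),(.ofNat 1,.ofNat 0),(.ofNat 1,.ofNat 0),(.negSucc 0,.ofNat 0),(.negSucc 0,.ofNat 0),(.negSucc 0,.ofNat 1),(.negSucc 0,.ofNat 0),(.negSucc 0,.ofNat 0),(.ofNat 0,.ofNat 1),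
  (.negSucc 0,.negSucc 0),(.ofNat 1,.ofNat 3),(.ofNat 0,.ofNat 1),(.ofNat 1,.negSucc 0),(.ofNat 1,.ofNat 0),(.ofNat 1,.ofNat 1),(.ofNat 1,.ofNat 0),(.ofNat 1,.ofNat 0),(.ofNat 1,.ofNat 0),(.negSucc 0,.ofNat 0),(.negSucc 0,.ofNat 0),(.negSucc 0,.ofNat 0),
  (.negSucc 0,.negSucc 0),(.negSucc 0,.ofNat 0),(.negSucc 0,.ofNat 1),(.ofNat 0,.negSucc 0),(.ofNat 0,.ofNat 0),(.ofNat 0,.ofNat 1),(.ofNat 1,.negSucc 0),(.ofNat 1,.ofNat 0),(.ofNat 1,.ofNat 1),(.ofNat 1,.ofNat 0),(.ofNat 1,.ofNat 0),(.ofNat 1,.ofNat 0),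
  (.negSucc 0,.ofNat 0),(.negSucc 0,.ofNat 0),(.negSucc 0,.ofNat 1),(.negSucc 0,.ofNat 0),(.negSucc 0,.ofNat 0),(.negSucc 0,.ofNat 1),(.negSucc 0,.negSucc 0),(.negSucc 0,.ofNat 1),(.ofNat 0,.ofNat 1),(.ofNat 0,.negSucc 0),(.ofNat 1,.ofNat 1),(.ofNat 1,.ofNat 1),
  (.ofNat 1,.ofNat 0),(.ofNat 1,.ofNat 0),(.ofNat 1,.ofNat 1),(.negSucc 0,.ofNat 0),(.negSucc 0,.ofNat 0),(.negSucc 0,.ofNat 0),(.negSucc 0,.ofNat 0),(.negSucc 0,.ofNat 0),(.negSucc 0,.ofNat 1),(.negSucc 0,.negSucc 0),(.negSucc 0,.ofNat 0),(.ofNat 0,.ofNat 1),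
  (.ofNat 0,.negSucc 0),(.ofNat 1,.ofNat 0),(.ofNat 1,.ofNat 1),(.ofNat 1,.negSucc 0),(.ofNat 1,.ofNat 0),(.ofNat 1,.ofNat 0),(.negSucc 0,.negSucc 0),(.negSucc 0,.ofNat 0),(.negSucc 0,.ofNat 0),(.negSucc 0,.negSucc 0),(.negSucc 0,.negSucc 0),(.negSucc 0,.ofNat 0),
  (.ofNat 0,.negSucc 0),(.ofNat 0,.negSucc 0),(.ofNat 1,.ofNat 1),(.ofNat 0,.negSucc 0),(.ofNat 1,.negSucc 0),(.ofNat 1,.ofNat 0),(.ofNat 1,.negSucc 0),(.ofNat 1,.ofNat 0),(.ofNat 1,.ofNat 0),(.negSucc 0,.ofNat 0),(.negSucc 0,.ofNat 0),(.negSucc 0,.ofNat 1),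
  (.negSucc 0,.negSucc 0),(.negSucc 0,.ofNat 0),(.ofNat 0,.ofNat 1),(.ofNat 0,.negSucc 0),(.ofNat 1,.ofNat 0),(.ofNat 1,.ofNat 1),(.ofNat 1,.negSucc 0),(.ofNat 1,.ofNat 0),(.ofNat 1,.ofNat 0),(.ofNat 1,.ofNat 0),(.ofNat 1,.ofNat 0),(.ofNat 1,.ofNat 0),
  (.negSucc 0,.negSucc 0),(.negSucc 0,.ofNat 0),(.negSucc 0,.ofNat 0),(.negSucc 0,.negSucc 0),(.negSucc 0,.negSucc 0),(.ofNat 0,.ofNat 1),(.ofNat 0,.negSucc 0),(.ofNat 1,.negSucc 0),(.ofNat 1,.ofNat 1),(.ofNat 1,.negSucc 0),(.ofNat 1,.ofNat 0),(.ofNat 1,.ofNat 0),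
  (.ofNat 1,.negSucc 0),(.ofNat 1,.ofNat 0),(.ofNat 1,.ofNat 0),(.negSucc 0,.ofNat 0),(.negSucc 0,.ofNat 0),(.negSucc 0,.ofNat 0),(.negSucc 0,.negSucc 0),(.negSucc 0,.ofNat 0),(.negSucc 0,.ofNat 1),(.ofNat 0,.negSucc 0),(.ofNat 0,.ofNat 0),(.ofNat 0,.ofNat 1),
  (.ofNat 1,.negSucc 0),(.ofNat 1,.ofNat 0),(.ofNat 1,.ofNat 1),(.ofNat 1,.ofNat 0),(.ofNat 1,.ofNat 0),(.ofNat 1,.ofNat 0),(.negSucc 0,.ofNat 0),(.negSucc 0,.ofNat 0),(.negSucc 0,.ofNat 0),(.negSucc 0,.negSucc 0),(.negSucc 0,.ofNat 0),(.negSucc 0,.ofNat 1),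
  (.ofNat 0,.negSucc 0),(.ofNat 0,.negSucc 0),(.ofNat 1,.ofNat 1),(.ofNat 0,.negSucc 0),(.ofNat 1,.ofNat 0),(.ofNat 1,.ofNat 0),(.ofNat 1,.negSucc 0),(.ofNat 1,.ofNat 0),(.ofNat 1,.ofNat 0),(.negSucc 0,.ofNat 0),(.negSucc 0,.ofNat 0),(.negSucc 0,.ofNat 0),
  (.negSucc 0,.negSucc 0),(.negSucc 0,.ofNat 0),(.negSucc 0,.ofNat 1),(.ofNat 0,.negSucc 0),(.ofNat 169,.negSucc 247),(.ofNat 1,.ofNat 1),(.ofNat 1,.negSucc 0),(.ofNat 1,.ofNat 0),(.ofNat 1,.ofNat 0),(.ofNat 1,.negSucc 0),(.ofNat 1,.ofNat 0),(.ofNat 1,.ofNat 0),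
  (.negSucc 0,.ofNat 0),(.negSucc 0,.ofNat 0),(.negSucc 0,.ofNat 1),(.negSucc 0,.negSucc 0),(.negSucc 0,.ofNat 1),(.ofNat 0,.ofNat 1),(.ofNat 0,.negSucc 0),(.ofNat 1,.ofNat 0),(.ofNat 1,.ofNat 1),(.ofNat 1,.ofNat 0),(.ofNat 1,.ofNat 0),(.ofNat 1,.ofNat 0),
  (.ofNat 1,.ofNat 0),(.ofNat 1,.ofNat 0),(.ofNat 1,.ofNat 0),(.negSucc 0,.ofNat 0),(.negSucc 0,.ofNat 0),(.negSucc 0,.ofNat 1),(.negSucc 0,.negSucc 0),(.negSucc 0,.ofNat 0),(.ofNat 0,.ofNat 1),(.ofNat 0,.negSucc 0),(.ofNat 1,.ofNat 0),(.ofNat 1,.ofNat 1),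
  (.ofNat 1,.negSucc 0),(.ofNat 1,.ofNat 0),(.ofNat 1,.ofNat 0),(.ofNat 1,.ofNat 0),(.ofNat 1,.ofNat 0),(.ofNat 1,.ofNat 0),(.negSucc 0,.ofNat 0),(.negSucc 0,.ofNat 0),(.negSucc 0,.ofNat 1),(.negSucc 0,.ofNat 0),(.negSucc 0,.ofNat 0),(.ofNat 0,.ofNat 1),
  (.negSucc 0,.negSucc 0),(.ofNat 0,.ofNat 1),(.ofNat 0,.ofNat 1),(.ofNat 1,.negSucc 0),(.ofNat 1,.ofNat 0),(.ofNat 1,.ofNat 1),(.ofNat 1,.ofNat 0),(.ofNat 1,.ofNat 0),(.ofNat 1,.ofNat 0),(.negSucc 0,.ofNat 0),(.negSucc 0,.ofNat 0),(.negSucc 0,.ofNat 0),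
  (.negSucc 0,.negSucc 0),(.negSucc 0,.ofNat 0),(.negSucc 0,.ofNat 1),(.ofNat 0,.negSucc 0),(.ofNat 0,.ofNat 0),(.ofNat 0,.ofNat 1),(.ofNat 1,.negSucc 0),(.ofNat 1,.ofNat 0),(.ofNat 1,.ofNat 1),(.ofNat 1,.ofNat 0),(.ofNat 1,.ofNat 0),(.ofNat 1,.ofNat 0)]

def E3 : Data where
  La := 1908695
  Lb := 872931
  Lc := 1682749
  T := E3T
  G := E3G
  M := 1000000
  lo := 304370
  hi := 314620
  Y0 := -1140774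
  Y1 := 1004070
  X0 := -1092802
  X1 := 1005785
  Mm := 2
  Nn := 1
  S := [(.negSucc 1,.negSucc 0),(.negSucc 1,.ofNat 0),(.negSucc 1,.ofNat 1),(.negSucc 0,.negSucc 0),(.negSucc 0,.ofNat 0),(.negSucc 0,.ofNat 1),(.ofNat 0,.negSucc 0),(.ofNat 0,.ofNat 0),(.ofNat 0,.ofNat 1),(.ofNat 1,.negSucc 0),(.ofNat 1,.ofNat 0),(.ofNat 1,.ofNat 1),(.ofNat 2,.negSucc 0),(.ofNat 2,.ofNat 0),(.ofNat 2,.ofNat 1)]
  cert := E3C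

theorem E3_ok : E3.OK = true := by decide +kernel

end Pool.Agent.Lib.MP_776035_co.Tiling
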