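import Pool.Agent.Lib.MP_776035_co.Tiling.Colour

/-! Data of a periodic colouring. -/

set_option autoImplicit false
set_option maxRecDepth 100000

namespace Pool.Agent.Lib.MP_776035_co.Tiling

def E4T : List Tri := [
  ⟨(.ofNat 43156,.ofNat 551368),(.ofNat 15137,.ofNat 435745),(.ofNat 101864,.ofNat 354727),1,141,(.ofNat 0,.ofNat 0),49,(.ofNat 0,.ofNat 0),4,(.ofNat 0,.ofNat 0)⟩,
  ⟨(.ofNat 946638,.ofNat 720056),(.ofNat 952845,.ofNat 783160),(.ofNat 924183,.ofNat 817329),0,105,(.ofNat 1,.ofNat 0),95,(.ofNat 0,.ofNat 1),12,(.ofNat 0,.ofNat 0)⟩,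
  ⟨(.ofNat 248031,.ofNat 752439),(.ofNat 39244,.ofNat 683157),(.ofNat 48293,.ofNat 609518),1,31,(.ofNat 0,.ofNat 1),142,(.ofNat 0,.ofNat 0),14,(.ofNat 0,.ofNat 0)⟩,
  ⟨(.ofNat 413353,.ofNat 158098),(.ofNat 601404,.negSucc 8797),(.ofNat 688112,.ofNat 26256),1,62,(.ofNat 0,.ofNat 0),133,(.ofNat 0,.ofNat 0),9,(.ofNat 0,.ofNat 0)⟩,
  ⟨(.ofNat 43156,.ofNat 551368),(.ofNat 101864,.ofNat 354727),(.ofNat 413353,.ofNat 158098),1,0,(.ofNat 0,.ofNat 0),63,(.ofNat 0,.ofNat 0),10,(.ofNat 0,.ofNat 0)⟩,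
  ⟨(.ofNat 778914,.ofNat 945202),(.ofNat 724451,.ofNat 983600),(.ofNat 643493,.ofNat 990313),1,76,(.ofNat 0,.ofNat 1),69,(.ofNat 0,.ofNat 1),6,(.ofNat 0,.ofNat 0)⟩,
  ⟨(.ofNat 778914,.ofNat 945202),(.ofNat 643493,.ofNat 990313),(.ofNat 439201,.ofNat 903711),1,5,(.ofNat 0,.ofNat 0),28,(.ofNat 0,.ofNat 1),11,(.ofNat 0,.ofNat 0)⟩,
  ⟨(.ofNat 688112,.ofNat 26256),(.ofNat 763043,.ofNat 26256),(.ofNat 818727,.ofNat 56739),1,134,(.ofNat 0,.ofNat 0),127,(.ofNat 0,.ofNat 0),8,(.ofNat 0,.ofNat 0)⟩,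
  ⟨(.ofNat 688112,.ofNat 26256),(.ofNat 818727,.ofNat 56739),(.ofNat 862911,.ofNat 131278),1,7,(.ofNat 0,.ofNat 0),100,(.ofNat 1,.ofNat 0),9,(.ofNat 0,.ofNat 0)⟩,
  ⟨(.ofNat 413353,.ofNat 158098),(.ofNat 688112,.ofNat 26256),(.ofNat 862911,.ofNat 131278),1,3,(.ofNat 0,.ofNat 0),8,(.ofNat 0,.ofNat 0),10,(.ofNat 0,.ofNat 0)⟩,
  ⟨(.ofNat 43156,.ofNat 551368),(.ofNat 413353,.ofNat 158098),(.ofNat 862911,.ofNat 131278),1,4,(.ofNat 0,.ofNat 0),9,(.ofNat 0,.ofNat 0),15,(.ofNat 0,.ofNat 0)⟩,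
  ⟨(.ofNat 778914,.ofNat 945202),(.ofNat 439201,.ofNat 903711),(.ofNat 248031,.ofNat 752439),1,6,(.ofNat 0,.ofNat 0),31,(.ofNat 0,.ofNat 1),13,(.ofNat 0,.ofNat 0)⟩,
  ⟨(.ofNat 926516,.ofNat 637075),(.ofNat 946638,.ofNat 720056),(.ofNat 924183,.ofNat 817329),0,106,(.ofNat 1,.ofNat 0),1,(.ofNat 0,.ofNat 0),17,(.ofNat 0,.ofNat 0)⟩,
  ⟨(.ofNat 900535,.ofNat 864760),(.ofNat 778914,.ofNat 945202),(.ofNat 248031,.ofNat 752439),1,70,(.ofNat 0,.ofNat 1),11,(.ofNat 0,.ofNat 0),16,(.ofNat 0,.ofNat 0)⟩,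
  ⟨(.ofNat 248031,.ofNat 752439),(.ofNat 48293,.ofNat 609518),(.ofNat 43156,.ofNat 551368),1,2,(.ofNat 0,.ofNat 0),148,(.ofNat 0,.ofNat 0),15,(.ofNat 0,.ofNat 0)⟩,
  ⟨(.ofNat 248031,.ofNat 752439),(.ofNat 43156,.ofNat 551368),(.ofNat 862911,.ofNat 131278),1,14,(.ofNat 0,.ofNat 0),10,(.ofNat 0,.ofNat 0),16,(.ofNat 0,.ofNat 0)⟩,
  ⟨(.ofNat 900535,.ofNat 864760),(.ofNat 248031,.ofNat 752439),(.ofNat 862911,.ofNat 131278),1,13,(.ofNat 0,.ofNat 0),15,(.ofNat 0,.ofNat 0),24,(.ofNat 0,.ofNat 0)⟩,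
  ⟨(.ofNat 896096,.ofNat 502104),(.ofNat 926516,.ofNat 637075),(.ofNat 924183,.ofNat 817329),1,99,(.ofNat 1,.ofNat 0),12,(.ofNat 0,.ofNat 0),22,(.ofNat 0,.ofNat 0)⟩,
  ⟨(.ofNat 924183,.ofNat 817329),(.ofNat 907473,.ofNat 859777),(.ofNat 900535,.ofNat 864760),1,95,(.ofNat 0,.ofNat 1),97,(.ofNat 0,.ofNat 1),22,(.ofNat 0,.ofNat 0)⟩,
  ⟨(.ofNat 887846,.ofNat 236301),(.ofNat 921090,.ofNat 403920),(.ofNat 906867,.ofNat 407783),1,102,(.ofNat 1,.ofNat 0),126,(.ofNat 0,.ofNat 0),20,(.ofNat 0,.ofNat 0)⟩,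
  ⟨(.ofNat 887846,.ofNat 236301),(.ofNat 906867,.ofNat 407783),(.ofNat 884635,.ofNat 459473),1,19,(.ofNat 0,.ofNat 0),126,(.ofNat 0,.ofNat 0),21,(.ofNat 0,.ofNat 0)⟩,
  ⟨(.ofNat 862911,.ofNat 131278),(.ofNat 887846,.ofNat 236301),(.ofNat 884635,.ofNat 459473),1,118,(.ofNat 1,.ofNat 0),20,(.ofNat 0,.ofNat 0),24,(.ofNat 0,.ofNat 0)⟩,
  ⟨(.ofNat 896096,.ofNat 502104),(.ofNat 924183,.ofNat 817329),(.ofNat 900535,.ofNat 864760),1,17,(.ofNat 0,.ofNat 0),18,(.ofNat 0,.ofNat 0),23,(.ofNat 0,.ofNat 0)⟩,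
  ⟨(.ofNat 884635,.ofNat 459473),(.ofNat 896096,.ofNat 502104),(.ofNat 900535,.ofNat 864760),1,125,(.ofNat 0,.ofNat 0),22,(.ofNat 0,.ofNat 0),24,(.ofNat 0,.ofNat 0)⟩,
  ⟨(.ofNat 862911,.ofNat 131278),(.ofNat 884635,.ofNat 459473),(.ofNat 900535,.ofNat 864760),1,21,(.ofNat 0,.ofNat 0),23,(.ofNat 0,.ofNat 0),16,(.ofNat 0,.ofNat 0)⟩,
  ⟨(.negSucc 283115,.negSucc 360874),(.negSucc 333336,.negSucc 244845),(.negSucc 416479,.negSucc 243510),2,47,(.ofNat 0,.ofNat 0),156,(.ofNat 0,.ofNat 0),35,(.ofNat 0,.ofNat 0)⟩,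
  ⟨(.negSucc 829612,.negSucc 58934),(.negSucc 1021324,.negSucc 76044),(.negSucc 1047168,.negSucc 127277),3,112,(.ofNat 0,.ofNat 0),130,(.negSucc 0,.ofNat 0),27,(.ofNat 0,.ofNat 0)⟩,
  ⟨(.negSucc 692216,.negSucc 111445),(.negSucc 829612,.negSucc 58934),(.negSucc 1047168,.negSucc 127277),3,104,(.ofNat 0,.ofNat 0),26,(.ofNat 0,.ofNat 0),30,(.ofNat 0,.ofNat 0)⟩,
  ⟨(.negSucc 441882,.negSucc 783072),(.negSucc 237590,.negSucc 696470),(.negSucc 204372,.negSucc 616741),5,6,(.ofNat 0,.negSucc 0),69,(.ofNat 0,.ofNat 0),44,(.ofNat 0,.ofNat 0)⟩,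
  ⟨(.negSucc 501582,.negSucc 204568),(.negSucc 576340,.negSucc 142066),(.negSucc 692216,.negSucc 111445),3,153,(.ofNat 0,.ofNat 0),98,(.ofNat 0,.ofNat 0),30,(.ofNat 0,.ofNat 0)⟩,
  ⟨(.negSucc 501582,.negSucc 204568),(.negSucc 692216,.negSucc 111445),(.negSucc 1047168,.negSucc 127277),3,29,(.ofNat 0,.ofNat 0),27,(.ofNat 0,.ofNat 0),36,(.ofNat 0,.ofNat 0)⟩,
  ⟨(.negSucc 841839,.negSucc 1003626),(.negSucc 633052,.negSucc 934344),(.negSucc 441882,.negSucc 783072),5,2,(.ofNat 0,.negSucc 0),11,(.ofNat 0,.negSucc 0),43,(.ofNat 0,.ofNat 0)⟩,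
  ⟨(.negSucc 1026089,.negSucc 703117),(.negSucc 971707,.negSucc 954730),(.negSucc 929118,.negSucc 965752),4,81,(.negSucc 0,.ofNat 0),144,(.ofNat 0,.negSucc 0),33,(.ofNat 0,.ofNat 0)⟩,
  ⟨(.negSucc 1031066,.negSucc 446979),(.negSucc 1026089,.negSucc 703117),(.negSucc 929118,.negSucc 965752),5,82,(.negSucc 0,.ofNat 0),32,(.ofNat 0,.ofNat 0),37,(.ofNat 0,.ofNat 0)⟩,
  ⟨(.negSucc 1068780,.negSucc 176800),(.negSucc 1091059,.negSucc 237427),(.negSucc 1031066,.negSucc 446979),3,128,(.negSucc 0,.ofNat 0),79,(.negSucc 0,.ofNat 0),38,(.ofNat 0,.ofNat 0)⟩,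
  ⟨(.negSucc 283115,.negSucc 360874),(.negSucc 416479,.negSucc 243510),(.negSucc 501582,.negSucc 204568),3,25,(.ofNat 0,.ofNat 0),154,(.ofNat 0,.ofNat 0),36,(.ofNat 0,.ofNat 0)⟩,
  ⟨(.negSucc 283115,.negSucc 360874),(.negSucc 501582,.negSucc 204568),(.negSucc 1047168,.negSucc 127277),3,35,(.ofNat 0,.ofNat 0),30,(.ofNat 0,.ofNat 0),39,(.ofNat 0,.ofNat 0)⟩,
  ⟨(.negSucc 1031066,.negSucc 446979),(.negSucc 929118,.negSucc 965752),(.negSucc 869410,.negSucc 991488),5,33,(.ofNat 0,.ofNat 0),143,(.ofNat 0,.negSucc 0),40,(.ofNat 0,.ofNat 0)⟩,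
  ⟨(.negSucc 1047168,.negSucc 127277),(.negSucc 1068780,.negSucc 176800),(.negSucc 1031066,.negSucc 446979),3,136,(.negSucc 0,.ofNat 0),34,(.ofNat 0,.ofNat 0),39,(.ofNat 0,.ofNat 0)⟩,
  ⟨(.negSucc 283115,.negSucc 360874),(.negSucc 1047168,.negSucc 127277),(.negSucc 1031066,.negSucc 446979),3,36,(.ofNat 0,.ofNat 0),38,(.ofNat 0,.ofNat 0),40,(.ofNat 0,.ofNat 0)⟩,
  ⟨(.negSucc 283115,.negSucc 360874),(.negSucc 1031066,.negSucc 446979),(.negSucc 869410,.negSucc 991488),5,39,(.ofNat 0,.ofNat 0),37,(.ofNat 0,.ofNat 0),41,(.ofNat 0,.ofNat 0)⟩,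
  ⟨(.negSucc 227765,.negSucc 433136),(.negSucc 283115,.negSucc 360874),(.negSucc 869410,.negSucc 991488),5,53,(.ofNat 0,.ofNat 0),40,(.ofNat 0,.ofNat 0),42,(.ofNat 0,.ofNat 0)⟩,
  ⟨(.negSucc 141783,.negSucc 551862),(.negSucc 227765,.negSucc 433136),(.negSucc 869410,.negSucc 991488),5,48,(.ofNat 0,.ofNat 0),41,(.ofNat 0,.ofNat 0),46,(.ofNat 0,.ofNat 0)⟩,
  ⟨(.negSucc 869410,.negSucc 991488),(.negSucc 841839,.negSucc 1003626),(.negSucc 441882,.negSucc 783072),5,142,(.ofNat 0,.negSucc 0),31,(.ofNat 0,.ofNat 0),44,(.ofNat 0,.ofNat 0)⟩,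
  ⟨(.negSucc 869410,.negSucc 991488),(.negSucc 441882,.negSucc 783072),(.negSucc 204372,.negSucc 616741),5,43,(.ofNat 0,.ofNat 0),28,(.ofNat 0,.ofNat 0),45,(.ofNat 0,.ofNat 0)⟩,
  ⟨(.negSucc 869410,.negSucc 991488),(.negSucc 204372,.negSucc 616741),(.negSucc 146549,.negSucc 555508),5,44,(.ofNat 0,.ofNat 0),72,(.ofNat 0,.ofNat 0),46,(.ofNat 0,.ofNat 0)⟩,
  ⟨(.negSucc 146549,.negSucc 555508),(.negSucc 141783,.negSucc 551862),(.negSucc 869410,.negSucc 991488),5,78,(.ofNat 0,.ofNat 0),42,(.ofNat 0,.ofNat 0),45,(.ofNat 0,.ofNat 0)⟩,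
  ⟨(.negSucc 274453,.negSucc 144718),(.negSucc 333336,.negSucc 244845),(.negSucc 283115,.negSucc 360874),6,156,(.ofNat 0,.ofNat 0),25,(.ofNat 0,.ofNat 0),53,(.ofNat 0,.ofNat 0)⟩,
  ⟨(.negSucc 227765,.negSucc 433136),(.negSucc 141783,.negSucc 551862),(.negSucc 99088,.negSucc 530923),6,42,(.ofNat 0,.ofNat 0),78,(.ofNat 0,.ofNat 0),51,(.ofNat 0,.ofNat 0)⟩,
  ⟨(.ofNat 101864,.ofNat 354727),(.ofNat 15137,.ofNat 435745),(.negSucc 155766,.ofNat 448036),9,0,(.ofNat 0,.ofNat 0),141,(.ofNat 0,.ofNat 0),64,(.ofNat 0,.ofNat 0)⟩,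
  ⟨(.negSucc 45434,.negSucc 518408),(.ofNat 30625,.negSucc 532020),(.ofNat 197082,.negSucc 406087),6,71,(.ofNat 0,.ofNat 0),90,(.ofNat 0,.ofNat 0),52,(.ofNat 0,.ofNat 0)⟩,
  ⟨(.negSucc 227765,.negSucc 433136),(.negSucc 99088,.negSucc 530923),(.negSucc 45434,.negSucc 518408),6,48,(.ofNat 0,.ofNat 0),73,(.ofNat 0,.ofNat 0),52,(.ofNat 0,.ofNat 0)⟩,
  ⟨(.negSucc 227765,.negSucc 433136),(.negSucc 45434,.negSucc 518408),(.ofNat 197082,.negSucc 406087),6,51,(.ofNat 0,.ofNat 0),50,(.ofNat 0,.ofNat 0),54,(.ofNat 0,.ofNat 0)⟩,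
  ⟨(.negSucc 274453,.negSucc 144718),(.negSucc 283115,.negSucc 360874),(.negSucc 227765,.negSucc 433136),6,47,(.ofNat 0,.ofNat 0),41,(.ofNat 0,.ofNat 0),54,(.ofNat 0,.ofNat 0)⟩,
  ⟨(.negSucc 274453,.negSucc 144718),(.negSucc 227765,.negSucc 433136),(.ofNat 197082,.negSucc 406087),6,53,(.ofNat 0,.ofNat 0),52,(.ofNat 0,.ofNat 0),55,(.ofNat 0,.ofNat 0)⟩,
  ⟨(.negSucc 274453,.negSucc 144718),(.ofNat 197082,.negSucc 406087),(.ofNat 431040,.negSucc 298386),8,54,(.ofNat 0,.ofNat 0),91,(.ofNat 0,.ofNat 0),56,(.ofNat 0,.ofNat 0)⟩,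
  ⟨(.negSucc 274453,.negSucc 144718),(.ofNat 431040,.negSucc 298386),(.ofNat 580267,.negSucc 144843),8,55,(.ofNat 0,.ofNat 0),80,(.ofNat 0,.ofNat 0),58,(.ofNat 0,.ofNat 0)⟩,
  ⟨(.negSucc 245803,.ofNat 170662),(.negSucc 307649,.ofNat 21607),(.negSucc 290523,.negSucc 16509),8,101,(.ofNat 0,.ofNat 0),159,(.ofNat 0,.ofNat 0),59,(.ofNat 0,.ofNat 0)⟩,
  ⟨(.negSucc 290523,.negSucc 16509),(.negSucc 274453,.negSucc 144718),(.ofNat 580267,.negSucc 144843),8,158,(.ofNat 0,.ofNat 0),56,(.ofNat 0,.ofNat 0),59,(.ofNat 0,.ofNat 0)⟩,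
  ⟨(.negSucc 245803,.ofNat 170662),(.negSucc 290523,.negSucc 16509),(.ofNat 580267,.negSucc 144843),8,57,(.ofNat 0,.ofNat 0),58,(.ofNat 0,.ofNat 0),60,(.ofNat 0,.ofNat 0)⟩,
  ⟨(.negSucc 215250,.ofNat 315066),(.negSucc 245803,.ofNat 170662),(.ofNat 580267,.negSucc 144843),8,109,(.ofNat 0,.ofNat 0),59,(.ofNat 0,.ofNat 0),61,(.ofNat 0,.ofNat 0)⟩,
  ⟨(.negSucc 169483,.ofNat 447750),(.negSucc 215250,.ofNat 315066),(.ofNat 580267,.negSucc 144843),8,103,(.ofNat 0,.ofNat 0),60,(.ofNat 0,.ofNat 0),65,(.ofNat 0,.ofNat 0)⟩,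
  ⟨(.ofNat 592891,.negSucc 53199),(.ofNat 601404,.negSucc 8797),(.ofNat 413353,.ofNat 158098),7,133,(.ofNat 0,.ofNat 0),3,(.ofNat 0,.ofNat 0),63,(.ofNat 0,.ofNat 0)⟩,
  ⟨(.ofNat 592891,.negSucc 53199),(.ofNat 413353,.ofNat 158098),(.ofNat 101864,.ofNat 354727),7,62,(.ofNat 0,.ofNat 0),4,(.ofNat 0,.ofNat 0),64,(.ofNat 0,.ofNat 0)⟩,
  ⟨(.ofNat 592891,.negSucc 53199),(.ofNat 101864,.ofNat 354727),(.negSucc 155766,.ofNat 448036),9,63,(.ofNat 0,.ofNat 0),49,(.ofNat 0,.ofNat 0),66,(.ofNat 0,.ofNat 0)⟩,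
  ⟨(.negSucc 169483,.ofNat 447750),(.ofNat 580267,.negSucc 144843),(.ofNat 585437,.negSucc 75941),8,61,(.ofNat 0,.ofNat 0),129,(.ofNat 0,.ofNat 0),67,(.ofNat 0,.ofNat 0)⟩,
  ⟨(.ofNat 585437,.negSucc 75941),(.ofNat 592891,.negSucc 53199),(.negSucc 155766,.ofNat 448036),9,139,(.ofNat 0,.ofNat 0),64,(.ofNat 0,.ofNat 0),67,(.ofNat 0,.ofNat 0)⟩,
  ⟨(.negSucc 169483,.ofNat 447750),(.ofNat 585437,.negSucc 75941),(.negSucc 155766,.ofNat 448036),9,65,(.ofNat 0,.ofNat 0),66,(.ofNat 0,.ofNat 0),68,(.ofNat 0,.ofNat 0)⟩,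
  ⟨(.negSucc 155766,.ofNat 448036),(.negSucc 161765,.ofNat 447934),(.negSucc 169483,.ofNat 447750),9,151,(.ofNat 0,.ofNat 0),150,(.ofNat 0,.ofNat 0),67,(.ofNat 0,.ofNat 0)⟩,
  ⟨(.negSucc 204372,.negSucc 616741),(.negSucc 237590,.negSucc 696470),(.negSucc 156632,.negSucc 703183),10,28,(.ofNat 0,.ofNat 0),5,(.ofNat 0,.negSucc 0),72,(.ofNat 0,.ofNat 0)⟩,
  ⟨(.negSucc 102169,.negSucc 741581),(.ofNat 19451,.negSucc 822023),(.ofNat 4953,.negSucc 688386),10,13,(.ofNat 0,.negSucc 0),97,(.ofNat 0,.ofNat 0),74,(.ofNat 0,.ofNat 0)⟩,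
  ⟨(.negSucc 8605,.negSucc 629096),(.ofNat 30625,.negSucc 532020),(.negSucc 45434,.negSucc 518408),10,89,(.ofNat 0,.ofNat 0),50,(.ofNat 0,.ofNat 0),73,(.ofNat 0,.ofNat 0)⟩,
  ⟨(.negSucc 146549,.negSucc 555508),(.negSucc 204372,.negSucc 616741),(.negSucc 156632,.negSucc 703183),10,45,(.ofNat 0,.ofNat 0),69,(.ofNat 0,.ofNat 0),77,(.ofNat 0,.ofNat 0)⟩,
  ⟨(.negSucc 8605,.negSucc 629096),(.negSucc 45434,.negSucc 518408),(.negSucc 99088,.negSucc 530923),10,71,(.ofNat 0,.ofNat 0),51,(.ofNat 0,.ofNat 0),75,(.ofNat 0,.ofNat 0)⟩,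
  ⟨(.negSucc 102169,.negSucc 741581),(.ofNat 4953,.negSucc 688386),(.negSucc 8605,.negSucc 629096),10,70,(.ofNat 0,.ofNat 0),89,(.ofNat 0,.ofNat 0),75,(.ofNat 0,.ofNat 0)⟩,
  ⟨(.negSucc 102169,.negSucc 741581),(.negSucc 8605,.negSucc 629096),(.negSucc 99088,.negSucc 530923),10,74,(.ofNat 0,.ofNat 0),73,(.ofNat 0,.ofNat 0),76,(.ofNat 0,.ofNat 0)⟩,
  ⟨(.negSucc 156632,.negSucc 703183),(.negSucc 102169,.negSucc 741581),(.negSucc 99088,.negSucc 530923),10,5,(.ofNat 0,.negSucc 0),75,(.ofNat 0,.ofNat 0),77,(.ofNat 0,.ofNat 0)⟩,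
  ⟨(.negSucc 146549,.negSucc 555508),(.negSucc 156632,.negSucc 703183),(.negSucc 99088,.negSucc 530923),10,72,(.ofNat 0,.ofNat 0),76,(.ofNat 0,.ofNat 0),78,(.ofNat 0,.ofNat 0)⟩,
  ⟨(.negSucc 99088,.negSucc 530923),(.negSucc 141783,.negSucc 551862),(.negSucc 146549,.negSucc 555508),10,48,(.ofNat 0,.ofNat 0),46,(.ofNat 0,.ofNat 0),77,(.ofNat 0,.ofNat 0)⟩,
  ⟨(.ofNat 877527,.negSucc 446979),(.ofNat 817534,.negSucc 237427),(.ofNat 711879,.negSucc 216468),11,34,(.ofNat 1,.ofNat 0),128,(.ofNat 0,.ofNat 0),82,(.ofNat 0,.ofNat 0)⟩,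
  ⟨(.ofNat 635688,.negSucc 190212),(.ofNat 580267,.negSucc 144843),(.ofNat 431040,.negSucc 298386),13,129,(.ofNat 0,.ofNat 0),56,(.ofNat 0,.ofNat 0),92,(.ofNat 0,.ofNat 0)⟩,
  ⟨(.ofNat 854561,.negSucc 1004137),(.ofNat 936886,.negSucc 954730),(.ofNat 882504,.negSucc 703117),13,144,(.ofNat 1,.negSucc 0),32,(.ofNat 1,.ofNat 0),85,(.ofNat 0,.ofNat 0)⟩,
  ⟨(.ofNat 882504,.negSucc 703117),(.ofNat 877527,.negSucc 446979),(.ofNat 711879,.negSucc 216468),11,33,(.ofNat 1,.ofNat 0),79,(.ofNat 0,.ofNat 0),86,(.ofNat 0,.ofNat 0)⟩,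
  ⟨(.ofNat 572340,.negSucc 1056648),(.ofNat 776663,.negSucc 1125365),(.ofNat 820244,.negSucc 1069776),13,110,(.ofNat 1,.negSucc 0),140,(.ofNat 1,.negSucc 0),84,(.ofNat 0,.ofNat 0)⟩,
  ⟨(.ofNat 572340,.negSucc 1056648),(.ofNat 820244,.negSucc 1069776),(.ofNat 854561,.negSucc 1004137),13,83,(.ofNat 0,.ofNat 0),146,(.ofNat 1,.negSucc 0),85,(.ofNat 0,.ofNat 0)⟩,
  ⟨(.ofNat 572340,.negSucc 1056648),(.ofNat 854561,.negSucc 1004137),(.ofNat 882504,.negSucc 703117),13,84,(.ofNat 0,.ofNat 0),81,(.ofNat 0,.ofNat 0),86,(.ofNat 0,.ofNat 0)⟩,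
  ⟨(.ofNat 572340,.negSucc 1056648),(.ofNat 882504,.negSucc 703117),(.ofNat 711879,.negSucc 216468),13,85,(.ofNat 0,.ofNat 0),82,(.ofNat 0,.ofNat 0),87,(.ofNat 0,.ofNat 0)⟩,
  ⟨(.ofNat 343767,.negSucc 977881),(.ofNat 572340,.negSucc 1056648),(.ofNat 711879,.negSucc 216468),13,108,(.ofNat 1,.negSucc 0),86,(.ofNat 0,.ofNat 0),88,(.ofNat 0,.ofNat 0)⟩,
  ⟨(.ofNat 71761,.negSucc 903623),(.ofNat 343767,.negSucc 977881),(.ofNat 711879,.negSucc 216468),13,105,(.ofNat 1,.negSucc 0),87,(.ofNat 0,.ofNat 0),93,(.ofNat 0,.ofNat 0)⟩,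
  ⟨(.ofNat 30625,.negSucc 532020),(.negSucc 8605,.negSucc 629096),(.ofNat 4953,.negSucc 688386),12,71,(.ofNat 0,.ofNat 0),74,(.ofNat 0,.ofNat 0),90,(.ofNat 0,.ofNat 0)⟩,
  ⟨(.ofNat 197082,.negSucc 406087),(.ofNat 30625,.negSucc 532020),(.ofNat 4953,.negSucc 688386),13,50,(.ofNat 0,.ofNat 0),89,(.ofNat 0,.ofNat 0),91,(.ofNat 0,.ofNat 0)⟩,
  ⟨(.ofNat 431040,.negSucc 298386),(.ofNat 197082,.negSucc 406087),(.ofNat 4953,.negSucc 688386),13,55,(.ofNat 0,.ofNat 0),90,(.ofNat 0,.ofNat 0),94,(.ofNat 0,.ofNat 0)⟩,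
  ⟨(.ofNat 711879,.negSucc 216468),(.ofNat 635688,.negSucc 190212),(.ofNat 431040,.negSucc 298386),13,131,(.ofNat 0,.ofNat 0),80,(.ofNat 0,.ofNat 0),93,(.ofNat 0,.ofNat 0)⟩,
  ⟨(.ofNat 71761,.negSucc 903623),(.ofNat 711879,.negSucc 216468),(.ofNat 431040,.negSucc 298386),13,88,(.ofNat 0,.ofNat 0),92,(.ofNat 0,.ofNat 0),94,(.ofNat 0,.ofNat 0)⟩,
  ⟨(.ofNat 71761,.negSucc 903623),(.ofNat 431040,.negSucc 298386),(.ofNat 4953,.negSucc 688386),13,93,(.ofNat 0,.ofNat 0),91,(.ofNat 0,.ofNat 0),96,(.ofNat 0,.ofNat 0)⟩,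
  ⟨(.ofNat 26389,.negSucc 827006),(.ofNat 43099,.negSucc 869454),(.ofNat 71761,.negSucc 903623),13,18,(.ofNat 0,.negSucc 0),1,(.ofNat 0,.negSucc 0),96,(.ofNat 0,.ofNat 0)⟩,
  ⟨(.ofNat 26389,.negSucc 827006),(.ofNat 71761,.negSucc 903623),(.ofNat 4953,.negSucc 688386),13,95,(.ofNat 0,.ofNat 0),94,(.ofNat 0,.ofNat 0),97,(.ofNat 0,.ofNat 0)⟩,
  ⟨(.ofNat 4953,.negSucc 688386),(.ofNat 19451,.negSucc 822023),(.ofNat 26389,.negSucc 827006),13,70,(.ofNat 0,.ofNat 0),18,(.ofNat 0,.negSucc 0),96,(.ofNat 0,.ofNat 0)⟩,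
  ⟨(.negSucc 692216,.negSucc 111445),(.negSucc 576340,.negSucc 142066),(.negSucc 499913,.negSucc 58934),15,29,(.ofNat 0,.ofNat 0),153,(.ofNat 0,.ofNat 0),104,(.ofNat 0,.ofNat 0)⟩,
  ⟨(.negSucc 982077,.ofNat 637075),(.negSucc 1012497,.ofNat 502104),(.negSucc 943422,.ofNat 498857),15,17,(.negSucc 0,.ofNat 0),124,(.negSucc 0,.ofNat 0),107,(.ofNat 0,.ofNat 0)⟩,
  ⟨(.negSucc 1045682,.ofNat 131278),(.negSucc 1089866,.ofNat 56739),(.negSucc 1052014,.negSucc 16045),15,8,(.negSucc 0,.ofNat 0),127,(.negSucc 0,.ofNat 0),119,(.ofNat 0,.ofNat 0)⟩,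
  ⟨(.negSucc 409960,.ofNat 0),(.negSucc 307649,.ofNat 21607),(.negSucc 245803,.ofNat 170662),14,159,(.ofNat 0,.ofNat 0),57,(.ofNat 0,.ofNat 0),109,(.ofNat 0,.ofNat 0)⟩,
  ⟨(.negSucc 902808,.ofNat 433218),(.negSucc 987503,.ofNat 403920),(.negSucc 1020747,.ofNat 236301),15,123,(.negSucc 0,.ofNat 0),19,(.negSucc 0,.ofNat 0),117,(.ofNat 0,.ofNat 0)⟩,
  ⟨(.negSucc 215250,.ofNat 315066),(.negSucc 169483,.ofNat 447750),(.negSucc 205017,.ofNat 499808),15,61,(.ofNat 0,.ofNat 0),150,(.ofNat 0,.ofNat 0),111,(.ofNat 0,.ofNat 0)⟩,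
  ⟨(.negSucc 829612,.negSucc 58934),(.negSucc 692216,.negSucc 111445),(.negSucc 499913,.negSucc 58934),15,27,(.ofNat 0,.ofNat 0),98,(.ofNat 0,.ofNat 0),113,(.ofNat 0,.ofNat 0)⟩,
  ⟨(.negSucc 683742,.ofNat 708902),(.negSucc 955748,.ofNat 783160),(.negSucc 961955,.ofNat 720056),15,88,(.negSucc 0,.ofNat 1),1,(.negSucc 0,.ofNat 0),106,(.ofNat 0,.ofNat 0)⟩,
  ⟨(.negSucc 683742,.ofNat 708902),(.negSucc 961955,.ofNat 720056),(.negSucc 982077,.ofNat 637075),15,105,(.ofNat 0,.ofNat 0),12,(.negSucc 0,.ofNat 0),107,(.ofNat 0,.ofNat 0)⟩,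
  ⟨(.negSucc 683742,.ofNat 708902),(.negSucc 982077,.ofNat 637075),(.negSucc 943422,.ofNat 498857),15,106,(.ofNat 0,.ofNat 0),99,(.ofNat 0,.ofNat 0),108,(.ofNat 0,.ofNat 0)⟩,
  ⟨(.negSucc 455169,.ofNat 630135),(.negSucc 683742,.ofNat 708902),(.negSucc 943422,.ofNat 498857),15,87,(.negSucc 0,.ofNat 1),107,(.ofNat 0,.ofNat 0),110,(.ofNat 0,.ofNat 0)⟩,
  ⟨(.negSucc 409960,.ofNat 0),(.negSucc 245803,.ofNat 170662),(.negSucc 215250,.ofNat 315066),15,101,(.ofNat 0,.ofNat 0),60,(.ofNat 0,.ofNat 0),111,(.ofNat 0,.ofNat 0)⟩,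
  ⟨(.negSucc 250846,.ofNat 561418),(.negSucc 455169,.ofNat 630135),(.negSucc 943422,.ofNat 498857),15,83,(.negSucc 0,.ofNat 1),108,(.ofNat 0,.ofNat 0),116,(.ofNat 0,.ofNat 0)⟩,
  ⟨(.negSucc 409960,.ofNat 0),(.negSucc 215250,.ofNat 315066),(.negSucc 205017,.ofNat 499808),15,109,(.ofNat 0,.ofNat 0),103,(.ofNat 0,.ofNat 0),114,(.ofNat 0,.ofNat 0)⟩,
  ⟨(.negSucc 1040140,.negSucc 44134),(.negSucc 1021324,.negSucc 76044),(.negSucc 829612,.negSucc 58934),15,130,(.negSucc 0,.ofNat 0),26,(.ofNat 0,.ofNat 0),115,(.ofNat 0,.ofNat 0)⟩,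
  ⟨(.negSucc 829612,.negSucc 58934),(.negSucc 499913,.negSucc 58934),(.negSucc 409960,.ofNat 0),15,104,(.ofNat 0,.ofNat 0),155,(.ofNat 0,.ofNat 0),114,(.ofNat 0,.ofNat 0)⟩,
  ⟨(.negSucc 829612,.negSucc 58934),(.negSucc 409960,.ofNat 0),(.negSucc 205017,.ofNat 499808),15,113,(.ofNat 0,.ofNat 0),111,(.ofNat 0,.ofNat 0),115,(.ofNat 0,.ofNat 0)⟩,
  ⟨(.negSucc 1040140,.negSucc 44134),(.negSucc 829612,.negSucc 58934),(.negSucc 205017,.ofNat 499808),15,112,(.ofNat 0,.ofNat 0),114,(.ofNat 0,.ofNat 0),121,(.ofNat 0,.ofNat 0)⟩,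
  ⟨(.negSucc 250846,.ofNat 561418),(.negSucc 943422,.ofNat 498857),(.negSucc 902808,.ofNat 433218),15,110,(.ofNat 0,.ofNat 0),123,(.negSucc 0,.ofNat 0),117,(.ofNat 0,.ofNat 0)⟩,
  ⟨(.negSucc 250846,.ofNat 561418),(.negSucc 902808,.ofNat 433218),(.negSucc 1020747,.ofNat 236301),15,116,(.ofNat 0,.ofNat 0),102,(.ofNat 0,.ofNat 0),118,(.ofNat 0,.ofNat 0)⟩,
  ⟨(.negSucc 250846,.ofNat 561418),(.negSucc 1020747,.ofNat 236301),(.negSucc 1045682,.ofNat 131278),15,117,(.ofNat 0,.ofNat 0),21,(.negSucc 0,.ofNat 0),119,(.ofNat 0,.ofNat 0)⟩,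
  ⟨(.negSucc 250846,.ofNat 561418),(.negSucc 1045682,.ofNat 131278),(.negSucc 1052014,.negSucc 16045),15,118,(.ofNat 0,.ofNat 0),100,(.ofNat 0,.ofNat 0),120,(.ofNat 0,.ofNat 0)⟩,
  ⟨(.negSucc 208166,.ofNat 504915),(.negSucc 250846,.ofNat 561418),(.negSucc 1052014,.negSucc 16045),15,140,(.ofNat 0,.ofNat 0),119,(.ofNat 0,.ofNat 0),122,(.ofNat 0,.ofNat 0)⟩,
  ⟨(.negSucc 1052014,.negSucc 16045),(.negSucc 1040140,.negSucc 44134),(.negSucc 205017,.ofNat 499808),15,138,(.negSucc 0,.ofNat 0),115,(.ofNat 0,.ofNat 0),122,(.ofNat 0,.ofNat 0)⟩,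
  ⟨(.negSucc 1052014,.negSucc 16045),(.negSucc 205017,.ofNat 499808),(.negSucc 208166,.ofNat 504915),15,121,(.ofNat 0,.ofNat 0),152,(.ofNat 0,.ofNat 0),120,(.ofNat 0,.ofNat 0)⟩,
  ⟨(.ofNat 921090,.ofNat 403920),(.ofNat 1005785,.ofNat 433218),(.ofNat 965171,.ofNat 498857),16,102,(.ofNat 1,.ofNat 0),116,(.ofNat 1,.ofNat 0),124,(.ofNat 0,.ofNat 0)⟩,
  ⟨(.ofNat 921090,.ofNat 403920),(.ofNat 965171,.ofNat 498857),(.ofNat 896096,.ofNat 502104),16,123,(.ofNat 0,.ofNat 0),99,(.ofNat 1,.ofNat 0),125,(.ofNat 0,.ofNat 0)⟩,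
  ⟨(.ofNat 921090,.ofNat 403920),(.ofNat 896096,.ofNat 502104),(.ofNat 884635,.ofNat 459473),16,124,(.ofNat 0,.ofNat 0),23,(.ofNat 0,.ofNat 0),126,(.ofNat 0,.ofNat 0)⟩,
  ⟨(.ofNat 884635,.ofNat 459473),(.ofNat 906867,.ofNat 407783),(.ofNat 921090,.ofNat 403920),16,20,(.ofNat 0,.ofNat 0),19,(.ofNat 0,.ofNat 0),125,(.ofNat 0,.ofNat 0)⟩,
  ⟨(.ofNat 856579,.negSucc 16045),(.ofNat 818727,.ofNat 56739),(.ofNat 763043,.ofNat 26256),17,100,(.ofNat 1,.ofNat 0),7,(.ofNat 0,.ofNat 0),135,(.ofNat 0,.ofNat 0)⟩,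
  ⟨(.ofNat 711879,.negSucc 216468),(.ofNat 817534,.negSucc 237427),(.ofNat 839813,.negSucc 176800),17,79,(.ofNat 0,.ofNat 0),34,(.ofNat 1,.ofNat 0),132,(.ofNat 0,.ofNat 0)⟩,
  ⟨(.ofNat 585437,.negSucc 75941),(.ofNat 580267,.negSucc 144843),(.ofNat 635688,.negSucc 190212),17,65,(.ofNat 0,.ofNat 0),80,(.ofNat 0,.ofNat 0),131,(.ofNat 0,.ofNat 0)⟩,
  ⟨(.ofNat 861425,.negSucc 127277),(.ofNat 887269,.negSucc 76044),(.ofNat 868453,.negSucc 44134),17,26,(.ofNat 1,.ofNat 0),112,(.ofNat 1,.ofNat 0),137,(.ofNat 0,.ofNat 0)⟩,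
  ⟨(.ofNat 585437,.negSucc 75941),(.ofNat 635688,.negSucc 190212),(.ofNat 711879,.negSucc 216468),17,129,(.ofNat 0,.ofNat 0),92,(.ofNat 0,.ofNat 0),132,(.ofNat 0,.ofNat 0)⟩,
  ⟨(.ofNat 585437,.negSucc 75941),(.ofNat 711879,.negSucc 216468),(.ofNat 839813,.negSucc 176800),17,131,(.ofNat 0,.ofNat 0),128,(.ofNat 0,.ofNat 0),136,(.ofNat 0,.ofNat 0)⟩,
  ⟨(.ofNat 688112,.ofNat 26256),(.ofNat 601404,.negSucc 8797),(.ofNat 592891,.negSucc 53199),17,3,(.ofNat 0,.ofNat 0),62,(.ofNat 0,.ofNat 0),134,(.ofNat 0,.ofNat 0)⟩,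
  ⟨(.ofNat 763043,.ofNat 26256),(.ofNat 688112,.ofNat 26256),(.ofNat 592891,.negSucc 53199),17,7,(.ofNat 0,.ofNat 0),133,(.ofNat 0,.ofNat 0),135,(.ofNat 0,.ofNat 0)⟩,
  ⟨(.ofNat 856579,.negSucc 16045),(.ofNat 763043,.ofNat 26256),(.ofNat 592891,.negSucc 53199),17,127,(.ofNat 0,.ofNat 0),134,(.ofNat 0,.ofNat 0),138,(.ofNat 0,.ofNat 0)⟩,
  ⟨(.ofNat 585437,.negSucc 75941),(.ofNat 839813,.negSucc 176800),(.ofNat 861425,.negSucc 127277),17,132,(.ofNat 0,.ofNat 0),38,(.ofNat 1,.ofNat 0),137,(.ofNat 0,.ofNat 0)⟩,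
  ⟨(.ofNat 585437,.negSucc 75941),(.ofNat 861425,.negSucc 127277),(.ofNat 868453,.negSucc 44134),17,136,(.ofNat 0,.ofNat 0),130,(.ofNat 0,.ofNat 0),139,(.ofNat 0,.ofNat 0)⟩,
  ⟨(.ofNat 868453,.negSucc 44134),(.ofNat 856579,.negSucc 16045),(.ofNat 592891,.negSucc 53199),17,121,(.ofNat 1,.ofNat 0),135,(.ofNat 0,.ofNat 0),139,(.ofNat 0,.ofNat 0)⟩,
  ⟨(.ofNat 592891,.negSucc 53199),(.ofNat 585437,.negSucc 75941),(.ofNat 868453,.negSucc 44134),17,66,(.ofNat 0,.ofNat 0),137,(.ofNat 0,.ofNat 0),138,(.ofNat 0,.ofNat 0)⟩,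
  ⟨(.negSucc 207265,.ofNat 617007),(.negSucc 250846,.ofNat 561418),(.negSucc 208166,.ofNat 504915),18,83,(.negSucc 0,.ofNat 1),120,(.ofNat 0,.ofNat 0),147,(.ofNat 0,.ofNat 0)⟩,
  ⟨(.negSucc 155766,.ofNat 448036),(.ofNat 15137,.ofNat 435745),(.ofNat 43156,.ofNat 551368),18,49,(.ofNat 0,.ofNat 0),0,(.ofNat 0,.ofNat 0),149,(.ofNat 0,.ofNat 0)⟩,
  ⟨(.ofNat 48293,.ofNat 609518),(.ofNat 39244,.ofNat 683157),(.ofNat 11673,.ofNat 695295),18,2,(.ofNat 0,.ofNat 0),43,(.ofNat 0,.ofNat 1),143,(.ofNat 0,.ofNat 0)⟩,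
  ⟨(.ofNat 48293,.ofNat 609518),(.ofNat 11673,.ofNat 695295),(.negSucc 48034,.ofNat 721031),18,142,(.ofNat 0,.ofNat 0),37,(.ofNat 0,.ofNat 1),145,(.ofNat 0,.ofNat 0)⟩,
  ⟨(.negSucc 48034,.ofNat 721031),(.negSucc 90623,.ofNat 732053),(.negSucc 172948,.ofNat 682646),18,32,(.ofNat 0,.ofNat 1),81,(.negSucc 0,.ofNat 1),145,(.ofNat 0,.ofNat 0)⟩,
  ⟨(.ofNat 48293,.ofNat 609518),(.negSucc 48034,.ofNat 721031),(.negSucc 172948,.ofNat 682646),18,143,(.ofNat 0,.ofNat 0),144,(.ofNat 0,.ofNat 0),146,(.ofNat 0,.ofNat 0)⟩,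
  ⟨(.ofNat 48293,.ofNat 609518),(.negSucc 172948,.ofNat 682646),(.negSucc 207265,.ofNat 617007),18,145,(.ofNat 0,.ofNat 0),84,(.negSucc 0,.ofNat 1),147,(.ofNat 0,.ofNat 0)⟩,
  ⟨(.ofNat 48293,.ofNat 609518),(.negSucc 207265,.ofNat 617007),(.negSucc 208166,.ofNat 504915),18,146,(.ofNat 0,.ofNat 0),140,(.ofNat 0,.ofNat 0),148,(.ofNat 0,.ofNat 0)⟩,
  ⟨(.ofNat 43156,.ofNat 551368),(.ofNat 48293,.ofNat 609518),(.negSucc 208166,.ofNat 504915),18,14,(.ofNat 0,.ofNat 0),147,(.ofNat 0,.ofNat 0),149,(.ofNat 0,.ofNat 0)⟩,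
  ⟨(.negSucc 155766,.ofNat 448036),(.ofNat 43156,.ofNat 551368),(.negSucc 208166,.ofNat 504915),18,141,(.ofNat 0,.ofNat 0),148,(.ofNat 0,.ofNat 0),152,(.ofNat 0,.ofNat 0)⟩,
  ⟨(.negSucc 205017,.ofNat 499808),(.negSucc 169483,.ofNat 447750),(.negSucc 161765,.ofNat 447934),18,103,(.ofNat 0,.ofNat 0),68,(.ofNat 0,.ofNat 0),151,(.ofNat 0,.ofNat 0)⟩,
  ⟨(.negSucc 205017,.ofNat 499808),(.negSucc 161765,.ofNat 447934),(.negSucc 155766,.ofNat 448036),18,150,(.ofNat 0,.ofNat 0),68,(.ofNat 0,.ofNat 0),152,(.ofNat 0,.ofNat 0)⟩,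
  ⟨(.negSucc 208166,.ofNat 504915),(.negSucc 205017,.ofNat 499808),(.negSucc 155766,.ofNat 448036),18,122,(.ofNat 0,.ofNat 0),151,(.ofNat 0,.ofNat 0),149,(.ofNat 0,.ofNat 0)⟩,
  ⟨(.negSucc 499913,.negSucc 58934),(.negSucc 576340,.negSucc 142066),(.negSucc 501582,.negSucc 204568),19,98,(.ofNat 0,.ofNat 0),29,(.ofNat 0,.ofNat 0),154,(.ofNat 0,.ofNat 0)⟩,
  ⟨(.negSucc 499913,.negSucc 58934),(.negSucc 501582,.negSucc 204568),(.negSucc 416479,.negSucc 243510),19,153,(.ofNat 0,.ofNat 0),35,(.ofNat 0,.ofNat 0),155,(.ofNat 0,.ofNat 0)⟩,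
  ⟨(.negSucc 409960,.ofNat 0),(.negSucc 499913,.negSucc 58934),(.negSucc 416479,.negSucc 243510),19,113,(.ofNat 0,.ofNat 0),154,(.ofNat 0,.ofNat 0),157,(.ofNat 0,.ofNat 0)⟩,
  ⟨(.negSucc 416479,.negSucc 243510),(.negSucc 333336,.negSucc 244845),(.negSucc 274453,.negSucc 144718),19,25,(.ofNat 0,.ofNat 0),47,(.ofNat 0,.ofNat 0),157,(.ofNat 0,.ofNat 0)⟩,
  ⟨(.negSucc 409960,.ofNat 0),(.negSucc 416479,.negSucc 243510),(.negSucc 274453,.negSucc 144718),19,155,(.ofNat 0,.ofNat 0),156,(.ofNat 0,.ofNat 0),158,(.ofNat 0,.ofNat 0)⟩,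
  ⟨(.negSucc 409960,.ofNat 0),(.negSucc 274453,.negSucc 144718),(.negSucc 290523,.negSucc 16509),19,157,(.ofNat 0,.ofNat 0),58,(.ofNat 0,.ofNat 0),159,(.ofNat 0,.ofNat 0)⟩,
  ⟨(.negSucc 290523,.negSucc 16509),(.negSucc 307649,.ofNat 21607),(.negSucc 409960,.ofNat 0),19,57,(.ofNat 0,.ofNat 0),101,(.ofNat 0,.ofNat 0),158,(.ofNat 0,.ofNat 0)⟩]

def E4G : List Grp := [
  ⟨0,[(.ofNat 946638,.ofNat 720056),(.ofNat 952845,.ofNat 783160),(.ofNat 924183,.ofNat 817329),(.ofNat 926516,.ofNat 637075)]⟩,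
  ⟨0,[(.ofNat 43156,.ofNat 551368),(.ofNat 15137,.ofNat 435745),(.ofNat 101864,.ofNat 354727),(.ofNat 248031,.ofNat 752439),(.ofNat 39244,.ofNat 683157),(.ofNat 48293,.ofNat 609518),(.ofNat 413353,.ofNat 158098),(.ofNat 601404,.negSucc 8797),(.ofNat 688112,.ofNat 26256),(.ofNat 778914,.ofNat 945202),(.ofNat 724451,.ofNat 983600),(.ofNat 643493,.ofNat 990313),(.ofNat 439201,.ofNat 903711),(.ofNat 763043,.ofNat 26256),(.ofNat 818727,.ofNat 56739),(.ofNat 862911,.ofNat 131278),(.ofNat 900535,.ofNat 864760),(.ofNat 896096,.ofNat 502104),(.ofNat 926516,.ofNat 637075),(.ofNat 924183,.ofNat 817329),(.ofNat 907473,.ofNat 859777),(.ofNat 887846,.ofNat 236301),(.ofNat 921090,.ofNat 403920),(.ofNat 906867,.ofNat 407783),(.ofNat 884635,.ofNat 459473)]⟩,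
  ⟨3,[(.negSucc 283115,.negSucc 360874),(.negSucc 333336,.negSucc 244845),(.negSucc 416479,.negSucc 243510)]⟩,
  ⟨3,[(.negSucc 829612,.negSucc 58934),(.negSucc 1021324,.negSucc 76044),(.negSucc 1047168,.negSucc 127277),(.negSucc 692216,.negSucc 111445),(.negSucc 501582,.negSucc 204568),(.negSucc 576340,.negSucc 142066),(.negSucc 1068780,.negSucc 176800),(.negSucc 1091059,.negSucc 237427),(.negSucc 1031066,.negSucc 446979),(.negSucc 283115,.negSucc 360874),(.negSucc 416479,.negSucc 243510)]⟩,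
  ⟨3,[(.negSucc 1026089,.negSucc 703117),(.negSucc 971707,.negSucc 954730),(.negSucc 929118,.negSucc 965752)]⟩,
  ⟨3,[(.negSucc 441882,.negSucc 783072),(.negSucc 237590,.negSucc 696470),(.negSucc 204372,.negSucc 616741),(.negSucc 841839,.negSucc 1003626),(.negSucc 633052,.negSucc 934344),(.negSucc 1031066,.negSucc 446979),(.negSucc 1026089,.negSucc 703117),(.negSucc 929118,.negSucc 965752),(.negSucc 869410,.negSucc 991488),(.negSucc 283115,.negSucc 360874),(.negSucc 227765,.negSucc 433136),(.negSucc 141783,.negSucc 551862),(.negSucc 146549,.negSucc 555508)]⟩,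
  ⟨2,[(.negSucc 274453,.negSucc 144718),(.negSucc 333336,.negSucc 244845),(.negSucc 283115,.negSucc 360874),(.negSucc 227765,.negSucc 433136),(.negSucc 141783,.negSucc 551862),(.negSucc 99088,.negSucc 530923),(.negSucc 45434,.negSucc 518408),(.ofNat 30625,.negSucc 532020),(.ofNat 197082,.negSucc 406087)]⟩,
  ⟨2,[(.ofNat 592891,.negSucc 53199),(.ofNat 601404,.negSucc 8797),(.ofNat 413353,.ofNat 158098),(.ofNat 101864,.ofNat 354727)]⟩,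
  ⟨2,[(.negSucc 274453,.negSucc 144718),(.ofNat 197082,.negSucc 406087),(.ofNat 431040,.negSucc 298386),(.ofNat 580267,.negSucc 144843),(.negSucc 245803,.ofNat 170662),(.negSucc 307649,.ofNat 21607),(.negSucc 290523,.negSucc 16509),(.negSucc 215250,.ofNat 315066),(.negSucc 169483,.ofNat 447750),(.ofNat 585437,.negSucc 75941)]⟩,
  ⟨2,[(.ofNat 101864,.ofNat 354727),(.ofNat 15137,.ofNat 435745),(.negSucc 155766,.ofNat 448036),(.ofNat 592891,.negSucc 53199),(.ofNat 585437,.negSucc 75941),(.negSucc 169483,.ofNat 447750),(.negSucc 161765,.ofNat 447934)]⟩,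
  ⟨5,[(.negSucc 204372,.negSucc 616741),(.negSucc 237590,.negSucc 696470),(.negSucc 156632,.negSucc 703183),(.negSucc 102169,.negSucc 741581),(.ofNat 19451,.negSucc 822023),(.ofNat 4953,.negSucc 688386),(.negSucc 8605,.negSucc 629096),(.ofNat 30625,.negSucc 532020),(.negSucc 45434,.negSucc 518408),(.negSucc 146549,.negSucc 555508),(.negSucc 99088,.negSucc 530923),(.negSucc 141783,.negSucc 551862)]⟩,
  ⟨4,[(.ofNat 877527,.negSucc 446979),(.ofNat 817534,.negSucc 237427),(.ofNat 711879,.negSucc 216468),(.ofNat 882504,.negSucc 703117)]⟩,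
  ⟨4,[(.ofNat 30625,.negSucc 532020),(.negSucc 8605,.negSucc 629096),(.ofNat 4953,.negSucc 688386)]⟩,
  ⟨4,[(.ofNat 635688,.negSucc 190212),(.ofNat 580267,.negSucc 144843),(.ofNat 431040,.negSucc 298386),(.ofNat 854561,.negSucc 1004137),(.ofNat 936886,.negSucc 954730),(.ofNat 882504,.negSucc 703117),(.ofNat 572340,.negSucc 1056648),(.ofNat 776663,.negSucc 1125365),(.ofNat 820244,.negSucc 1069776),(.ofNat 711879,.negSucc 216468),(.ofNat 343767,.negSucc 977881),(.ofNat 71761,.negSucc 903623),(.ofNat 197082,.negSucc 406087),(.ofNat 30625,.negSucc 532020),(.ofNat 4953,.negSucc 688386),(.ofNat 26389,.negSucc 827006),(.ofNat 43099,.negSucc 869454),(.ofNat 19451,.negSucc 822023)]⟩,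
  ⟨1,[(.negSucc 409960,.ofNat 0),(.negSucc 307649,.ofNat 21607),(.negSucc 245803,.ofNat 170662)]⟩,
  ⟨1,[(.negSucc 692216,.negSucc 111445),(.negSucc 576340,.negSucc 142066),(.negSucc 499913,.negSucc 58934),(.negSucc 982077,.ofNat 637075),(.negSucc 1012497,.ofNat 502104),(.negSucc 943422,.ofNat 498857),(.negSucc 1045682,.ofNat 131278),(.negSucc 1089866,.ofNat 56739),(.negSucc 1052014,.negSucc 16045),(.negSucc 902808,.ofNat 433218),(.negSucc 987503,.ofNat 403920),(.negSucc 1020747,.ofNat 236301),(.negSucc 215250,.ofNat 315066),(.negSucc 169483,.ofNat 447750),(.negSucc 205017,.ofNat 499808),(.negSucc 829612,.negSucc 58934),(.negSucc 683742,.ofNat 708902),(.negSucc 955748,.ofNat 783160),(.negSucc 961955,.ofNat 720056),(.negSucc 455169,.ofNat 630135),(.negSucc 409960,.ofNat 0),(.negSucc 245803,.ofNat 170662),(.negSucc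 250846,.ofNat 561418),(.negSucc 1040140,.negSucc 44134),(.negSucc 1021324,.negSucc 76044),(.negSucc 208166,.ofNat 504915)]⟩,
  ⟨5,[(.ofNat 921090,.ofNat 403920),(.ofNat 1005785,.ofNat 433218),(.ofNat 965171,.ofNat 498857),(.ofNat 896096,.ofNat 502104),(.ofNat 884635,.ofNat 459473),(.ofNat 906867,.ofNat 407783)]⟩,
  ⟨5,[(.ofNat 856579,.negSucc 16045),(.ofNat 818727,.ofNat 56739),(.ofNat 763043,.ofNat 26256),(.ofNat 711879,.negSucc 216468),(.ofNat 817534,.negSucc 237427),(.ofNat 839813,.negSucc 176800),(.ofNat 585437,.negSucc 75941),(.ofNat 580267,.negSucc 144843),(.ofNat 635688,.negSucc 190212),(.ofNat 861425,.negSucc 127277),(.ofNat 887269,.negSucc 76044),(.ofNat 868453,.negSucc 44134),(.ofNat 688112,.ofNat 26256),(.ofNat 601404,.negSucc 8797),(.ofNat 592891,.negSucc 53199)]⟩,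
  ⟨5,[(.negSucc 207265,.ofNat 617007),(.negSucc 250846,.ofNat 561418),(.negSucc 208166,.ofNat 504915),(.negSucc 155766,.ofNat 448036),(.ofNat 15137,.ofNat 435745),(.ofNat 43156,.ofNat 551368),(.ofNat 48293,.ofNat 609518),(.ofNat 39244,.ofNat 683157),(.ofNat 11673,.ofNat 695295),(.negSucc 48034,.ofNat 721031),(.negSucc 90623,.ofNat 732053),(.negSucc 172948,.ofNat 682646),(.negSucc 205017,.ofNat 499808),(.negSucc 169483,.ofNat 447750),(.negSucc 161765,.ofNat 447934)]⟩,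
  ⟨5,[(.negSucc 499913,.negSucc 58934),(.negSucc 576340,.negSucc 142066),(.negSucc 501582,.negSucc 204568),(.negSucc 416479,.negSucc 243510),(.negSucc 409960,.ofNat 0),(.negSucc 333336,.negSucc 244845),(.negSucc 274453,.negSucc 144718),(.negSucc 290523,.negSucc 16509),(.negSucc 307649,.ofNat 21607)]⟩]

def E4C : List (ℤ × ℤ) := [
  (.negSucc 0,.ofNat 0),(.negSucc 0,.ofNat 0),(.negSucc 0,.ofNat 0),(.negSucc 0,.negSucc 0),(.negSucc 0,.ofNat 0),(.negSucc 0,.ofNat 1),(.ofNat 0,.negSucc 0),(.ofNat 0,.ofNat 0),(.ofNat 0,.ofNat 1),(.ofNat 1,.negSucc 0),(.ofNat 1,.ofNat 0),(.ofNat 1,.ofNat 1),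
  (.ofNat 1,.ofNat 0),(.ofNat 1,.ofNat 0),(.ofNat 1,.ofNat 0),(.negSucc 0,.ofNat 0),(.negSucc 0,.ofNat 0),(.negSucc 0,.ofNat 0),(.negSucc 0,.negSucc 0),(.negSucc 0,.ofNat 0),(.negSucc 0,.ofNat 1),(.negSucc 0,.negSucc 0),(.ofNat 0,.ofNat 0),(.ofNat 4,.ofNat 9),
  (.ofNat 0,.negSucc 0),(.ofNat 29856,.negSucc 2936),(.ofNat 1,.ofNat 1),(.ofNat 1,.negSucc 0),(.ofNat 1,.ofNat 0),(.ofNat 1,.ofNat 0),(.negSucc 0,.ofNat 0),(.negSucc 0,.ofNat 0),(.negSucc 0,.ofNat 1),(.negSucc 0,.negSucc 0),(.negSucc 29855,.ofNat 2937),(.ofNat 0,.ofNat 1),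
  (.negSucc 3,.negSucc 8),(.ofNat 0,.ofNat 0),(.ofNat 1,.ofNat 1),(.ofNat 1,.negSucc 0),(.ofNat 1,.ofNat 0),(.ofNat 1,.ofNat 1),(.ofNat 1,.ofNat 0),(.ofNat 1,.ofNat 0),(.ofNat 1,.ofNat 0),(.negSucc 0,.ofNat 0),(.negSucc 0,.ofNat 0),(.negSucc 0,.ofNat 0),
  (.negSucc 0,.negSucc 0),(.negSucc 39,.ofNat 1),(.negSucc 1,.ofNat 3),(.negSucc 174,.negSucc 243),(.ofNat 0,.ofNat 0),(.ofNat 175,.ofNat 244),(.ofNat 2,.negSucc 2),(.ofNat 40,.negSucc 0),(.ofNat 1,.ofNat 1),(.ofNat 1,.ofNat 0),(.ofNat 1,.ofNat 0),(.ofNat 1,.ofNat 0),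
  (.negSucc 0,.ofNat 0),(.negSucc 0,.ofNat 0),(.negSucc 0,.ofNat 0),(.negSucc 0,.negSucc 0),(.negSucc 0,.ofNat 0),(.negSucc 0,.ofNat 1),(.ofNat 0,.negSucc 0),(.ofNat 0,.ofNat 0),(.ofNat 0,.ofNat 1),(.ofNat 1,.negSucc 0),(.ofNat 1,.ofNat 0),(.ofNat 1,.ofNat 1),
  (.ofNat 1,.ofNat 0),(.ofNat 1,.ofNat 0),(.ofNat 1,.ofNat 0),(.negSucc 0,.ofNat 0),(.negSucc 0,.ofNat 0),(.negSucc 0,.ofNat 0),(.negSucc 0,.ofNat 0),(.negSucc 0,.ofNat 0),(.negSucc 0,.ofNat 1),(.negSucc 0,.negSucc 0),(.ofNat 0,.ofNat 0),(.ofNat 0,.ofNat 1),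
  (.ofNat 0,.negSucc 0),(.ofNat 1,.ofNat 0),(.ofNat 1,.ofNat 1),(.ofNat 1,.negSucc 0),(.ofNat 1,.ofNat 0),(.ofNat 1,.ofNat 0),(.negSucc 0,.ofNat 0),(.negSucc 0,.ofNat 0),(.negSucc 0,.ofNat 0),(.negSucc 0,.negSucc 0),(.negSucc 0,.ofNat 0),(.negSucc 0,.ofNat 1),
  (.negSucc 0,.negSucc 0),(.ofNat 0,.ofNat 0),(.ofNat 1,.ofNat 3),(.ofNat 0,.negSucc 0),(.ofNat 1,.ofNat 0),(.ofNat 1,.ofNat 0),(.ofNat 1,.negSucc 0),(.ofNat 1,.ofNat 0),(.ofNat 1,.ofNat 0),(.negSucc 0,.ofNat 0),(.negSucc 0,.ofNat 0),(.negSucc 0,.ofNat 0),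
  (.negSucc 0,.negSucc 0),(.negSucc 0,.ofNat 0),(.negSucc 0,.ofNat 1),(.ofNat 0,.negSucc 0),(.ofNat 0,.ofNat 0),(.ofNat 112,.ofNat 278),(.ofNat 0,.negSucc 0),(.ofNat 1,.ofNat 0),(.ofNat 1,.ofNat 0),(.ofNat 1,.negSucc 0),(.ofNat 1,.ofNat 0),(.ofNat 1,.ofNat 0),
  (.negSucc 0,.ofNat 0),(.negSucc 0,.ofNat 0),(.negSucc 0,.ofNat 1),(.negSucc 0,.negSucc 0),(.negSucc 0,.ofNat 0),(.ofNat 0,.ofNat 1),(.ofNat 0,.negSucc 0),(.ofNat 0,.ofNat 0),(.ofNat 1,.ofNat 1),(.ofNat 1,.negSucc 0),(.ofNat 1,.ofNat 0),(.ofNat 1,.ofNat 0),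
  (.ofNat 1,.ofNat 0),(.ofNat 1,.ofNat 0),(.ofNat 1,.ofNat 0),(.negSucc 0,.ofNat 0),(.negSucc 0,.ofNat 0),(.negSucc 0,.ofNat 0),(.negSucc 0,.negSucc 0),(.negSucc 0,.ofNat 0),(.negSucc 0,.ofNat 1),(.ofNat 0,.negSucc 0),(.ofNat 0,.ofNat 0),(.ofNat 0,.ofNat 1),
  (.ofNat 1,.negSucc 0),(.ofNat 1,.ofNat 0),(.ofNat 1,.ofNat 1),(.ofNat 1,.ofNat 0),(.ofNat 1,.ofNat 0),(.ofNat 1,.ofNat 0),(.negSucc 0,.ofNat 0),(.negSucc 0,.ofNat 0),(.negSucc 0,.ofNat 0),(.negSucc 0,.negSucc 0),(.negSucc 0,.ofNat 0),(.negSucc 0,.ofNat 1),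
  (.ofNat 0,.negSucc 0),(.ofNat 0,.ofNat 0),(.ofNat 146,.ofNat 262),(.ofNat 0,.negSucc 0),(.ofNat 1,.ofNat 0),(.ofNat 1,.ofNat 0),(.ofNat 1,.negSucc 0),(.ofNat 1,.ofNat 0),(.ofNat 1,.ofNat 0),(.negSucc 0,.ofNat 0),(.negSucc 0,.ofNat 0),(.negSucc 0,.ofNat 0),
  (.negSucc 0,.negSucc 0),(.negSucc 2,.negSucc 0),(.negSucc 1,.ofNat 3),(.ofNat 0,.negSucc 0),(.ofNat 0,.ofNat 0),(.ofNat 21,.ofNat 34),(.ofNat 1,.negSucc 0),(.ofNat 1,.ofNat 0),(.ofNat 1,.ofNat 0),(.ofNat 1,.negSucc 0),(.ofNat 1,.ofNat 0),(.ofNat 1,.ofNat 0),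
  (.negSucc 0,.ofNat 0),(.negSucc 0,.ofNat 0),(.negSucc 0,.ofNat 1),(.negSucc 0,.ofNat 0),(.negSucc 0,.ofNat 0),(.ofNat 0,.ofNat 1),(.negSucc 0,.negSucc 2),(.ofNat 0,.ofNat 0),(.ofNat 1,.ofNat 1),(.ofNat 1,.negSucc 0),(.ofNat 1,.ofNat 0),(.ofNat 1,.ofNat 1),
  (.ofNat 1,.ofNat 0),(.ofNat 1,.ofNat 0),(.ofNat 1,.ofNat 0),(.negSucc 0,.ofNat 0),(.negSucc 0,.ofNat 0),(.negSucc 0,.ofNat 1),(.negSucc 0,.ofNat 0),(.negSucc 0,.ofNat 0),(.ofNat 0,.ofNat 1),(.negSucc 145,.negSucc 261),(.ofNat 0,.ofNat 0),(.ofNat 0,.ofNat 1),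
  (.ofNat 1,.negSucc 0),(.ofNat 1,.ofNat 0),(.ofNat 1,.ofNat 1),(.ofNat 1,.ofNat 0),(.ofNat 1,.ofNat 0),(.ofNat 1,.ofNat 0),(.negSucc 0,.ofNat 0),(.negSucc 0,.ofNat 0),(.negSucc 0,.ofNat 0),(.negSucc 0,.negSucc 0),(.negSucc 0,.ofNat 0),(.negSucc 0,.ofNat 1),
  (.ofNat 0,.negSucc 0),(.ofNat 0,.ofNat 0),(.ofNat 0,.ofNat 1),(.ofNat 1,.negSucc 0),(.ofNat 1,.ofNat 0),(.ofNat 1,.ofNat 1),(.ofNat 1,.ofNat 0),(.ofNat 1,.ofNat 0),(.ofNat 1,.ofNat 0),(.negSucc 0,.ofNat 0),(.negSucc 0,.ofNat 0),(.negSucc 0,.ofNat 1),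
  (.negSucc 0,.negSucc 0),(.negSucc 0,.ofNat 0),(.ofNat 0,.ofNat 1),(.ofNat 0,.negSucc 0),(.ofNat 0,.ofNat 0),(.ofNat 1,.ofNat 1),(.ofNat 1,.negSucc 0),(.ofNat 1,.ofNat 0),(.ofNat 1,.ofNat 1),(.ofNat 1,.ofNat 0),(.ofNat 1,.ofNat 0),(.ofNat 1,.ofNat 0),
  (.negSucc 0,.ofNat 0),(.negSucc 0,.ofNat 0),(.negSucc 0,.ofNat 1),(.negSucc 0,.ofNat 0),(.negSucc 0,.ofNat 0),(.ofNat 0,.ofNat 1),(.negSucc 111,.negSucc 277),(.ofNat 0,.ofNat 0),(.ofNat 0,.ofNat 1),(.ofNat 1,.negSucc 0),(.ofNat 1,.ofNat 0),(.ofNat 1,.ofNat 1),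
  (.ofNat 1,.ofNat 0),(.ofNat 1,.ofNat 0),(.ofNat 1,.ofNat 0),(.negSucc 0,.ofNat 0),(.negSucc 0,.ofNat 0),(.negSucc 0,.ofNat 1),(.negSucc 0,.ofNat 0),(.negSucc 0,.ofNat 0),(.negSucc 0,.ofNat 1),(.negSucc 20,.negSucc 33),(.ofNat 0,.ofNat 0),(.ofNat 0,.ofNat 1),
  (.ofNat 2,.negSucc 2),(.ofNat 3,.ofNat 1),(.ofNat 1,.ofNat 1),(.ofNat 1,.ofNat 0),(.ofNat 1,.ofNat 0),(.ofNat 1,.ofNat 0),(.negSucc 0,.ofNat 0),(.negSucc 0,.ofNat 0),(.negSucc 0,.ofNat 0),(.negSucc 0,.negSucc 0),(.negSucc 0,.ofNat 0),(.negSucc 0,.ofNat 1),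
  (.negSucc 0,.negSucc 0),(.ofNat 0,.ofNat 0),(.ofNat 0,.ofNat 1),(.ofNat 0,.negSucc 0),(.ofNat 1,.ofNat 0),(.ofNat 1,.ofNat 1),(.ofNat 1,.negSucc 0),(.ofNat 1,.ofNat 0),(.ofNat 1,.ofNat 0),(.negSucc 0,.ofNat 0),(.negSucc 0,.ofNat 0),(.negSucc 0,.ofNat 0),
  (.negSucc 0,.negSucc 0),(.negSucc 0,.ofNat 0),(.negSucc 0,.ofNat 1),(.ofNat 0,.negSucc 0),(.ofNat 0,.ofNat 0),(.ofNat 0,.ofNat 1),(.ofNat 1,.negSucc 0),(.ofNat 1,.ofNat 0),(.ofNat 1,.ofNat 1),(.ofNat 1,.ofNat 0),(.ofNat 1,.ofNat 0),(.ofNat 1,.ofNat 0),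
  (.negSucc 0,.ofNat 0),(.negSucc 0,.ofNat 0),(.negSucc 0,.ofNat 0),(.negSucc 0,.negSucc 0),(.negSucc 0,.ofNat 0),(.negSucc 0,.ofNat 1),(.ofNat 0,.negSucc 0),(.ofNat 0,.ofNat 0),(.ofNat 0,.ofNat 1),(.ofNat 1,.negSucc 0),(.ofNat 1,.ofNat 0),(.ofNat 1,.ofNat 1),
  (.ofNat 1,.ofNat 0),(.ofNat 1,.ofNat 0),(.ofNat 1,.ofNat 0),(.negSucc 0,.ofNat 0),(.negSucc 0,.ofNat 0),(.negSucc 0,.ofNat 1),(.negSucc 0,.ofNat 0),(.negSucc 38,.ofNat 8),(.ofNat 0,.ofNat 1),(.negSucc 16013,.negSucc 25367),(.ofNat 0,.ofNat 0),(.ofNat 1,.ofNat 1),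
  (.ofNat 1,.negSucc 0),(.ofNat 1,.ofNat 0),(.ofNat 1,.ofNat 1),(.ofNat 1,.ofNat 0),(.ofNat 1,.ofNat 0),(.ofNat 1,.ofNat 0),(.negSucc 0,.ofNat 0),(.negSucc 0,.ofNat 0),(.negSucc 0,.ofNat 1),(.negSucc 0,.ofNat 0),(.negSucc 39,.ofNat 4),(.ofNat 0,.ofNat 1),
  (.negSucc 16,.negSucc 35),(.ofNat 0,.ofNat 0),(.ofNat 0,.ofNat 1),(.ofNat 1,.negSucc 0),(.ofNat 1,.ofNat 0),(.ofNat 1,.ofNat 1),(.ofNat 1,.ofNat 0),(.ofNat 1,.ofNat 0),(.ofNat 1,.ofNat 0),(.negSucc 0,.ofNat 0),(.negSucc 0,.ofNat 0),(.negSucc 0,.ofNat 1),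
  (.negSucc 0,.ofNat 0),(.negSucc 38,.ofNat 8),(.ofNat 0,.ofNat 1),(.negSucc 25,.negSucc 30),(.ofNat 0,.ofNat 0),(.ofNat 0,.ofNat 1),(.ofNat 1,.negSucc 0),(.ofNat 1,.ofNat 0),(.ofNat 1,.ofNat 1),(.ofNat 1,.ofNat 0),(.ofNat 1,.ofNat 0),(.ofNat 1,.ofNat 0),
  (.negSucc 0,.ofNat 0),(.negSucc 0,.ofNat 0),(.negSucc 0,.ofNat 0),(.negSucc 0,.negSucc 0),(.negSucc 0,.ofNat 0),(.negSucc 0,.ofNat 1),(.negSucc 0,.negSucc 0),(.ofNat 0,.ofNat 0),(.ofNat 16014,.ofNat 25368),(.ofNat 0,.negSucc 0),(.ofNat 39,.negSucc 7),(.ofNat 1,.ofNat 0),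
  (.ofNat 1,.negSucc 0),(.ofNat 1,.ofNat 0),(.ofNat 1,.ofNat 0),(.negSucc 0,.ofNat 0),(.negSucc 0,.ofNat 0),(.negSucc 0,.ofNat 0),(.negSucc 0,.negSucc 0),(.negSucc 0,.ofNat 0),(.negSucc 0,.ofNat 1),(.ofNat 0,.negSucc 0),(.ofNat 0,.ofNat 0),(.ofNat 0,.ofNat 1),
  (.ofNat 1,.negSucc 0),(.ofNat 1,.ofNat 0),(.ofNat 1,.ofNat 1),(.ofNat 1,.ofNat 0),(.ofNat 1,.ofNat 0),(.ofNat 1,.ofNat 0),(.negSucc 0,.ofNat 0),(.negSucc 0,.ofNat 0),(.negSucc 0,.ofNat 0),(.negSucc 0,.negSucc 0),(.negSucc 0,.ofNat 0),(.negSucc 0,.ofNat 1),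
  (.negSucc 0,.negSucc 0),(.ofNat 0,.ofNat 0),(.ofNat 1,.ofNat 3),(.ofNat 0,.negSucc 0),(.ofNat 300,.ofNat 9),(.ofNat 1,.ofNat 1),(.ofNat 1,.negSucc 0),(.ofNat 1,.ofNat 0),(.ofNat 1,.ofNat 0),(.negSucc 0,.ofNat 0),(.negSucc 0,.ofNat 0),(.negSucc 0,.ofNat 0),
  (.negSucc 0,.ofNat 0),(.negSucc 0,.ofNat 0),(.negSucc 0,.ofNat 1),(.negSucc 0,.negSucc 0),(.ofNat 0,.ofNat 0),(.ofNat 0,.ofNat 1),(.ofNat 0,.negSucc 0),(.ofNat 1,.ofNat 0),(.ofNat 1,.ofNat 1),(.ofNat 1,.negSucc 0),(.ofNat 1,.ofNat 0),(.ofNat 1,.ofNat 0),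
  (.negSucc 0,.ofNat 0),(.negSucc 0,.ofNat 0),(.negSucc 0,.ofNat 0),(.negSucc 0,.negSucc 0),(.negSucc 0,.ofNat 0),(.negSucc 0,.ofNat 1),(.ofNat 0,.negSucc 0),(.ofNat 0,.ofNat 0),(.ofNat 17,.ofNat 36),(.ofNat 0,.negSucc 0),(.ofNat 40,.negSucc 3),(.ofNat 1,.ofNat 0),
  (.ofNat 1,.negSucc 0),(.ofNat 1,.ofNat 0),(.ofNat 1,.ofNat 0),(.negSucc 0,.ofNat 0),(.negSucc 0,.ofNat 0),(.negSucc 0,.ofNat 1),(.negSucc 0,.negSucc 0),(.negSucc 299,.negSucc 8),(.ofNat 0,.ofNat 1),(.negSucc 0,.negSucc 2),(.ofNat 0,.ofNat 0),(.ofNat 1,.ofNat 1),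
  (.ofNat 1,.negSucc 0),(.ofNat 1,.ofNat 0),(.ofNat 1,.ofNat 1),(.ofNat 1,.ofNat 0),(.ofNat 1,.ofNat 0),(.ofNat 1,.ofNat 0),(.negSucc 0,.ofNat 0),(.negSucc 0,.ofNat 0),(.negSucc 0,.ofNat 0),(.negSucc 0,.negSucc 0),(.negSucc 0,.ofNat 0),(.negSucc 1,.ofNat 3),
  (.negSucc 0,.negSucc 2),(.ofNat 0,.ofNat 0),(.ofNat 1,.ofNat 3),(.ofNat 2,.negSucc 2),(.ofNat 1,.ofNat 0),(.ofNat 1,.ofNat 1),(.ofNat 1,.ofNat 0),(.ofNat 1,.ofNat 0),(.ofNat 1,.ofNat 0),(.negSucc 0,.ofNat 0),(.negSucc 0,.ofNat 0),(.negSucc 0,.ofNat 1),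
  (.negSucc 0,.ofNat 0),(.negSucc 0,.ofNat 0),(.ofNat 0,.ofNat 1),(.negSucc 0,.negSucc 0),(.ofNat 0,.ofNat 0),(.ofNat 0,.ofNat 1),(.ofNat 6,.negSucc 7),(.ofNat 1,.ofNat 0),(.ofNat 1,.ofNat 1),(.ofNat 1,.ofNat 0),(.ofNat 1,.ofNat 0),(.ofNat 1,.ofNat 0),
  (.negSucc 0,.ofNat 0),(.negSucc 0,.ofNat 0),(.negSucc 0,.ofNat 0),(.negSucc 0,.negSucc 0),(.negSucc 0,.ofNat 0),(.negSucc 0,.ofNat 1),(.ofNat 0,.negSucc 0),(.ofNat 0,.ofNat 0),(.ofNat 26,.ofNat 31),(.ofNat 0,.negSucc 0),(.ofNat 39,.negSucc 7),(.ofNat 1,.ofNat 0),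
  (.ofNat 1,.negSucc 0),(.ofNat 1,.ofNat 0),(.ofNat 1,.ofNat 0),(.negSucc 0,.ofNat 0),(.negSucc 0,.ofNat 0),(.negSucc 0,.ofNat 1),(.negSucc 0,.negSucc 0),(.negSucc 0,.ofNat 0),(.ofNat 0,.ofNat 1),(.ofNat 0,.negSucc 0),(.ofNat 0,.ofNat 0),(.ofNat 1,.ofNat 1),
  (.ofNat 1,.negSucc 0),(.ofNat 1,.ofNat 0),(.ofNat 1,.ofNat 0),(.ofNat 1,.ofNat 0),(.ofNat 1,.ofNat 0),(.ofNat 1,.ofNat 0),(.negSucc 0,.ofNat 0),(.negSucc 0,.ofNat 0),(.negSucc 0,.ofNat 0),(.negSucc 0,.negSucc 0),(.negSucc 0,.ofNat 0),(.negSucc 5,.ofNat 8),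
  (.ofNat 0,.negSucc 0),(.ofNat 0,.ofNat 0),(.ofNat 1,.ofNat 1),(.ofNat 0,.negSucc 0),(.ofNat 1,.ofNat 0),(.ofNat 1,.ofNat 0),(.ofNat 1,.negSucc 0),(.ofNat 1,.ofNat 0),(.ofNat 1,.ofNat 0),(.negSucc 0,.ofNat 0),(.negSucc 0,.ofNat 0),(.negSucc 0,.ofNat 0),
  (.negSucc 0,.negSucc 0),(.negSucc 0,.ofNat 0),(.negSucc 0,.ofNat 1),(.ofNat 0,.negSucc 0),(.ofNat 0,.ofNat 0),(.ofNat 0,.ofNat 1),(.ofNat 1,.negSucc 0),(.ofNat 1,.ofNat 0),(.ofNat 1,.ofNat 1),(.ofNat 1,.ofNat 0),(.ofNat 1,.ofNat 0),(.ofNat 1,.ofNat 0),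
  (.negSucc 0,.ofNat 0),(.negSucc 0,.ofNat 0),(.negSucc 0,.ofNat 0),(.negSucc 0,.negSucc 0),(.negSucc 0,.ofNat 0),(.negSucc 0,.ofNat 1),(.ofNat 0,.negSucc 0),(.ofNat 0,.ofNat 0),(.ofNat 0,.ofNat 1),(.ofNat 1,.negSucc 0),(.ofNat 1,.ofNat 0),(.ofNat 1,.ofNat 1),
  (.ofNat 1,.ofNat 0),(.ofNat 1,.ofNat 0),(.ofNat 1,.ofNat 0),(.negSucc 0,.ofNat 0),(.negSucc 0,.ofNat 0),(.negSucc 0,.ofNat 1),(.negSucc 0,.ofNat 0),(.negSucc 0,.ofNat 1),(.ofNat 0,.ofNat 1),(.ofNat 0,.negSucc 0),(.ofNat 1,.ofNat 1),(.ofNat 1,.ofNat 1),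
  (.ofNat 1,.ofNat 0),(.ofNat 1,.ofNat 0),(.ofNat 1,.ofNat 1),(.ofNat 1,.ofNat 0),(.ofNat 1,.ofNat 0),(.ofNat 1,.ofNat 0),(.negSucc 0,.ofNat 0),(.negSucc 0,.ofNat 0),(.negSucc 0,.ofNat 1),(.negSucc 0,.negSucc 0),(.negSucc 0,.ofNat 0),(.ofNat 0,.ofNat 1),
  (.ofNat 0,.negSucc 0),(.ofNat 1,.ofNat 1),(.ofNat 1,.ofNat 1),(.ofNat 1,.negSucc 0),(.ofNat 1,.ofNat 0),(.ofNat 1,.ofNat 1),(.ofNat 1,.ofNat 0),(.ofNat 1,.ofNat 0),(.ofNat 1,.ofNat 0),(.negSucc 0,.ofNat 0),(.negSucc 0,.ofNat 0),(.negSucc 0,.ofNat 1),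
  (.negSucc 0,.ofNat 0),(.negSucc 0,.ofNat 1),(.ofNat 0,.ofNat 1),(.negSucc 0,.ofNat 0),(.ofNat 0,.ofNat 1),(.ofNat 0,.ofNat 1),(.ofNat 1,.ofNat 0),(.ofNat 1,.ofNat 1),(.ofNat 1,.ofNat 1),(.ofNat 1,.ofNat 0),(.ofNat 1,.ofNat 0),(.ofNat 1,.ofNat 1),
  (.negSucc 0,.ofNat 0),(.negSucc 0,.ofNat 0),(.negSucc 0,.ofNat 1),(.negSucc 0,.ofNat 0),(.negSucc 0,.ofNat 0),(.negSucc 0,.ofNat 1),(.negSucc 0,.negSucc 0),(.negSucc 158,.ofNat 255),(.ofNat 0,.ofNat 1),(.ofNat 1,.negSucc 0),(.ofNat 1,.ofNat 0),(.ofNat 1,.ofNat 1),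
  (.ofNat 1,.ofNat 0),(.ofNat 1,.ofNat 0),(.ofNat 1,.ofNat 0),(.negSucc 0,.ofNat 0),(.negSucc 0,.ofNat 0),(.negSucc 0,.ofNat 0),(.negSucc 0,.negSucc 0),(.negSucc 0,.ofNat 0),(.negSucc 0,.ofNat 1),(.ofNat 0,.negSucc 0),(.ofNat 0,.ofNat 0),(.ofNat 0,.ofNat 1),
  (.ofNat 1,.negSucc 0),(.ofNat 1,.ofNat 0),(.ofNat 1,.ofNat 1),(.ofNat 1,.ofNat 0),(.ofNat 1,.ofNat 0),(.ofNat 1,.ofNat 0),(.negSucc 0,.ofNat 0),(.negSucc 0,.ofNat 0),(.negSucc 0,.ofNat 0),(.negSucc 0,.ofNat 0),(.negSucc 0,.ofNat 0),(.negSucc 0,.ofNat 1),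
  (.negSucc 0,.negSucc 0),(.ofNat 0,.ofNat 0),(.ofNat 0,.ofNat 1),(.ofNat 0,.negSucc 0),(.ofNat 1,.ofNat 0),(.ofNat 1,.ofNat 1),(.ofNat 1,.negSucc 0),(.ofNat 1,.ofNat 0),(.ofNat 1,.ofNat 0),(.negSucc 0,.ofNat 0),(.negSucc 0,.ofNat 0),(.negSucc 0,.ofNat 0),
  (.negSucc 0,.negSucc 0),(.negSucc 0,.ofNat 0),(.negSucc 0,.ofNat 1),(.negSucc 0,.negSucc 0),(.ofNat 0,.ofNat 0),(.ofNat 1,.ofNat 3),(.ofNat 0,.negSucc 0),(.ofNat 1,.ofNat 0),(.ofNat 1,.ofNat 1),(.ofNat 1,.negSucc 0),(.ofNat 1,.ofNat 0),(.ofNat 1,.ofNat 0),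
  (.negSucc 0,.ofNat 0),(.negSucc 0,.ofNat 0),(.negSucc 0,.ofNat 1),(.negSucc 0,.negSucc 0),(.negSucc 0,.ofNat 0),(.ofNat 0,.ofNat 1),(.ofNat 0,.negSucc 0),(.ofNat 0,.ofNat 0),(.ofNat 1,.ofNat 1),(.ofNat 1,.negSucc 0),(.ofNat 1,.ofNat 0),(.ofNat 1,.ofNat 0),
  (.ofNat 1,.ofNat 0),(.ofNat 1,.ofNat 0),(.ofNat 1,.ofNat 0),(.negSucc 0,.ofNat 0),(.negSucc 0,.ofNat 0),(.negSucc 0,.ofNat 0),(.negSucc 0,.negSucc 0),(.negSucc 0,.ofNat 0),(.negSucc 0,.ofNat 1),(.ofNat 0,.negSucc 0),(.ofNat 0,.ofNat 0),(.ofNat 0,.ofNat 1),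
  (.ofNat 1,.negSucc 0),(.ofNat 1,.ofNat 0),(.ofNat 1,.ofNat 1),(.ofNat 1,.ofNat 0),(.ofNat 1,.ofNat 0),(.ofNat 1,.ofNat 0),(.negSucc 0,.ofNat 0),(.negSucc 0,.ofNat 0),(.negSucc 0,.ofNat 1),(.negSucc 0,.negSucc 0),(.negSucc 38,.negSucc 7),(.ofNat 0,.ofNat 1),
  (.ofNat 0,.negSucc 0),(.ofNat 0,.ofNat 0),(.ofNat 1,.ofNat 1),(.ofNat 1,.negSucc 0),(.ofNat 1,.ofNat 0),(.ofNat 1,.ofNat 0),(.ofNat 1,.ofNat 0),(.ofNat 1,.ofNat 0),(.ofNat 1,.ofNat 0),(.negSucc 0,.ofNat 0),(.negSucc 0,.ofNat 0),(.negSucc 0,.ofNat 1),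
  (.negSucc 0,.negSucc 0),(.negSucc 0,.ofNat 0),(.ofNat 0,.ofNat 1),(.negSucc 0,.negSucc 2),(.ofNat 0,.ofNat 0),(.ofNat 1,.ofNat 1),(.ofNat 1,.negSucc 0),(.ofNat 1,.ofNat 0),(.ofNat 1,.ofNat 1),(.ofNat 1,.ofNat 0),(.ofNat 1,.ofNat 0),(.ofNat 1,.ofNat 0),
  (.negSucc 0,.ofNat 0),(.negSucc 0,.ofNat 0),(.negSucc 0,.ofNat 0),(.negSucc 0,.ofNat 0),(.negSucc 0,.ofNat 0),(.negSucc 0,.ofNat 1),(.negSucc 0,.negSucc 0),(.ofNat 0,.ofNat 0),(.ofNat 0,.ofNat 1),(.ofNat 0,.negSucc 0),(.ofNat 39,.ofNat 8),(.ofNat 1,.ofNat 1),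
  (.ofNat 1,.negSucc 0),(.ofNat 1,.ofNat 0),(.ofNat 1,.ofNat 0),(.negSucc 0,.ofNat 0),(.negSucc 0,.ofNat 0),(.negSucc 0,.ofNat 0),(.negSucc 0,.negSucc 0),(.negSucc 296,.negSucc 39),(.negSucc 1,.ofNat 3),(.negSucc 111,.negSucc 277),(.ofNat 0,.ofNat 0),(.ofNat 112,.ofNat 278),
  (.ofNat 2,.negSucc 2),(.ofNat 297,.ofNat 40),(.ofNat 1,.ofNat 1),(.ofNat 1,.ofNat 0),(.ofNat 1,.ofNat 0),(.ofNat 1,.ofNat 0),(.negSucc 0,.ofNat 0),(.negSucc 0,.ofNat 0),(.negSucc 0,.ofNat 0),(.negSucc 0,.negSucc 0),(.negSucc 0,.ofNat 0),(.negSucc 0,.ofNat 1),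
  (.ofNat 0,.negSucc 0),(.ofNat 0,.ofNat 0),(.ofNat 0,.ofNat 1),(.ofNat 1,.negSucc 0),(.ofNat 1,.ofNat 0),(.ofNat 1,.ofNat 1),(.ofNat 1,.ofNat 0),(.ofNat 1,.ofNat 0),(.ofNat 1,.ofNat 0),(.negSucc 0,.ofNat 0),(.negSucc 0,.ofNat 0),(.negSucc 0,.ofNat 1),
  (.negSucc 0,.ofNat 0),(.negSucc 0,.ofNat 0),(.negSucc 0,.ofNat 1),(.negSucc 0,.negSucc 0),(.ofNat 0,.ofNat 0),(.ofNat 0,.ofNat 1),(.ofNat 114,.negSucc 277),(.ofNat 1,.ofNat 0),(.ofNat 1,.ofNat 1),(.ofNat 1,.ofNat 0),(.ofNat 1,.ofNat 0),(.ofNat 1,.ofNat 0),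
  (.negSucc 0,.ofNat 0),(.negSucc 0,.ofNat 0),(.negSucc 0,.ofNat 0),(.negSucc 0,.negSucc 0),(.negSucc 0,.ofNat 0),(.negSucc 113,.ofNat 278),(.ofNat 0,.negSucc 0),(.ofNat 0,.ofNat 0),(.ofNat 1,.ofNat 1),(.ofNat 1,.negSucc 0),(.ofNat 1,.ofNat 0),(.ofNat 1,.ofNat 0),
  (.ofNat 1,.negSucc 0),(.ofNat 1,.ofNat 0),(.ofNat 1,.ofNat 0),(.negSucc 0,.ofNat 0),(.negSucc 0,.ofNat 0),(.negSucc 0,.ofNat 0),(.negSucc 0,.negSucc 0),(.negSucc 38,.ofNat 7),(.negSucc 193,.ofNat 228),(.negSucc 0,.negSucc 2),(.ofNat 0,.ofNat 0),(.ofNat 1,.ofNat 3),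
  (.ofNat 194,.negSucc 227),(.ofNat 39,.negSucc 6),(.ofNat 1,.ofNat 1),(.ofNat 1,.ofNat 0),(.ofNat 1,.ofNat 0),(.ofNat 1,.ofNat 0),(.negSucc 0,.ofNat 0),(.negSucc 0,.ofNat 0),(.negSucc 0,.ofNat 0),(.negSucc 0,.negSucc 0),(.negSucc 0,.ofNat 0),(.negSucc 0,.ofNat 0),
  (.negSucc 0,.negSucc 0),(.negSucc 0,.negSucc 0),(.ofNat 0,.ofNat 1),(.ofNat 0,.negSucc 0),(.ofNat 1,.negSucc 0),(.ofNat 1,.ofNat 0),(.ofNat 1,.negSucc 0),(.ofNat 1,.ofNat 0),(.ofNat 1,.ofNat 0),(.negSucc 0,.ofNat 0),(.negSucc 0,.ofNat 0),(.negSucc 0,.ofNat 0),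
  (.negSucc 0,.negSucc 0),(.negSucc 0,.ofNat 0),(.negSucc 0,.ofNat 1),(.ofNat 0,.negSucc 0),(.ofNat 0,.ofNat 0),(.ofNat 0,.ofNat 1),(.ofNat 1,.negSucc 0),(.ofNat 1,.ofNat 0),(.ofNat 1,.ofNat 1),(.ofNat 1,.ofNat 0),(.ofNat 1,.ofNat 0),(.ofNat 1,.ofNat 0),
  (.negSucc 0,.ofNat 0),(.negSucc 0,.ofNat 0),(.negSucc 0,.ofNat 0),(.negSucc 0,.negSucc 0),(.negSucc 0,.ofNat 0),(.negSucc 0,.ofNat 1),(.ofNat 0,.negSucc 0),(.negSucc 785,.negSucc 2894),(.ofNat 1,.ofNat 1),(.ofNat 0,.negSucc 0),(.ofNat 1,.ofNat 0),(.ofNat 1,.ofNat 0),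
  (.ofNat 1,.negSucc 0),(.ofNat 1,.ofNat 0),(.ofNat 1,.ofNat 0),(.negSucc 0,.ofNat 0),(.negSucc 0,.ofNat 0),(.negSucc 0,.ofNat 0),(.negSucc 0,.ofNat 0),(.negSucc 0,.ofNat 0),(.negSucc 0,.ofNat 1),(.negSucc 0,.negSucc 0),(.negSucc 0,.ofNat 0),(.ofNat 0,.ofNat 1),
  (.ofNat 0,.negSucc 0),(.ofNat 1,.ofNat 0),(.ofNat 1,.ofNat 1),(.ofNat 1,.negSucc 0),(.ofNat 1,.ofNat 0),(.ofNat 1,.ofNat 0),(.negSucc 0,.ofNat 0),(.negSucc 0,.ofNat 0),(.negSucc 0,.ofNat 0),(.negSucc 0,.ofNat 0),(.negSucc 0,.ofNat 0),(.negSucc 0,.ofNat 0),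
  (.negSucc 0,.negSucc 0),(.negSucc 0,.ofNat 0),(.ofNat 0,.ofNat 1),(.ofNat 0,.negSucc 0),(.ofNat 1,.negSucc 0),(.ofNat 1,.ofNat 1),(.ofNat 1,.negSucc 0),(.ofNat 1,.ofNat 0),(.ofNat 1,.ofNat 0),(.negSucc 0,.ofNat 0),(.negSucc 0,.ofNat 0),(.negSucc 0,.ofNat 0),
  (.negSucc 0,.negSucc 0),(.negSucc 0,.ofNat 0),(.negSucc 0,.ofNat 1),(.negSucc 0,.negSucc 0),(.negSucc 0,.negSucc 0),(.ofNat 0,.ofNat 1),(.ofNat 0,.negSucc 0),(.ofNat 1,.ofNat 0),(.ofNat 1,.ofNat 1),(.ofNat 1,.negSucc 0),(.ofNat 1,.ofNat 0),(.ofNat 1,.ofNat 0),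
  (.negSucc 0,.ofNat 0),(.negSucc 0,.ofNat 0),(.negSucc 0,.ofNat 1),(.negSucc 0,.ofNat 0),(.negSucc 0,.ofNat 0),(.ofNat 0,.ofNat 1),(.negSucc 0,.negSucc 0),(.ofNat 786,.ofNat 2895),(.ofNat 0,.ofNat 1),(.ofNat 1,.negSucc 0),(.ofNat 1,.ofNat 0),(.ofNat 1,.ofNat 1),
  (.ofNat 1,.ofNat 0),(.ofNat 1,.ofNat 0),(.ofNat 1,.ofNat 0),(.negSucc 0,.ofNat 0),(.negSucc 0,.ofNat 0),(.negSucc 0,.ofNat 0),(.negSucc 0,.negSucc 0),(.negSucc 0,.ofNat 0),(.negSucc 0,.ofNat 1),(.ofNat 0,.negSucc 0),(.ofNat 0,.ofNat 0),(.ofNat 0,.ofNat 1),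
  (.ofNat 1,.negSucc 0),(.ofNat 1,.ofNat 0),(.ofNat 1,.ofNat 1),(.ofNat 1,.ofNat 0),(.ofNat 1,.ofNat 0),(.ofNat 1,.ofNat 0),(.negSucc 0,.ofNat 0),(.negSucc 0,.ofNat 0),(.negSucc 0,.ofNat 1),(.negSucc 0,.ofNat 0),(.negSucc 0,.ofNat 0),(.negSucc 0,.ofNat 1),
  (.negSucc 0,.negSucc 0),(.negSucc 0,.ofNat 1),(.ofNat 0,.ofNat 1),(.ofNat 0,.negSucc 0),(.ofNat 1,.ofNat 1),(.ofNat 1,.ofNat 1),(.ofNat 1,.ofNat 0),(.ofNat 1,.ofNat 0),(.ofNat 1,.ofNat 1),(.negSucc 0,.ofNat 0),(.negSucc 0,.ofNat 0),(.negSucc 0,.ofNat 0),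
  (.negSucc 0,.ofNat 0),(.negSucc 0,.ofNat 0),(.negSucc 0,.ofNat 1),(.negSucc 0,.negSucc 0),(.negSucc 0,.ofNat 0),(.ofNat 0,.ofNat 1),(.ofNat 0,.negSucc 0),(.ofNat 1,.ofNat 0),(.ofNat 1,.ofNat 1),(.ofNat 1,.negSucc 0),(.ofNat 1,.ofNat 0),(.ofNat 1,.ofNat 0),
  (.negSucc 0,.negSucc 0),(.negSucc 0,.ofNat 0),(.negSucc 0,.ofNat 0),(.negSucc 0,.negSucc 0),(.negSucc 0,.negSucc 0),(.negSucc 0,.ofNat 0),(.ofNat 0,.negSucc 0),(.ofNat 0,.negSucc 0),(.ofNat 1,.ofNat 0),(.ofNat 0,.negSucc 0),(.ofNat 1,.negSucc 0),(.ofNat 1,.ofNat 0),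
  (.ofNat 1,.negSucc 0),(.ofNat 1,.ofNat 0),(.ofNat 1,.ofNat 0),(.negSucc 0,.ofNat 0),(.negSucc 0,.ofNat 0),(.negSucc 0,.ofNat 1),(.negSucc 0,.negSucc 0),(.negSucc 0,.ofNat 0),(.ofNat 0,.ofNat 1),(.ofNat 0,.negSucc 0),(.ofNat 1,.ofNat 0),(.ofNat 1,.ofNat 1),
  (.ofNat 1,.negSucc 0),(.ofNat 1,.ofNat 0),(.ofNat 1,.ofNat 0),(.ofNat 1,.ofNat 0),(.ofNat 1,.ofNat 0),(.ofNat 1,.ofNat 0),(.negSucc 0,.negSucc 0),(.negSucc 0,.ofNat 0),(.negSucc 0,.ofNat 0),(.negSucc 0,.negSucc 0),(.negSucc 0,.negSucc 0),(.ofNat 0,.ofNat 1),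
  (.ofNat 0,.negSucc 0),(.ofNat 1,.negSucc 0),(.ofNat 1,.ofNat 1),(.ofNat 1,.negSucc 0),(.ofNat 1,.ofNat 0),(.ofNat 1,.ofNat 0),(.ofNat 1,.negSucc 0),(.ofNat 1,.ofNat 0),(.ofNat 1,.ofNat 0),(.negSucc 0,.ofNat 0),(.negSucc 0,.ofNat 0),(.negSucc 0,.ofNat 0),
  (.negSucc 0,.negSucc 0),(.negSucc 0,.ofNat 0),(.negSucc 0,.ofNat 1),(.ofNat 0,.negSucc 0),(.ofNat 0,.ofNat 0),(.ofNat 0,.ofNat 1),(.ofNat 1,.negSucc 0),(.ofNat 1,.ofNat 0),(.ofNat 1,.ofNat 1),(.ofNat 1,.ofNat 0),(.ofNat 1,.ofNat 0),(.ofNat 1,.ofNat 0),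
  (.negSucc 0,.ofNat 0),(.negSucc 0,.ofNat 0),(.negSucc 0,.ofNat 0),(.negSucc 0,.negSucc 0),(.negSucc 0,.ofNat 0),(.negSucc 0,.ofNat 1),(.ofNat 0,.negSucc 0),(.ofNat 0,.negSucc 0),(.ofNat 0,.ofNat 1),(.ofNat 0,.negSucc 0),(.ofNat 1,.ofNat 0),(.ofNat 1,.ofNat 0),
  (.ofNat 1,.negSucc 0),(.ofNat 1,.ofNat 0),(.ofNat 1,.ofNat 0),(.negSucc 0,.ofNat 0),(.negSucc 0,.ofNat 0),(.negSucc 0,.ofNat 0),(.negSucc 0,.negSucc 0),(.negSucc 0,.ofNat 0),(.negSucc 0,.ofNat 1),(.ofNat 0,.negSucc 0),(.ofNat 159,.negSucc 254),(.ofNat 1,.ofNat 1),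
  (.ofNat 1,.negSucc 0),(.ofNat 1,.ofNat 0),(.ofNat 1,.ofNat 0),(.ofNat 1,.negSucc 0),(.ofNat 1,.ofNat 0),(.ofNat 1,.ofNat 0),(.negSucc 0,.ofNat 0),(.negSucc 0,.ofNat 0),(.negSucc 0,.ofNat 1),(.negSucc 0,.negSucc 0),(.negSucc 0,.ofNat 1),(.ofNat 0,.ofNat 1),
  (.ofNat 0,.negSucc 0),(.ofNat 1,.ofNat 0),(.ofNat 1,.ofNat 1),(.ofNat 1,.ofNat 0),(.ofNat 1,.ofNat 0),(.ofNat 1,.ofNat 0),(.ofNat 1,.ofNat 0),(.ofNat 1,.ofNat 0),(.ofNat 1,.ofNat 0),(.negSucc 0,.ofNat 0),(.negSucc 0,.ofNat 0),(.negSucc 0,.ofNat 1),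
  (.negSucc 0,.negSucc 0),(.negSucc 0,.ofNat 0),(.ofNat 0,.ofNat 1),(.ofNat 0,.negSucc 0),(.ofNat 1,.ofNat 0),(.ofNat 1,.ofNat 1),(.ofNat 1,.negSucc 0),(.ofNat 1,.ofNat 0),(.ofNat 1,.ofNat 0),(.ofNat 1,.ofNat 0),(.ofNat 1,.ofNat 0),(.ofNat 1,.ofNat 0),
  (.negSucc 0,.ofNat 0),(.negSucc 0,.ofNat 0),(.negSucc 0,.ofNat 1),(.negSucc 0,.ofNat 0),(.negSucc 0,.ofNat 0),(.ofNat 0,.ofNat 1),(.ofNat 0,.negSucc 0),(.ofNat 0,.ofNat 1),(.ofNat 0,.ofNat 1),(.ofNat 1,.negSucc 0),(.ofNat 1,.ofNat 0),(.ofNat 1,.ofNat 1),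
  (.ofNat 1,.ofNat 0),(.ofNat 1,.ofNat 0),(.ofNat 1,.ofNat 0),(.negSucc 0,.ofNat 0),(.negSucc 0,.ofNat 0),(.negSucc 0,.ofNat 0),(.negSucc 0,.negSucc 0),(.negSucc 0,.ofNat 0),(.negSucc 0,.ofNat 1),(.ofNat 0,.negSucc 0),(.ofNat 0,.ofNat 0),(.ofNat 0,.ofNat 1),
  (.ofNat 1,.negSucc 0),(.ofNat 1,.ofNat 0),(.ofNat 1,.ofNat 1),(.ofNat 1,.ofNat 0),(.ofNat 1,.ofNat 0),(.ofNat 1,.ofNat 0)]

def E4 : Data where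
  La := 1908594
  Lb := 881084
  Lc := 1686784
  T := E4T
  G := E4G
  M := 1000000
  lo := 314620
  hi := 361870
  Y0 := -1125366
  Y1 := 990313
  X0 := -1091060
  X1 := 1005785
  Mm := 2
  Nn := 1
  S := [(.negSucc 1,.negSucc 0),(.negSucc 1,.ofNat 0),(.negSucc 1,.ofNat 1),(.negSucc 0,.negSucc 0),(.negSucc 0,.ofNat 0),(.negSucc 0,.ofNat 1),(.ofNat 0,.negSucc 0),(.ofNat 0,.ofNat 0),(.ofNat 0,.ofNat 1),(.ofNat 1,.negSucc 0),(.ofNat 1,.ofNat 0),(.ofNat 1,.ofNat 1),(.ofNat 2,.negSucc 0),(.ofNat 2,.ofNat 0),(.ofNat 2,.ofNat 1)]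
  cert := E4C

theorem E4_ok : E4.OK = true := by decide +kernel

end Pool.Agent.Lib.MP_776035_co.Tiling
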