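import Pool.Agent.Lib.MP_776035_co.Tiling.Colour

/-! Data of a periodic colouring. -/

set_option autoImplicit false
set_option maxRecDepth 100000

namespace Pool.Agent.Lib.MP_776035_co.Tiling

def E5T : List Tri := [
  ⟨(.ofNat 760035,.ofNat 9609),(.ofNat 820562,.negSucc 7392),(.ofNat 862911,.ofNat 131278),1,134,(.ofNat 0,.ofNat 0),109,(.ofNat 1,.ofNat 0),1,(.ofNat 0,.ofNat 0)⟩,
  ⟨(.ofNat 688112,.ofNat 26256),(.ofNat 760035,.ofNat 9609),(.ofNat 862911,.ofNat 131278),1,133,(.ofNat 0,.ofNat 0),0,(.ofNat 0,.ofNat 0),3,(.ofNat 0,.ofNat 0)⟩,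
  ⟨(.ofNat 411700,.ofNat 155472),(.ofNat 553877,.ofNat 20254),(.ofNat 688112,.ofNat 26256),1,49,(.ofNat 0,.ofNat 0),127,(.ofNat 0,.ofNat 0),3,(.ofNat 0,.ofNat 0)⟩,
  ⟨(.ofNat 411700,.ofNat 155472),(.ofNat 688112,.ofNat 26256),(.ofNat 862911,.ofNat 131278),1,2,(.ofNat 0,.ofNat 0),1,(.ofNat 0,.ofNat 0),8,(.ofNat 0,.ofNat 0)⟩,
  ⟨(.ofNat 778914,.ofNat 945202),(.ofNat 724451,.ofNat 983600),(.ofNat 645768,.ofNat 977209),0,76,(.ofNat 0,.ofNat 1),69,(.ofNat 0,.ofNat 1),6,(.ofNat 0,.ofNat 0)⟩,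
  ⟨(.ofNat 295441,.ofNat 752439),(.ofNat 101320,.ofNat 687363),(.ofNat 95703,.ofNat 609518),0,37,(.ofNat 0,.ofNat 1),142,(.ofNat 0,.ofNat 0),10,(.ofNat 0,.ofNat 0)⟩,
  ⟨(.ofNat 778914,.ofNat 945202),(.ofNat 645768,.ofNat 977209),(.ofNat 486611,.ofNat 903711),0,4,(.ofNat 0,.ofNat 0),26,(.ofNat 0,.ofNat 1),7,(.ofNat 0,.ofNat 0)⟩,
  ⟨(.ofNat 778914,.ofNat 945202),(.ofNat 486611,.ofNat 903711),(.ofNat 295441,.ofNat 752439),0,6,(.ofNat 0,.ofNat 0),36,(.ofNat 0,.ofNat 1),9,(.ofNat 0,.ofNat 0)⟩,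
  ⟨(.ofNat 105192,.ofNat 353869),(.ofNat 411700,.ofNat 155472),(.ofNat 862911,.ofNat 131278),1,52,(.ofNat 0,.ofNat 0),3,(.ofNat 0,.ofNat 0),13,(.ofNat 0,.ofNat 0)⟩,
  ⟨(.ofNat 967380,.ofNat 860451),(.ofNat 778914,.ofNat 945202),(.ofNat 295441,.ofNat 752439),0,70,(.ofNat 0,.ofNat 1),7,(.ofNat 0,.ofNat 0),12,(.ofNat 0,.ofNat 0)⟩,
  ⟨(.ofNat 295441,.ofNat 752439),(.ofNat 95703,.ofNat 609518),(.ofNat 90566,.ofNat 551368),0,5,(.ofNat 0,.ofNat 0),146,(.ofNat 0,.ofNat 0),11,(.ofNat 0,.ofNat 0)⟩,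
  ⟨(.ofNat 295441,.ofNat 752439),(.ofNat 90566,.ofNat 551368),(.ofNat 83320,.ofNat 393085),0,10,(.ofNat 0,.ofNat 0),141,(.ofNat 0,.ofNat 0),12,(.ofNat 0,.ofNat 0)⟩,
  ⟨(.ofNat 967380,.ofNat 860451),(.ofNat 295441,.ofNat 752439),(.ofNat 83320,.ofNat 393085),0,9,(.ofNat 0,.ofNat 0),11,(.ofNat 0,.ofNat 0),21,(.ofNat 0,.ofNat 0)⟩,
  ⟨(.ofNat 105192,.ofNat 353869),(.ofNat 862911,.ofNat 131278),(.ofNat 889041,.ofNat 236025),1,8,(.ofNat 0,.ofNat 0),116,(.ofNat 1,.ofNat 0),14,(.ofNat 0,.ofNat 0)⟩,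
  ⟨(.ofNat 105192,.ofNat 353869),(.ofNat 889041,.ofNat 236025),(.ofNat 944725,.ofNat 414238),1,13,(.ofNat 0,.ofNat 0),103,(.ofNat 1,.ofNat 0),17,(.ofNat 0,.ofNat 0)⟩,
  ⟨(.ofNat 919556,.ofNat 423114),(.ofNat 943028,.ofNat 421612),(.ofNat 926516,.ofNat 637075),1,123,(.ofNat 1,.ofNat 0),101,(.ofNat 1,.ofNat 0),22,(.ofNat 0,.ofNat 0)⟩,
  ⟨(.ofNat 946638,.ofNat 720056),(.ofNat 971454,.ofNat 820871),(.ofNat 969593,.ofNat 843112),0,99,(.ofNat 1,.ofNat 0),95,(.ofNat 0,.ofNat 1),18,(.ofNat 0,.ofNat 0)⟩,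
  ⟨(.ofNat 83320,.ofNat 393085),(.ofNat 105192,.ofNat 353869),(.ofNat 944725,.ofNat 414238),1,53,(.ofNat 0,.ofNat 0),14,(.ofNat 0,.ofNat 0),24,(.ofNat 0,.ofNat 0)⟩,
  ⟨(.ofNat 946638,.ofNat 720056),(.ofNat 969593,.ofNat 843112),(.ofNat 968111,.ofNat 854496),0,16,(.ofNat 0,.ofNat 0),97,(.ofNat 0,.ofNat 1),19,(.ofNat 0,.ofNat 0)⟩,
  ⟨(.ofNat 926516,.ofNat 637075),(.ofNat 946638,.ofNat 720056),(.ofNat 968111,.ofNat 854496),0,100,(.ofNat 1,.ofNat 0),18,(.ofNat 0,.ofNat 0),20,(.ofNat 0,.ofNat 0)⟩,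
  ⟨(.ofNat 926516,.ofNat 637075),(.ofNat 968111,.ofNat 854496),(.ofNat 967380,.ofNat 860451),0,19,(.ofNat 0,.ofNat 0),97,(.ofNat 0,.ofNat 1),21,(.ofNat 0,.ofNat 0)⟩,
  ⟨(.ofNat 926516,.ofNat 637075),(.ofNat 967380,.ofNat 860451),(.ofNat 83320,.ofNat 393085),0,20,(.ofNat 0,.ofNat 0),12,(.ofNat 0,.ofNat 0),22,(.ofNat 0,.ofNat 0)⟩,
  ⟨(.ofNat 919556,.ofNat 423114),(.ofNat 926516,.ofNat 637075),(.ofNat 83320,.ofNat 393085),1,15,(.ofNat 0,.ofNat 0),21,(.ofNat 0,.ofNat 0),23,(.ofNat 0,.ofNat 0)⟩,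
  ⟨(.ofNat 938946,.ofNat 415861),(.ofNat 919556,.ofNat 423114),(.ofNat 83320,.ofNat 393085),1,123,(.ofNat 1,.ofNat 0),22,(.ofNat 0,.ofNat 0),24,(.ofNat 0,.ofNat 0)⟩,
  ⟨(.ofNat 944725,.ofNat 414238),(.ofNat 938946,.ofNat 415861),(.ofNat 83320,.ofNat 393085),1,124,(.ofNat 1,.ofNat 0),23,(.ofNat 0,.ofNat 0),17,(.ofNat 0,.ofNat 0)⟩,
  ⟨(.negSucc 447643,.negSucc 245357),(.negSucc 543059,.negSucc 117112),(.negSucc 639666,.negSucc 146506),6,153,(.ofNat 0,.ofNat 0),104,(.ofNat 0,.ofNat 0),33,(.ofNat 0,.ofNat 0)⟩,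
  ⟨(.negSucc 387943,.negSucc 823861),(.negSucc 228786,.negSucc 750363),(.negSucc 197843,.negSucc 657530),4,6,(.ofNat 0,.negSucc 0),69,(.ofNat 0,.ofNat 0),32,(.ofNat 0,.ofNat 0)⟩,
  ⟨(.negSucc 229176,.negSucc 401663),(.negSucc 334777,.negSucc 212539),(.negSucc 386918,.negSucc 244085),4,47,(.ofNat 0,.ofNat 0),159,(.ofNat 0,.ofNat 0),35,(.ofNat 0,.ofNat 0)⟩,
  ⟨(.negSucc 775673,.negSucc 99723),(.negSucc 983133,.negSucc 105998),(.negSucc 996210,.negSucc 164587),6,114,(.ofNat 0,.ofNat 0),135,(.negSucc 0,.ofNat 0),29,(.ofNat 0,.ofNat 0)⟩,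
  ⟨(.negSucc 639666,.negSucc 146506),(.negSucc 775673,.negSucc 99723),(.negSucc 996210,.negSucc 164587),6,104,(.ofNat 0,.ofNat 0),28,(.ofNat 0,.ofNat 0),33,(.ofNat 0,.ofNat 0)⟩,
  ⟨(.negSucc 127491,.negSucc 610921),(.negSucc 107285,.negSucc 588578),(.negSucc 173910,.negSucc 473985),4,77,(.ofNat 0,.ofNat 0),60,(.ofNat 0,.ofNat 0),31,(.ofNat 0,.ofNat 0)⟩,
  ⟨(.negSucc 197843,.negSucc 657530),(.negSucc 127491,.negSucc 610921),(.negSucc 173910,.negSucc 473985),4,72,(.ofNat 0,.ofNat 0),30,(.ofNat 0,.ofNat 0),32,(.ofNat 0,.ofNat 0)⟩,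
  ⟨(.negSucc 387943,.negSucc 823861),(.negSucc 197843,.negSucc 657530),(.negSucc 173910,.negSucc 473985),4,26,(.ofNat 0,.ofNat 0),31,(.ofNat 0,.ofNat 0),34,(.ofNat 0,.ofNat 0)⟩,
  ⟨(.negSucc 447643,.negSucc 245357),(.negSucc 639666,.negSucc 146506),(.negSucc 996210,.negSucc 164587),6,25,(.ofNat 0,.ofNat 0),29,(.ofNat 0,.ofNat 0),39,(.ofNat 0,.ofNat 0)⟩,
  ⟨(.negSucc 387943,.negSucc 823861),(.negSucc 173910,.negSucc 473985),(.negSucc 229176,.negSucc 401663),4,32,(.ofNat 0,.ofNat 0),54,(.ofNat 0,.ofNat 0),35,(.ofNat 0,.ofNat 0)⟩,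
  ⟨(.negSucc 387943,.negSucc 823861),(.negSucc 229176,.negSucc 401663),(.negSucc 386918,.negSucc 244085),4,34,(.ofNat 0,.ofNat 0),27,(.ofNat 0,.ofNat 0),36,(.ofNat 0,.ofNat 0)⟩,
  ⟨(.negSucc 579113,.negSucc 975133),(.negSucc 387943,.negSucc 823861),(.negSucc 386918,.negSucc 244085),6,7,(.ofNat 0,.negSucc 0),35,(.ofNat 0,.ofNat 0),37,(.ofNat 0,.ofNat 0)⟩,
  ⟨(.negSucc 773234,.negSucc 1040209),(.negSucc 579113,.negSucc 975133),(.negSucc 386918,.negSucc 244085),6,5,(.ofNat 0,.negSucc 0),36,(.ofNat 0,.ofNat 0),40,(.ofNat 0,.ofNat 0)⟩,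
  ⟨(.negSucc 949935,.negSucc 483062),(.negSucc 973599,.negSucc 746624),(.negSucc 899690,.negSucc 989255),2,82,(.negSucc 0,.ofNat 0),81,(.negSucc 0,.ofNat 0),43,(.ofNat 0,.ofNat 0)⟩,
  ⟨(.negSucc 447643,.negSucc 245357),(.negSucc 996210,.negSucc 164587),(.negSucc 1023908,.negSucc 204763),6,33,(.ofNat 0,.ofNat 0),135,(.negSucc 0,.ofNat 0),41,(.ofNat 0,.ofNat 0)⟩,
  ⟨(.negSucc 773234,.negSucc 1040209),(.negSucc 386918,.negSucc 244085),(.negSucc 447643,.negSucc 245357),6,37,(.ofNat 0,.ofNat 0),159,(.ofNat 0,.ofNat 0),41,(.ofNat 0,.ofNat 0)⟩,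
  ⟨(.negSucc 773234,.negSucc 1040209),(.negSucc 447643,.negSucc 245357),(.negSucc 1023908,.negSucc 204763),6,40,(.ofNat 0,.ofNat 0),39,(.ofNat 0,.ofNat 0),46,(.ofNat 0,.ofNat 0)⟩,
  ⟨(.negSucc 1023908,.negSucc 204763),(.negSucc 1037017,.negSucc 220351),(.negSucc 949935,.negSucc 483062),5,139,(.negSucc 0,.ofNat 0),80,(.negSucc 0,.ofNat 0),46,(.ofNat 0,.ofNat 0)⟩,
  ⟨(.negSucc 949935,.negSucc 483062),(.negSucc 899690,.negSucc 989255),(.negSucc 872603,.negSucc 985614),2,38,(.ofNat 0,.ofNat 0),149,(.ofNat 0,.negSucc 0),44,(.ofNat 0,.ofNat 0)⟩,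
  ⟨(.negSucc 949935,.negSucc 483062),(.negSucc 872603,.negSucc 985614),(.negSucc 819367,.negSucc 1009112),3,43,(.ofNat 0,.ofNat 0),143,(.ofNat 0,.negSucc 0),45,(.ofNat 0,.ofNat 0)⟩,
  ⟨(.negSucc 949935,.negSucc 483062),(.negSucc 819367,.negSucc 1009112),(.negSucc 773234,.negSucc 1040209),3,44,(.ofNat 0,.ofNat 0),142,(.ofNat 0,.negSucc 0),46,(.ofNat 0,.ofNat 0)⟩,
  ⟨(.negSucc 1023908,.negSucc 204763),(.negSucc 949935,.negSucc 483062),(.negSucc 773234,.negSucc 1040209),6,42,(.ofNat 0,.ofNat 0),45,(.ofNat 0,.ofNat 0),41,(.ofNat 0,.ofNat 0)⟩,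
  ⟨(.negSucc 238839,.negSucc 154510),(.negSucc 334777,.negSucc 212539),(.negSucc 229176,.negSucc 401663),7,154,(.ofNat 0,.ofNat 0),27,(.ofNat 0,.ofNat 0),54,(.ofNat 0,.ofNat 0)⟩,
  ⟨(.negSucc 198393,.ofNat 170662),(.negSucc 307379,.ofNat 7937),(.negSucc 236584,.negSucc 57298),9,105,(.ofNat 0,.ofNat 0),155,(.ofNat 0,.ofNat 0),65,(.ofNat 0,.ofNat 0)⟩,
  ⟨(.ofNat 534459,.negSucc 60967),(.ofNat 553877,.ofNat 20254),(.ofNat 411700,.ofNat 155472),8,127,(.ofNat 0,.ofNat 0),2,(.ofNat 0,.ofNat 0),52,(.ofNat 0,.ofNat 0)⟩,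
  ⟨(.negSucc 38905,.negSucc 559197),(.ofNat 55094,.negSucc 569564),(.ofNat 203611,.negSucc 446876),7,71,(.ofNat 0,.ofNat 0),85,(.ofNat 0,.ofNat 0),59,(.ofNat 0,.ofNat 0)⟩,
  ⟨(.ofNat 203611,.negSucc 446876),(.ofNat 437569,.negSucc 339175),(.ofNat 526609,.negSucc 192237),7,86,(.ofNat 0,.ofNat 0),79,(.ofNat 0,.ofNat 0),58,(.ofNat 0,.ofNat 0)⟩,
  ⟨(.ofNat 534459,.negSucc 60967),(.ofNat 411700,.ofNat 155472),(.ofNat 105192,.ofNat 353869),9,49,(.ofNat 0,.ofNat 0),8,(.ofNat 0,.ofNat 0),56,(.ofNat 0,.ofNat 0)⟩,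
  ⟨(.ofNat 105192,.ofNat 353869),(.ofNat 83320,.ofNat 393085),(.negSucc 107983,.ofNat 411396),9,17,(.ofNat 0,.ofNat 0),141,(.ofNat 0,.ofNat 0),56,(.ofNat 0,.ofNat 0)⟩,
  ⟨(.negSucc 238839,.negSucc 154510),(.negSucc 229176,.negSucc 401663),(.negSucc 173910,.negSucc 473985),7,47,(.ofNat 0,.ofNat 0),34,(.ofNat 0,.ofNat 0),62,(.ofNat 0,.ofNat 0)⟩,
  ⟨(.negSucc 113983,.ofNat 411380),(.negSucc 132405,.ofNat 411102),(.negSucc 167840,.ofNat 315066),9,148,(.ofNat 0,.ofNat 0),98,(.ofNat 0,.ofNat 0),57,(.ofNat 0,.ofNat 0)⟩,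
  ⟨(.ofNat 534459,.negSucc 60967),(.ofNat 105192,.ofNat 353869),(.negSucc 107983,.ofNat 411396),9,52,(.ofNat 0,.ofNat 0),53,(.ofNat 0,.ofNat 0),67,(.ofNat 0,.ofNat 0)⟩,
  ⟨(.negSucc 113983,.ofNat 411380),(.negSucc 167840,.ofNat 315066),(.negSucc 198393,.ofNat 170662),9,55,(.ofNat 0,.ofNat 0),106,(.ofNat 0,.ofNat 0),66,(.ofNat 0,.ofNat 0)⟩,
  ⟨(.ofNat 203611,.negSucc 446876),(.ofNat 526609,.negSucc 192237),(.ofNat 528053,.negSucc 121809),7,51,(.ofNat 0,.ofNat 0),128,(.ofNat 0,.ofNat 0),59,(.ofNat 0,.ofNat 0)⟩,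
  ⟨(.negSucc 38905,.negSucc 559197),(.ofNat 203611,.negSucc 446876),(.ofNat 528053,.negSucc 121809),7,50,(.ofNat 0,.ofNat 0),58,(.ofNat 0,.ofNat 0),63,(.ofNat 0,.ofNat 0)⟩,
  ⟨(.negSucc 173910,.negSucc 473985),(.negSucc 107285,.negSucc 588578),(.negSucc 92850,.negSucc 586882),7,30,(.ofNat 0,.ofNat 0),77,(.ofNat 0,.ofNat 0),61,(.ofNat 0,.ofNat 0)⟩,
  ⟨(.negSucc 173910,.negSucc 473985),(.negSucc 92850,.negSucc 586882),(.negSucc 38905,.negSucc 559197),7,60,(.ofNat 0,.ofNat 0),73,(.ofNat 0,.ofNat 0),62,(.ofNat 0,.ofNat 0)⟩,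
  ⟨(.negSucc 238839,.negSucc 154510),(.negSucc 173910,.negSucc 473985),(.negSucc 38905,.negSucc 559197),7,54,(.ofNat 0,.ofNat 0),61,(.ofNat 0,.ofNat 0),63,(.ofNat 0,.ofNat 0)⟩,
  ⟨(.negSucc 238839,.negSucc 154510),(.negSucc 38905,.negSucc 559197),(.ofNat 528053,.negSucc 121809),7,62,(.ofNat 0,.ofNat 0),59,(.ofNat 0,.ofNat 0),64,(.ofNat 0,.ofNat 0)⟩,
  ⟨(.negSucc 236584,.negSucc 57298),(.negSucc 238839,.negSucc 154510),(.ofNat 528053,.negSucc 121809),9,154,(.ofNat 0,.ofNat 0),63,(.ofNat 0,.ofNat 0),65,(.ofNat 0,.ofNat 0)⟩,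
  ⟨(.negSucc 198393,.ofNat 170662),(.negSucc 236584,.negSucc 57298),(.ofNat 528053,.negSucc 121809),9,48,(.ofNat 0,.ofNat 0),64,(.ofNat 0,.ofNat 0),66,(.ofNat 0,.ofNat 0)⟩,
  ⟨(.negSucc 113983,.ofNat 411380),(.negSucc 198393,.ofNat 170662),(.ofNat 528053,.negSucc 121809),9,57,(.ofNat 0,.ofNat 0),65,(.ofNat 0,.ofNat 0),68,(.ofNat 0,.ofNat 0)⟩,
  ⟨(.ofNat 528053,.negSucc 121809),(.ofNat 534459,.negSucc 60967),(.negSucc 107983,.ofNat 411396),9,131,(.ofNat 0,.ofNat 0),56,(.ofNat 0,.ofNat 0),68,(.ofNat 0,.ofNat 0)⟩,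
  ⟨(.ofNat 528053,.negSucc 121809),(.negSucc 107983,.ofNat 411396),(.negSucc 113983,.ofNat 411380),9,67,(.ofNat 0,.ofNat 0),151,(.ofNat 0,.ofNat 0),66,(.ofNat 0,.ofNat 0)⟩,
  ⟨(.negSucc 197843,.negSucc 657530),(.negSucc 228786,.negSucc 750363),(.negSucc 150103,.negSucc 743972),10,26,(.ofNat 0,.ofNat 0),4,(.ofNat 0,.negSucc 0),72,(.ofNat 0,.ofNat 0)⟩,
  ⟨(.negSucc 95640,.negSucc 782370),(.ofNat 92825,.negSucc 867121),(.ofNat 74707,.negSucc 720440),10,9,(.ofNat 0,.negSucc 0),94,(.ofNat 0,.ofNat 0),74,(.ofNat 0,.ofNat 0)⟩,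
  ⟨(.ofNat 44040,.negSucc 655595),(.ofNat 55094,.negSucc 569564),(.negSucc 38905,.negSucc 559197),10,84,(.ofNat 0,.ofNat 0),50,(.ofNat 0,.ofNat 0),73,(.ofNat 0,.ofNat 0)⟩,
  ⟨(.negSucc 127491,.negSucc 610921),(.negSucc 197843,.negSucc 657530),(.negSucc 150103,.negSucc 743972),10,31,(.ofNat 0,.ofNat 0),69,(.ofNat 0,.ofNat 0),76,(.ofNat 0,.ofNat 0)⟩,
  ⟨(.ofNat 44040,.negSucc 655595),(.negSucc 38905,.negSucc 559197),(.negSucc 92850,.negSucc 586882),10,71,(.ofNat 0,.ofNat 0),61,(.ofNat 0,.ofNat 0),75,(.ofNat 0,.ofNat 0)⟩,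
  ⟨(.negSucc 95640,.negSucc 782370),(.ofNat 74707,.negSucc 720440),(.ofNat 44040,.negSucc 655595),10,70,(.ofNat 0,.ofNat 0),84,(.ofNat 0,.ofNat 0),75,(.ofNat 0,.ofNat 0)⟩,
  ⟨(.negSucc 95640,.negSucc 782370),(.ofNat 44040,.negSucc 655595),(.negSucc 92850,.negSucc 586882),10,74,(.ofNat 0,.ofNat 0),73,(.ofNat 0,.ofNat 0),78,(.ofNat 0,.ofNat 0)⟩,
  ⟨(.negSucc 127491,.negSucc 610921),(.negSucc 150103,.negSucc 743972),(.negSucc 95640,.negSucc 782370),10,72,(.ofNat 0,.ofNat 0),4,(.ofNat 0,.negSucc 0),78,(.ofNat 0,.ofNat 0)⟩,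
  ⟨(.negSucc 92850,.negSucc 586882),(.negSucc 107285,.negSucc 588578),(.negSucc 127491,.negSucc 610921),10,60,(.ofNat 0,.ofNat 0),30,(.ofNat 0,.ofNat 0),78,(.ofNat 0,.ofNat 0)⟩,
  ⟨(.negSucc 95640,.negSucc 782370),(.negSucc 92850,.negSucc 586882),(.negSucc 127491,.negSucc 610921),10,75,(.ofNat 0,.ofNat 0),77,(.ofNat 0,.ofNat 0),76,(.ofNat 0,.ofNat 0)⟩,
  ⟨(.ofNat 642217,.negSucc 231001),(.ofNat 526609,.negSucc 192237),(.ofNat 437569,.negSucc 339175),13,128,(.ofNat 0,.ofNat 0),51,(.ofNat 0,.ofNat 0),92,(.ofNat 0,.ofNat 0)⟩,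
  ⟨(.ofNat 911248,.negSucc 483062),(.ofNat 824166,.negSucc 220351),(.ofNat 718408,.negSucc 257257),13,42,(.ofNat 1,.ofNat 0),129,(.ofNat 0,.ofNat 0),82,(.ofNat 0,.ofNat 0)⟩,
  ⟨(.ofNat 861090,.negSucc 1044926),(.ofNat 961493,.negSucc 989255),(.ofNat 887584,.negSucc 746624),11,144,(.ofNat 1,.negSucc 0),38,(.ofNat 1,.ofNat 0),88,(.ofNat 0,.ofNat 0)⟩,
  ⟨(.ofNat 887584,.negSucc 746624),(.ofNat 911248,.negSucc 483062),(.ofNat 718408,.negSucc 257257),13,38,(.ofNat 1,.ofNat 0),80,(.ofNat 0,.ofNat 0),89,(.ofNat 0,.ofNat 0)⟩,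
  ⟨(.ofNat 578869,.negSucc 1097437),(.ofNat 749086,.negSucc 1167172),(.ofNat 826773,.negSucc 1110565),13,108,(.ofNat 1,.negSucc 0),140,(.ofNat 1,.negSucc 0),87,(.ofNat 0,.ofNat 0)⟩,
  ⟨(.ofNat 55094,.negSucc 569564),(.ofNat 44040,.negSucc 655595),(.ofNat 74707,.negSucc 720440),12,71,(.ofNat 0,.ofNat 0),74,(.ofNat 0,.ofNat 0),85,(.ofNat 0,.ofNat 0)⟩,
  ⟨(.ofNat 203611,.negSucc 446876),(.ofNat 55094,.negSucc 569564),(.ofNat 74707,.negSucc 720440),12,50,(.ofNat 0,.ofNat 0),84,(.ofNat 0,.ofNat 0),86,(.ofNat 0,.ofNat 0)⟩,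
  ⟨(.ofNat 437569,.negSucc 339175),(.ofNat 203611,.negSucc 446876),(.ofNat 74707,.negSucc 720440),14,51,(.ofNat 0,.ofNat 0),85,(.ofNat 0,.ofNat 0),94,(.ofNat 0,.ofNat 0)⟩,
  ⟨(.ofNat 578869,.negSucc 1097437),(.ofNat 826773,.negSucc 1110565),(.ofNat 861090,.negSucc 1044926),13,83,(.ofNat 0,.ofNat 0),144,(.ofNat 1,.negSucc 0),88,(.ofNat 0,.ofNat 0)⟩,
  ⟨(.ofNat 578869,.negSucc 1097437),(.ofNat 861090,.negSucc 1044926),(.ofNat 887584,.negSucc 746624),13,87,(.ofNat 0,.ofNat 0),81,(.ofNat 0,.ofNat 0),89,(.ofNat 0,.ofNat 0)⟩,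
  ⟨(.ofNat 578869,.negSucc 1097437),(.ofNat 887584,.negSucc 746624),(.ofNat 718408,.negSucc 257257),13,88,(.ofNat 0,.ofNat 0),82,(.ofNat 0,.ofNat 0),90,(.ofNat 0,.ofNat 0)⟩,
  ⟨(.ofNat 350296,.negSucc 1018670),(.ofNat 578869,.negSucc 1097437),(.ofNat 718408,.negSucc 257257),13,102,(.ofNat 1,.negSucc 0),89,(.ofNat 0,.ofNat 0),91,(.ofNat 0,.ofNat 0)⟩,
  ⟨(.ofNat 96899,.negSucc 906701),(.ofNat 350296,.negSucc 1018670),(.ofNat 718408,.negSucc 257257),13,99,(.ofNat 1,.negSucc 0),90,(.ofNat 0,.ofNat 0),93,(.ofNat 0,.ofNat 0)⟩,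
  ⟨(.ofNat 718408,.negSucc 257257),(.ofNat 642217,.negSucc 231001),(.ofNat 437569,.negSucc 339175),13,129,(.ofNat 0,.ofNat 0),79,(.ofNat 0,.ofNat 0),93,(.ofNat 0,.ofNat 0)⟩,
  ⟨(.ofNat 96899,.negSucc 906701),(.ofNat 718408,.negSucc 257257),(.ofNat 437569,.negSucc 339175),13,91,(.ofNat 0,.ofNat 0),92,(.ofNat 0,.ofNat 0),95,(.ofNat 0,.ofNat 0)⟩,
  ⟨(.ofNat 437569,.negSucc 339175),(.ofNat 74707,.negSucc 720440),(.ofNat 92825,.negSucc 867121),14,86,(.ofNat 0,.ofNat 0),70,(.ofNat 0,.ofNat 0),96,(.ofNat 0,.ofNat 0)⟩,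
  ⟨(.ofNat 95038,.negSucc 884460),(.ofNat 96899,.negSucc 906701),(.ofNat 437569,.negSucc 339175),13,16,(.ofNat 0,.negSucc 0),93,(.ofNat 0,.ofNat 0),96,(.ofNat 0,.ofNat 0)⟩,
  ⟨(.ofNat 95038,.negSucc 884460),(.ofNat 437569,.negSucc 339175),(.ofNat 92825,.negSucc 867121),15,95,(.ofNat 0,.ofNat 0),94,(.ofNat 0,.ofNat 0),97,(.ofNat 0,.ofNat 0)⟩,
  ⟨(.ofNat 92825,.negSucc 867121),(.ofNat 93556,.negSucc 873076),(.ofNat 95038,.negSucc 884460),15,20,(.ofNat 0,.negSucc 0),18,(.ofNat 0,.negSucc 0),96,(.ofNat 0,.ofNat 0)⟩,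
  ⟨(.negSucc 167840,.ofNat 315066),(.negSucc 132405,.ofNat 411102),(.negSucc 181648,.ofNat 484261),17,55,(.ofNat 0,.ofNat 0),148,(.ofNat 0,.ofNat 0),107,(.ofNat 0,.ofNat 0)⟩,
  ⟨(.negSucc 636332,.ofNat 708902),(.negSucc 889729,.ofNat 820871),(.negSucc 914545,.ofNat 720056),17,91,(.negSucc 0,.ofNat 1),16,(.negSucc 0,.ofNat 0),100,(.ofNat 0,.ofNat 0)⟩,
  ⟨(.negSucc 636332,.ofNat 708902),(.negSucc 914545,.ofNat 720056),(.negSucc 934667,.ofNat 637075),17,99,(.ofNat 0,.ofNat 0),19,(.negSucc 0,.ofNat 0),101,(.ofNat 0,.ofNat 0)⟩,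
  ⟨(.negSucc 636332,.ofNat 708902),(.negSucc 934667,.ofNat 637075),(.negSucc 918155,.ofNat 421612),17,100,(.ofNat 0,.ofNat 0),15,(.negSucc 0,.ofNat 0),102,(.ofNat 0,.ofNat 0)⟩,
  ⟨(.negSucc 407759,.ofNat 630135),(.negSucc 636332,.ofNat 708902),(.negSucc 918155,.ofNat 421612),17,90,(.negSucc 0,.ofNat 1),101,(.ofNat 0,.ofNat 0),108,(.ofNat 0,.ofNat 0)⟩,
  ⟨(.negSucc 855142,.ofNat 421259),(.negSucc 916458,.ofNat 414238),(.negSucc 972142,.ofNat 236025),17,126,(.ofNat 0,.ofNat 0),14,(.negSucc 0,.ofNat 0),116,(.ofNat 0,.ofNat 0)⟩,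
  ⟨(.negSucc 775673,.negSucc 99723),(.negSucc 639666,.negSucc 146506),(.negSucc 543059,.negSucc 117112),17,29,(.ofNat 0,.ofNat 0),25,(.ofNat 0,.ofNat 0),111,(.ofNat 0,.ofNat 0)⟩,
  ⟨(.negSucc 365275,.ofNat 4503),(.negSucc 307379,.ofNat 7937),(.negSucc 198393,.ofNat 170662),16,157,(.ofNat 0,.ofNat 0),48,(.ofNat 0,.ofNat 0),106,(.ofNat 0,.ofNat 0)⟩,
  ⟨(.negSucc 365275,.ofNat 4503),(.negSucc 198393,.ofNat 170662),(.negSucc 167840,.ofNat 315066),17,105,(.ofNat 0,.ofNat 0),57,(.ofNat 0,.ofNat 0),107,(.ofNat 0,.ofNat 0)⟩,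
  ⟨(.negSucc 365275,.ofNat 4503),(.negSucc 167840,.ofNat 315066),(.negSucc 181648,.ofNat 484261),17,106,(.ofNat 0,.ofNat 0),98,(.ofNat 0,.ofNat 0),113,(.ofNat 0,.ofNat 0)⟩,
  ⟨(.negSucc 237542,.ofNat 560400),(.negSucc 407759,.ofNat 630135),(.negSucc 918155,.ofNat 421612),17,83,(.negSucc 0,.ofNat 1),102,(.ofNat 0,.ofNat 0),115,(.ofNat 0,.ofNat 0)⟩,
  ⟨(.negSucc 998272,.ofNat 131278),(.negSucc 1040621,.negSucc 7392),(.negSucc 1020652,.negSucc 23342),17,0,(.negSucc 0,.ofNat 0),138,(.negSucc 0,.ofNat 0),110,(.ofNat 0,.ofNat 0)⟩,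
  ⟨(.negSucc 998272,.ofNat 131278),(.negSucc 1020652,.negSucc 23342),(.negSucc 990014,.negSucc 81666),17,109,(.ofNat 0,.ofNat 0),137,(.negSucc 0,.ofNat 0),117,(.ofNat 0,.ofNat 0)⟩,
  ⟨(.negSucc 775673,.negSucc 99723),(.negSucc 543059,.negSucc 117112),(.negSucc 462286,.negSucc 77601),17,104,(.ofNat 0,.ofNat 0),153,(.ofNat 0,.ofNat 0),112,(.ofNat 0,.ofNat 0)⟩,
  ⟨(.negSucc 775673,.negSucc 99723),(.negSucc 462286,.negSucc 77601),(.negSucc 365275,.ofNat 4503),17,111,(.ofNat 0,.ofNat 0),156,(.ofNat 0,.ofNat 0),113,(.ofNat 0,.ofNat 0)⟩,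
  ⟨(.negSucc 775673,.negSucc 99723),(.negSucc 365275,.ofNat 4503),(.negSucc 181648,.ofNat 484261),17,112,(.ofNat 0,.ofNat 0),107,(.ofNat 0,.ofNat 0),114,(.ofNat 0,.ofNat 0)⟩,
  ⟨(.negSucc 983133,.negSucc 105998),(.negSucc 775673,.negSucc 99723),(.negSucc 181648,.ofNat 484261),17,28,(.ofNat 0,.ofNat 0),113,(.ofNat 0,.ofNat 0),118,(.ofNat 0,.ofNat 0)⟩,
  ⟨(.negSucc 185219,.ofNat 489082),(.negSucc 237542,.ofNat 560400),(.negSucc 918155,.ofNat 421612),17,140,(.ofNat 0,.ofNat 0),108,(.ofNat 0,.ofNat 0),121,(.ofNat 0,.ofNat 0)⟩,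
  ⟨(.negSucc 855142,.ofNat 421259),(.negSucc 972142,.ofNat 236025),(.negSucc 998272,.ofNat 131278),17,103,(.ofNat 0,.ofNat 0),13,(.negSucc 0,.ofNat 0),117,(.ofNat 0,.ofNat 0)⟩,
  ⟨(.negSucc 855142,.ofNat 421259),(.negSucc 998272,.ofNat 131278),(.negSucc 990014,.negSucc 81666),17,116,(.ofNat 0,.ofNat 0),110,(.ofNat 0,.ofNat 0),119,(.ofNat 0,.ofNat 0)⟩,
  ⟨(.negSucc 990014,.negSucc 81666),(.negSucc 983133,.negSucc 105998),(.negSucc 181648,.ofNat 484261),17,136,(.negSucc 0,.ofNat 0),114,(.ofNat 0,.ofNat 0),119,(.ofNat 0,.ofNat 0)⟩,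
  ⟨(.negSucc 855142,.ofNat 421259),(.negSucc 990014,.negSucc 81666),(.negSucc 181648,.ofNat 484261),17,117,(.ofNat 0,.ofNat 0),118,(.ofNat 0,.ofNat 0),122,(.ofNat 0,.ofNat 0)⟩,
  ⟨(.negSucc 918155,.ofNat 421612),(.negSucc 912007,.ofNat 420787),(.negSucc 855142,.ofNat 421259),17,125,(.ofNat 0,.ofNat 0),126,(.ofNat 0,.ofNat 0),121,(.ofNat 0,.ofNat 0)⟩,
  ⟨(.negSucc 185219,.ofNat 489082),(.negSucc 918155,.ofNat 421612),(.negSucc 855142,.ofNat 421259),17,115,(.ofNat 0,.ofNat 0),120,(.ofNat 0,.ofNat 0),122,(.ofNat 0,.ofNat 0)⟩,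
  ⟨(.negSucc 855142,.ofNat 421259),(.negSucc 181648,.ofNat 484261),(.negSucc 185219,.ofNat 489082),17,119,(.ofNat 0,.ofNat 0),152,(.ofNat 0,.ofNat 0),121,(.ofNat 0,.ofNat 0)⟩,
  ⟨(.negSucc 918155,.ofNat 421612),(.negSucc 941627,.ofNat 423114),(.negSucc 922237,.ofNat 415861),18,15,(.negSucc 0,.ofNat 0),23,(.negSucc 0,.ofNat 0),124,(.ofNat 0,.ofNat 0)⟩,
  ⟨(.negSucc 918155,.ofNat 421612),(.negSucc 922237,.ofNat 415861),(.negSucc 916458,.ofNat 414238),18,123,(.ofNat 0,.ofNat 0),24,(.negSucc 0,.ofNat 0),125,(.ofNat 0,.ofNat 0)⟩,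
  ⟨(.negSucc 912007,.ofNat 420787),(.negSucc 918155,.ofNat 421612),(.negSucc 916458,.ofNat 414238),18,120,(.ofNat 0,.ofNat 0),124,(.ofNat 0,.ofNat 0),126,(.ofNat 0,.ofNat 0)⟩,
  ⟨(.negSucc 916458,.ofNat 414238),(.negSucc 855142,.ofNat 421259),(.negSucc 912007,.ofNat 420787),19,103,(.ofNat 0,.ofNat 0),120,(.ofNat 0,.ofNat 0),125,(.ofNat 0,.ofNat 0)⟩,
  ⟨(.ofNat 688112,.ofNat 26256),(.ofNat 553877,.ofNat 20254),(.ofNat 534459,.negSucc 60967),20,2,(.ofNat 0,.ofNat 0),49,(.ofNat 0,.ofNat 0),131,(.ofNat 0,.ofNat 0)⟩,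
  ⟨(.ofNat 528053,.negSucc 121809),(.ofNat 526609,.negSucc 192237),(.ofNat 642217,.negSucc 231001),20,58,(.ofNat 0,.ofNat 0),79,(.ofNat 0,.ofNat 0),130,(.ofNat 0,.ofNat 0)⟩,
  ⟨(.ofNat 642217,.negSucc 231001),(.ofNat 718408,.negSucc 257257),(.ofNat 824166,.negSucc 220351),20,92,(.ofNat 0,.ofNat 0),80,(.ofNat 0,.ofNat 0),130,(.ofNat 0,.ofNat 0)⟩,
  ⟨(.ofNat 528053,.negSucc 121809),(.ofNat 642217,.negSucc 231001),(.ofNat 824166,.negSucc 220351),20,128,(.ofNat 0,.ofNat 0),129,(.ofNat 0,.ofNat 0),132,(.ofNat 0,.ofNat 0)⟩,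
  ⟨(.ofNat 688112,.ofNat 26256),(.ofNat 534459,.negSucc 60967),(.ofNat 528053,.negSucc 121809),20,127,(.ofNat 0,.ofNat 0),67,(.ofNat 0,.ofNat 0),132,(.ofNat 0,.ofNat 0)⟩,
  ⟨(.ofNat 688112,.ofNat 26256),(.ofNat 528053,.negSucc 121809),(.ofNat 824166,.negSucc 220351),20,131,(.ofNat 0,.ofNat 0),130,(.ofNat 0,.ofNat 0),133,(.ofNat 0,.ofNat 0)⟩,
  ⟨(.ofNat 760035,.ofNat 9609),(.ofNat 688112,.ofNat 26256),(.ofNat 824166,.negSucc 220351),20,1,(.ofNat 0,.ofNat 0),132,(.ofNat 0,.ofNat 0),134,(.ofNat 0,.ofNat 0)⟩,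
  ⟨(.ofNat 820562,.negSucc 7392),(.ofNat 760035,.ofNat 9609),(.ofNat 824166,.negSucc 220351),20,0,(.ofNat 0,.ofNat 0),133,(.ofNat 0,.ofNat 0),139,(.ofNat 0,.ofNat 0)⟩,
  ⟨(.ofNat 837275,.negSucc 204763),(.ofNat 864973,.negSucc 164587),(.ofNat 878050,.negSucc 105998),20,39,(.ofNat 1,.ofNat 0),28,(.ofNat 1,.ofNat 0),136,(.ofNat 0,.ofNat 0)⟩,
  ⟨(.ofNat 837275,.negSucc 204763),(.ofNat 878050,.negSucc 105998),(.ofNat 871169,.negSucc 81666),20,135,(.ofNat 0,.ofNat 0),118,(.ofNat 1,.ofNat 0),137,(.ofNat 0,.ofNat 0)⟩,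
  ⟨(.ofNat 837275,.negSucc 204763),(.ofNat 871169,.negSucc 81666),(.ofNat 840531,.negSucc 23342),20,136,(.ofNat 0,.ofNat 0),110,(.ofNat 1,.ofNat 0),138,(.ofNat 0,.ofNat 0)⟩,
  ⟨(.ofNat 837275,.negSucc 204763),(.ofNat 840531,.negSucc 23342),(.ofNat 820562,.negSucc 7392),20,137,(.ofNat 0,.ofNat 0),109,(.ofNat 1,.ofNat 0),139,(.ofNat 0,.ofNat 0)⟩,
  ⟨(.ofNat 824166,.negSucc 220351),(.ofNat 837275,.negSucc 204763),(.ofNat 820562,.negSucc 7392),20,42,(.ofNat 1,.ofNat 0),138,(.ofNat 0,.ofNat 0),134,(.ofNat 0,.ofNat 0)⟩,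
  ⟨(.negSucc 159855,.ofNat 617007),(.negSucc 237542,.ofNat 560400),(.negSucc 185219,.ofNat 489082),21,83,(.negSucc 0,.ofNat 1),115,(.ofNat 0,.ofNat 0),145,(.ofNat 0,.ofNat 0)⟩,
  ⟨(.negSucc 107983,.ofNat 411396),(.ofNat 83320,.ofNat 393085),(.ofNat 90566,.ofNat 551368),21,53,(.ofNat 0,.ofNat 0),11,(.ofNat 0,.ofNat 0),147,(.ofNat 0,.ofNat 0)⟩,
  ⟨(.ofNat 95703,.ofNat 609518),(.ofNat 101320,.ofNat 687363),(.ofNat 55187,.ofNat 718460),21,5,(.ofNat 0,.ofNat 0),45,(.ofNat 0,.ofNat 1),143,(.ofNat 0,.ofNat 0)⟩,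
  ⟨(.ofNat 95703,.ofNat 609518),(.ofNat 55187,.ofNat 718460),(.ofNat 1951,.ofNat 741958),21,142,(.ofNat 0,.ofNat 0),44,(.ofNat 0,.ofNat 1),146,(.ofNat 0,.ofNat 0)⟩,
  ⟨(.negSucc 25135,.ofNat 738317),(.negSucc 125538,.ofNat 682646),(.negSucc 159855,.ofNat 617007),21,81,(.negSucc 0,.ofNat 1),87,(.negSucc 0,.ofNat 1),145,(.ofNat 0,.ofNat 0)⟩,
  ⟨(.negSucc 25135,.ofNat 738317),(.negSucc 159855,.ofNat 617007),(.negSucc 185219,.ofNat 489082),21,144,(.ofNat 0,.ofNat 0),140,(.ofNat 0,.ofNat 0),150,(.ofNat 0,.ofNat 0)⟩,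
  ⟨(.ofNat 90566,.ofNat 551368),(.ofNat 95703,.ofNat 609518),(.ofNat 1951,.ofNat 741958),21,10,(.ofNat 0,.ofNat 0),143,(.ofNat 0,.ofNat 0),147,(.ofNat 0,.ofNat 0)⟩,
  ⟨(.negSucc 107983,.ofNat 411396),(.ofNat 90566,.ofNat 551368),(.ofNat 1951,.ofNat 741958),21,141,(.ofNat 0,.ofNat 0),146,(.ofNat 0,.ofNat 0),149,(.ofNat 0,.ofNat 0)⟩,
  ⟨(.negSucc 181648,.ofNat 484261),(.negSucc 132405,.ofNat 411102),(.negSucc 113983,.ofNat 411380),21,98,(.ofNat 0,.ofNat 0),55,(.ofNat 0,.ofNat 0),151,(.ofNat 0,.ofNat 0)⟩,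
  ⟨(.negSucc 107983,.ofNat 411396),(.ofNat 1951,.ofNat 741958),(.negSucc 25135,.ofNat 738317),21,147,(.ofNat 0,.ofNat 0),43,(.ofNat 0,.ofNat 1),150,(.ofNat 0,.ofNat 0)⟩,
  ⟨(.negSucc 107983,.ofNat 411396),(.negSucc 25135,.ofNat 738317),(.negSucc 185219,.ofNat 489082),21,149,(.ofNat 0,.ofNat 0),145,(.ofNat 0,.ofNat 0),152,(.ofNat 0,.ofNat 0)⟩,
  ⟨(.negSucc 181648,.ofNat 484261),(.negSucc 113983,.ofNat 411380),(.negSucc 107983,.ofNat 411396),21,148,(.ofNat 0,.ofNat 0),68,(.ofNat 0,.ofNat 0),152,(.ofNat 0,.ofNat 0)⟩,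
  ⟨(.negSucc 185219,.ofNat 489082),(.negSucc 181648,.ofNat 484261),(.negSucc 107983,.ofNat 411396),21,122,(.ofNat 0,.ofNat 0),151,(.ofNat 0,.ofNat 0),150,(.ofNat 0,.ofNat 0)⟩,
  ⟨(.negSucc 462286,.negSucc 77601),(.negSucc 543059,.negSucc 117112),(.negSucc 447643,.negSucc 245357),22,111,(.ofNat 0,.ofNat 0),25,(.ofNat 0,.ofNat 0),156,(.ofNat 0,.ofNat 0)⟩,
  ⟨(.negSucc 334777,.negSucc 212539),(.negSucc 238839,.negSucc 154510),(.negSucc 236584,.negSucc 57298),22,47,(.ofNat 0,.ofNat 0),64,(.ofNat 0,.ofNat 0),155,(.ofNat 0,.ofNat 0)⟩,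
  ⟨(.negSucc 334777,.negSucc 212539),(.negSucc 236584,.negSucc 57298),(.negSucc 307379,.ofNat 7937),22,154,(.ofNat 0,.ofNat 0),48,(.ofNat 0,.ofNat 0),157,(.ofNat 0,.ofNat 0)⟩,
  ⟨(.negSucc 365275,.ofNat 4503),(.negSucc 462286,.negSucc 77601),(.negSucc 447643,.negSucc 245357),22,112,(.ofNat 0,.ofNat 0),153,(.ofNat 0,.ofNat 0),158,(.ofNat 0,.ofNat 0)⟩,
  ⟨(.negSucc 334777,.negSucc 212539),(.negSucc 307379,.ofNat 7937),(.negSucc 365275,.ofNat 4503),22,155,(.ofNat 0,.ofNat 0),105,(.ofNat 0,.ofNat 0),158,(.ofNat 0,.ofNat 0)⟩,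
  ⟨(.negSucc 334777,.negSucc 212539),(.negSucc 365275,.ofNat 4503),(.negSucc 447643,.negSucc 245357),22,157,(.ofNat 0,.ofNat 0),156,(.ofNat 0,.ofNat 0),159,(.ofNat 0,.ofNat 0)⟩,
  ⟨(.negSucc 447643,.negSucc 245357),(.negSucc 386918,.negSucc 244085),(.negSucc 334777,.negSucc 212539),22,40,(.ofNat 0,.ofNat 0),27,(.ofNat 0,.ofNat 0),158,(.ofNat 0,.ofNat 0)⟩]

def E5G : List Grp := [
  ⟨0,[(.ofNat 778914,.ofNat 945202),(.ofNat 724451,.ofNat 983600),(.ofNat 645768,.ofNat 977209),(.ofNat 295441,.ofNat 752439),(.ofNat 101320,.ofNat 687363),(.ofNat 95703,.ofNat 609518),(.ofNat 486611,.ofNat 903711),(.ofNat 967380,.ofNat 860451),(.ofNat 90566,.ofNat 551368),(.ofNat 83320,.ofNat 393085),(.ofNat 946638,.ofNat 720056),(.ofNat 971454,.ofNat 820871),(.ofNat 969593,.ofNat 843112),(.ofNat 968111,.ofNat 854496),(.ofNat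 926516,.ofNat 637075)]⟩,
  ⟨0,[(.ofNat 760035,.ofNat 9609),(.ofNat 820562,.negSucc 7392),(.ofNat 862911,.ofNat 131278),(.ofNat 688112,.ofNat 26256),(.ofNat 411700,.ofNat 155472),(.ofNat 553877,.ofNat 20254),(.ofNat 105192,.ofNat 353869),(.ofNat 889041,.ofNat 236025),(.ofNat 944725,.ofNat 414238),(.ofNat 919556,.ofNat 423114),(.ofNat 943028,.ofNat 421612),(.ofNat 926516,.ofNat 637075),(.ofNat 83320,.ofNat 393085),(.ofNat 938946,.ofNat 415861)]⟩,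
  ⟨3,[(.negSucc 949935,.negSucc 483062),(.negSucc 973599,.negSucc 746624),(.negSucc 899690,.negSucc 989255),(.negSucc 872603,.negSucc 985614)]⟩,
  ⟨3,[(.negSucc 949935,.negSucc 483062),(.negSucc 872603,.negSucc 985614),(.negSucc 819367,.negSucc 1009112),(.negSucc 773234,.negSucc 1040209)]⟩,
  ⟨3,[(.negSucc 387943,.negSucc 823861),(.negSucc 228786,.negSucc 750363),(.negSucc 197843,.negSucc 657530),(.negSucc 229176,.negSucc 401663),(.negSucc 334777,.negSucc 212539),(.negSucc 386918,.negSucc 244085),(.negSucc 127491,.negSucc 610921),(.negSucc 107285,.negSucc 588578),(.negSucc 173910,.negSucc 473985)]⟩,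
  ⟨3,[(.negSucc 1023908,.negSucc 204763),(.negSucc 1037017,.negSucc 220351),(.negSucc 949935,.negSucc 483062)]⟩,
  ⟨3,[(.negSucc 447643,.negSucc 245357),(.negSucc 543059,.negSucc 117112),(.negSucc 639666,.negSucc 146506),(.negSucc 775673,.negSucc 99723),(.negSucc 983133,.negSucc 105998),(.negSucc 996210,.negSucc 164587),(.negSucc 579113,.negSucc 975133),(.negSucc 387943,.negSucc 823861),(.negSucc 386918,.negSucc 244085),(.negSucc 773234,.negSucc 1040209),(.negSucc 1023908,.negSucc 204763),(.negSucc 949935,.negSucc 483062)]⟩,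
  ⟨2,[(.negSucc 238839,.negSucc 154510),(.negSucc 334777,.negSucc 212539),(.negSucc 229176,.negSucc 401663),(.negSucc 38905,.negSucc 559197),(.ofNat 55094,.negSucc 569564),(.ofNat 203611,.negSucc 446876),(.ofNat 437569,.negSucc 339175),(.ofNat 526609,.negSucc 192237),(.negSucc 173910,.negSucc 473985),(.ofNat 528053,.negSucc 121809),(.negSucc 107285,.negSucc 588578),(.negSucc 92850,.negSucc 586882)]⟩,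
  ⟨2,[(.ofNat 534459,.negSucc 60967),(.ofNat 553877,.ofNat 20254),(.ofNat 411700,.ofNat 155472)]⟩,
  ⟨2,[(.negSucc 198393,.ofNat 170662),(.negSucc 307379,.ofNat 7937),(.negSucc 236584,.negSucc 57298),(.ofNat 534459,.negSucc 60967),(.ofNat 411700,.ofNat 155472),(.ofNat 105192,.ofNat 353869),(.ofNat 83320,.ofNat 393085),(.negSucc 107983,.ofNat 411396),(.negSucc 113983,.ofNat 411380),(.negSucc 132405,.ofNat 411102),(.negSucc 167840,.ofNat 315066),(.negSucc 238839,.negSucc 154510),(.ofNat 528053,.negSucc 121809)]⟩,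
  ⟨5,[(.negSucc 197843,.negSucc 657530),(.negSucc 228786,.negSucc 750363),(.negSucc 150103,.negSucc 743972),(.negSucc 95640,.negSucc 782370),(.ofNat 92825,.negSucc 867121),(.ofNat 74707,.negSucc 720440),(.ofNat 44040,.negSucc 655595),(.ofNat 55094,.negSucc 569564),(.negSucc 38905,.negSucc 559197),(.negSucc 127491,.negSucc 610921),(.negSucc 92850,.negSucc 586882),(.negSucc 107285,.negSucc 588578)]⟩,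
  ⟨4,[(.ofNat 861090,.negSucc 1044926),(.ofNat 961493,.negSucc 989255),(.ofNat 887584,.negSucc 746624)]⟩,
  ⟨4,[(.ofNat 55094,.negSucc 569564),(.ofNat 44040,.negSucc 655595),(.ofNat 74707,.negSucc 720440),(.ofNat 203611,.negSucc 446876)]⟩,
  ⟨4,[(.ofNat 642217,.negSucc 231001),(.ofNat 526609,.negSucc 192237),(.ofNat 437569,.negSucc 339175),(.ofNat 911248,.negSucc 483062),(.ofNat 824166,.negSucc 220351),(.ofNat 718408,.negSucc 257257),(.ofNat 887584,.negSucc 746624),(.ofNat 578869,.negSucc 1097437),(.ofNat 749086,.negSucc 1167172),(.ofNat 826773,.negSucc 1110565),(.ofNat 861090,.negSucc 1044926),(.ofNat 350296,.negSucc 1018670),(.ofNat 96899,.negSucc 906701),(.ofNat 95038,.negSucc 884460)]⟩,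
  ⟨4,[(.ofNat 437569,.negSucc 339175),(.ofNat 203611,.negSucc 446876),(.ofNat 74707,.negSucc 720440),(.ofNat 92825,.negSucc 867121)]⟩,
  ⟨4,[(.ofNat 95038,.negSucc 884460),(.ofNat 437569,.negSucc 339175),(.ofNat 92825,.negSucc 867121),(.ofNat 93556,.negSucc 873076)]⟩,
  ⟨1,[(.negSucc 365275,.ofNat 4503),(.negSucc 307379,.ofNat 7937),(.negSucc 198393,.ofNat 170662)]⟩,
  ⟨1,[(.negSucc 167840,.ofNat 315066),(.negSucc 132405,.ofNat 411102),(.negSucc 181648,.ofNat 484261),(.negSucc 636332,.ofNat 708902),(.negSucc 889729,.ofNat 820871),(.negSucc 914545,.ofNat 720056),(.negSucc 934667,.ofNat 637075),(.negSucc 918155,.ofNat 421612),(.negSucc 407759,.ofNat 630135),(.negSucc 855142,.ofNat 421259),(.negSucc 916458,.ofNat 414238),(.negSucc 972142,.ofNat 236025),(.negSucc 775673,.negSucc 99723),(.negSucc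 639666,.negSucc 146506),(.negSucc 543059,.negSucc 117112),(.negSucc 365275,.ofNat 4503),(.negSucc 198393,.ofNat 170662),(.negSucc 237542,.ofNat 560400),(.negSucc 998272,.ofNat 131278),(.negSucc 1040621,.negSucc 7392),(.negSucc 1020652,.negSucc 23342),(.negSucc 990014,.negSucc 81666),(.negSucc 462286,.negSucc 77601),(.negSucc 983133,.negSucc 105998),(.negSucc 185219,.ofNat 489082),(.negSucc 912007,.ofNat 420787)]⟩,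
  ⟨5,[(.negSucc 918155,.ofNat 421612),(.negSucc 941627,.ofNat 423114),(.negSucc 922237,.ofNat 415861),(.negSucc 916458,.ofNat 414238),(.negSucc 912007,.ofNat 420787)]⟩,
  ⟨5,[(.negSucc 916458,.ofNat 414238),(.negSucc 855142,.ofNat 421259),(.negSucc 912007,.ofNat 420787)]⟩,
  ⟨5,[(.ofNat 688112,.ofNat 26256),(.ofNat 553877,.ofNat 20254),(.ofNat 534459,.negSucc 60967),(.ofNat 528053,.negSucc 121809),(.ofNat 526609,.negSucc 192237),(.ofNat 642217,.negSucc 231001),(.ofNat 718408,.negSucc 257257),(.ofNat 824166,.negSucc 220351),(.ofNat 760035,.ofNat 9609),(.ofNat 820562,.negSucc 7392),(.ofNat 837275,.negSucc 204763),(.ofNat 864973,.negSucc 164587),(.ofNat 878050,.negSucc 105998),(.ofNat 871169,.negSucc 81666),(.ofNat 840531,.negSucc 23342)]⟩,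
  ⟨5,[(.negSucc 159855,.ofNat 617007),(.negSucc 237542,.ofNat 560400),(.negSucc 185219,.ofNat 489082),(.negSucc 107983,.ofNat 411396),(.ofNat 83320,.ofNat 393085),(.ofNat 90566,.ofNat 551368),(.ofNat 95703,.ofNat 609518),(.ofNat 101320,.ofNat 687363),(.ofNat 55187,.ofNat 718460),(.ofNat 1951,.ofNat 741958),(.negSucc 25135,.ofNat 738317),(.negSucc 125538,.ofNat 682646),(.negSucc 181648,.ofNat 484261),(.negSucc 132405,.ofNat 411102),(.negSucc 113983,.ofNat 411380)]⟩,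
  ⟨5,[(.negSucc 462286,.negSucc 77601),(.negSucc 543059,.negSucc 117112),(.negSucc 447643,.negSucc 245357),(.negSucc 334777,.negSucc 212539),(.negSucc 238839,.negSucc 154510),(.negSucc 236584,.negSucc 57298),(.negSucc 307379,.ofNat 7937),(.negSucc 365275,.ofNat 4503),(.negSucc 386918,.negSucc 244085)]⟩]

def E5C : List (ℤ × ℤ) := [
  (.negSucc 0,.ofNat 0),(.negSucc 0,.ofNat 0),(.negSucc 0,.ofNat 1),(.negSucc 0,.negSucc 0),(.negSucc 296,.ofNat 40),(.ofNat 0,.ofNat 1),(.ofNat 0,.negSucc 0),(.ofNat 0,.ofNat 0),(.ofNat 0,.ofNat 1),(.ofNat 0,.negSucc 0),(.ofNat 297,.negSucc 39),(.ofNat 1,.ofNat 1),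
  (.ofNat 1,.negSucc 0),(.ofNat 1,.ofNat 0),(.ofNat 1,.ofNat 0),(.negSucc 0,.ofNat 0),(.negSucc 0,.ofNat 0),(.negSucc 0,.ofNat 0),(.negSucc 0,.negSucc 0),(.negSucc 299,.ofNat 6),(.negSucc 19,.ofNat 35),(.ofNat 0,.negSucc 0),(.ofNat 0,.ofNat 0),(.ofNat 138,.ofNat 266),
  (.ofNat 0,.negSucc 0),(.ofNat 3,.negSucc 0),(.ofNat 1,.ofNat 0),(.ofNat 1,.negSucc 0),(.ofNat 1,.ofNat 0),(.ofNat 1,.ofNat 0),(.negSucc 0,.ofNat 0),(.negSucc 0,.ofNat 0),(.negSucc 0,.ofNat 1),(.negSucc 0,.ofNat 0),(.negSucc 2,.ofNat 1),(.ofNat 0,.ofNat 1),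
  (.negSucc 137,.negSucc 265),(.ofNat 0,.ofNat 0),(.ofNat 0,.ofNat 1),(.ofNat 20,.negSucc 34),(.ofNat 300,.negSucc 5),(.ofNat 1,.ofNat 1),(.ofNat 1,.ofNat 0),(.ofNat 1,.ofNat 0),(.ofNat 1,.ofNat 0),(.negSucc 0,.ofNat 0),(.negSucc 0,.ofNat 0),(.negSucc 0,.ofNat 1),
  (.negSucc 0,.negSucc 0),(.negSucc 299,.ofNat 6),(.ofNat 0,.ofNat 1),(.ofNat 0,.negSucc 0),(.ofNat 0,.ofNat 0),(.ofNat 0,.ofNat 1),(.ofNat 0,.negSucc 0),(.ofNat 300,.negSucc 5),(.ofNat 1,.ofNat 1),(.ofNat 1,.negSucc 0),(.ofNat 1,.ofNat 0),(.ofNat 1,.ofNat 0),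
  (.negSucc 0,.ofNat 0),(.negSucc 0,.ofNat 0),(.negSucc 0,.ofNat 1),(.negSucc 0,.negSucc 0),(.negSucc 0,.ofNat 0),(.ofNat 0,.ofNat 1),(.ofNat 0,.negSucc 0),(.ofNat 0,.ofNat 0),(.ofNat 0,.ofNat 1),(.ofNat 0,.negSucc 0),(.ofNat 1,.ofNat 0),(.ofNat 1,.ofNat 1),
  (.ofNat 1,.negSucc 0),(.ofNat 1,.ofNat 0),(.ofNat 1,.ofNat 0),(.negSucc 0,.ofNat 0),(.negSucc 0,.ofNat 0),(.negSucc 0,.ofNat 1),(.negSucc 0,.negSucc 0),(.negSucc 0,.ofNat 0),(.ofNat 0,.ofNat 1),(.ofNat 0,.negSucc 0),(.ofNat 0,.ofNat 0),(.ofNat 0,.ofNat 1),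
  (.ofNat 1,.negSucc 0),(.ofNat 1,.ofNat 0),(.ofNat 1,.ofNat 1),(.ofNat 1,.negSucc 0),(.ofNat 1,.ofNat 0),(.ofNat 1,.ofNat 0),(.negSucc 0,.ofNat 0),(.negSucc 0,.ofNat 0),(.negSucc 0,.ofNat 1),(.negSucc 0,.negSucc 0),(.negSucc 39,.ofNat 4),(.ofNat 0,.ofNat 1),
  (.negSucc 92,.negSucc 284),(.ofNat 0,.ofNat 0),(.ofNat 1,.ofNat 1),(.ofNat 1,.negSucc 0),(.ofNat 1,.ofNat 0),(.ofNat 1,.ofNat 1),(.ofNat 1,.ofNat 0),(.ofNat 1,.ofNat 0),(.ofNat 1,.ofNat 0),(.negSucc 0,.ofNat 0),(.negSucc 0,.ofNat 0),(.negSucc 0,.ofNat 1),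
  (.negSucc 0,.ofNat 0),(.negSucc 0,.ofNat 0),(.ofNat 0,.ofNat 1),(.negSucc 0,.negSucc 0),(.ofNat 0,.ofNat 0),(.ofNat 0,.ofNat 1),(.ofNat 1,.negSucc 0),(.ofNat 1,.ofNat 0),(.ofNat 1,.ofNat 1),(.ofNat 1,.ofNat 0),(.ofNat 1,.ofNat 0),(.ofNat 1,.ofNat 0),
  (.negSucc 0,.ofNat 0),(.negSucc 0,.ofNat 0),(.negSucc 0,.ofNat 1),(.negSucc 0,.ofNat 0),(.negSucc 0,.ofNat 0),(.ofNat 0,.ofNat 1),(.negSucc 154,.negSucc 256),(.ofNat 0,.ofNat 0),(.ofNat 0,.ofNat 1),(.ofNat 1,.negSucc 0),(.ofNat 1,.ofNat 0),(.ofNat 1,.ofNat 1),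
  (.ofNat 1,.ofNat 0),(.ofNat 1,.ofNat 0),(.ofNat 1,.ofNat 0),(.negSucc 0,.ofNat 0),(.negSucc 0,.ofNat 0),(.negSucc 0,.ofNat 1),(.negSucc 0,.negSucc 0),(.negSucc 0,.ofNat 0),(.negSucc 0,.ofNat 1),(.ofNat 0,.negSucc 0),(.ofNat 0,.ofNat 0),(.ofNat 0,.ofNat 1),
  (.ofNat 0,.negSucc 0),(.ofNat 1,.ofNat 0),(.ofNat 1,.ofNat 1),(.ofNat 1,.negSucc 0),(.ofNat 1,.ofNat 0),(.ofNat 1,.ofNat 0),(.negSucc 0,.ofNat 0),(.negSucc 0,.ofNat 0),(.negSucc 0,.ofNat 1),(.negSucc 0,.negSucc 0),(.negSucc 0,.ofNat 0),(.ofNat 0,.ofNat 1),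
  (.ofNat 0,.negSucc 0),(.ofNat 0,.ofNat 0),(.ofNat 0,.ofNat 1),(.ofNat 0,.negSucc 0),(.ofNat 1,.ofNat 0),(.ofNat 1,.ofNat 1),(.ofNat 1,.negSucc 0),(.ofNat 1,.ofNat 0),(.ofNat 1,.ofNat 0),(.negSucc 0,.ofNat 0),(.negSucc 0,.ofNat 0),(.negSucc 0,.ofNat 1),
  (.negSucc 0,.negSucc 0),(.negSucc 0,.ofNat 0),(.ofNat 0,.ofNat 1),(.negSucc 130,.negSucc 269),(.ofNat 0,.ofNat 0),(.ofNat 1,.ofNat 1),(.ofNat 1,.negSucc 0),(.ofNat 1,.ofNat 0),(.ofNat 1,.ofNat 1),(.ofNat 1,.ofNat 0),(.ofNat 1,.ofNat 0),(.ofNat 1,.ofNat 0),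
  (.negSucc 0,.ofNat 0),(.negSucc 0,.ofNat 0),(.negSucc 0,.ofNat 1),(.negSucc 0,.ofNat 0),(.negSucc 0,.ofNat 0),(.ofNat 0,.ofNat 1),(.negSucc 0,.negSucc 0),(.ofNat 0,.ofNat 0),(.ofNat 0,.ofNat 1),(.ofNat 1,.negSucc 0),(.ofNat 1,.ofNat 0),(.ofNat 1,.ofNat 1),
  (.ofNat 1,.ofNat 0),(.ofNat 1,.ofNat 0),(.ofNat 1,.ofNat 0),(.negSucc 0,.ofNat 0),(.negSucc 0,.ofNat 0),(.negSucc 0,.ofNat 1),(.negSucc 0,.ofNat 0),(.negSucc 0,.ofNat 0),(.ofNat 0,.ofNat 1),(.negSucc 4,.negSucc 8),(.ofNat 0,.ofNat 0),(.ofNat 0,.ofNat 1),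
  (.ofNat 1,.negSucc 0),(.ofNat 1,.ofNat 0),(.ofNat 1,.ofNat 1),(.ofNat 1,.ofNat 0),(.ofNat 1,.ofNat 0),(.ofNat 1,.ofNat 0),(.negSucc 0,.ofNat 0),(.negSucc 0,.ofNat 0),(.negSucc 0,.ofNat 0),(.negSucc 0,.negSucc 0),(.negSucc 0,.ofNat 0),(.negSucc 0,.ofNat 1),
  (.negSucc 0,.negSucc 0),(.ofNat 0,.ofNat 0),(.ofNat 93,.ofNat 285),(.ofNat 0,.negSucc 0),(.ofNat 40,.negSucc 3),(.ofNat 1,.ofNat 1),(.ofNat 1,.negSucc 0),(.ofNat 1,.ofNat 0),(.ofNat 1,.ofNat 0),(.negSucc 0,.ofNat 0),(.negSucc 0,.ofNat 0),(.negSucc 0,.ofNat 0),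
  (.negSucc 0,.negSucc 0),(.negSucc 0,.ofNat 0),(.negSucc 0,.ofNat 1),(.negSucc 0,.negSucc 0),(.ofNat 0,.ofNat 0),(.ofNat 131,.ofNat 270),(.ofNat 0,.negSucc 0),(.ofNat 1,.ofNat 0),(.ofNat 1,.ofNat 1),(.ofNat 1,.negSucc 0),(.ofNat 1,.ofNat 0),(.ofNat 1,.ofNat 0),
  (.negSucc 0,.ofNat 0),(.negSucc 0,.ofNat 0),(.negSucc 0,.ofNat 1),(.negSucc 0,.negSucc 0),(.negSucc 0,.ofNat 0),(.ofNat 0,.ofNat 1),(.ofNat 0,.negSucc 0),(.ofNat 0,.ofNat 0),(.ofNat 0,.ofNat 1),(.ofNat 0,.negSucc 0),(.ofNat 1,.ofNat 0),(.ofNat 1,.ofNat 1),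
  (.ofNat 1,.negSucc 0),(.ofNat 1,.ofNat 0),(.ofNat 1,.ofNat 0),(.negSucc 0,.ofNat 0),(.negSucc 0,.ofNat 0),(.negSucc 0,.ofNat 0),(.negSucc 0,.ofNat 0),(.negSucc 0,.ofNat 0),(.negSucc 0,.ofNat 1),(.negSucc 0,.negSucc 0),(.ofNat 0,.ofNat 0),(.ofNat 0,.ofNat 1),
  (.ofNat 0,.negSucc 0),(.ofNat 2848,.ofNat 944),(.ofNat 1,.ofNat 1),(.ofNat 1,.negSucc 0),(.ofNat 1,.ofNat 0),(.ofNat 1,.ofNat 0),(.negSucc 0,.ofNat 0),(.negSucc 0,.ofNat 0),(.negSucc 0,.ofNat 0),(.negSucc 0,.ofNat 0),(.negSucc 0,.ofNat 0),(.negSucc 0,.ofNat 1),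
  (.negSucc 0,.negSucc 0),(.ofNat 0,.ofNat 0),(.ofNat 131,.ofNat 270),(.ofNat 0,.negSucc 0),(.ofNat 39,.ofNat 10),(.ofNat 1,.ofNat 1),(.ofNat 1,.negSucc 0),(.ofNat 1,.ofNat 0),(.ofNat 1,.ofNat 0),(.negSucc 0,.ofNat 0),(.negSucc 0,.ofNat 0),(.negSucc 0,.ofNat 0),
  (.negSucc 0,.negSucc 0),(.negSucc 0,.ofNat 0),(.negSucc 0,.ofNat 1),(.ofNat 0,.negSucc 0),(.ofNat 0,.ofNat 0),(.ofNat 1,.ofNat 1),(.ofNat 0,.negSucc 0),(.ofNat 1,.ofNat 0),(.ofNat 1,.ofNat 0),(.ofNat 1,.negSucc 0),(.ofNat 1,.ofNat 0),(.ofNat 1,.ofNat 0),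
  (.negSucc 0,.ofNat 0),(.negSucc 0,.ofNat 0),(.negSucc 0,.ofNat 0),(.negSucc 0,.negSucc 0),(.negSucc 0,.ofNat 0),(.negSucc 0,.ofNat 1),(.ofNat 0,.negSucc 0),(.ofNat 0,.ofNat 0),(.ofNat 1,.ofNat 1),(.ofNat 0,.negSucc 0),(.ofNat 1,.ofNat 0),(.ofNat 1,.ofNat 0),
  (.ofNat 1,.negSucc 0),(.ofNat 1,.ofNat 0),(.ofNat 1,.ofNat 0),(.negSucc 0,.ofNat 0),(.negSucc 0,.ofNat 0),(.negSucc 0,.ofNat 1),(.negSucc 0,.negSucc 0),(.negSucc 2847,.negSucc 943),(.ofNat 0,.ofNat 1),(.ofNat 0,.negSucc 0),(.ofNat 0,.ofNat 0),(.ofNat 1,.ofNat 1),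
  (.ofNat 1,.negSucc 0),(.ofNat 1,.ofNat 0),(.ofNat 1,.ofNat 0),(.ofNat 1,.ofNat 0),(.ofNat 1,.ofNat 0),(.ofNat 1,.ofNat 0),(.negSucc 0,.ofNat 0),(.negSucc 0,.ofNat 0),(.negSucc 0,.ofNat 1),(.negSucc 0,.negSucc 0),(.negSucc 0,.ofNat 0),(.ofNat 0,.ofNat 1),
  (.ofNat 0,.negSucc 0),(.ofNat 0,.ofNat 0),(.ofNat 0,.ofNat 1),(.ofNat 0,.negSucc 0),(.ofNat 1,.ofNat 0),(.ofNat 1,.ofNat 1),(.ofNat 1,.negSucc 0),(.ofNat 1,.ofNat 0),(.ofNat 1,.ofNat 0),(.negSucc 0,.ofNat 0),(.negSucc 0,.ofNat 0),(.negSucc 0,.ofNat 1),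
  (.negSucc 0,.negSucc 0),(.negSucc 0,.ofNat 0),(.negSucc 0,.ofNat 3),(.ofNat 0,.negSucc 0),(.ofNat 0,.ofNat 0),(.ofNat 1,.ofNat 1),(.ofNat 1,.negSucc 0),(.ofNat 1,.ofNat 0),(.ofNat 1,.ofNat 0),(.ofNat 1,.negSucc 0),(.ofNat 1,.ofNat 0),(.ofNat 1,.ofNat 0),
  (.negSucc 0,.ofNat 0),(.negSucc 0,.ofNat 0),(.negSucc 0,.ofNat 0),(.negSucc 0,.negSucc 0),(.negSucc 0,.ofNat 0),(.negSucc 0,.ofNat 1),(.ofNat 0,.negSucc 0),(.ofNat 0,.ofNat 0),(.ofNat 155,.ofNat 257),(.ofNat 0,.negSucc 0),(.ofNat 1,.ofNat 0),(.ofNat 1,.ofNat 0),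
  (.ofNat 1,.negSucc 0),(.ofNat 1,.ofNat 0),(.ofNat 1,.ofNat 0),(.negSucc 0,.ofNat 0),(.negSucc 0,.ofNat 0),(.negSucc 0,.ofNat 0),(.negSucc 0,.negSucc 0),(.negSucc 0,.ofNat 0),(.negSucc 0,.ofNat 1),(.ofNat 0,.negSucc 0),(.ofNat 0,.ofNat 0),(.ofNat 5,.ofNat 9),
  (.ofNat 0,.negSucc 0),(.ofNat 1,.ofNat 0),(.ofNat 1,.ofNat 0),(.ofNat 1,.negSucc 0),(.ofNat 1,.ofNat 0),(.ofNat 1,.ofNat 0),(.negSucc 0,.ofNat 0),(.negSucc 0,.ofNat 0),(.negSucc 0,.ofNat 1),(.negSucc 0,.negSucc 0),(.negSucc 38,.negSucc 9),(.ofNat 0,.ofNat 1),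
  (.negSucc 130,.negSucc 269),(.ofNat 0,.ofNat 0),(.ofNat 1,.ofNat 1),(.ofNat 1,.negSucc 0),(.ofNat 1,.ofNat 0),(.ofNat 1,.ofNat 0),(.ofNat 1,.ofNat 0),(.ofNat 1,.ofNat 0),(.ofNat 1,.ofNat 0),(.negSucc 0,.ofNat 0),(.negSucc 0,.ofNat 0),(.negSucc 0,.ofNat 1),
  (.negSucc 0,.ofNat 0),(.negSucc 0,.ofNat 0),(.negSucc 0,.ofNat 1),(.negSucc 0,.negSucc 0),(.ofNat 0,.ofNat 0),(.ofNat 0,.ofNat 1),(.ofNat 1,.negSucc 2),(.ofNat 1,.ofNat 0),(.ofNat 1,.ofNat 1),(.ofNat 1,.negSucc 0),(.ofNat 1,.ofNat 0),(.ofNat 1,.ofNat 0),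
  (.negSucc 0,.ofNat 0),(.negSucc 0,.ofNat 0),(.negSucc 0,.ofNat 1),(.negSucc 0,.negSucc 0),(.negSucc 0,.ofNat 0),(.negSucc 4,.ofNat 9),(.negSucc 4,.negSucc 8),(.ofNat 0,.ofNat 0),(.ofNat 5,.ofNat 9),(.ofNat 5,.negSucc 8),(.ofNat 1,.ofNat 0),(.ofNat 1,.ofNat 1),
  (.ofNat 1,.negSucc 0),(.ofNat 1,.ofNat 0),(.ofNat 1,.ofNat 0),(.negSucc 0,.ofNat 0),(.negSucc 0,.ofNat 0),(.negSucc 0,.ofNat 1),(.negSucc 0,.negSucc 0),(.negSucc 29993,.ofNat 615),(.ofNat 0,.ofNat 1),(.ofNat 0,.negSucc 0),(.ofNat 0,.ofNat 0),(.ofNat 0,.ofNat 1),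
  (.ofNat 0,.negSucc 0),(.ofNat 29994,.negSucc 614),(.ofNat 1,.ofNat 1),(.ofNat 1,.negSucc 0),(.ofNat 1,.ofNat 0),(.ofNat 1,.ofNat 0),(.negSucc 0,.ofNat 0),(.negSucc 0,.ofNat 0),(.negSucc 0,.ofNat 1),(.negSucc 0,.negSucc 0),(.negSucc 29177,.ofNat 6976),(.ofNat 0,.ofNat 1),
  (.negSucc 0,.negSucc 2),(.ofNat 0,.ofNat 0),(.ofNat 1,.ofNat 1),(.ofNat 1,.negSucc 0),(.ofNat 1,.ofNat 0),(.ofNat 1,.ofNat 1),(.ofNat 1,.ofNat 0),(.ofNat 1,.ofNat 0),(.ofNat 1,.ofNat 0),(.negSucc 0,.ofNat 0),(.negSucc 0,.ofNat 0),(.negSucc 0,.ofNat 1),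
  (.negSucc 0,.ofNat 0),(.negSucc 39,.ofNat 4),(.ofNat 0,.ofNat 1),(.negSucc 5,.negSucc 7),(.ofNat 0,.ofNat 0),(.ofNat 0,.ofNat 1),(.ofNat 6,.negSucc 7),(.ofNat 1,.ofNat 0),(.ofNat 1,.ofNat 1),(.ofNat 1,.ofNat 0),(.ofNat 1,.ofNat 0),(.ofNat 1,.ofNat 0),
  (.negSucc 0,.ofNat 0),(.negSucc 0,.ofNat 0),(.negSucc 0,.ofNat 0),(.negSucc 0,.negSucc 0),(.negSucc 0,.ofNat 0),(.negSucc 0,.ofNat 1),(.negSucc 0,.negSucc 0),(.ofNat 0,.ofNat 0),(.ofNat 1,.ofNat 3),(.ofNat 0,.negSucc 0),(.ofNat 29178,.negSucc 6975),(.ofNat 1,.ofNat 1),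
  (.ofNat 1,.negSucc 0),(.ofNat 1,.ofNat 0),(.ofNat 1,.ofNat 0),(.negSucc 0,.ofNat 0),(.negSucc 0,.ofNat 0),(.negSucc 0,.ofNat 1),(.negSucc 0,.negSucc 0),(.negSucc 0,.ofNat 0),(.ofNat 0,.ofNat 1),(.ofNat 0,.negSucc 0),(.ofNat 0,.ofNat 0),(.ofNat 0,.ofNat 1),
  (.ofNat 0,.negSucc 0),(.ofNat 1,.ofNat 0),(.ofNat 1,.ofNat 1),(.ofNat 1,.negSucc 0),(.ofNat 1,.ofNat 0),(.ofNat 1,.ofNat 0),(.negSucc 0,.ofNat 0),(.negSucc 0,.ofNat 0),(.negSucc 0,.ofNat 0),(.negSucc 0,.ofNat 0),(.negSucc 0,.ofNat 0),(.negSucc 0,.ofNat 1),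
  (.negSucc 0,.negSucc 0),(.ofNat 0,.ofNat 0),(.ofNat 0,.ofNat 1),(.ofNat 0,.negSucc 0),(.ofNat 300,.negSucc 3),(.ofNat 1,.ofNat 1),(.ofNat 1,.negSucc 0),(.ofNat 1,.ofNat 0),(.ofNat 1,.ofNat 0),(.negSucc 0,.ofNat 0),(.negSucc 0,.ofNat 0),(.negSucc 0,.ofNat 0),
  (.negSucc 0,.negSucc 0),(.negSucc 0,.ofNat 0),(.negSucc 5,.ofNat 8),(.ofNat 0,.negSucc 0),(.ofNat 0,.ofNat 0),(.ofNat 6,.ofNat 8),(.ofNat 0,.negSucc 0),(.ofNat 40,.negSucc 3),(.ofNat 1,.ofNat 0),(.ofNat 1,.negSucc 0),(.ofNat 1,.ofNat 0),(.ofNat 1,.ofNat 0),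
  (.negSucc 0,.ofNat 0),(.negSucc 0,.ofNat 0),(.negSucc 0,.ofNat 1),(.negSucc 0,.negSucc 0),(.negSucc 299,.ofNat 4),(.ofNat 0,.ofNat 1),(.ofNat 0,.negSucc 0),(.ofNat 0,.ofNat 0),(.ofNat 1,.ofNat 1),(.ofNat 1,.negSucc 0),(.ofNat 1,.ofNat 0),(.ofNat 1,.ofNat 0),
  (.ofNat 1,.ofNat 0),(.ofNat 1,.ofNat 0),(.ofNat 1,.ofNat 0),(.negSucc 0,.ofNat 0),(.negSucc 0,.ofNat 0),(.negSucc 0,.ofNat 1),(.negSucc 0,.negSucc 0),(.negSucc 0,.ofNat 0),(.ofNat 0,.ofNat 1),(.ofNat 0,.negSucc 0),(.ofNat 0,.ofNat 0),(.ofNat 0,.ofNat 1),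
  (.ofNat 0,.negSucc 0),(.ofNat 1,.ofNat 0),(.ofNat 1,.ofNat 1),(.ofNat 1,.negSucc 0),(.ofNat 1,.ofNat 0),(.ofNat 1,.ofNat 0),(.negSucc 0,.ofNat 0),(.negSucc 0,.ofNat 0),(.negSucc 0,.ofNat 1),(.negSucc 0,.negSucc 0),(.negSucc 0,.ofNat 0),(.ofNat 0,.ofNat 1),
  (.ofNat 0,.negSucc 0),(.ofNat 0,.ofNat 0),(.ofNat 0,.ofNat 1),(.ofNat 0,.negSucc 0),(.ofNat 1,.ofNat 0),(.ofNat 1,.ofNat 1),(.ofNat 1,.negSucc 0),(.ofNat 1,.ofNat 0),(.ofNat 1,.ofNat 0),(.negSucc 0,.ofNat 0),(.negSucc 0,.ofNat 0),(.negSucc 0,.ofNat 1),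
  (.negSucc 0,.ofNat 0),(.negSucc 0,.ofNat 0),(.negSucc 0,.ofNat 1),(.negSucc 0,.ofNat 0),(.negSucc 0,.ofNat 1),(.ofNat 0,.ofNat 1),(.negSucc 2,.negSucc 39),(.ofNat 1,.ofNat 1),(.ofNat 1,.ofNat 1),(.ofNat 1,.ofNat 0),(.ofNat 1,.ofNat 0),(.ofNat 1,.ofNat 1),
  (.negSucc 0,.ofNat 0),(.negSucc 0,.ofNat 0),(.negSucc 0,.ofNat 1),(.negSucc 0,.ofNat 0),(.negSucc 0,.ofNat 0),(.negSucc 0,.ofNat 1),(.negSucc 0,.ofNat 0),(.negSucc 0,.ofNat 1),(.ofNat 0,.ofNat 1),(.ofNat 2,.negSucc 299),(.ofNat 1,.ofNat 1),(.ofNat 1,.ofNat 1),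
  (.ofNat 1,.ofNat 0),(.ofNat 1,.ofNat 0),(.ofNat 1,.ofNat 1),(.negSucc 0,.ofNat 0),(.negSucc 0,.ofNat 0),(.negSucc 0,.ofNat 1),(.negSucc 0,.negSucc 0),(.negSucc 0,.ofNat 0),(.ofNat 0,.ofNat 1),(.ofNat 0,.negSucc 0),(.ofNat 1,.ofNat 1),(.ofNat 1,.ofNat 1),
  (.ofNat 1,.negSucc 0),(.ofNat 1,.ofNat 0),(.ofNat 1,.ofNat 1),(.ofNat 1,.ofNat 0),(.ofNat 1,.ofNat 0),(.ofNat 1,.ofNat 0),(.negSucc 0,.ofNat 0),(.negSucc 0,.ofNat 0),(.negSucc 0,.ofNat 1),(.negSucc 0,.ofNat 0),(.negSucc 0,.ofNat 1),(.ofNat 0,.ofNat 1),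
  (.negSucc 0,.ofNat 0),(.ofNat 0,.ofNat 1),(.ofNat 0,.ofNat 1),(.ofNat 1,.ofNat 0),(.ofNat 1,.ofNat 1),(.ofNat 1,.ofNat 1),(.ofNat 1,.ofNat 0),(.ofNat 1,.ofNat 0),(.ofNat 1,.ofNat 1),(.negSucc 0,.ofNat 0),(.negSucc 0,.ofNat 0),(.negSucc 0,.ofNat 1),
  (.negSucc 0,.ofNat 0),(.negSucc 0,.ofNat 0),(.ofNat 0,.ofNat 1),(.negSucc 0,.negSucc 0),(.negSucc 154,.ofNat 257),(.ofNat 0,.ofNat 1),(.ofNat 1,.negSucc 0),(.ofNat 1,.ofNat 0),(.ofNat 1,.ofNat 1),(.ofNat 1,.ofNat 0),(.ofNat 1,.ofNat 0),(.ofNat 1,.ofNat 0),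
  (.negSucc 0,.ofNat 0),(.negSucc 0,.ofNat 0),(.negSucc 0,.ofNat 1),(.negSucc 0,.negSucc 0),(.negSucc 0,.ofNat 0),(.ofNat 0,.ofNat 1),(.ofNat 0,.negSucc 0),(.ofNat 0,.ofNat 0),(.ofNat 0,.ofNat 1),(.ofNat 0,.negSucc 0),(.ofNat 1,.ofNat 0),(.ofNat 1,.ofNat 1),
  (.ofNat 1,.negSucc 0),(.ofNat 1,.ofNat 0),(.ofNat 1,.ofNat 0),(.negSucc 0,.ofNat 0),(.negSucc 0,.ofNat 0),(.negSucc 0,.ofNat 0),(.negSucc 0,.ofNat 0),(.negSucc 0,.ofNat 0),(.negSucc 0,.ofNat 1),(.negSucc 0,.negSucc 0),(.ofNat 0,.ofNat 0),(.ofNat 0,.ofNat 1),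
  (.ofNat 0,.negSucc 0),(.ofNat 28698,.ofNat 8742),(.ofNat 1,.ofNat 1),(.ofNat 1,.negSucc 0),(.ofNat 1,.ofNat 0),(.ofNat 1,.ofNat 0),(.negSucc 0,.ofNat 0),(.negSucc 0,.ofNat 0),(.negSucc 0,.ofNat 1),(.negSucc 0,.ofNat 0),(.negSucc 0,.ofNat 0),(.negSucc 0,.ofNat 1),
  (.negSucc 0,.negSucc 0),(.ofNat 0,.ofNat 0),(.ofNat 0,.ofNat 1),(.ofNat 1,.negSucc 2),(.ofNat 299,.ofNat 25),(.ofNat 1,.ofNat 1),(.ofNat 1,.negSucc 0),(.ofNat 1,.ofNat 0),(.ofNat 1,.ofNat 0),(.negSucc 0,.ofNat 0),(.negSucc 0,.ofNat 0),(.negSucc 0,.ofNat 1),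
  (.negSucc 0,.ofNat 0),(.negSucc 0,.ofNat 0),(.negSucc 0,.ofNat 1),(.negSucc 0,.negSucc 0),(.ofNat 0,.ofNat 0),(.ofNat 0,.ofNat 1),(.ofNat 0,.negSucc 0),(.ofNat 40,.ofNat 5),(.ofNat 1,.ofNat 1),(.ofNat 1,.negSucc 0),(.ofNat 1,.ofNat 0),(.ofNat 1,.ofNat 0),
  (.negSucc 0,.ofNat 0),(.negSucc 0,.ofNat 0),(.negSucc 0,.ofNat 0),(.negSucc 0,.ofNat 0),(.negSucc 0,.ofNat 0),(.negSucc 0,.ofNat 1),(.negSucc 0,.negSucc 0),(.ofNat 0,.ofNat 0),(.ofNat 0,.ofNat 1),(.ofNat 0,.negSucc 0),(.ofNat 2978,.ofNat 366),(.ofNat 1,.ofNat 1),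
  (.ofNat 1,.negSucc 0),(.ofNat 1,.ofNat 0),(.ofNat 1,.ofNat 0),(.negSucc 0,.ofNat 0),(.negSucc 0,.ofNat 0),(.negSucc 0,.ofNat 1),(.negSucc 0,.negSucc 0),(.negSucc 28697,.negSucc 8741),(.ofNat 0,.ofNat 1),(.ofNat 0,.negSucc 0),(.ofNat 0,.ofNat 0),(.ofNat 1,.ofNat 1),
  (.ofNat 1,.negSucc 0),(.ofNat 1,.ofNat 0),(.ofNat 1,.ofNat 0),(.ofNat 1,.ofNat 0),(.ofNat 1,.ofNat 0),(.ofNat 1,.ofNat 0),(.negSucc 0,.ofNat 0),(.negSucc 0,.ofNat 0),(.negSucc 0,.ofNat 1),(.negSucc 0,.negSucc 0),(.negSucc 0,.ofNat 0),(.ofNat 0,.ofNat 1),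
  (.ofNat 0,.negSucc 0),(.ofNat 0,.ofNat 0),(.ofNat 0,.ofNat 1),(.ofNat 0,.negSucc 0),(.ofNat 1,.ofNat 0),(.ofNat 1,.ofNat 1),(.ofNat 1,.negSucc 0),(.ofNat 1,.ofNat 0),(.ofNat 1,.ofNat 0),(.negSucc 0,.ofNat 0),(.negSucc 0,.ofNat 0),(.negSucc 0,.ofNat 1),
  (.negSucc 0,.negSucc 0),(.negSucc 39,.ofNat 4),(.ofNat 0,.ofNat 1),(.ofNat 0,.negSucc 0),(.ofNat 0,.ofNat 0),(.ofNat 1,.ofNat 1),(.ofNat 1,.negSucc 0),(.ofNat 1,.ofNat 0),(.ofNat 1,.ofNat 0),(.ofNat 1,.ofNat 0),(.ofNat 1,.ofNat 0),(.ofNat 1,.ofNat 0),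
  (.negSucc 0,.ofNat 0),(.negSucc 0,.ofNat 0),(.negSucc 0,.ofNat 1),(.negSucc 0,.negSucc 0),(.negSucc 0,.ofNat 0),(.ofNat 0,.ofNat 1),(.ofNat 0,.negSucc 0),(.ofNat 0,.ofNat 0),(.ofNat 0,.ofNat 1),(.ofNat 1,.negSucc 0),(.ofNat 1,.ofNat 0),(.ofNat 1,.ofNat 1),
  (.ofNat 1,.negSucc 0),(.ofNat 1,.ofNat 0),(.ofNat 1,.ofNat 0),(.negSucc 0,.ofNat 0),(.negSucc 0,.ofNat 0),(.negSucc 0,.ofNat 0),(.negSucc 0,.negSucc 0),(.negSucc 0,.ofNat 0),(.ofNat 0,.ofNat 1),(.ofNat 0,.negSucc 0),(.ofNat 0,.ofNat 0),(.ofNat 1,.ofNat 1),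
  (.ofNat 0,.negSucc 0),(.ofNat 1,.ofNat 0),(.ofNat 1,.ofNat 0),(.ofNat 1,.negSucc 0),(.ofNat 1,.ofNat 0),(.ofNat 1,.ofNat 0),(.negSucc 0,.ofNat 0),(.negSucc 0,.ofNat 0),(.negSucc 0,.ofNat 1),(.negSucc 0,.negSucc 0),(.negSucc 298,.negSucc 24),(.negSucc 0,.ofNat 3),
  (.ofNat 0,.negSucc 0),(.ofNat 0,.ofNat 0),(.ofNat 1,.ofNat 1),(.ofNat 1,.negSucc 0),(.ofNat 1,.ofNat 0),(.ofNat 1,.ofNat 0),(.ofNat 1,.negSucc 0),(.ofNat 1,.ofNat 0),(.ofNat 1,.ofNat 0),(.negSucc 0,.ofNat 0),(.negSucc 0,.ofNat 0),(.negSucc 0,.ofNat 0),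
  (.negSucc 0,.ofNat 0),(.negSucc 0,.ofNat 0),(.negSucc 0,.ofNat 1),(.negSucc 0,.negSucc 0),(.ofNat 0,.ofNat 0),(.ofNat 0,.ofNat 1),(.ofNat 0,.negSucc 0),(.ofNat 40,.negSucc 3),(.ofNat 1,.ofNat 1),(.ofNat 1,.negSucc 0),(.ofNat 1,.ofNat 0),(.ofNat 1,.ofNat 0),
  (.negSucc 0,.ofNat 0),(.negSucc 0,.ofNat 0),(.negSucc 0,.ofNat 1),(.negSucc 0,.negSucc 0),(.negSucc 0,.ofNat 0),(.negSucc 4,.ofNat 9),(.negSucc 15,.negSucc 36),(.ofNat 0,.ofNat 0),(.ofNat 16,.ofNat 37),(.ofNat 5,.negSucc 8),(.ofNat 1,.ofNat 0),(.ofNat 1,.ofNat 1),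
  (.ofNat 1,.negSucc 0),(.ofNat 1,.ofNat 0),(.ofNat 1,.ofNat 0),(.negSucc 0,.ofNat 0),(.negSucc 0,.ofNat 0),(.negSucc 0,.ofNat 1),(.negSucc 0,.ofNat 0),(.negSucc 0,.ofNat 0),(.negSucc 0,.ofNat 1),(.negSucc 0,.negSucc 0),(.ofNat 0,.ofNat 0),(.ofNat 0,.ofNat 1),
  (.ofNat 1,.negSucc 2),(.ofNat 1,.ofNat 0),(.ofNat 1,.ofNat 1),(.ofNat 1,.negSucc 0),(.ofNat 1,.ofNat 0),(.ofNat 1,.ofNat 0),(.negSucc 0,.ofNat 0),(.negSucc 0,.ofNat 0),(.negSucc 0,.ofNat 0),(.negSucc 0,.ofNat 0),(.negSucc 0,.ofNat 0),(.negSucc 0,.ofNat 1),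
  (.negSucc 0,.negSucc 0),(.ofNat 0,.ofNat 0),(.ofNat 0,.ofNat 1),(.ofNat 1,.negSucc 2),(.ofNat 1,.ofNat 0),(.ofNat 1,.ofNat 1),(.ofNat 1,.negSucc 0),(.ofNat 1,.ofNat 0),(.ofNat 1,.ofNat 0),(.negSucc 0,.ofNat 0),(.negSucc 0,.ofNat 0),(.negSucc 0,.ofNat 1),
  (.negSucc 0,.negSucc 0),(.negSucc 39,.negSucc 4),(.ofNat 0,.ofNat 1),(.ofNat 0,.negSucc 0),(.ofNat 0,.ofNat 0),(.ofNat 1,.ofNat 1),(.ofNat 1,.negSucc 0),(.ofNat 1,.ofNat 0),(.ofNat 1,.ofNat 0),(.ofNat 1,.negSucc 0),(.ofNat 1,.ofNat 0),(.ofNat 1,.ofNat 0),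
  (.negSucc 0,.ofNat 0),(.negSucc 0,.ofNat 0),(.negSucc 0,.ofNat 1),(.negSucc 0,.negSucc 0),(.negSucc 0,.ofNat 0),(.negSucc 0,.ofNat 1),(.ofNat 0,.negSucc 0),(.ofNat 0,.ofNat 0),(.ofNat 0,.ofNat 1),(.ofNat 0,.negSucc 0),(.ofNat 1,.ofNat 0),(.ofNat 1,.ofNat 1),
  (.ofNat 1,.negSucc 0),(.ofNat 1,.ofNat 0),(.ofNat 1,.ofNat 0),(.negSucc 0,.ofNat 0),(.negSucc 0,.ofNat 0),(.negSucc 0,.ofNat 1),(.negSucc 0,.negSucc 0),(.negSucc 0,.ofNat 0),(.negSucc 0,.ofNat 3),(.ofNat 0,.negSucc 0),(.ofNat 0,.ofNat 0),(.ofNat 1,.ofNat 1),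
  (.ofNat 1,.negSucc 0),(.ofNat 1,.ofNat 0),(.ofNat 1,.ofNat 0),(.ofNat 1,.negSucc 0),(.ofNat 1,.ofNat 0),(.ofNat 1,.ofNat 0),(.negSucc 0,.ofNat 0),(.negSucc 0,.ofNat 0),(.negSucc 0,.ofNat 1),(.negSucc 0,.negSucc 0),(.negSucc 0,.ofNat 0),(.ofNat 0,.ofNat 1),
  (.ofNat 0,.negSucc 0),(.ofNat 0,.ofNat 0),(.ofNat 0,.ofNat 1),(.ofNat 0,.negSucc 0),(.ofNat 1,.ofNat 0),(.ofNat 1,.ofNat 1),(.ofNat 1,.negSucc 0),(.ofNat 1,.ofNat 0),(.ofNat 1,.ofNat 0),(.negSucc 0,.ofNat 0),(.negSucc 0,.ofNat 0),(.negSucc 0,.ofNat 0),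
  (.negSucc 0,.negSucc 0),(.negSucc 0,.ofNat 0),(.negSucc 0,.ofNat 1),(.ofNat 0,.negSucc 0),(.ofNat 0,.ofNat 0),(.ofNat 0,.ofNat 1),(.ofNat 0,.negSucc 0),(.ofNat 1,.ofNat 0),(.ofNat 1,.ofNat 1),(.ofNat 1,.negSucc 0),(.ofNat 1,.ofNat 0),(.ofNat 1,.ofNat 0),
  (.negSucc 0,.ofNat 0),(.negSucc 0,.ofNat 0),(.negSucc 0,.ofNat 1),(.negSucc 0,.negSucc 0),(.negSucc 2977,.negSucc 365),(.ofNat 0,.ofNat 1),(.ofNat 0,.negSucc 0),(.ofNat 0,.ofNat 0),(.ofNat 1,.ofNat 1),(.ofNat 1,.negSucc 0),(.ofNat 1,.ofNat 0),(.ofNat 1,.ofNat 0),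
  (.ofNat 1,.ofNat 0),(.ofNat 1,.ofNat 0),(.ofNat 1,.ofNat 0),(.negSucc 0,.ofNat 0),(.negSucc 0,.ofNat 0),(.negSucc 0,.ofNat 1),(.negSucc 0,.ofNat 0),(.negSucc 0,.ofNat 0),(.ofNat 0,.ofNat 1),(.negSucc 0,.negSucc 0),(.ofNat 0,.ofNat 0),(.ofNat 0,.ofNat 1),
  (.ofNat 0,.negSucc 0),(.ofNat 1,.ofNat 0),(.ofNat 1,.ofNat 1),(.ofNat 1,.ofNat 0),(.ofNat 1,.ofNat 0),(.ofNat 1,.ofNat 0),(.negSucc 0,.ofNat 0),(.negSucc 0,.ofNat 0),(.negSucc 0,.ofNat 1),(.negSucc 0,.negSucc 0),(.negSucc 0,.ofNat 0),(.negSucc 0,.ofNat 3),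
  (.ofNat 0,.negSucc 0),(.ofNat 0,.ofNat 0),(.ofNat 1,.ofNat 1),(.ofNat 1,.negSucc 0),(.ofNat 1,.ofNat 0),(.ofNat 1,.ofNat 0),(.ofNat 1,.ofNat 0),(.ofNat 1,.ofNat 0),(.ofNat 1,.ofNat 0),(.negSucc 0,.ofNat 0),(.negSucc 0,.ofNat 0),(.negSucc 0,.ofNat 1),
  (.negSucc 0,.negSucc 0),(.negSucc 0,.ofNat 0),(.ofNat 0,.ofNat 1),(.ofNat 0,.negSucc 0),(.ofNat 0,.ofNat 0),(.ofNat 0,.ofNat 1),(.ofNat 1,.negSucc 0),(.ofNat 1,.ofNat 0),(.ofNat 1,.ofNat 1),(.ofNat 1,.ofNat 0),(.ofNat 1,.ofNat 0),(.ofNat 1,.ofNat 0),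
  (.negSucc 0,.ofNat 0),(.negSucc 0,.ofNat 0),(.negSucc 0,.ofNat 1),(.negSucc 0,.negSucc 0),(.negSucc 0,.ofNat 0),(.ofNat 0,.ofNat 1),(.ofNat 0,.negSucc 0),(.ofNat 0,.ofNat 0),(.ofNat 0,.ofNat 1),(.ofNat 0,.negSucc 0),(.ofNat 1,.ofNat 0),(.ofNat 1,.ofNat 1),
  (.ofNat 1,.negSucc 0),(.ofNat 1,.ofNat 0),(.ofNat 1,.ofNat 0),(.negSucc 0,.ofNat 0),(.negSucc 0,.ofNat 0),(.negSucc 0,.ofNat 1),(.negSucc 0,.negSucc 0),(.negSucc 0,.ofNat 0),(.ofNat 0,.ofNat 1),(.ofNat 0,.negSucc 0),(.ofNat 0,.ofNat 0),(.ofNat 0,.ofNat 1),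
  (.ofNat 0,.negSucc 0),(.ofNat 1,.ofNat 0),(.ofNat 1,.ofNat 1),(.ofNat 1,.negSucc 0),(.ofNat 1,.ofNat 0),(.ofNat 1,.ofNat 0),(.negSucc 0,.ofNat 0),(.negSucc 0,.ofNat 0),(.negSucc 0,.ofNat 1),(.negSucc 0,.ofNat 0),(.negSucc 0,.ofNat 0),(.negSucc 0,.ofNat 1),
  (.negSucc 0,.negSucc 0),(.ofNat 0,.ofNat 0),(.ofNat 0,.ofNat 1),(.ofNat 4,.negSucc 8),(.ofNat 1,.ofNat 0),(.ofNat 1,.ofNat 1),(.ofNat 1,.negSucc 0),(.ofNat 1,.ofNat 0),(.ofNat 1,.ofNat 0),(.negSucc 0,.ofNat 0),(.negSucc 0,.ofNat 0),(.negSucc 0,.ofNat 1),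
  (.negSucc 0,.negSucc 0),(.negSucc 0,.ofNat 0),(.negSucc 3,.ofNat 9),(.ofNat 0,.negSucc 0),(.ofNat 0,.ofNat 0),(.ofNat 1,.ofNat 1),(.ofNat 1,.negSucc 0),(.ofNat 1,.ofNat 0),(.ofNat 1,.ofNat 0),(.ofNat 1,.negSucc 0),(.ofNat 1,.ofNat 0),(.ofNat 1,.ofNat 0),
  (.negSucc 0,.ofNat 0),(.negSucc 0,.ofNat 0),(.negSucc 0,.ofNat 1),(.negSucc 0,.negSucc 0),(.negSucc 38,.ofNat 6),(.negSucc 21,.ofNat 33),(.negSucc 0,.negSucc 2),(.ofNat 0,.ofNat 0),(.ofNat 1,.ofNat 3),(.ofNat 22,.negSucc 32),(.ofNat 39,.negSucc 5),(.ofNat 1,.ofNat 1),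
  (.ofNat 1,.negSucc 0),(.ofNat 1,.ofNat 0),(.ofNat 1,.ofNat 0),(.negSucc 0,.negSucc 0),(.negSucc 0,.ofNat 0),(.negSucc 0,.ofNat 0),(.negSucc 0,.negSucc 0),(.negSucc 0,.negSucc 0),(.ofNat 3,.ofNat 40),(.ofNat 0,.negSucc 0),(.ofNat 1,.negSucc 0),(.ofNat 1,.ofNat 0),
  (.ofNat 1,.negSucc 0),(.ofNat 1,.ofNat 0),(.ofNat 1,.ofNat 0),(.ofNat 1,.negSucc 0),(.ofNat 1,.ofNat 0),(.ofNat 1,.ofNat 0),(.negSucc 0,.ofNat 0),(.negSucc 0,.ofNat 0),(.negSucc 0,.ofNat 1),(.negSucc 0,.negSucc 0),(.negSucc 0,.ofNat 0),(.ofNat 0,.ofNat 1),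
  (.ofNat 0,.negSucc 0),(.ofNat 0,.ofNat 0),(.ofNat 0,.ofNat 1),(.ofNat 0,.negSucc 0),(.ofNat 1,.ofNat 0),(.ofNat 1,.ofNat 1),(.ofNat 1,.negSucc 0),(.ofNat 1,.ofNat 0),(.ofNat 1,.ofNat 0),(.negSucc 0,.ofNat 0),(.negSucc 0,.ofNat 0),(.negSucc 0,.ofNat 1),
  (.negSucc 0,.negSucc 0),(.negSucc 0,.ofNat 0),(.ofNat 0,.ofNat 1),(.ofNat 0,.negSucc 0),(.ofNat 0,.ofNat 0),(.ofNat 0,.ofNat 1),(.ofNat 1,.negSucc 0),(.ofNat 1,.ofNat 0),(.ofNat 1,.ofNat 1),(.ofNat 1,.negSucc 0),(.ofNat 1,.ofNat 0),(.ofNat 1,.ofNat 0),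
  (.negSucc 0,.negSucc 0),(.negSucc 0,.ofNat 0),(.negSucc 0,.ofNat 1),(.ofNat 0,.negSucc 0),(.negSucc 10,.negSucc 38),(.ofNat 0,.ofNat 1),(.ofNat 0,.negSucc 0),(.ofNat 1,.ofNat 0),(.ofNat 1,.ofNat 0),(.ofNat 1,.negSucc 0),(.ofNat 1,.ofNat 0),(.ofNat 1,.ofNat 0),
  (.ofNat 1,.ofNat 0),(.ofNat 1,.ofNat 0),(.ofNat 1,.ofNat 0),(.negSucc 0,.ofNat 0),(.negSucc 0,.ofNat 0),(.negSucc 0,.ofNat 1),(.negSucc 0,.negSucc 0),(.negSucc 0,.ofNat 0),(.ofNat 0,.ofNat 1),(.ofNat 0,.negSucc 0),(.ofNat 1,.ofNat 0),(.ofNat 1,.ofNat 1),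
  (.ofNat 1,.negSucc 0),(.ofNat 1,.ofNat 0),(.ofNat 1,.ofNat 0),(.ofNat 1,.ofNat 0),(.ofNat 1,.ofNat 0),(.ofNat 1,.ofNat 0),(.negSucc 0,.ofNat 0),(.negSucc 0,.ofNat 0),(.negSucc 0,.ofNat 0),(.negSucc 0,.negSucc 0),(.negSucc 0,.ofNat 0),(.ofNat 0,.ofNat 1),
  (.ofNat 0,.negSucc 0),(.ofNat 1,.negSucc 0),(.ofNat 1,.ofNat 1),(.ofNat 1,.negSucc 0),(.ofNat 1,.ofNat 0),(.ofNat 1,.ofNat 0),(.ofNat 1,.negSucc 0),(.ofNat 1,.ofNat 0),(.ofNat 1,.ofNat 0),(.negSucc 0,.negSucc 0),(.negSucc 0,.ofNat 0),(.negSucc 0,.ofNat 0),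
  (.negSucc 0,.negSucc 0),(.negSucc 0,.negSucc 0),(.negSucc 1,.ofNat 300),(.ofNat 0,.negSucc 0),(.ofNat 1,.negSucc 0),(.ofNat 1,.ofNat 0),(.ofNat 1,.negSucc 0),(.ofNat 1,.ofNat 0),(.ofNat 1,.ofNat 0),(.ofNat 1,.negSucc 0),(.ofNat 1,.ofNat 0),(.ofNat 1,.ofNat 0),
  (.negSucc 0,.ofNat 0),(.negSucc 0,.ofNat 0),(.negSucc 0,.ofNat 1),(.negSucc 0,.negSucc 0),(.negSucc 0,.ofNat 0),(.negSucc 0,.ofNat 1),(.ofNat 0,.negSucc 0),(.ofNat 0,.ofNat 0),(.ofNat 0,.ofNat 1),(.ofNat 0,.negSucc 0),(.ofNat 1,.ofNat 0),(.ofNat 1,.ofNat 1),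
  (.ofNat 1,.negSucc 0),(.ofNat 1,.ofNat 0),(.ofNat 1,.ofNat 0),(.negSucc 0,.ofNat 0),(.negSucc 0,.ofNat 0),(.negSucc 0,.ofNat 1),(.negSucc 0,.negSucc 0),(.negSucc 0,.ofNat 0),(.ofNat 0,.ofNat 1),(.ofNat 0,.negSucc 0),(.ofNat 0,.ofNat 0),(.ofNat 0,.ofNat 1),
  (.ofNat 0,.negSucc 0),(.ofNat 1,.ofNat 0),(.ofNat 1,.ofNat 1),(.ofNat 1,.negSucc 0),(.ofNat 1,.ofNat 0),(.ofNat 1,.ofNat 0),(.negSucc 0,.negSucc 0),(.negSucc 0,.ofNat 0),(.negSucc 0,.ofNat 1),(.ofNat 0,.negSucc 0),(.negSucc 10,.negSucc 37),(.ofNat 0,.ofNat 1),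
  (.ofNat 0,.negSucc 0),(.ofNat 1,.ofNat 0),(.ofNat 1,.ofNat 0),(.ofNat 1,.negSucc 0),(.ofNat 1,.ofNat 0),(.ofNat 1,.ofNat 0),(.ofNat 1,.ofNat 0),(.ofNat 1,.ofNat 0),(.ofNat 1,.ofNat 0),(.negSucc 0,.ofNat 0),(.negSucc 0,.ofNat 0),(.negSucc 0,.ofNat 1),
  (.negSucc 0,.negSucc 0),(.negSucc 0,.ofNat 0),(.ofNat 0,.ofNat 1),(.ofNat 0,.negSucc 0),(.ofNat 1,.ofNat 0),(.ofNat 1,.ofNat 1),(.ofNat 1,.negSucc 0),(.ofNat 1,.ofNat 0),(.ofNat 1,.ofNat 0),(.ofNat 1,.ofNat 0),(.ofNat 1,.ofNat 0),(.ofNat 1,.ofNat 0),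
  (.negSucc 0,.ofNat 0),(.negSucc 0,.ofNat 0),(.negSucc 0,.ofNat 0),(.negSucc 0,.negSucc 0),(.negSucc 0,.ofNat 0),(.ofNat 0,.ofNat 1),(.ofNat 0,.negSucc 0),(.ofNat 1,.negSucc 0),(.ofNat 1,.ofNat 1),(.ofNat 1,.negSucc 0),(.ofNat 1,.ofNat 0),(.ofNat 1,.ofNat 0),
  (.ofNat 1,.negSucc 0),(.ofNat 1,.ofNat 0),(.ofNat 1,.ofNat 0),(.negSucc 0,.ofNat 0),(.negSucc 0,.ofNat 0),(.negSucc 0,.ofNat 0),(.negSucc 0,.negSucc 0),(.negSucc 0,.ofNat 0),(.negSucc 0,.ofNat 1),(.negSucc 0,.negSucc 0),(.negSucc 0,.negSucc 0),(.ofNat 0,.ofNat 1),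
  (.ofNat 0,.negSucc 0),(.ofNat 1,.ofNat 0),(.ofNat 1,.ofNat 1),(.ofNat 1,.negSucc 0),(.ofNat 1,.ofNat 0),(.ofNat 1,.ofNat 0),(.negSucc 0,.ofNat 0),(.negSucc 0,.ofNat 0),(.negSucc 0,.ofNat 0),(.negSucc 0,.ofNat 0),(.negSucc 0,.ofNat 0),(.negSucc 0,.ofNat 1),
  (.negSucc 0,.ofNat 0),(.negSucc 0,.ofNat 0),(.ofNat 0,.ofNat 1),(.ofNat 0,.negSucc 0),(.ofNat 11,.ofNat 39),(.ofNat 0,.ofNat 1),(.ofNat 1,.negSucc 0),(.ofNat 1,.ofNat 0),(.ofNat 1,.ofNat 1),(.negSucc 0,.ofNat 0),(.negSucc 0,.ofNat 0),(.negSucc 0,.ofNat 0),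
  (.negSucc 0,.ofNat 0),(.negSucc 0,.ofNat 0),(.negSucc 0,.ofNat 1),(.negSucc 0,.ofNat 0),(.negSucc 0,.ofNat 0),(.ofNat 0,.ofNat 1),(.ofNat 0,.negSucc 0),(.ofNat 11,.ofNat 38),(.ofNat 0,.ofNat 1),(.ofNat 1,.negSucc 0),(.ofNat 1,.ofNat 0),(.ofNat 1,.ofNat 1),
  (.negSucc 0,.ofNat 0),(.negSucc 0,.ofNat 0),(.negSucc 0,.ofNat 1),(.negSucc 0,.negSucc 0),(.negSucc 0,.ofNat 0),(.ofNat 0,.ofNat 1),(.ofNat 0,.negSucc 0),(.ofNat 0,.ofNat 0),(.ofNat 0,.ofNat 1),(.ofNat 0,.negSucc 0),(.ofNat 1,.ofNat 0),(.ofNat 1,.ofNat 1),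
  (.ofNat 1,.negSucc 0),(.ofNat 1,.ofNat 0),(.ofNat 1,.ofNat 0),(.negSucc 0,.ofNat 0),(.negSucc 0,.ofNat 0),(.negSucc 0,.ofNat 1),(.negSucc 0,.ofNat 0),(.negSucc 0,.ofNat 0),(.negSucc 0,.ofNat 1),(.negSucc 0,.negSucc 0),(.negSucc 0,.ofNat 1),(.ofNat 0,.ofNat 1),
  (.ofNat 0,.negSucc 0),(.ofNat 1,.ofNat 1),(.ofNat 1,.ofNat 1),(.ofNat 1,.ofNat 0),(.ofNat 1,.ofNat 0),(.ofNat 1,.ofNat 1),(.negSucc 0,.ofNat 0),(.negSucc 0,.ofNat 0),(.negSucc 0,.ofNat 0),(.negSucc 0,.ofNat 0),(.negSucc 0,.ofNat 0),(.negSucc 0,.ofNat 1),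
  (.negSucc 0,.negSucc 0),(.negSucc 0,.ofNat 0),(.ofNat 0,.ofNat 1),(.ofNat 0,.negSucc 0),(.ofNat 1,.ofNat 0),(.ofNat 1,.ofNat 1),(.ofNat 1,.negSucc 0),(.ofNat 1,.ofNat 0),(.ofNat 1,.ofNat 0),(.negSucc 0,.negSucc 0),(.negSucc 0,.ofNat 0),(.negSucc 0,.ofNat 0),
  (.negSucc 0,.negSucc 0),(.negSucc 0,.negSucc 0),(.negSucc 0,.ofNat 0),(.ofNat 0,.negSucc 0),(.ofNat 0,.negSucc 0),(.ofNat 1,.ofNat 0),(.ofNat 0,.negSucc 0),(.ofNat 1,.negSucc 0),(.ofNat 1,.ofNat 0),(.ofNat 1,.negSucc 0),(.ofNat 1,.ofNat 0),(.ofNat 1,.ofNat 0),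
  (.negSucc 0,.ofNat 0),(.negSucc 0,.ofNat 0),(.negSucc 0,.ofNat 0),(.negSucc 0,.ofNat 0),(.negSucc 0,.ofNat 0),(.negSucc 0,.ofNat 1),(.negSucc 0,.negSucc 0),(.negSucc 0,.ofNat 0),(.ofNat 0,.ofNat 1),(.ofNat 0,.negSucc 0),(.ofNat 1,.ofNat 0),(.ofNat 1,.ofNat 1),
  (.ofNat 1,.negSucc 0),(.ofNat 1,.ofNat 0),(.ofNat 1,.ofNat 0),(.negSucc 0,.ofNat 0),(.negSucc 0,.ofNat 0),(.negSucc 0,.ofNat 0),(.negSucc 0,.ofNat 0),(.negSucc 0,.ofNat 0),(.negSucc 0,.ofNat 1),(.negSucc 0,.negSucc 0),(.negSucc 0,.ofNat 0),(.ofNat 0,.ofNat 1),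
  (.ofNat 0,.negSucc 0),(.ofNat 1,.ofNat 0),(.ofNat 1,.ofNat 1),(.ofNat 1,.negSucc 0),(.ofNat 1,.ofNat 0),(.ofNat 1,.ofNat 0),(.negSucc 0,.negSucc 0),(.negSucc 0,.ofNat 0),(.negSucc 0,.ofNat 0),(.negSucc 0,.negSucc 0),(.negSucc 0,.negSucc 0),(.ofNat 0,.ofNat 1),
  (.ofNat 0,.negSucc 0),(.ofNat 1,.negSucc 0),(.ofNat 1,.ofNat 1),(.ofNat 1,.negSucc 0),(.ofNat 1,.ofNat 0),(.ofNat 1,.ofNat 0),(.ofNat 1,.negSucc 0),(.ofNat 1,.ofNat 0),(.ofNat 1,.ofNat 0),(.negSucc 0,.ofNat 0),(.negSucc 0,.ofNat 0),(.negSucc 0,.ofNat 1),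
  (.negSucc 0,.negSucc 0),(.negSucc 0,.ofNat 0),(.ofNat 0,.ofNat 1),(.ofNat 0,.negSucc 0),(.ofNat 0,.ofNat 0),(.ofNat 0,.ofNat 1),(.ofNat 0,.negSucc 0),(.ofNat 1,.ofNat 0),(.ofNat 1,.ofNat 1),(.ofNat 1,.negSucc 0),(.ofNat 1,.ofNat 0),(.ofNat 1,.ofNat 0),
  (.negSucc 0,.ofNat 0),(.negSucc 0,.ofNat 0),(.negSucc 0,.ofNat 0),(.negSucc 0,.negSucc 0),(.negSucc 0,.ofNat 0),(.negSucc 0,.ofNat 1),(.ofNat 0,.negSucc 0),(.negSucc 3,.negSucc 8),(.ofNat 0,.ofNat 1),(.ofNat 0,.negSucc 0),(.ofNat 1,.ofNat 0),(.ofNat 1,.ofNat 0),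
  (.ofNat 1,.negSucc 0),(.ofNat 1,.ofNat 0),(.ofNat 1,.ofNat 0),(.negSucc 0,.ofNat 0),(.negSucc 0,.ofNat 0),(.negSucc 0,.ofNat 0),(.negSucc 0,.negSucc 0),(.negSucc 0,.ofNat 0),(.negSucc 0,.ofNat 1),(.ofNat 0,.negSucc 0),(.ofNat 155,.negSucc 256),(.ofNat 1,.ofNat 1),
  (.ofNat 0,.negSucc 0),(.ofNat 1,.ofNat 0),(.ofNat 1,.ofNat 0),(.ofNat 1,.negSucc 0),(.ofNat 1,.ofNat 0),(.ofNat 1,.ofNat 0),(.negSucc 0,.ofNat 0),(.negSucc 0,.ofNat 0),(.negSucc 0,.ofNat 1),(.negSucc 0,.ofNat 0),(.negSucc 0,.ofNat 0),(.negSucc 0,.ofNat 1),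
  (.negSucc 0,.negSucc 0),(.negSucc 0,.ofNat 1),(.ofNat 0,.ofNat 1),(.ofNat 0,.negSucc 0),(.ofNat 1,.ofNat 0),(.ofNat 1,.ofNat 1),(.ofNat 1,.ofNat 0),(.ofNat 1,.ofNat 0),(.ofNat 1,.ofNat 0),(.negSucc 0,.ofNat 0),(.negSucc 0,.ofNat 0),(.negSucc 0,.ofNat 1),
  (.negSucc 0,.ofNat 0),(.negSucc 0,.ofNat 0),(.negSucc 0,.ofNat 1),(.negSucc 0,.negSucc 0),(.negSucc 0,.ofNat 1),(.ofNat 0,.ofNat 1),(.ofNat 0,.negSucc 0),(.ofNat 1,.ofNat 0),(.ofNat 1,.ofNat 1),(.ofNat 1,.ofNat 0),(.ofNat 1,.ofNat 0),(.ofNat 1,.ofNat 0),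
  (.negSucc 0,.ofNat 0),(.negSucc 0,.ofNat 0),(.negSucc 0,.ofNat 1),(.negSucc 0,.negSucc 0),(.negSucc 0,.ofNat 0),(.ofNat 0,.ofNat 1),(.ofNat 0,.negSucc 0),(.ofNat 1,.ofNat 0),(.ofNat 1,.ofNat 1),(.ofNat 1,.negSucc 0),(.ofNat 1,.ofNat 0),(.ofNat 1,.ofNat 0),
  (.ofNat 1,.ofNat 0),(.ofNat 1,.ofNat 0),(.ofNat 1,.ofNat 0),(.negSucc 0,.ofNat 0),(.negSucc 0,.ofNat 0),(.negSucc 0,.ofNat 1),(.negSucc 0,.ofNat 0),(.negSucc 0,.ofNat 0),(.ofNat 0,.ofNat 1),(.ofNat 0,.negSucc 0),(.ofNat 4,.ofNat 9),(.ofNat 0,.ofNat 1),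
  (.ofNat 1,.negSucc 0),(.ofNat 1,.ofNat 0),(.ofNat 1,.ofNat 1),(.ofNat 1,.ofNat 0),(.ofNat 1,.ofNat 0),(.ofNat 1,.ofNat 0),(.negSucc 0,.ofNat 0),(.negSucc 0,.ofNat 0),(.negSucc 0,.ofNat 1),(.negSucc 0,.negSucc 0),(.negSucc 0,.ofNat 0),(.ofNat 0,.ofNat 1),
  (.ofNat 0,.negSucc 0),(.ofNat 0,.ofNat 0),(.ofNat 0,.ofNat 1),(.ofNat 0,.negSucc 0),(.ofNat 1,.ofNat 0),(.ofNat 1,.ofNat 1),(.ofNat 1,.negSucc 0),(.ofNat 1,.ofNat 0),(.ofNat 1,.ofNat 0)]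

def E5 : Data where
  La := 1861184
  Lb := 874555
  Lc := 1727573
  T := E5T
  G := E5G
  M := 1000000
  lo := 361870
  hi := 439400
  Y0 := -1167173
  Y1 := 983600
  X0 := -1040622
  X1 := 971454
  Mm := 2
  Nn := 1
  S := [(.negSucc 1,.negSucc 0),(.negSucc 1,.ofNat 0),(.negSucc 1,.ofNat 1),(.negSucc 0,.negSucc 0),(.negSucc 0,.ofNat 0),(.negSucc 0,.ofNat 1),(.ofNat 0,.negSucc 0),(.ofNat 0,.ofNat 0),(.ofNat 0,.ofNat 1),(.ofNat 1,.negSucc 0),(.ofNat 1,.ofNat 0),(.ofNat 1,.ofNat 1),(.ofNat 2,.negSucc 0),(.ofNat 2,.ofNat 0),(.ofNat 2,.ofNat 1)]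
  cert := E5C

theorem E5_ok : E5.OK = true := by decide +kernel

end Pool.Agent.Lib.MP_776035_co.Tiling
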