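import Pool.Agent.Lib.MP_776035_co.Tiling.Colour

/-! Data of a periodic colouring. -/

set_option autoImplicit false
set_option maxRecDepth 100000

namespace Pool.Agent.Lib.MP_776035_co.Tiling

def E6T : List Tri := [
  ⟨(.ofNat 68635,.ofNat 666781),(.ofNat 40151,.ofNat 607210),(.ofNat 63307,.ofNat 547768),0,141,(.ofNat 0,.ofNat 0),148,(.ofNat 0,.ofNat 0),1,(.ofNat 0,.ofNat 0)⟩,
  ⟨(.ofNat 191637,.ofNat 752439),(.ofNat 68635,.ofNat 666781),(.ofNat 63307,.ofNat 547768),2,25,(.ofNat 0,.ofNat 1),0,(.ofNat 0,.ofNat 0),5,(.ofNat 0,.ofNat 0)⟩,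
  ⟨(.ofNat 411325,.ofNat 154913),(.ofNat 450360,.ofNat 40039),(.ofNat 676796,.negSucc 7719),2,51,(.ofNat 0,.ofNat 0),129,(.ofNat 0,.ofNat 0),8,(.ofNat 0,.ofNat 0)⟩,
  ⟨(.ofNat 940910,.ofNat 843898),(.ofNat 863896,.ofNat 932517),(.ofNat 778914,.ofNat 945183),2,79,(.ofNat 0,.ofNat 1),73,(.ofNat 0,.ofNat 1),12,(.ofNat 0,.ofNat 0)⟩,
  ⟨(.ofNat 63307,.ofNat 547768),(.ofNat 55588,.ofNat 378926),(.ofNat 110035,.ofNat 354197),2,140,(.ofNat 0,.ofNat 0),62,(.ofNat 0,.ofNat 0),5,(.ofNat 0,.ofNat 0)⟩,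
  ⟨(.ofNat 191637,.ofNat 752439),(.ofNat 63307,.ofNat 547768),(.ofNat 110035,.ofNat 354197),2,1,(.ofNat 0,.ofNat 0),4,(.ofNat 0,.ofNat 0),6,(.ofNat 0,.ofNat 0)⟩,
  ⟨(.ofNat 191637,.ofNat 752439),(.ofNat 110035,.ofNat 354197),(.ofNat 411325,.ofNat 154913),2,5,(.ofNat 0,.ofNat 0),52,(.ofNat 0,.ofNat 0),7,(.ofNat 0,.ofNat 0)⟩,
  ⟨(.ofNat 390386,.ofNat 882538),(.ofNat 191637,.ofNat 752439),(.ofNat 411325,.ofNat 154913),2,31,(.ofNat 0,.ofNat 1),6,(.ofNat 0,.ofNat 0),8,(.ofNat 0,.ofNat 0)⟩,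
  ⟨(.ofNat 390386,.ofNat 882538),(.ofNat 411325,.ofNat 154913),(.ofNat 676796,.negSucc 7719),2,7,(.ofNat 0,.ofNat 0),2,(.ofNat 0,.ofNat 0),9,(.ofNat 0,.ofNat 0)⟩,
  ⟨(.ofNat 566143,.ofNat 941511),(.ofNat 390386,.ofNat 882538),(.ofNat 676796,.negSucc 7719),2,27,(.ofNat 0,.ofNat 1),8,(.ofNat 0,.ofNat 0),10,(.ofNat 0,.ofNat 0)⟩,
  ⟨(.ofNat 729125,.ofNat 943470),(.ofNat 566143,.ofNat 941511),(.ofNat 676796,.negSucc 7719),2,69,(.ofNat 0,.ofNat 1),9,(.ofNat 0,.ofNat 0),13,(.ofNat 0,.ofNat 0)⟩,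
  ⟨(.ofNat 946638,.ofNat 720056),(.ofNat 960668,.ofNat 804162),(.ofNat 947040,.ofNat 832035),1,98,(.ofNat 1,.ofNat 0),96,(.ofNat 0,.ofNat 1),15,(.ofNat 0,.ofNat 0)⟩,
  ⟨(.ofNat 940910,.ofNat 843898),(.ofNat 778914,.ofNat 945183),(.ofNat 729125,.ofNat 943470),2,3,(.ofNat 0,.ofNat 0),74,(.ofNat 0,.ofNat 1),13,(.ofNat 0,.ofNat 0)⟩,
  ⟨(.ofNat 940910,.ofNat 843898),(.ofNat 729125,.ofNat 943470),(.ofNat 676796,.negSucc 7719),2,12,(.ofNat 0,.ofNat 0),10,(.ofNat 0,.ofNat 0),14,(.ofNat 0,.ofNat 0)⟩,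
  ⟨(.ofNat 940910,.ofNat 843898),(.ofNat 676796,.negSucc 7719),(.ofNat 774813,.negSucc 36471),2,13,(.ofNat 0,.ofNat 0),133,(.ofNat 0,.ofNat 0),18,(.ofNat 0,.ofNat 0)⟩,
  ⟨(.ofNat 926530,.ofNat 637077),(.ofNat 946638,.ofNat 720056),(.ofNat 947040,.ofNat 832035),2,99,(.ofNat 1,.ofNat 0),11,(.ofNat 0,.ofNat 0),17,(.ofNat 0,.ofNat 0)⟩,
  ⟨(.ofNat 1008529,.ofNat 432706),(.ofNat 1016874,.ofNat 435231),(.ofNat 926530,.ofNat 637077),2,126,(.ofNat 1,.ofNat 0),100,(.ofNat 1,.ofNat 0),22,(.ofNat 0,.ofNat 0)⟩,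
  ⟨(.ofNat 926530,.ofNat 637077),(.ofNat 947040,.ofNat 832035),(.ofNat 940910,.ofNat 843898),2,15,(.ofNat 0,.ofNat 0),97,(.ofNat 0,.ofNat 1),18,(.ofNat 0,.ofNat 0)⟩,
  ⟨(.ofNat 926530,.ofNat 637077),(.ofNat 940910,.ofNat 843898),(.ofNat 774813,.negSucc 36471),2,17,(.ofNat 0,.ofNat 0),14,(.ofNat 0,.ofNat 0),23,(.ofNat 0,.ofNat 0)⟩,
  ⟨(.ofNat 780865,.negSucc 35160),(.ofNat 859923,.ofNat 132329),(.ofNat 897343,.ofNat 231328),2,107,(.ofNat 1,.ofNat 0),111,(.ofNat 1,.ofNat 0),24,(.ofNat 0,.ofNat 0)⟩,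
  ⟨(.ofNat 897343,.ofNat 231328),(.ofNat 1021683,.ofNat 426044),(.ofNat 1016321,.ofNat 428795),2,112,(.ofNat 1,.ofNat 0),123,(.ofNat 1,.ofNat 0),21,(.ofNat 0,.ofNat 0)⟩,
  ⟨(.ofNat 897343,.ofNat 231328),(.ofNat 1016321,.ofNat 428795),(.ofNat 1008529,.ofNat 432706),2,20,(.ofNat 0,.ofNat 0),126,(.ofNat 1,.ofNat 0),22,(.ofNat 0,.ofNat 0)⟩,
  ⟨(.ofNat 897343,.ofNat 231328),(.ofNat 1008529,.ofNat 432706),(.ofNat 926530,.ofNat 637077),2,21,(.ofNat 0,.ofNat 0),16,(.ofNat 0,.ofNat 0),23,(.ofNat 0,.ofNat 0)⟩,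
  ⟨(.ofNat 897343,.ofNat 231328),(.ofNat 926530,.ofNat 637077),(.ofNat 774813,.negSucc 36471),2,22,(.ofNat 0,.ofNat 0),18,(.ofNat 0,.ofNat 0),24,(.ofNat 0,.ofNat 0)⟩,
  ⟨(.ofNat 774813,.negSucc 36471),(.ofNat 780865,.negSucc 35160),(.ofNat 897343,.ofNat 231328),2,136,(.ofNat 0,.ofNat 0),19,(.ofNat 0,.ofNat 0),23,(.ofNat 0,.ofNat 0)⟩,
  ⟨(.negSucc 967457,.negSucc 1002848),(.negSucc 877976,.negSucc 1071767),(.negSucc 754974,.negSucc 986109),3,141,(.ofNat 0,.negSucc 0),1,(.ofNat 0,.negSucc 0),31,(.ofNat 0,.ofNat 0)⟩,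
  ⟨(.negSucc 599445,.negSucc 187271),(.negSucc 600999,.negSucc 110893),(.negSucc 815663,.negSucc 156782),4,153,(.ofNat 0,.ofNat 0),103,(.ofNat 0,.ofNat 0),34,(.ofNat 0,.ofNat 0)⟩,
  ⟨(.negSucc 556225,.negSucc 856010),(.negSucc 380468,.negSucc 797037),(.negSucc 281548,.negSucc 657649),4,9,(.ofNat 0,.negSucc 0),69,(.ofNat 0,.ofNat 0),38,(.ofNat 0,.ofNat 0)⟩,
  ⟨(.negSucc 1110813,.negSucc 493611),(.negSucc 1152927,.negSucc 756101),(.negSucc 1070985,.negSucc 958769),4,84,(.negSucc 0,.ofNat 0),81,(.negSucc 0,.ofNat 0),44,(.ofNat 0,.ofNat 0)⟩,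
  ⟨(.negSucc 951534,.negSucc 110699),(.negSucc 1121095,.negSucc 125125),(.negSucc 1160617,.negSucc 181278),4,102,(.ofNat 0,.ofNat 0),128,(.negSucc 0,.ofNat 0),30,(.ofNat 0,.ofNat 0)⟩,
  ⟨(.negSucc 815663,.negSucc 156782),(.negSucc 951534,.negSucc 110699),(.negSucc 1160617,.negSucc 181278),4,103,(.ofNat 0,.ofNat 0),29,(.ofNat 0,.ofNat 0),35,(.ofNat 0,.ofNat 0)⟩,
  ⟨(.negSucc 967457,.negSucc 1002848),(.negSucc 754974,.negSucc 986109),(.negSucc 556225,.negSucc 856010),4,25,(.ofNat 0,.ofNat 0),7,(.ofNat 0,.negSucc 0),39,(.ofNat 0,.ofNat 0)⟩,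
  ⟨(.negSucc 529936,.negSucc 134290),(.negSucc 575549,.negSucc 156755),(.negSucc 599445,.negSucc 187271),4,154,(.ofNat 0,.ofNat 0),153,(.ofNat 0,.ofNat 0),33,(.ofNat 0,.ofNat 0)⟩,
  ⟨(.negSucc 405037,.negSucc 412639),(.negSucc 529936,.negSucc 134290),(.negSucc 599445,.negSucc 187271),4,53,(.ofNat 0,.ofNat 0),32,(.ofNat 0,.ofNat 0),34,(.ofNat 0,.ofNat 0)⟩,
  ⟨(.negSucc 405037,.negSucc 412639),(.negSucc 599445,.negSucc 187271),(.negSucc 815663,.negSucc 156782),4,33,(.ofNat 0,.ofNat 0),26,(.ofNat 0,.ofNat 0),35,(.ofNat 0,.ofNat 0)⟩,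
  ⟨(.negSucc 405037,.negSucc 412639),(.negSucc 815663,.negSucc 156782),(.negSucc 1160617,.negSucc 181278),4,34,(.ofNat 0,.ofNat 0),30,(.ofNat 0,.ofNat 0),42,(.ofNat 0,.ofNat 0)⟩,
  ⟨(.negSucc 258305,.negSucc 596893),(.negSucc 250412,.negSucc 573101),(.negSucc 349771,.negSucc 484961),4,77,(.ofNat 0,.ofNat 0),50,(.ofNat 0,.ofNat 0),37,(.ofNat 0,.ofNat 0)⟩,
  ⟨(.negSucc 281548,.negSucc 657649),(.negSucc 258305,.negSucc 596893),(.negSucc 349771,.negSucc 484961),4,76,(.ofNat 0,.ofNat 0),36,(.ofNat 0,.ofNat 0),38,(.ofNat 0,.ofNat 0)⟩,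
  ⟨(.negSucc 556225,.negSucc 856010),(.negSucc 281548,.negSucc 657649),(.negSucc 349771,.negSucc 484961),4,27,(.ofNat 0,.ofNat 0),37,(.ofNat 0,.ofNat 0),39,(.ofNat 0,.ofNat 0)⟩,
  ⟨(.negSucc 967457,.negSucc 1002848),(.negSucc 556225,.negSucc 856010),(.negSucc 349771,.negSucc 484961),4,31,(.ofNat 0,.ofNat 0),38,(.ofNat 0,.ofNat 0),41,(.ofNat 0,.ofNat 0)⟩,
  ⟨(.negSucc 1183173,.negSucc 225326),(.negSucc 1203414,.negSucc 270148),(.negSucc 1110813,.negSucc 493611),4,130,(.negSucc 0,.ofNat 0),83,(.negSucc 0,.ofNat 0),43,(.ofNat 0,.ofNat 0)⟩,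
  ⟨(.negSucc 967457,.negSucc 1002848),(.negSucc 349771,.negSucc 484961),(.negSucc 405037,.negSucc 412639),4,39,(.ofNat 0,.ofNat 0),57,(.ofNat 0,.ofNat 0),42,(.ofNat 0,.ofNat 0)⟩,
  ⟨(.negSucc 967457,.negSucc 1002848),(.negSucc 405037,.negSucc 412639),(.negSucc 1160617,.negSucc 181278),4,41,(.ofNat 0,.ofNat 0),35,(.ofNat 0,.ofNat 0),46,(.ofNat 0,.ofNat 0)⟩,
  ⟨(.negSucc 1160617,.negSucc 181278),(.negSucc 1183173,.negSucc 225326),(.negSucc 1110813,.negSucc 493611),4,137,(.negSucc 0,.ofNat 0),40,(.ofNat 0,.ofNat 0),46,(.ofNat 0,.ofNat 0)⟩,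
  ⟨(.negSucc 1110813,.negSucc 493611),(.negSucc 1070985,.negSucc 958769),(.negSucc 1029076,.negSucc 974204),4,28,(.ofNat 0,.ofNat 0),143,(.ofNat 0,.negSucc 0),45,(.ofNat 0,.ofNat 0)⟩,
  ⟨(.negSucc 1110813,.negSucc 493611),(.negSucc 1029076,.negSucc 974204),(.negSucc 967457,.negSucc 1002848),4,44,(.ofNat 0,.ofNat 0),144,(.ofNat 0,.negSucc 0),46,(.ofNat 0,.ofNat 0)⟩,
  ⟨(.negSucc 1160617,.negSucc 181278),(.negSucc 1110813,.negSucc 493611),(.negSucc 967457,.negSucc 1002848),4,43,(.ofNat 0,.ofNat 0),45,(.ofNat 0,.ofNat 0),42,(.ofNat 0,.ofNat 0)⟩,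
  ⟨(.negSucc 220766,.ofNat 402383),(.negSucc 290441,.ofNat 413535),(.negSucc 271644,.ofNat 315066),6,142,(.ofNat 0,.ofNat 0),105,(.ofNat 0,.ofNat 0),59,(.ofNat 0,.ofNat 0)⟩,
  ⟨(.ofNat 358718,.negSucc 341763),(.ofNat 431932,.negSucc 277962),(.ofNat 432622,.negSucc 138482),6,90,(.ofNat 0,.ofNat 0),127,(.ofNat 0,.ofNat 0),49,(.ofNat 0,.ofNat 0)⟩,
  ⟨(.ofNat 131554,.negSucc 457852),(.ofNat 358718,.negSucc 341763),(.ofNat 432622,.negSucc 138482),6,91,(.ofNat 0,.ofNat 0),48,(.ofNat 0,.ofNat 0),56,(.ofNat 0,.ofNat 0)⟩,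
  ⟨(.negSucc 349771,.negSucc 484961),(.negSucc 250412,.negSucc 573101),(.negSucc 172695,.negSucc 562800),6,36,(.ofNat 0,.ofNat 0),77,(.ofNat 0,.ofNat 0),57,(.ofNat 0,.ofNat 0)⟩,
  ⟨(.ofNat 425625,.negSucc 74937),(.ofNat 450360,.ofNat 40039),(.ofNat 411325,.ofNat 154913),5,129,(.ofNat 0,.ofNat 0),2,(.ofNat 0,.ofNat 0),52,(.ofNat 0,.ofNat 0)⟩,
  ⟨(.ofNat 425625,.negSucc 74937),(.ofNat 411325,.ofNat 154913),(.ofNat 110035,.ofNat 354197),6,51,(.ofNat 0,.ofNat 0),6,(.ofNat 0,.ofNat 0),63,(.ofNat 0,.ofNat 0)⟩,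
  ⟨(.negSucc 462592,.negSucc 85524),(.negSucc 529936,.negSucc 134290),(.negSucc 405037,.negSucc 412639),6,155,(.ofNat 0,.ofNat 0),33,(.ofNat 0,.ofNat 0),58,(.ofNat 0,.ofNat 0)⟩,
  ⟨(.negSucc 302197,.ofNat 170662),(.negSucc 503846,.negSucc 61586),(.negSucc 439703,.negSucc 86860),6,104,(.ofNat 0,.ofNat 0),158,(.ofNat 0,.ofNat 0),67,(.ofNat 0,.ofNat 0)⟩,
  ⟨(.negSucc 113198,.negSucc 555302),(.negSucc 18020,.negSucc 548639),(.ofNat 131554,.negSucc 457852),6,70,(.ofNat 0,.ofNat 0),82,(.ofNat 0,.ofNat 0),56,(.ofNat 0,.ofNat 0)⟩,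
  ⟨(.negSucc 113198,.negSucc 555302),(.ofNat 131554,.negSucc 457852),(.ofNat 432622,.negSucc 138482),6,55,(.ofNat 0,.ofNat 0),49,(.ofNat 0,.ofNat 0),61,(.ofNat 0,.ofNat 0)⟩,
  ⟨(.negSucc 405037,.negSucc 412639),(.negSucc 349771,.negSucc 484961),(.negSucc 172695,.negSucc 562800),6,41,(.ofNat 0,.ofNat 0),50,(.ofNat 0,.ofNat 0),58,(.ofNat 0,.ofNat 0)⟩,
  ⟨(.negSucc 462592,.negSucc 85524),(.negSucc 405037,.negSucc 412639),(.negSucc 172695,.negSucc 562800),6,53,(.ofNat 0,.ofNat 0),57,(.ofNat 0,.ofNat 0),60,(.ofNat 0,.ofNat 0)⟩,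
  ⟨(.negSucc 220766,.ofNat 402383),(.negSucc 271644,.ofNat 315066),(.negSucc 302197,.ofNat 170662),6,47,(.ofNat 0,.ofNat 0),104,(.ofNat 0,.ofNat 0),65,(.ofNat 0,.ofNat 0)⟩,
  ⟨(.negSucc 462592,.negSucc 85524),(.negSucc 172695,.negSucc 562800),(.negSucc 113198,.negSucc 555302),6,58,(.ofNat 0,.ofNat 0),78,(.ofNat 0,.ofNat 0),61,(.ofNat 0,.ofNat 0)⟩,
  ⟨(.negSucc 462592,.negSucc 85524),(.negSucc 113198,.negSucc 555302),(.ofNat 432622,.negSucc 138482),6,60,(.ofNat 0,.ofNat 0),56,(.ofNat 0,.ofNat 0),68,(.ofNat 0,.ofNat 0)⟩,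
  ⟨(.ofNat 110035,.ofNat 354197),(.ofNat 55588,.ofNat 378926),(.negSucc 214764,.ofNat 402386),6,4,(.ofNat 0,.ofNat 0),140,(.ofNat 0,.ofNat 0),63,(.ofNat 0,.ofNat 0)⟩,
  ⟨(.ofNat 425625,.negSucc 74937),(.ofNat 110035,.ofNat 354197),(.negSucc 214764,.ofNat 402386),6,52,(.ofNat 0,.ofNat 0),62,(.ofNat 0,.ofNat 0),64,(.ofNat 0,.ofNat 0)⟩,
  ⟨(.ofNat 432622,.negSucc 138482),(.ofNat 425625,.negSucc 74937),(.negSucc 214764,.ofNat 402386),6,131,(.ofNat 0,.ofNat 0),63,(.ofNat 0,.ofNat 0),66,(.ofNat 0,.ofNat 0)⟩,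
  ⟨(.negSucc 214764,.ofNat 402386),(.negSucc 220766,.ofNat 402383),(.negSucc 302197,.ofNat 170662),6,152,(.ofNat 0,.ofNat 0),59,(.ofNat 0,.ofNat 0),66,(.ofNat 0,.ofNat 0)⟩,
  ⟨(.ofNat 432622,.negSucc 138482),(.negSucc 214764,.ofNat 402386),(.negSucc 302197,.ofNat 170662),6,64,(.ofNat 0,.ofNat 0),65,(.ofNat 0,.ofNat 0),67,(.ofNat 0,.ofNat 0)⟩,
  ⟨(.ofNat 432622,.negSucc 138482),(.negSucc 302197,.ofNat 170662),(.negSucc 439703,.negSucc 86860),6,66,(.ofNat 0,.ofNat 0),54,(.ofNat 0,.ofNat 0),68,(.ofNat 0,.ofNat 0)⟩,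
  ⟨(.ofNat 432622,.negSucc 138482),(.negSucc 439703,.negSucc 86860),(.negSucc 462592,.negSucc 85524),6,67,(.ofNat 0,.ofNat 0),158,(.ofNat 0,.ofNat 0),61,(.ofNat 0,.ofNat 0)⟩,
  ⟨(.negSucc 281548,.negSucc 657649),(.negSucc 380468,.negSucc 797037),(.negSucc 217486,.negSucc 795078),7,27,(.ofNat 0,.ofNat 0),10,(.ofNat 0,.negSucc 0),74,(.ofNat 0,.ofNat 0)⟩,
  ⟨(.negSucc 28671,.negSucc 667681),(.negSucc 18020,.negSucc 548639),(.negSucc 113198,.negSucc 555302),7,82,(.ofNat 0,.ofNat 0),55,(.ofNat 0,.ofNat 0),72,(.ofNat 0,.ofNat 0)⟩,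
  ⟨(.negSucc 82715,.negSucc 806031),(.ofNat 2651,.negSucc 731416),(.negSucc 28671,.negSucc 667681),7,79,(.ofNat 0,.ofNat 0),94,(.ofNat 0,.ofNat 0),72,(.ofNat 0,.ofNat 0)⟩,
  ⟨(.negSucc 82715,.negSucc 806031),(.negSucc 28671,.negSucc 667681),(.negSucc 113198,.negSucc 555302),7,71,(.ofNat 0,.ofNat 0),70,(.ofNat 0,.ofNat 0),73,(.ofNat 0,.ofNat 0)⟩,
  ⟨(.negSucc 167697,.negSucc 793365),(.negSucc 82715,.negSucc 806031),(.negSucc 113198,.negSucc 555302),7,3,(.ofNat 0,.negSucc 0),72,(.ofNat 0,.ofNat 0),75,(.ofNat 0,.ofNat 0)⟩,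
  ⟨(.negSucc 281548,.negSucc 657649),(.negSucc 217486,.negSucc 795078),(.negSucc 167697,.negSucc 793365),7,69,(.ofNat 0,.ofNat 0),12,(.ofNat 0,.negSucc 0),75,(.ofNat 0,.ofNat 0)⟩,
  ⟨(.negSucc 281548,.negSucc 657649),(.negSucc 167697,.negSucc 793365),(.negSucc 113198,.negSucc 555302),7,74,(.ofNat 0,.ofNat 0),73,(.ofNat 0,.ofNat 0),76,(.ofNat 0,.ofNat 0)⟩,
  ⟨(.negSucc 258305,.negSucc 596893),(.negSucc 281548,.negSucc 657649),(.negSucc 113198,.negSucc 555302),7,37,(.ofNat 0,.ofNat 0),75,(.ofNat 0,.ofNat 0),78,(.ofNat 0,.ofNat 0)⟩,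
  ⟨(.negSucc 172695,.negSucc 562800),(.negSucc 250412,.negSucc 573101),(.negSucc 258305,.negSucc 596893),7,50,(.ofNat 0,.ofNat 0),36,(.ofNat 0,.ofNat 0),78,(.ofNat 0,.ofNat 0)⟩,
  ⟨(.negSucc 113198,.negSucc 555302),(.negSucc 172695,.negSucc 562800),(.negSucc 258305,.negSucc 596893),7,60,(.ofNat 0,.ofNat 0),77,(.ofNat 0,.ofNat 0),76,(.ofNat 0,.ofNat 0)⟩,
  ⟨(.ofNat 2651,.negSucc 731416),(.negSucc 82715,.negSucc 806031),(.negSucc 5701,.negSucc 894650),9,71,(.ofNat 0,.ofNat 0),3,(.ofNat 0,.negSucc 0),97,(.ofNat 0,.ofNat 0)⟩,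
  ⟨(.ofNat 506812,.negSucc 1108413),(.ofNat 683543,.negSucc 1245788),(.ofNat 754716,.negSucc 1121541),9,113,(.ofNat 1,.negSucc 0),147,(.ofNat 1,.negSucc 0),85,(.ofNat 0,.ofNat 0)⟩,
  ⟨(.ofNat 789033,.negSucc 1055902),(.ofNat 894002,.negSucc 958769),(.ofNat 812060,.negSucc 756101),8,143,(.ofNat 1,.negSucc 0),28,(.ofNat 1,.ofNat 0),86,(.ofNat 0,.ofNat 0)⟩,
  ⟨(.ofNat 131554,.negSucc 457852),(.negSucc 18020,.negSucc 548639),(.negSucc 28671,.negSucc 667681),9,55,(.ofNat 0,.ofNat 0),70,(.ofNat 0,.ofNat 0),91,(.ofNat 0,.ofNat 0)⟩,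
  ⟨(.ofNat 854174,.negSucc 493611),(.ofNat 761573,.negSucc 270148),(.ofNat 646351,.negSucc 268233),9,40,(.ofNat 1,.ofNat 0),130,(.ofNat 0,.ofNat 0),84,(.ofNat 0,.ofNat 0)⟩,
  ⟨(.ofNat 812060,.negSucc 756101),(.ofNat 854174,.negSucc 493611),(.ofNat 646351,.negSucc 268233),9,28,(.ofNat 1,.ofNat 0),83,(.ofNat 0,.ofNat 0),87,(.ofNat 0,.ofNat 0)⟩,
  ⟨(.ofNat 506812,.negSucc 1108413),(.ofNat 754716,.negSucc 1121541),(.ofNat 789033,.negSucc 1055902),9,80,(.ofNat 0,.ofNat 0),146,(.ofNat 1,.negSucc 0),86,(.ofNat 0,.ofNat 0)⟩,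
  ⟨(.ofNat 506812,.negSucc 1108413),(.ofNat 789033,.negSucc 1055902),(.ofNat 812060,.negSucc 756101),9,85,(.ofNat 0,.ofNat 0),81,(.ofNat 0,.ofNat 0),87,(.ofNat 0,.ofNat 0)⟩,
  ⟨(.ofNat 506812,.negSucc 1108413),(.ofNat 812060,.negSucc 756101),(.ofNat 646351,.negSucc 268233),9,86,(.ofNat 0,.ofNat 0),84,(.ofNat 0,.ofNat 0),88,(.ofNat 0,.ofNat 0)⟩,
  ⟨(.ofNat 278239,.negSucc 1029646),(.ofNat 506812,.negSucc 1108413),(.ofNat 646351,.negSucc 268233),9,101,(.ofNat 1,.negSucc 0),87,(.ofNat 0,.ofNat 0),89,(.ofNat 0,.ofNat 0)⟩,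
  ⟨(.ofNat 14056,.negSucc 934386),(.ofNat 278239,.negSucc 1029646),(.ofNat 646351,.negSucc 268233),9,98,(.ofNat 1,.negSucc 0),88,(.ofNat 0,.ofNat 0),93,(.ofNat 0,.ofNat 0)⟩,
  ⟨(.ofNat 571416,.negSucc 253829),(.ofNat 431932,.negSucc 277962),(.ofNat 358718,.negSucc 341763),9,127,(.ofNat 0,.ofNat 0),48,(.ofNat 0,.ofNat 0),92,(.ofNat 0,.ofNat 0)⟩,
  ⟨(.ofNat 358718,.negSucc 341763),(.ofNat 131554,.negSucc 457852),(.negSucc 28671,.negSucc 667681),9,49,(.ofNat 0,.ofNat 0),82,(.ofNat 0,.ofNat 0),94,(.ofNat 0,.ofNat 0)⟩,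
  ⟨(.ofNat 646351,.negSucc 268233),(.ofNat 571416,.negSucc 253829),(.ofNat 358718,.negSucc 341763),9,134,(.ofNat 0,.ofNat 0),90,(.ofNat 0,.ofNat 0),93,(.ofNat 0,.ofNat 0)⟩,
  ⟨(.ofNat 14056,.negSucc 934386),(.ofNat 646351,.negSucc 268233),(.ofNat 358718,.negSucc 341763),9,89,(.ofNat 0,.ofNat 0),92,(.ofNat 0,.ofNat 0),95,(.ofNat 0,.ofNat 0)⟩,
  ⟨(.ofNat 358718,.negSucc 341763),(.negSucc 28671,.negSucc 667681),(.ofNat 2651,.negSucc 731416),9,91,(.ofNat 0,.ofNat 0),71,(.ofNat 0,.ofNat 0),95,(.ofNat 0,.ofNat 0)⟩,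
  ⟨(.ofNat 14056,.negSucc 934386),(.ofNat 358718,.negSucc 341763),(.ofNat 2651,.negSucc 731416),9,93,(.ofNat 0,.ofNat 0),94,(.ofNat 0,.ofNat 0),96,(.ofNat 0,.ofNat 0)⟩,
  ⟨(.ofNat 428,.negSucc 906513),(.ofNat 14056,.negSucc 934386),(.ofNat 2651,.negSucc 731416),9,11,(.ofNat 0,.negSucc 0),95,(.ofNat 0,.ofNat 0),97,(.ofNat 0,.ofNat 0)⟩,
  ⟨(.ofNat 2651,.negSucc 731416),(.negSucc 5701,.negSucc 894650),(.ofNat 428,.negSucc 906513),9,79,(.ofNat 0,.ofNat 0),17,(.ofNat 0,.negSucc 0),96,(.ofNat 0,.ofNat 0)⟩,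
  ⟨(.negSucc 740136,.ofNat 708902),(.negSucc 1004319,.ofNat 804162),(.negSucc 1018349,.ofNat 720056),10,89,(.negSucc 0,.ofNat 1),11,(.negSucc 0,.ofNat 0),99,(.ofNat 0,.ofNat 0)⟩,
  ⟨(.negSucc 740136,.ofNat 708902),(.negSucc 1018349,.ofNat 720056),(.negSucc 1038457,.ofNat 637077),10,98,(.ofNat 0,.ofNat 0),15,(.negSucc 0,.ofNat 0),100,(.ofNat 0,.ofNat 0)⟩,
  ⟨(.negSucc 740136,.ofNat 708902),(.negSucc 1038457,.ofNat 637077),(.negSucc 948113,.ofNat 435231),10,99,(.ofNat 0,.ofNat 0),16,(.negSucc 0,.ofNat 0),101,(.ofNat 0,.ofNat 0)⟩,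
  ⟨(.negSucc 511563,.ofNat 630135),(.negSucc 740136,.ofNat 708902),(.negSucc 948113,.ofNat 435231),10,88,(.negSucc 0,.ofNat 1),100,(.ofNat 0,.ofNat 0),122,(.ofNat 0,.ofNat 0)⟩,
  ⟨(.negSucc 1152655,.negSucc 82703),(.negSucc 1121095,.negSucc 125125),(.negSucc 951534,.negSucc 110699),10,128,(.negSucc 0,.ofNat 0),29,(.ofNat 0,.ofNat 0),109,(.ofNat 0,.ofNat 0)⟩,
  ⟨(.negSucc 951534,.negSucc 110699),(.negSucc 815663,.negSucc 156782),(.negSucc 600999,.negSucc 110893),10,30,(.ofNat 0,.ofNat 0),26,(.ofNat 0,.ofNat 0),110,(.ofNat 0,.ofNat 0)⟩,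
  ⟨(.negSucc 503846,.negSucc 61586),(.negSucc 302197,.ofNat 170662),(.negSucc 271644,.ofNat 315066),10,54,(.ofNat 0,.ofNat 0),59,(.ofNat 0,.ofNat 0),106,(.ofNat 0,.ofNat 0)⟩,
  ⟨(.negSucc 271644,.ofNat 315066),(.negSucc 290441,.ofNat 413535),(.negSucc 320737,.ofNat 463169),10,47,(.ofNat 0,.ofNat 0),142,(.ofNat 0,.ofNat 0),106,(.ofNat 0,.ofNat 0)⟩,
  ⟨(.negSucc 503846,.negSucc 61586),(.negSucc 271644,.ofNat 315066),(.negSucc 320737,.ofNat 463169),10,104,(.ofNat 0,.ofNat 0),105,(.ofNat 0,.ofNat 0),117,(.ofNat 0,.ofNat 0)⟩,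
  ⟨(.negSucc 1105064,.ofNat 132329),(.negSucc 1184122,.negSucc 35160),(.negSucc 1169539,.negSucc 57928),10,19,(.negSucc 0,.ofNat 0),136,(.negSucc 0,.ofNat 0),108,(.ofNat 0,.ofNat 0)⟩,
  ⟨(.negSucc 1105064,.ofNat 132329),(.negSucc 1169539,.negSucc 57928),(.negSucc 1152655,.negSucc 82703),10,107,(.ofNat 0,.ofNat 0),139,(.negSucc 0,.ofNat 0),109,(.ofNat 0,.ofNat 0)⟩,
  ⟨(.negSucc 1105064,.ofNat 132329),(.negSucc 1152655,.negSucc 82703),(.negSucc 951534,.negSucc 110699),10,108,(.ofNat 0,.ofNat 0),102,(.ofNat 0,.ofNat 0),110,(.ofNat 0,.ofNat 0)⟩,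
  ⟨(.negSucc 1105064,.ofNat 132329),(.negSucc 951534,.negSucc 110699),(.negSucc 600999,.negSucc 110893),10,109,(.ofNat 0,.ofNat 0),103,(.ofNat 0,.ofNat 0),111,(.ofNat 0,.ofNat 0)⟩,
  ⟨(.negSucc 1067644,.ofNat 231328),(.negSucc 1105064,.ofNat 132329),(.negSucc 600999,.negSucc 110893),10,19,(.negSucc 0,.ofNat 0),110,(.ofNat 0,.ofNat 0),112,(.ofNat 0,.ofNat 0)⟩,
  ⟨(.negSucc 943304,.ofNat 426044),(.negSucc 1067644,.ofNat 231328),(.negSucc 600999,.negSucc 110893),10,20,(.negSucc 0,.ofNat 0),111,(.ofNat 0,.ofNat 0),114,(.ofNat 0,.ofNat 0)⟩,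
  ⟨(.negSucc 323500,.ofNat 468542),(.negSucc 334832,.ofNat 492760),(.negSucc 511563,.ofNat 630135),10,150,(.ofNat 0,.ofNat 0),80,(.negSucc 0,.ofNat 1),116,(.ofNat 0,.ofNat 0)⟩,
  ⟨(.negSucc 943304,.ofNat 426044),(.negSucc 600999,.negSucc 110893),(.negSucc 601663,.negSucc 91584),10,112,(.ofNat 0,.ofNat 0),156,(.ofNat 0,.ofNat 0),115,(.ofNat 0,.ofNat 0)⟩,
  ⟨(.negSucc 943304,.ofNat 426044),(.negSucc 601663,.negSucc 91584),(.negSucc 509050,.negSucc 64573),10,114,(.ofNat 0,.ofNat 0),156,(.ofNat 0,.ofNat 0),118,(.ofNat 0,.ofNat 0)⟩,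
  ⟨(.negSucc 320737,.ofNat 463169),(.negSucc 323500,.ofNat 468542),(.negSucc 511563,.ofNat 630135),10,151,(.ofNat 0,.ofNat 0),113,(.ofNat 0,.ofNat 0),117,(.ofNat 0,.ofNat 0)⟩,
  ⟨(.negSucc 503846,.negSucc 61586),(.negSucc 320737,.ofNat 463169),(.negSucc 511563,.ofNat 630135),10,106,(.ofNat 0,.ofNat 0),116,(.ofNat 0,.ofNat 0),119,(.ofNat 0,.ofNat 0)⟩,
  ⟨(.negSucc 943304,.ofNat 426044),(.negSucc 509050,.negSucc 64573),(.negSucc 503846,.negSucc 61586),10,115,(.ofNat 0,.ofNat 0),159,(.ofNat 0,.ofNat 0),119,(.ofNat 0,.ofNat 0)⟩,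
  ⟨(.negSucc 943304,.ofNat 426044),(.negSucc 503846,.negSucc 61586),(.negSucc 511563,.ofNat 630135),10,118,(.ofNat 0,.ofNat 0),117,(.ofNat 0,.ofNat 0),120,(.ofNat 0,.ofNat 0)⟩,
  ⟨(.negSucc 940474,.ofNat 431335),(.negSucc 943304,.ofNat 426044),(.negSucc 511563,.ofNat 630135),10,123,(.ofNat 0,.ofNat 0),119,(.ofNat 0,.ofNat 0),121,(.ofNat 0,.ofNat 0)⟩,
  ⟨(.negSucc 942387,.ofNat 437022),(.negSucc 940474,.ofNat 431335),(.negSucc 511563,.ofNat 630135),10,124,(.ofNat 0,.ofNat 0),120,(.ofNat 0,.ofNat 0),122,(.ofNat 0,.ofNat 0)⟩,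
  ⟨(.negSucc 948113,.ofNat 435231),(.negSucc 942387,.ofNat 437022),(.negSucc 511563,.ofNat 630135),10,124,(.ofNat 0,.ofNat 0),121,(.ofNat 0,.ofNat 0),101,(.ofNat 0,.ofNat 0)⟩,
  ⟨(.negSucc 948666,.ofNat 428795),(.negSucc 943304,.ofNat 426044),(.negSucc 940474,.ofNat 431335),11,20,(.negSucc 0,.ofNat 0),120,(.ofNat 0,.ofNat 0),125,(.ofNat 0,.ofNat 0)⟩,
  ⟨(.negSucc 940474,.ofNat 431335),(.negSucc 942387,.ofNat 437022),(.negSucc 948113,.ofNat 435231),11,121,(.ofNat 0,.ofNat 0),122,(.ofNat 0,.ofNat 0),125,(.ofNat 0,.ofNat 0)⟩,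
  ⟨(.negSucc 948666,.ofNat 428795),(.negSucc 940474,.ofNat 431335),(.negSucc 948113,.ofNat 435231),11,123,(.ofNat 0,.ofNat 0),124,(.ofNat 0,.ofNat 0),126,(.ofNat 0,.ofNat 0)⟩,
  ⟨(.negSucc 956458,.ofNat 432706),(.negSucc 948666,.ofNat 428795),(.negSucc 948113,.ofNat 435231),11,21,(.negSucc 0,.ofNat 0),125,(.ofNat 0,.ofNat 0),16,(.negSucc 0,.ofNat 0)⟩,
  ⟨(.ofNat 432622,.negSucc 138482),(.ofNat 431932,.negSucc 277962),(.ofNat 571416,.negSucc 253829),12,48,(.ofNat 0,.ofNat 0),90,(.ofNat 0,.ofNat 0),132,(.ofNat 0,.ofNat 0)⟩,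
  ⟨(.ofNat 804370,.negSucc 181278),(.ofNat 843892,.negSucc 125125),(.ofNat 812332,.negSucc 82703),12,29,(.ofNat 1,.ofNat 0),102,(.ofNat 1,.ofNat 0),138,(.ofNat 0,.ofNat 0)⟩,
  ⟨(.ofNat 676796,.negSucc 7719),(.ofNat 450360,.ofNat 40039),(.ofNat 425625,.negSucc 74937),12,2,(.ofNat 0,.ofNat 0),51,(.ofNat 0,.ofNat 0),131,(.ofNat 0,.ofNat 0)⟩,
  ⟨(.ofNat 646351,.negSucc 268233),(.ofNat 761573,.negSucc 270148),(.ofNat 781814,.negSucc 225326),12,83,(.ofNat 0,.ofNat 0),40,(.ofNat 1,.ofNat 0),135,(.ofNat 0,.ofNat 0)⟩,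
  ⟨(.ofNat 676796,.negSucc 7719),(.ofNat 425625,.negSucc 74937),(.ofNat 432622,.negSucc 138482),12,129,(.ofNat 0,.ofNat 0),64,(.ofNat 0,.ofNat 0),132,(.ofNat 0,.ofNat 0)⟩,
  ⟨(.ofNat 676796,.negSucc 7719),(.ofNat 432622,.negSucc 138482),(.ofNat 571416,.negSucc 253829),12,131,(.ofNat 0,.ofNat 0),127,(.ofNat 0,.ofNat 0),133,(.ofNat 0,.ofNat 0)⟩,
  ⟨(.ofNat 774813,.negSucc 36471),(.ofNat 676796,.negSucc 7719),(.ofNat 571416,.negSucc 253829),12,14,(.ofNat 0,.ofNat 0),132,(.ofNat 0,.ofNat 0),134,(.ofNat 0,.ofNat 0)⟩,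
  ⟨(.ofNat 774813,.negSucc 36471),(.ofNat 571416,.negSucc 253829),(.ofNat 646351,.negSucc 268233),12,133,(.ofNat 0,.ofNat 0),92,(.ofNat 0,.ofNat 0),135,(.ofNat 0,.ofNat 0)⟩,
  ⟨(.ofNat 774813,.negSucc 36471),(.ofNat 646351,.negSucc 268233),(.ofNat 781814,.negSucc 225326),12,134,(.ofNat 0,.ofNat 0),130,(.ofNat 0,.ofNat 0),137,(.ofNat 0,.ofNat 0)⟩,
  ⟨(.ofNat 795448,.negSucc 57928),(.ofNat 780865,.negSucc 35160),(.ofNat 774813,.negSucc 36471),12,107,(.ofNat 1,.ofNat 0),24,(.ofNat 0,.ofNat 0),139,(.ofNat 0,.ofNat 0)⟩,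
  ⟨(.ofNat 774813,.negSucc 36471),(.ofNat 781814,.negSucc 225326),(.ofNat 804370,.negSucc 181278),12,135,(.ofNat 0,.ofNat 0),43,(.ofNat 1,.ofNat 0),138,(.ofNat 0,.ofNat 0)⟩,
  ⟨(.ofNat 774813,.negSucc 36471),(.ofNat 804370,.negSucc 181278),(.ofNat 812332,.negSucc 82703),12,137,(.ofNat 0,.ofNat 0),128,(.ofNat 0,.ofNat 0),139,(.ofNat 0,.ofNat 0)⟩,
  ⟨(.ofNat 812332,.negSucc 82703),(.ofNat 795448,.negSucc 57928),(.ofNat 774813,.negSucc 36471),12,108,(.ofNat 1,.ofNat 0),136,(.ofNat 0,.ofNat 0),138,(.ofNat 0,.ofNat 0)⟩,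
  ⟨(.negSucc 214764,.ofNat 402386),(.ofNat 55588,.ofNat 378926),(.ofNat 63307,.ofNat 547768),13,62,(.ofNat 0,.ofNat 0),4,(.ofNat 0,.ofNat 0),148,(.ofNat 0,.ofNat 0)⟩,
  ⟨(.ofNat 40151,.ofNat 607210),(.ofNat 68635,.ofNat 666781),(.negSucc 20845,.ofNat 735700),13,0,(.ofNat 0,.ofNat 0),25,(.ofNat 0,.ofNat 1),145,(.ofNat 0,.ofNat 0)⟩,
  ⟨(.negSucc 320737,.ofNat 463169),(.negSucc 290441,.ofNat 413535),(.negSucc 220766,.ofNat 402383),13,105,(.ofNat 0,.ofNat 0),47,(.ofNat 0,.ofNat 0),151,(.ofNat 0,.ofNat 0)⟩,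
  ⟨(.negSucc 82464,.ofNat 764344),(.negSucc 124373,.ofNat 779779),(.negSucc 229342,.ofNat 682646),13,44,(.ofNat 0,.ofNat 1),81,(.negSucc 0,.ofNat 1),144,(.ofNat 0,.ofNat 0)⟩,
  ⟨(.negSucc 20845,.ofNat 735700),(.negSucc 82464,.ofNat 764344),(.negSucc 229342,.ofNat 682646),13,45,(.ofNat 0,.ofNat 1),143,(.ofNat 0,.ofNat 0),145,(.ofNat 0,.ofNat 0)⟩,
  ⟨(.ofNat 40151,.ofNat 607210),(.negSucc 20845,.ofNat 735700),(.negSucc 229342,.ofNat 682646),13,141,(.ofNat 0,.ofNat 0),144,(.ofNat 0,.ofNat 0),146,(.ofNat 0,.ofNat 0)⟩,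
  ⟨(.ofNat 40151,.ofNat 607210),(.negSucc 229342,.ofNat 682646),(.negSucc 263659,.ofNat 617007),13,145,(.ofNat 0,.ofNat 0),85,(.negSucc 0,.ofNat 1),147,(.ofNat 0,.ofNat 0)⟩,
  ⟨(.ofNat 40151,.ofNat 607210),(.negSucc 263659,.ofNat 617007),(.negSucc 334832,.ofNat 492760),13,146,(.ofNat 0,.ofNat 0),80,(.negSucc 0,.ofNat 1),149,(.ofNat 0,.ofNat 0)⟩,
  ⟨(.negSucc 214764,.ofNat 402386),(.ofNat 63307,.ofNat 547768),(.ofNat 40151,.ofNat 607210),13,140,(.ofNat 0,.ofNat 0),0,(.ofNat 0,.ofNat 0),149,(.ofNat 0,.ofNat 0)⟩,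
  ⟨(.negSucc 214764,.ofNat 402386),(.ofNat 40151,.ofNat 607210),(.negSucc 334832,.ofNat 492760),13,148,(.ofNat 0,.ofNat 0),147,(.ofNat 0,.ofNat 0),150,(.ofNat 0,.ofNat 0)⟩,
  ⟨(.negSucc 214764,.ofNat 402386),(.negSucc 334832,.ofNat 492760),(.negSucc 323500,.ofNat 468542),13,149,(.ofNat 0,.ofNat 0),113,(.ofNat 0,.ofNat 0),152,(.ofNat 0,.ofNat 0)⟩,
  ⟨(.negSucc 323500,.ofNat 468542),(.negSucc 320737,.ofNat 463169),(.negSucc 220766,.ofNat 402383),13,116,(.ofNat 0,.ofNat 0),142,(.ofNat 0,.ofNat 0),152,(.ofNat 0,.ofNat 0)⟩,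
  ⟨(.negSucc 323500,.ofNat 468542),(.negSucc 220766,.ofNat 402383),(.negSucc 214764,.ofNat 402386),13,151,(.ofNat 0,.ofNat 0),65,(.ofNat 0,.ofNat 0),150,(.ofNat 0,.ofNat 0)⟩,
  ⟨(.negSucc 600999,.negSucc 110893),(.negSucc 599445,.negSucc 187271),(.negSucc 575549,.negSucc 156755),14,26,(.ofNat 0,.ofNat 0),32,(.ofNat 0,.ofNat 0),154,(.ofNat 0,.ofNat 0)⟩,
  ⟨(.negSucc 600999,.negSucc 110893),(.negSucc 575549,.negSucc 156755),(.negSucc 529936,.negSucc 134290),15,153,(.ofNat 0,.ofNat 0),32,(.ofNat 0,.ofNat 0),155,(.ofNat 0,.ofNat 0)⟩,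
  ⟨(.negSucc 600999,.negSucc 110893),(.negSucc 529936,.negSucc 134290),(.negSucc 462592,.negSucc 85524),15,154,(.ofNat 0,.ofNat 0),53,(.ofNat 0,.ofNat 0),157,(.ofNat 0,.ofNat 0)⟩,
  ⟨(.negSucc 509050,.negSucc 64573),(.negSucc 601663,.negSucc 91584),(.negSucc 600999,.negSucc 110893),16,115,(.ofNat 0,.ofNat 0),114,(.ofNat 0,.ofNat 0),157,(.ofNat 0,.ofNat 0)⟩,
  ⟨(.negSucc 509050,.negSucc 64573),(.negSucc 600999,.negSucc 110893),(.negSucc 462592,.negSucc 85524),16,156,(.ofNat 0,.ofNat 0),155,(.ofNat 0,.ofNat 0),159,(.ofNat 0,.ofNat 0)⟩,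
  ⟨(.negSucc 462592,.negSucc 85524),(.negSucc 439703,.negSucc 86860),(.negSucc 503846,.negSucc 61586),16,68,(.ofNat 0,.ofNat 0),54,(.ofNat 0,.ofNat 0),159,(.ofNat 0,.ofNat 0)⟩,
  ⟨(.negSucc 462592,.negSucc 85524),(.negSucc 503846,.negSucc 61586),(.negSucc 509050,.negSucc 64573),16,158,(.ofNat 0,.ofNat 0),118,(.ofNat 0,.ofNat 0),157,(.ofNat 0,.ofNat 0)⟩]

def E6G : List Grp := [
  ⟨0,[(.ofNat 68635,.ofNat 666781),(.ofNat 40151,.ofNat 607210),(.ofNat 63307,.ofNat 547768)]⟩,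
  ⟨0,[(.ofNat 946638,.ofNat 720056),(.ofNat 960668,.ofNat 804162),(.ofNat 947040,.ofNat 832035)]⟩,
  ⟨0,[(.ofNat 191637,.ofNat 752439),(.ofNat 68635,.ofNat 666781),(.ofNat 63307,.ofNat 547768),(.ofNat 411325,.ofNat 154913),(.ofNat 450360,.ofNat 40039),(.ofNat 676796,.negSucc 7719),(.ofNat 940910,.ofNat 843898),(.ofNat 863896,.ofNat 932517),(.ofNat 778914,.ofNat 945183),(.ofNat 55588,.ofNat 378926),(.ofNat 110035,.ofNat 354197),(.ofNat 390386,.ofNat 882538),(.ofNat 566143,.ofNat 941511),(.ofNat 729125,.ofNat 943470),(.ofNat 774813,.negSucc 36471),(.ofNat 926530,.ofNat 637077),(.ofNat 946638,.ofNat 720056),(.ofNat 947040,.ofNat 832035),(.ofNat 1008529,.ofNat 432706),(.ofNat 1016874,.ofNat 435231),(.ofNat 780865,.negSucc 35160),(.ofNat 859923,.ofNat 132329),(.ofNat 897343,.ofNat 231328),(.ofNat 1021683,.ofNat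 426044),(.ofNat 1016321,.ofNat 428795)]⟩,
  ⟨3,[(.negSucc 967457,.negSucc 1002848),(.negSucc 877976,.negSucc 1071767),(.negSucc 754974,.negSucc 986109)]⟩,
  ⟨3,[(.negSucc 599445,.negSucc 187271),(.negSucc 600999,.negSucc 110893),(.negSucc 815663,.negSucc 156782),(.negSucc 556225,.negSucc 856010),(.negSucc 380468,.negSucc 797037),(.negSucc 281548,.negSucc 657649),(.negSucc 1110813,.negSucc 493611),(.negSucc 1152927,.negSucc 756101),(.negSucc 1070985,.negSucc 958769),(.negSucc 951534,.negSucc 110699),(.negSucc 1121095,.negSucc 125125),(.negSucc 1160617,.negSucc 181278),(.negSucc 967457,.negSucc 1002848),(.negSucc 754974,.negSucc 986109),(.negSucc 529936,.negSucc 134290),(.negSucc 575549,.negSucc 156755),(.negSucc 405037,.negSucc 412639),(.negSucc 258305,.negSucc 596893),(.negSucc 250412,.negSucc 573101),(.negSucc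 349771,.negSucc 484961),(.negSucc 1183173,.negSucc 225326),(.negSucc 1203414,.negSucc 270148),(.negSucc 1029076,.negSucc 974204)]⟩,
  ⟨2,[(.ofNat 425625,.negSucc 74937),(.ofNat 450360,.ofNat 40039),(.ofNat 411325,.ofNat 154913)]⟩,
  ⟨2,[(.negSucc 220766,.ofNat 402383),(.negSucc 290441,.ofNat 413535),(.negSucc 271644,.ofNat 315066),(.ofNat 358718,.negSucc 341763),(.ofNat 431932,.negSucc 277962),(.ofNat 432622,.negSucc 138482),(.ofNat 131554,.negSucc 457852),(.negSucc 349771,.negSucc 484961),(.negSucc 250412,.negSucc 573101),(.negSucc 172695,.negSucc 562800),(.ofNat 425625,.negSucc 74937),(.ofNat 411325,.ofNat 154913),(.ofNat 110035,.ofNat 354197),(.negSucc 462592,.negSucc 85524),(.negSucc 529936,.negSucc 134290),(.negSucc 405037,.negSucc 412639),(.negSucc 302197,.ofNat 170662),(.negSucc 503846,.negSucc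 61586),(.negSucc 439703,.negSucc 86860),(.negSucc 113198,.negSucc 555302),(.negSucc 18020,.negSucc 548639),(.ofNat 55588,.ofNat 378926),(.negSucc 214764,.ofNat 402386)]⟩,
  ⟨5,[(.negSucc 281548,.negSucc 657649),(.negSucc 380468,.negSucc 797037),(.negSucc 217486,.negSucc 795078),(.negSucc 28671,.negSucc 667681),(.negSucc 18020,.negSucc 548639),(.negSucc 113198,.negSucc 555302),(.negSucc 82715,.negSucc 806031),(.ofNat 2651,.negSucc 731416),(.negSucc 167697,.negSucc 793365),(.negSucc 258305,.negSucc 596893),(.negSucc 172695,.negSucc 562800),(.negSucc 250412,.negSucc 573101)]⟩,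
  ⟨4,[(.ofNat 789033,.negSucc 1055902),(.ofNat 894002,.negSucc 958769),(.ofNat 812060,.negSucc 756101)]⟩,
  ⟨4,[(.ofNat 2651,.negSucc 731416),(.negSucc 82715,.negSucc 806031),(.negSucc 5701,.negSucc 894650),(.ofNat 506812,.negSucc 1108413),(.ofNat 683543,.negSucc 1245788),(.ofNat 754716,.negSucc 1121541),(.ofNat 131554,.negSucc 457852),(.negSucc 18020,.negSucc 548639),(.negSucc 28671,.negSucc 667681),(.ofNat 854174,.negSucc 493611),(.ofNat 761573,.negSucc 270148),(.ofNat 646351,.negSucc 268233),(.ofNat 812060,.negSucc 756101),(.ofNat 789033,.negSucc 1055902),(.ofNat 278239,.negSucc 1029646),(.ofNat 14056,.negSucc 934386),(.ofNat 571416,.negSucc 253829),(.ofNat 431932,.negSucc 277962),(.ofNat 358718,.negSucc 341763),(.ofNat 428,.negSucc 906513)]⟩,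
  ⟨1,[(.negSucc 740136,.ofNat 708902),(.negSucc 1004319,.ofNat 804162),(.negSucc 1018349,.ofNat 720056),(.negSucc 1038457,.ofNat 637077),(.negSucc 948113,.ofNat 435231),(.negSucc 511563,.ofNat 630135),(.negSucc 1152655,.negSucc 82703),(.negSucc 1121095,.negSucc 125125),(.negSucc 951534,.negSucc 110699),(.negSucc 815663,.negSucc 156782),(.negSucc 600999,.negSucc 110893),(.negSucc 503846,.negSucc 61586),(.negSucc 302197,.ofNat 170662),(.negSucc 271644,.ofNat 315066),(.negSucc 290441,.ofNat 413535),(.negSucc 320737,.ofNat 463169),(.negSucc 1105064,.ofNat 132329),(.negSucc 1184122,.negSucc 35160),(.negSucc 1169539,.negSucc 57928),(.negSucc 1067644,.ofNat 231328),(.negSucc 943304,.ofNat 426044),(.negSucc 323500,.ofNat 468542),(.negSucc 334832,.ofNat 492760),(.negSucc 601663,.negSucc 91584),(.negSucc 509050,.negSucc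 64573),(.negSucc 940474,.ofNat 431335),(.negSucc 942387,.ofNat 437022)]⟩,
  ⟨5,[(.negSucc 948666,.ofNat 428795),(.negSucc 943304,.ofNat 426044),(.negSucc 940474,.ofNat 431335),(.negSucc 942387,.ofNat 437022),(.negSucc 948113,.ofNat 435231),(.negSucc 956458,.ofNat 432706)]⟩,
  ⟨5,[(.ofNat 432622,.negSucc 138482),(.ofNat 431932,.negSucc 277962),(.ofNat 571416,.negSucc 253829),(.ofNat 804370,.negSucc 181278),(.ofNat 843892,.negSucc 125125),(.ofNat 812332,.negSucc 82703),(.ofNat 676796,.negSucc 7719),(.ofNat 450360,.ofNat 40039),(.ofNat 425625,.negSucc 74937),(.ofNat 646351,.negSucc 268233),(.ofNat 761573,.negSucc 270148),(.ofNat 781814,.negSucc 225326),(.ofNat 774813,.negSucc 36471),(.ofNat 795448,.negSucc 57928),(.ofNat 780865,.negSucc 35160)]⟩,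
  ⟨5,[(.negSucc 214764,.ofNat 402386),(.ofNat 55588,.ofNat 378926),(.ofNat 63307,.ofNat 547768),(.ofNat 40151,.ofNat 607210),(.ofNat 68635,.ofNat 666781),(.negSucc 20845,.ofNat 735700),(.negSucc 320737,.ofNat 463169),(.negSucc 290441,.ofNat 413535),(.negSucc 220766,.ofNat 402383),(.negSucc 82464,.ofNat 764344),(.negSucc 124373,.ofNat 779779),(.negSucc 229342,.ofNat 682646),(.negSucc 263659,.ofNat 617007),(.negSucc 334832,.ofNat 492760),(.negSucc 323500,.ofNat 468542)]⟩,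
  ⟨5,[(.negSucc 600999,.negSucc 110893),(.negSucc 599445,.negSucc 187271),(.negSucc 575549,.negSucc 156755)]⟩,
  ⟨5,[(.negSucc 600999,.negSucc 110893),(.negSucc 575549,.negSucc 156755),(.negSucc 529936,.negSucc 134290),(.negSucc 462592,.negSucc 85524)]⟩,
  ⟨5,[(.negSucc 509050,.negSucc 64573),(.negSucc 601663,.negSucc 91584),(.negSucc 600999,.negSucc 110893),(.negSucc 462592,.negSucc 85524),(.negSucc 439703,.negSucc 86860),(.negSucc 503846,.negSucc 61586)]⟩]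

def E6C : List (ℤ × ℤ) := [
  (.negSucc 0,.ofNat 0),(.negSucc 0,.ofNat 0),(.negSucc 0,.ofNat 1),(.negSucc 0,.negSucc 0),(.negSucc 0,.ofNat 0),(.negSucc 0,.ofNat 1),(.ofNat 0,.negSucc 0),(.ofNat 0,.ofNat 0),(.ofNat 0,.ofNat 1),(.ofNat 1,.negSucc 0),(.ofNat 1,.ofNat 0),(.ofNat 1,.ofNat 1),
  (.ofNat 1,.negSucc 0),(.ofNat 1,.ofNat 0),(.ofNat 1,.ofNat 0),(.negSucc 0,.ofNat 0),(.negSucc 0,.ofNat 0),(.negSucc 0,.ofNat 1),(.negSucc 0,.negSucc 0),(.negSucc 0,.ofNat 0),(.ofNat 0,.ofNat 1),(.ofNat 0,.negSucc 0),(.ofNat 0,.ofNat 0),(.ofNat 1,.ofNat 1),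
  (.ofNat 1,.negSucc 0),(.ofNat 1,.ofNat 0),(.ofNat 1,.ofNat 0),(.ofNat 1,.ofNat 0),(.ofNat 1,.ofNat 0),(.ofNat 1,.ofNat 0),(.negSucc 0,.ofNat 0),(.negSucc 0,.ofNat 0),(.negSucc 0,.ofNat 1),(.negSucc 0,.negSucc 0),(.negSucc 294,.negSucc 53),(.ofNat 0,.ofNat 1),
  (.ofNat 0,.negSucc 0),(.ofNat 0,.ofNat 0),(.ofNat 1,.ofNat 1),(.ofNat 1,.negSucc 0),(.ofNat 1,.ofNat 0),(.ofNat 1,.ofNat 0),(.ofNat 1,.ofNat 0),(.ofNat 1,.ofNat 0),(.ofNat 1,.ofNat 0),(.negSucc 0,.ofNat 0),(.negSucc 0,.ofNat 0),(.negSucc 0,.ofNat 0),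
  (.negSucc 0,.ofNat 0),(.negSucc 0,.ofNat 0),(.negSucc 0,.ofNat 1),(.negSucc 0,.negSucc 0),(.ofNat 0,.ofNat 0),(.ofNat 0,.ofNat 1),(.ofNat 0,.negSucc 0),(.ofNat 1,.ofNat 0),(.ofNat 1,.ofNat 1),(.ofNat 1,.negSucc 0),(.ofNat 1,.ofNat 0),(.ofNat 1,.ofNat 0),
  (.negSucc 0,.ofNat 0),(.negSucc 0,.ofNat 0),(.negSucc 0,.ofNat 1),(.negSucc 0,.negSucc 0),(.negSucc 0,.ofNat 0),(.negSucc 0,.ofNat 1),(.ofNat 0,.negSucc 0),(.ofNat 0,.ofNat 0),(.ofNat 0,.ofNat 1),(.ofNat 1,.negSucc 0),(.ofNat 1,.ofNat 0),(.ofNat 1,.ofNat 1),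
  (.ofNat 1,.negSucc 0),(.ofNat 1,.ofNat 0),(.ofNat 1,.ofNat 0),(.negSucc 0,.ofNat 0),(.negSucc 0,.ofNat 0),(.negSucc 0,.ofNat 0),(.negSucc 0,.negSucc 0),(.negSucc 0,.ofNat 0),(.negSucc 0,.ofNat 1),(.negSucc 0,.negSucc 0),(.ofNat 0,.ofNat 0),(.ofNat 1,.ofNat 3),
  (.ofNat 0,.negSucc 0),(.ofNat 1,.ofNat 0),(.ofNat 1,.ofNat 1),(.ofNat 1,.negSucc 0),(.ofNat 1,.ofNat 0),(.ofNat 1,.ofNat 0),(.negSucc 0,.ofNat 0),(.negSucc 0,.ofNat 0),(.negSucc 0,.ofNat 0),(.negSucc 0,.ofNat 0),(.negSucc 0,.ofNat 0),(.negSucc 0,.ofNat 1),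
  (.negSucc 0,.negSucc 0),(.ofNat 0,.ofNat 0),(.ofNat 0,.ofNat 1),(.ofNat 0,.negSucc 0),(.ofNat 295,.ofNat 54),(.ofNat 1,.ofNat 1),(.ofNat 1,.negSucc 0),(.ofNat 1,.ofNat 0),(.ofNat 1,.ofNat 0),(.negSucc 0,.ofNat 0),(.negSucc 0,.ofNat 0),(.negSucc 0,.ofNat 1),
  (.negSucc 0,.negSucc 0),(.negSucc 0,.ofNat 0),(.ofNat 0,.ofNat 1),(.negSucc 0,.negSucc 2),(.ofNat 0,.ofNat 0),(.ofNat 1,.ofNat 1),(.ofNat 1,.negSucc 0),(.ofNat 1,.ofNat 0),(.ofNat 1,.ofNat 1),(.ofNat 1,.ofNat 0),(.ofNat 1,.ofNat 0),(.ofNat 1,.ofNat 0),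
  (.negSucc 0,.ofNat 0),(.negSucc 0,.ofNat 0),(.negSucc 0,.ofNat 1),(.negSucc 0,.negSucc 0),(.negSucc 29968,.ofNat 1358),(.negSucc 1,.ofNat 3),(.negSucc 159,.negSucc 253),(.ofNat 0,.ofNat 0),(.ofNat 160,.ofNat 254),(.ofNat 2,.negSucc 2),(.ofNat 29969,.negSucc 1357),(.ofNat 1,.ofNat 1),
  (.ofNat 1,.negSucc 0),(.ofNat 1,.ofNat 0),(.ofNat 1,.ofNat 0),(.negSucc 0,.ofNat 0),(.negSucc 0,.ofNat 0),(.negSucc 0,.ofNat 1),(.negSucc 0,.negSucc 0),(.negSucc 0,.ofNat 0),(.negSucc 0,.ofNat 1),(.ofNat 0,.negSucc 0),(.ofNat 0,.ofNat 0),(.ofNat 0,.ofNat 1),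
  (.ofNat 1,.negSucc 0),(.ofNat 1,.ofNat 0),(.ofNat 1,.ofNat 1),(.ofNat 1,.negSucc 0),(.ofNat 1,.ofNat 0),(.ofNat 1,.ofNat 0),(.negSucc 0,.ofNat 0),(.negSucc 0,.ofNat 0),(.negSucc 0,.ofNat 1),(.negSucc 0,.ofNat 0),(.negSucc 0,.ofNat 0),(.ofNat 0,.ofNat 1),
  (.negSucc 5,.negSucc 7),(.ofNat 0,.ofNat 0),(.ofNat 0,.ofNat 1),(.ofNat 1,.negSucc 0),(.ofNat 1,.ofNat 0),(.ofNat 1,.ofNat 1),(.ofNat 1,.ofNat 0),(.ofNat 1,.ofNat 0),(.ofNat 1,.ofNat 0),(.negSucc 0,.ofNat 0),(.negSucc 0,.ofNat 0),(.negSucc 0,.ofNat 0),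
  (.negSucc 0,.negSucc 0),(.negSucc 0,.ofNat 0),(.negSucc 0,.ofNat 1),(.ofNat 0,.negSucc 0),(.ofNat 0,.ofNat 0),(.ofNat 6,.ofNat 8),(.ofNat 0,.negSucc 0),(.ofNat 1,.ofNat 0),(.ofNat 1,.ofNat 0),(.ofNat 1,.negSucc 0),(.ofNat 1,.ofNat 0),(.ofNat 1,.ofNat 0),
  (.negSucc 0,.ofNat 0),(.negSucc 0,.ofNat 0),(.negSucc 0,.ofNat 1),(.negSucc 0,.negSucc 0),(.negSucc 0,.ofNat 0),(.negSucc 1,.ofNat 3),(.negSucc 121,.negSucc 273),(.ofNat 0,.ofNat 0),(.ofNat 122,.ofNat 274),(.ofNat 2,.negSucc 2),(.ofNat 1,.ofNat 0),(.ofNat 1,.ofNat 1),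
  (.ofNat 1,.negSucc 0),(.ofNat 1,.ofNat 0),(.ofNat 1,.ofNat 0),(.negSucc 0,.ofNat 0),(.negSucc 0,.ofNat 0),(.negSucc 0,.ofNat 1),(.negSucc 0,.negSucc 0),(.negSucc 0,.ofNat 0),(.negSucc 0,.ofNat 1),(.ofNat 0,.negSucc 0),(.ofNat 0,.ofNat 0),(.ofNat 0,.ofNat 1),
  (.ofNat 1,.negSucc 0),(.ofNat 1,.ofNat 0),(.ofNat 1,.ofNat 1),(.ofNat 1,.negSucc 0),(.ofNat 1,.ofNat 0),(.ofNat 1,.ofNat 0),(.negSucc 0,.ofNat 0),(.negSucc 0,.ofNat 0),(.negSucc 0,.ofNat 0),(.negSucc 0,.ofNat 0),(.negSucc 0,.ofNat 0),(.negSucc 0,.ofNat 1),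
  (.negSucc 0,.negSucc 0),(.ofNat 0,.ofNat 0),(.ofNat 0,.ofNat 1),(.ofNat 0,.negSucc 0),(.ofNat 39,.negSucc 6),(.ofNat 1,.ofNat 1),(.ofNat 1,.negSucc 0),(.ofNat 1,.ofNat 0),(.ofNat 1,.ofNat 0),(.negSucc 0,.ofNat 0),(.negSucc 0,.ofNat 0),(.negSucc 0,.ofNat 1),
  (.negSucc 0,.negSucc 0),(.negSucc 38,.ofNat 7),(.ofNat 0,.ofNat 1),(.ofNat 0,.negSucc 0),(.ofNat 0,.ofNat 0),(.ofNat 1,.ofNat 1),(.ofNat 1,.negSucc 0),(.ofNat 1,.ofNat 0),(.ofNat 1,.ofNat 0),(.ofNat 1,.ofNat 0),(.ofNat 1,.ofNat 0),(.ofNat 1,.ofNat 0),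
  (.negSucc 0,.ofNat 0),(.negSucc 0,.ofNat 0),(.negSucc 0,.ofNat 1),(.negSucc 0,.negSucc 0),(.negSucc 0,.ofNat 0),(.negSucc 1,.ofNat 3),(.negSucc 16549,.negSucc 25021),(.ofNat 0,.ofNat 0),(.ofNat 16550,.ofNat 25022),(.ofNat 2,.negSucc 2),(.ofNat 1,.ofNat 0),(.ofNat 1,.ofNat 1),
  (.ofNat 1,.negSucc 0),(.ofNat 1,.ofNat 0),(.ofNat 1,.ofNat 0),(.negSucc 0,.ofNat 0),(.negSucc 0,.ofNat 0),(.negSucc 0,.ofNat 1),(.negSucc 0,.negSucc 0),(.negSucc 0,.ofNat 0),(.negSucc 0,.ofNat 1),(.ofNat 0,.negSucc 0),(.ofNat 0,.ofNat 0),(.ofNat 0,.ofNat 1),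
  (.ofNat 1,.negSucc 0),(.ofNat 1,.ofNat 0),(.ofNat 1,.ofNat 1),(.ofNat 1,.negSucc 0),(.ofNat 1,.ofNat 0),(.ofNat 1,.ofNat 0),(.negSucc 0,.ofNat 0),(.negSucc 0,.ofNat 0),(.negSucc 0,.ofNat 1),(.negSucc 0,.ofNat 0),(.negSucc 0,.ofNat 0),(.negSucc 0,.ofNat 1),
  (.negSucc 0,.ofNat 0),(.negSucc 0,.ofNat 1),(.ofNat 0,.ofNat 1),(.ofNat 12,.negSucc 37),(.ofNat 1,.ofNat 1),(.ofNat 1,.ofNat 1),(.ofNat 1,.ofNat 0),(.ofNat 1,.ofNat 0),(.ofNat 1,.ofNat 1),(.negSucc 0,.ofNat 0),(.negSucc 0,.ofNat 0),(.negSucc 0,.ofNat 1),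
  (.negSucc 0,.ofNat 0),(.negSucc 0,.ofNat 0),(.ofNat 0,.ofNat 1),(.ofNat 0,.negSucc 0),(.ofNat 8,.ofNat 6),(.ofNat 1,.ofNat 1),(.ofNat 1,.negSucc 0),(.ofNat 1,.ofNat 0),(.ofNat 1,.ofNat 1),(.ofNat 1,.ofNat 0),(.ofNat 1,.ofNat 0),(.ofNat 1,.ofNat 0),
  (.negSucc 0,.ofNat 0),(.negSucc 0,.ofNat 0),(.negSucc 0,.ofNat 1),(.negSucc 0,.ofNat 0),(.negSucc 0,.ofNat 1),(.ofNat 0,.ofNat 1),(.negSucc 2,.negSucc 0),(.ofNat 0,.ofNat 1),(.ofNat 0,.ofNat 1),(.ofNat 1,.ofNat 0),(.ofNat 1,.ofNat 1),(.ofNat 1,.ofNat 1),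
  (.ofNat 1,.ofNat 0),(.ofNat 1,.ofNat 0),(.ofNat 1,.ofNat 1),(.negSucc 0,.ofNat 0),(.negSucc 0,.ofNat 0),(.negSucc 0,.ofNat 1),(.negSucc 0,.ofNat 0),(.negSucc 0,.ofNat 0),(.negSucc 0,.ofNat 1),(.negSucc 0,.negSucc 0),(.negSucc 26,.ofNat 30),(.ofNat 0,.ofNat 1),
  (.ofNat 0,.negSucc 0),(.ofNat 1,.ofNat 0),(.ofNat 1,.ofNat 1),(.ofNat 1,.ofNat 0),(.ofNat 1,.ofNat 0),(.ofNat 1,.ofNat 0),(.negSucc 0,.ofNat 0),(.negSucc 0,.ofNat 0),(.negSucc 0,.ofNat 1),(.negSucc 0,.ofNat 0),(.negSucc 0,.ofNat 0),(.negSucc 0,.ofNat 1),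
  (.negSucc 0,.negSucc 0),(.negSucc 20,.ofNat 34),(.ofNat 0,.ofNat 1),(.ofNat 0,.negSucc 0),(.ofNat 1,.ofNat 0),(.ofNat 1,.ofNat 1),(.ofNat 1,.ofNat 0),(.ofNat 1,.ofNat 0),(.ofNat 1,.ofNat 0),(.negSucc 0,.ofNat 0),(.negSucc 0,.ofNat 0),(.negSucc 0,.ofNat 1),
  (.negSucc 0,.ofNat 0),(.negSucc 0,.ofNat 0),(.negSucc 0,.ofNat 1),(.negSucc 0,.negSucc 0),(.negSucc 14,.ofNat 37),(.ofNat 0,.ofNat 1),(.ofNat 0,.negSucc 0),(.ofNat 1,.ofNat 0),(.ofNat 1,.ofNat 1),(.ofNat 1,.ofNat 0),(.ofNat 1,.ofNat 0),(.ofNat 1,.ofNat 0),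
  (.negSucc 0,.ofNat 0),(.negSucc 0,.ofNat 0),(.negSucc 0,.ofNat 1),(.negSucc 0,.negSucc 0),(.negSucc 0,.ofNat 0),(.negSucc 0,.ofNat 1),(.ofNat 0,.negSucc 0),(.ofNat 0,.ofNat 0),(.ofNat 0,.ofNat 1),(.ofNat 1,.negSucc 0),(.ofNat 1,.ofNat 0),(.ofNat 1,.ofNat 1),
  (.ofNat 1,.negSucc 0),(.ofNat 1,.ofNat 0),(.ofNat 1,.ofNat 0),(.negSucc 0,.ofNat 0),(.negSucc 0,.ofNat 0),(.negSucc 0,.ofNat 1),(.negSucc 0,.ofNat 0),(.negSucc 0,.ofNat 0),(.negSucc 0,.ofNat 1),(.negSucc 0,.negSucc 0),(.ofNat 0,.ofNat 0),(.ofNat 0,.ofNat 1),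
  (.ofNat 1,.negSucc 2),(.ofNat 296,.ofNat 46),(.ofNat 1,.ofNat 1),(.ofNat 1,.ofNat 0),(.ofNat 1,.ofNat 0),(.ofNat 1,.ofNat 0),(.negSucc 0,.ofNat 0),(.negSucc 0,.ofNat 0),(.negSucc 0,.ofNat 0),(.negSucc 0,.negSucc 0),(.negSucc 295,.negSucc 45),(.negSucc 0,.ofNat 3),
  (.ofNat 0,.negSucc 0),(.ofNat 0,.ofNat 0),(.ofNat 1,.ofNat 1),(.ofNat 1,.negSucc 0),(.ofNat 1,.ofNat 0),(.ofNat 1,.ofNat 0),(.ofNat 1,.negSucc 0),(.ofNat 1,.ofNat 0),(.ofNat 1,.ofNat 0),(.negSucc 0,.ofNat 0),(.negSucc 0,.ofNat 0),(.negSucc 0,.ofNat 1),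
  (.negSucc 0,.negSucc 0),(.negSucc 0,.ofNat 0),(.negSucc 1,.ofNat 3),(.negSucc 4,.negSucc 8),(.ofNat 0,.ofNat 0),(.ofNat 5,.ofNat 9),(.ofNat 2,.negSucc 2),(.ofNat 1,.ofNat 0),(.ofNat 1,.ofNat 1),(.ofNat 1,.negSucc 0),(.ofNat 1,.ofNat 0),(.ofNat 1,.ofNat 0),
  (.negSucc 0,.ofNat 0),(.negSucc 0,.ofNat 0),(.negSucc 0,.ofNat 1),(.negSucc 0,.negSucc 0),(.negSucc 0,.ofNat 0),(.negSucc 1,.ofNat 3),(.negSucc 0,.negSucc 2),(.ofNat 0,.ofNat 0),(.ofNat 1,.ofNat 3),(.ofNat 2,.negSucc 2),(.ofNat 1,.ofNat 0),(.ofNat 1,.ofNat 1),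
  (.ofNat 1,.negSucc 0),(.ofNat 1,.ofNat 0),(.ofNat 1,.ofNat 0),(.negSucc 0,.negSucc 0),(.negSucc 0,.ofNat 0),(.negSucc 0,.ofNat 0),(.negSucc 0,.negSucc 0),(.negSucc 0,.negSucc 0),(.negSucc 11,.ofNat 38),(.ofNat 0,.negSucc 0),(.ofNat 1,.negSucc 0),(.ofNat 1,.ofNat 0),
  (.ofNat 1,.negSucc 0),(.ofNat 1,.ofNat 0),(.ofNat 1,.ofNat 0),(.ofNat 1,.negSucc 0),(.ofNat 1,.ofNat 0),(.ofNat 1,.ofNat 0),(.negSucc 0,.ofNat 0),(.negSucc 0,.ofNat 0),(.negSucc 0,.ofNat 1),(.negSucc 0,.negSucc 0),(.negSucc 0,.ofNat 0),(.negSucc 0,.ofNat 1),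
  (.ofNat 0,.negSucc 0),(.ofNat 0,.ofNat 0),(.ofNat 0,.ofNat 1),(.ofNat 1,.negSucc 0),(.ofNat 1,.ofNat 0),(.ofNat 1,.ofNat 1),(.ofNat 1,.negSucc 0),(.ofNat 1,.ofNat 0),(.ofNat 1,.ofNat 0),(.negSucc 0,.negSucc 0),(.negSucc 0,.ofNat 0),(.negSucc 0,.ofNat 1),
  (.negSucc 0,.negSucc 0),(.negSucc 17,.negSucc 35),(.ofNat 0,.ofNat 1),(.ofNat 0,.negSucc 0),(.ofNat 1,.ofNat 0),(.ofNat 1,.ofNat 0),(.ofNat 1,.negSucc 0),(.ofNat 1,.ofNat 0),(.ofNat 1,.ofNat 0),(.ofNat 1,.ofNat 0),(.ofNat 1,.ofNat 0),(.ofNat 1,.ofNat 0),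
  (.negSucc 0,.ofNat 0),(.negSucc 0,.ofNat 0),(.negSucc 0,.ofNat 1),(.negSucc 0,.negSucc 0),(.negSucc 0,.ofNat 0),(.ofNat 0,.ofNat 1),(.ofNat 0,.negSucc 0),(.ofNat 1,.ofNat 0),(.ofNat 1,.ofNat 1),(.ofNat 1,.negSucc 0),(.ofNat 1,.ofNat 0),(.ofNat 1,.ofNat 0),
  (.ofNat 1,.ofNat 0),(.ofNat 1,.ofNat 0),(.ofNat 1,.ofNat 0),(.negSucc 0,.ofNat 0),(.negSucc 0,.ofNat 0),(.negSucc 0,.ofNat 0),(.negSucc 0,.negSucc 0),(.negSucc 0,.ofNat 0),(.ofNat 0,.ofNat 1),(.ofNat 0,.negSucc 0),(.ofNat 1,.negSucc 0),(.ofNat 1,.ofNat 1),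
  (.ofNat 1,.negSucc 0),(.ofNat 1,.ofNat 0),(.ofNat 1,.ofNat 0),(.ofNat 1,.negSucc 0),(.ofNat 1,.ofNat 0),(.ofNat 1,.ofNat 0),(.negSucc 0,.ofNat 0),(.negSucc 0,.ofNat 0),(.negSucc 0,.ofNat 0),(.negSucc 0,.negSucc 0),(.negSucc 0,.ofNat 0),(.ofNat 0,.ofNat 1),
  (.ofNat 0,.negSucc 0),(.ofNat 1,.negSucc 0),(.ofNat 1,.ofNat 1),(.ofNat 1,.negSucc 0),(.ofNat 1,.ofNat 0),(.ofNat 1,.ofNat 0),(.ofNat 1,.negSucc 0),(.ofNat 1,.ofNat 0),(.ofNat 1,.ofNat 0),(.negSucc 0,.ofNat 0),(.negSucc 0,.ofNat 0),(.negSucc 0,.ofNat 0),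
  (.negSucc 0,.negSucc 0),(.negSucc 0,.ofNat 0),(.ofNat 0,.ofNat 1),(.ofNat 0,.negSucc 0),(.ofNat 1,.negSucc 0),(.ofNat 1,.ofNat 1),(.ofNat 1,.negSucc 0),(.ofNat 1,.ofNat 0),(.ofNat 1,.ofNat 0),(.ofNat 1,.negSucc 0),(.ofNat 1,.ofNat 0),(.ofNat 1,.ofNat 0),
  (.negSucc 0,.ofNat 0),(.negSucc 0,.ofNat 0),(.negSucc 0,.ofNat 0),(.negSucc 0,.negSucc 0),(.negSucc 0,.ofNat 0),(.negSucc 0,.ofNat 1),(.negSucc 0,.negSucc 0),(.negSucc 7,.negSucc 5),(.ofNat 0,.ofNat 1),(.ofNat 0,.negSucc 0),(.ofNat 1,.ofNat 0),(.ofNat 1,.ofNat 0),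
  (.ofNat 1,.negSucc 0),(.ofNat 1,.ofNat 0),(.ofNat 1,.ofNat 0),(.negSucc 0,.ofNat 0),(.negSucc 0,.ofNat 0),(.negSucc 0,.ofNat 0),(.negSucc 0,.ofNat 0),(.negSucc 0,.ofNat 0),(.negSucc 0,.ofNat 1),(.negSucc 0,.ofNat 0),(.negSucc 0,.ofNat 0),(.ofNat 0,.ofNat 1),
  (.ofNat 0,.negSucc 0),(.ofNat 18,.ofNat 36),(.ofNat 1,.ofNat 1),(.ofNat 1,.negSucc 0),(.ofNat 1,.ofNat 0),(.ofNat 1,.ofNat 1),(.negSucc 0,.ofNat 0),(.negSucc 0,.ofNat 0),(.negSucc 0,.ofNat 1),(.negSucc 0,.negSucc 0),(.negSucc 0,.ofNat 0),(.negSucc 0,.ofNat 1),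
  (.ofNat 0,.negSucc 0),(.ofNat 0,.ofNat 0),(.ofNat 0,.ofNat 1),(.ofNat 1,.negSucc 0),(.ofNat 1,.ofNat 0),(.ofNat 1,.ofNat 1),(.ofNat 1,.negSucc 0),(.ofNat 1,.ofNat 0),(.ofNat 1,.ofNat 0),(.negSucc 0,.ofNat 0),(.negSucc 0,.ofNat 0),(.negSucc 0,.ofNat 1),
  (.negSucc 0,.ofNat 0),(.negSucc 0,.ofNat 0),(.negSucc 0,.ofNat 1),(.negSucc 0,.negSucc 0),(.negSucc 7,.ofNat 7),(.ofNat 0,.ofNat 1),(.ofNat 0,.negSucc 0),(.ofNat 1,.ofNat 0),(.ofNat 1,.ofNat 1),(.ofNat 1,.ofNat 0),(.ofNat 1,.ofNat 0),(.ofNat 1,.ofNat 1),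
  (.negSucc 0,.ofNat 0),(.negSucc 0,.ofNat 0),(.negSucc 0,.ofNat 0),(.negSucc 0,.ofNat 0),(.negSucc 0,.ofNat 0),(.negSucc 0,.ofNat 1),(.negSucc 0,.negSucc 0),(.negSucc 0,.ofNat 0),(.ofNat 0,.ofNat 1),(.ofNat 0,.negSucc 0),(.ofNat 1,.ofNat 0),(.ofNat 1,.ofNat 1),
  (.ofNat 1,.negSucc 0),(.ofNat 1,.ofNat 0),(.ofNat 1,.ofNat 0),(.negSucc 0,.ofNat 0),(.negSucc 0,.ofNat 0),(.negSucc 0,.ofNat 0),(.negSucc 0,.ofNat 0),(.negSucc 0,.ofNat 0),(.negSucc 0,.ofNat 1),(.negSucc 0,.negSucc 0),(.negSucc 0,.ofNat 0),(.ofNat 0,.ofNat 1),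
  (.ofNat 0,.negSucc 0),(.ofNat 1,.ofNat 0),(.ofNat 1,.ofNat 1),(.ofNat 1,.negSucc 0),(.ofNat 1,.ofNat 0),(.ofNat 1,.ofNat 0),(.negSucc 0,.ofNat 0),(.negSucc 0,.ofNat 0),(.negSucc 0,.ofNat 0),(.negSucc 0,.ofNat 0),(.negSucc 0,.ofNat 0),(.negSucc 0,.ofNat 1),
  (.negSucc 0,.negSucc 0),(.negSucc 0,.ofNat 0),(.ofNat 0,.ofNat 1),(.ofNat 0,.negSucc 0),(.ofNat 40,.ofNat 1),(.ofNat 1,.ofNat 1),(.ofNat 1,.negSucc 0),(.ofNat 1,.ofNat 0),(.ofNat 1,.ofNat 0),(.negSucc 0,.negSucc 0),(.negSucc 0,.ofNat 0),(.negSucc 0,.ofNat 0),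
  (.negSucc 0,.negSucc 0),(.negSucc 0,.negSucc 0),(.negSucc 0,.ofNat 0),(.ofNat 0,.negSucc 0),(.ofNat 0,.negSucc 0),(.ofNat 3,.ofNat 1),(.ofNat 0,.negSucc 0),(.ofNat 1,.negSucc 0),(.ofNat 1,.ofNat 0),(.ofNat 1,.negSucc 0),(.ofNat 1,.ofNat 0),(.ofNat 1,.ofNat 0),
  (.negSucc 0,.ofNat 0),(.negSucc 0,.ofNat 0),(.negSucc 0,.ofNat 0),(.negSucc 0,.ofNat 0),(.negSucc 0,.ofNat 0),(.negSucc 0,.ofNat 1),(.negSucc 0,.negSucc 0),(.negSucc 0,.ofNat 0),(.ofNat 0,.ofNat 1),(.ofNat 0,.negSucc 0),(.ofNat 1,.ofNat 0),(.ofNat 1,.ofNat 1),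
  (.ofNat 1,.negSucc 0),(.ofNat 1,.ofNat 0),(.ofNat 1,.ofNat 0),(.negSucc 0,.negSucc 0),(.negSucc 0,.ofNat 0),(.negSucc 0,.ofNat 0),(.negSucc 0,.negSucc 0),(.negSucc 0,.ofNat 0),(.ofNat 0,.ofNat 1),(.ofNat 0,.negSucc 0),(.ofNat 8,.negSucc 6),(.ofNat 1,.ofNat 1),
  (.ofNat 1,.negSucc 0),(.ofNat 1,.ofNat 0),(.ofNat 1,.ofNat 0),(.ofNat 1,.negSucc 0),(.ofNat 1,.ofNat 0),(.ofNat 1,.ofNat 0),(.negSucc 0,.ofNat 0),(.negSucc 0,.ofNat 0),(.negSucc 0,.ofNat 1),(.negSucc 0,.negSucc 0),(.negSucc 0,.ofNat 0),(.negSucc 0,.ofNat 1),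
  (.ofNat 0,.negSucc 0),(.ofNat 0,.ofNat 0),(.ofNat 0,.ofNat 1),(.ofNat 1,.negSucc 0),(.ofNat 1,.ofNat 0),(.ofNat 1,.ofNat 1),(.ofNat 1,.negSucc 0),(.ofNat 1,.ofNat 0),(.ofNat 1,.ofNat 0),(.negSucc 0,.ofNat 0),(.negSucc 0,.ofNat 0),(.negSucc 0,.ofNat 0),
  (.negSucc 0,.negSucc 0),(.negSucc 0,.ofNat 0),(.negSucc 0,.ofNat 1),(.ofNat 0,.negSucc 0),(.negSucc 0,.negSucc 0),(.ofNat 0,.ofNat 1),(.ofNat 0,.negSucc 0),(.ofNat 1,.ofNat 0),(.ofNat 1,.ofNat 0),(.ofNat 1,.negSucc 0),(.ofNat 1,.ofNat 0),(.ofNat 1,.ofNat 0),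
  (.negSucc 0,.ofNat 0),(.negSucc 0,.ofNat 0),(.negSucc 0,.ofNat 0),(.negSucc 0,.negSucc 0),(.negSucc 0,.ofNat 0),(.negSucc 0,.ofNat 1),(.ofNat 0,.negSucc 0),(.negSucc 0,.negSucc 2),(.ofNat 0,.ofNat 1),(.ofNat 0,.negSucc 0),(.ofNat 1,.ofNat 0),(.ofNat 1,.ofNat 0),
  (.ofNat 1,.negSucc 0),(.ofNat 1,.ofNat 0),(.ofNat 1,.ofNat 0),(.negSucc 0,.ofNat 0),(.negSucc 0,.ofNat 0),(.negSucc 0,.ofNat 0),(.negSucc 0,.negSucc 0),(.negSucc 0,.ofNat 0),(.negSucc 0,.ofNat 1),(.ofNat 0,.negSucc 0),(.negSucc 109,.negSucc 278),(.ofNat 0,.ofNat 1),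
  (.ofNat 0,.negSucc 0),(.ofNat 1,.ofNat 0),(.ofNat 1,.ofNat 0),(.ofNat 1,.negSucc 0),(.ofNat 1,.ofNat 0),(.ofNat 1,.ofNat 0),(.negSucc 0,.ofNat 0),(.negSucc 0,.ofNat 0),(.negSucc 0,.ofNat 0),(.negSucc 0,.negSucc 0),(.negSucc 0,.ofNat 0),(.ofNat 0,.ofNat 1),
  (.ofNat 0,.negSucc 0),(.ofNat 27,.negSucc 29),(.ofNat 1,.ofNat 1),(.ofNat 1,.negSucc 0),(.ofNat 1,.ofNat 0),(.ofNat 1,.ofNat 0),(.ofNat 1,.negSucc 0),(.ofNat 1,.ofNat 0),(.ofNat 1,.ofNat 0),(.negSucc 0,.ofNat 0),(.negSucc 0,.ofNat 0),(.negSucc 0,.ofNat 1),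
  (.negSucc 0,.ofNat 0),(.negSucc 0,.ofNat 0),(.negSucc 0,.ofNat 1),(.negSucc 0,.negSucc 0),(.negSucc 0,.ofNat 1),(.ofNat 0,.ofNat 1),(.ofNat 0,.negSucc 0),(.ofNat 1,.ofNat 0),(.ofNat 1,.ofNat 1),(.ofNat 1,.ofNat 0),(.ofNat 1,.ofNat 0),(.ofNat 1,.ofNat 0),
  (.negSucc 0,.ofNat 0),(.negSucc 0,.ofNat 0),(.negSucc 0,.ofNat 1),(.negSucc 0,.negSucc 0),(.negSucc 0,.ofNat 0),(.ofNat 0,.ofNat 1),(.ofNat 0,.negSucc 0),(.ofNat 1,.ofNat 0),(.ofNat 1,.ofNat 1),(.ofNat 1,.negSucc 0),(.ofNat 1,.ofNat 0),(.ofNat 1,.ofNat 0),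
  (.ofNat 1,.ofNat 0),(.ofNat 1,.ofNat 0),(.ofNat 1,.ofNat 0),(.negSucc 0,.ofNat 0),(.negSucc 0,.ofNat 0),(.negSucc 0,.ofNat 1),(.negSucc 0,.ofNat 0),(.negSucc 0,.ofNat 0),(.ofNat 0,.ofNat 1),(.ofNat 0,.negSucc 0),(.ofNat 1,.ofNat 1),(.ofNat 0,.ofNat 1),
  (.ofNat 1,.negSucc 0),(.ofNat 1,.ofNat 0),(.ofNat 1,.ofNat 1),(.ofNat 1,.ofNat 0),(.ofNat 1,.ofNat 0),(.ofNat 1,.ofNat 0),(.negSucc 0,.ofNat 0),(.negSucc 0,.ofNat 0),(.negSucc 0,.ofNat 1),(.negSucc 0,.negSucc 0),(.negSucc 0,.ofNat 0),(.negSucc 0,.ofNat 1),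
  (.ofNat 0,.negSucc 0),(.ofNat 0,.ofNat 0),(.ofNat 0,.ofNat 1),(.ofNat 1,.negSucc 0),(.ofNat 1,.ofNat 0),(.ofNat 1,.ofNat 1),(.ofNat 1,.negSucc 0),(.ofNat 1,.ofNat 0),(.ofNat 1,.ofNat 0),(.negSucc 0,.ofNat 0),(.negSucc 0,.ofNat 0),(.negSucc 0,.ofNat 1),
  (.negSucc 0,.negSucc 0),(.negSucc 0,.ofNat 0),(.ofNat 0,.ofNat 1),(.ofNat 0,.negSucc 0),(.ofNat 0,.ofNat 0),(.ofNat 0,.ofNat 1),(.ofNat 1,.negSucc 0),(.ofNat 1,.ofNat 0),(.ofNat 1,.ofNat 1),(.ofNat 1,.ofNat 0),(.ofNat 1,.ofNat 0),(.ofNat 1,.ofNat 0),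
  (.negSucc 0,.ofNat 0),(.negSucc 0,.ofNat 0),(.negSucc 0,.ofNat 1),(.negSucc 0,.negSucc 0),(.negSucc 0,.ofNat 0),(.ofNat 0,.ofNat 1),(.ofNat 0,.negSucc 0),(.ofNat 0,.ofNat 0),(.ofNat 0,.ofNat 1),(.ofNat 1,.negSucc 0),(.ofNat 1,.ofNat 0),(.ofNat 1,.ofNat 1),
  (.ofNat 1,.ofNat 0),(.ofNat 1,.ofNat 0),(.ofNat 1,.ofNat 0),(.negSucc 0,.ofNat 0),(.negSucc 0,.ofNat 0),(.negSucc 0,.ofNat 0),(.negSucc 0,.negSucc 0),(.negSucc 0,.ofNat 0),(.ofNat 0,.ofNat 1),(.ofNat 0,.negSucc 0),(.ofNat 21,.negSucc 33),(.ofNat 1,.ofNat 1),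
  (.ofNat 1,.negSucc 0),(.ofNat 1,.ofNat 0),(.ofNat 1,.ofNat 0),(.ofNat 1,.negSucc 0),(.ofNat 1,.ofNat 0),(.ofNat 1,.ofNat 0),(.negSucc 0,.ofNat 0),(.negSucc 0,.ofNat 0),(.negSucc 0,.ofNat 1),(.negSucc 0,.ofNat 0),(.negSucc 0,.ofNat 0),(.negSucc 0,.ofNat 1),
  (.negSucc 0,.negSucc 0),(.negSucc 0,.ofNat 1),(.ofNat 0,.ofNat 1),(.ofNat 0,.negSucc 0),(.ofNat 1,.ofNat 0),(.ofNat 1,.ofNat 1),(.ofNat 1,.ofNat 0),(.ofNat 1,.ofNat 0),(.ofNat 1,.ofNat 0),(.negSucc 0,.ofNat 0),(.negSucc 0,.ofNat 0),(.negSucc 0,.ofNat 1),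
  (.negSucc 0,.negSucc 0),(.negSucc 0,.ofNat 0),(.ofNat 0,.ofNat 1),(.ofNat 0,.negSucc 0),(.ofNat 1,.ofNat 0),(.ofNat 1,.ofNat 1),(.ofNat 1,.negSucc 0),(.ofNat 1,.ofNat 0),(.ofNat 1,.ofNat 0),(.ofNat 1,.ofNat 0),(.ofNat 1,.ofNat 0),(.ofNat 1,.ofNat 0),
  (.negSucc 0,.ofNat 0),(.negSucc 0,.ofNat 0),(.negSucc 0,.ofNat 1),(.negSucc 0,.ofNat 0),(.negSucc 0,.ofNat 0),(.ofNat 0,.ofNat 1),(.ofNat 0,.negSucc 0),(.ofNat 1,.ofNat 3),(.ofNat 0,.ofNat 1),(.ofNat 1,.negSucc 0),(.ofNat 1,.ofNat 0),(.ofNat 1,.ofNat 1),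
  (.ofNat 1,.ofNat 0),(.ofNat 1,.ofNat 0),(.ofNat 1,.ofNat 0),(.negSucc 0,.ofNat 0),(.negSucc 0,.ofNat 0),(.negSucc 0,.ofNat 0),(.negSucc 0,.negSucc 0),(.negSucc 0,.ofNat 0),(.negSucc 0,.ofNat 1),(.ofNat 0,.negSucc 0),(.ofNat 0,.ofNat 0),(.ofNat 0,.ofNat 1),
  (.ofNat 0,.negSucc 0),(.ofNat 1,.ofNat 0),(.ofNat 1,.ofNat 1),(.ofNat 1,.negSucc 0),(.ofNat 1,.ofNat 0),(.ofNat 1,.ofNat 0),(.negSucc 0,.ofNat 0),(.negSucc 0,.ofNat 0),(.negSucc 0,.ofNat 1),(.negSucc 0,.negSucc 0),(.negSucc 0,.ofNat 0),(.negSucc 0,.ofNat 1),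
  (.ofNat 0,.negSucc 0),(.ofNat 0,.ofNat 0),(.ofNat 0,.ofNat 1),(.ofNat 1,.negSucc 0),(.ofNat 1,.ofNat 0),(.ofNat 1,.ofNat 1),(.ofNat 1,.negSucc 0),(.ofNat 1,.ofNat 0),(.ofNat 1,.ofNat 0),(.negSucc 0,.ofNat 0),(.negSucc 0,.ofNat 0),(.negSucc 0,.ofNat 1),
  (.negSucc 0,.negSucc 0),(.negSucc 0,.ofNat 0),(.ofNat 0,.ofNat 1),(.ofNat 0,.negSucc 0),(.ofNat 0,.ofNat 0),(.ofNat 0,.ofNat 1),(.ofNat 1,.negSucc 0),(.ofNat 1,.ofNat 0),(.ofNat 1,.ofNat 1),(.ofNat 1,.ofNat 0),(.ofNat 1,.ofNat 0),(.ofNat 1,.ofNat 0),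
  (.negSucc 0,.ofNat 0),(.negSucc 0,.ofNat 0),(.negSucc 0,.ofNat 0),(.negSucc 0,.negSucc 0),(.negSucc 0,.ofNat 0),(.ofNat 0,.ofNat 1),(.ofNat 0,.negSucc 0),(.ofNat 15,.negSucc 36),(.ofNat 1,.ofNat 1),(.ofNat 1,.negSucc 0),(.ofNat 1,.ofNat 0),(.ofNat 1,.ofNat 0),
  (.ofNat 1,.negSucc 0),(.ofNat 1,.ofNat 0),(.ofNat 1,.ofNat 0),(.negSucc 0,.ofNat 0),(.negSucc 0,.ofNat 0),(.negSucc 0,.ofNat 1),(.negSucc 0,.ofNat 0),(.negSucc 0,.ofNat 0),(.negSucc 0,.ofNat 1),(.negSucc 0,.negSucc 0),(.negSucc 0,.ofNat 1),(.ofNat 0,.ofNat 1),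
  (.ofNat 0,.negSucc 0),(.ofNat 1,.ofNat 0),(.ofNat 1,.ofNat 1),(.ofNat 1,.ofNat 0),(.ofNat 1,.ofNat 0),(.ofNat 1,.ofNat 0),(.negSucc 0,.ofNat 0),(.negSucc 0,.ofNat 0),(.negSucc 0,.ofNat 1),(.negSucc 0,.negSucc 0),(.negSucc 39,.negSucc 0),(.ofNat 0,.ofNat 1),
  (.ofNat 0,.negSucc 0),(.ofNat 1,.ofNat 0),(.ofNat 1,.ofNat 1),(.ofNat 1,.negSucc 0),(.ofNat 1,.ofNat 0),(.ofNat 1,.ofNat 0),(.ofNat 1,.ofNat 0),(.ofNat 1,.ofNat 0),(.ofNat 1,.ofNat 0),(.negSucc 0,.ofNat 0),(.negSucc 0,.ofNat 0),(.negSucc 0,.ofNat 1),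
  (.negSucc 0,.ofNat 0),(.negSucc 0,.ofNat 0),(.ofNat 0,.ofNat 1),(.ofNat 0,.negSucc 0),(.ofNat 110,.ofNat 279),(.ofNat 0,.ofNat 1),(.ofNat 1,.negSucc 0),(.ofNat 1,.ofNat 0),(.ofNat 1,.ofNat 1),(.ofNat 1,.ofNat 0),(.ofNat 1,.ofNat 0),(.ofNat 1,.ofNat 0),
  (.negSucc 0,.ofNat 0),(.negSucc 0,.ofNat 0),(.negSucc 0,.ofNat 0),(.negSucc 0,.negSucc 0),(.negSucc 0,.ofNat 0),(.negSucc 0,.ofNat 1),(.ofNat 0,.negSucc 0),(.ofNat 0,.ofNat 0),(.ofNat 0,.ofNat 1),(.ofNat 0,.negSucc 0),(.ofNat 1,.ofNat 0),(.ofNat 1,.ofNat 1),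
  (.ofNat 1,.negSucc 0),(.ofNat 1,.ofNat 0),(.ofNat 1,.ofNat 0),(.negSucc 0,.ofNat 0),(.negSucc 0,.ofNat 0),(.negSucc 0,.ofNat 0),(.negSucc 0,.negSucc 0),(.negSucc 0,.ofNat 0),(.negSucc 0,.ofNat 1),(.ofNat 0,.negSucc 0),(.ofNat 0,.ofNat 0),(.ofNat 0,.ofNat 1),
  (.ofNat 0,.negSucc 0),(.ofNat 1,.ofNat 0),(.ofNat 1,.ofNat 1),(.ofNat 1,.negSucc 0),(.ofNat 1,.ofNat 0),(.ofNat 1,.ofNat 0),(.negSucc 0,.ofNat 0),(.negSucc 0,.ofNat 0),(.negSucc 0,.ofNat 1),(.negSucc 0,.negSucc 0),(.negSucc 0,.ofNat 0),(.negSucc 0,.ofNat 1),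
  (.ofNat 0,.negSucc 0),(.ofNat 0,.ofNat 0),(.ofNat 0,.ofNat 1),(.ofNat 1,.negSucc 0),(.ofNat 1,.ofNat 0),(.ofNat 1,.ofNat 1),(.ofNat 1,.negSucc 0),(.ofNat 1,.ofNat 0),(.ofNat 1,.ofNat 0)]

def E6 : Data where
  La := 1964988
  Lb := 946612
  Lc := 1738549
  T := E6T
  G := E6G
  M := 1000000
  lo := 439400
  hi := 520000
  Y0 := -1245789
  Y1 := 945183
  X0 := -1203415
  X1 := 1021683
  Mm := 2
  Nn := 1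
  S := [(.negSucc 1,.negSucc 0),(.negSucc 1,.ofNat 0),(.negSucc 1,.ofNat 1),(.negSucc 0,.negSucc 0),(.negSucc 0,.ofNat 0),(.negSucc 0,.ofNat 1),(.ofNat 0,.negSucc 0),(.ofNat 0,.ofNat 0),(.ofNat 0,.ofNat 1),(.ofNat 1,.negSucc 0),(.ofNat 1,.ofNat 0),(.ofNat 1,.ofNat 1),(.ofNat 2,.negSucc 0),(.ofNat 2,.ofNat 0),(.ofNat 2,.ofNat 1)]
  cert := E6C

theorem E6_ok : E6.OK = true := by decide +kernel

end Pool.Agent.Lib.MP_776035_co.Tiling
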