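import Pool.Agent.Lib.MP_776035_co.Tiling.Colour

/-! Data of a periodic colouring. -/

set_option autoImplicit false
set_option maxRecDepth 100000

namespace Pool.Agent.Lib.MP_776035_co.Tiling

def E7T : List Tri := [
  ⟨(.ofNat 1014235,.negSucc 329857),(.ofNat 917891,.negSucc 91986),(.ofNat 681698,.negSucc 166472),0,52,(.ofNat 1,.ofNat 0),35,(.ofNat 0,.ofNat 0),4,(.ofNat 0,.ofNat 0)⟩,
  ⟨(.ofNat 304512,.negSucc 288323),(.ofNat 137916,.negSucc 376625),(.ofNat 185672,.negSucc 669050),0,11,(.ofNat 0,.ofNat 0),65,(.ofNat 0,.ofNat 0),5,(.ofNat 0,.ofNat 0)⟩,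
  ⟨(.ofNat 736057,.negSucc 946222),(.ofNat 1014284,.negSucc 843871),(.ofNat 1029229,.negSucc 659940),0,19,(.ofNat 0,.negSucc 0),47,(.ofNat 1,.ofNat 0),3,(.ofNat 0,.ofNat 0)⟩,
  ⟨(.ofNat 352784,.negSucc 916992),(.ofNat 736057,.negSucc 946222),(.ofNat 1029229,.negSucc 659940),0,25,(.ofNat 0,.negSucc 0),2,(.ofNat 0,.ofNat 0),6,(.ofNat 0,.ofNat 0)⟩,
  ⟨(.ofNat 1093673,.negSucc 623872),(.ofNat 1014235,.negSucc 329857),(.ofNat 681698,.negSucc 166472),0,57,(.ofNat 1,.ofNat 0),0,(.ofNat 0,.ofNat 0),7,(.ofNat 0,.ofNat 0)⟩,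
  ⟨(.ofNat 304512,.negSucc 288323),(.ofNat 185672,.negSucc 669050),(.ofNat 352784,.negSucc 916992),0,1,(.ofNat 0,.ofNat 0),68,(.ofNat 0,.ofNat 0),6,(.ofNat 0,.ofNat 0)⟩,
  ⟨(.ofNat 304512,.negSucc 288323),(.ofNat 352784,.negSucc 916992),(.ofNat 1029229,.negSucc 659940),0,5,(.ofNat 0,.ofNat 0),3,(.ofNat 0,.ofNat 0),8,(.ofNat 0,.ofNat 0)⟩,
  ⟨(.ofNat 1093673,.negSucc 623872),(.ofNat 681698,.negSucc 166472),(.ofNat 343778,.negSucc 196833),0,4,(.ofNat 0,.ofNat 0),31,(.ofNat 0,.ofNat 0),9,(.ofNat 0,.ofNat 0)⟩,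
  ⟨(.ofNat 343778,.negSucc 196833),(.ofNat 304512,.negSucc 288323),(.ofNat 1029229,.negSucc 659940),0,10,(.ofNat 0,.ofNat 0),6,(.ofNat 0,.ofNat 0),9,(.ofNat 0,.ofNat 0)⟩,
  ⟨(.ofNat 1029229,.negSucc 659940),(.ofNat 1093673,.negSucc 623872),(.ofNat 343778,.negSucc 196833),0,49,(.ofNat 1,.ofNat 0),7,(.ofNat 0,.ofNat 0),8,(.ofNat 0,.ofNat 0)⟩,
  ⟨(.ofNat 304512,.negSucc 288323),(.ofNat 343778,.negSucc 196833),(.ofNat 278088,.negSucc 63935),1,8,(.ofNat 0,.ofNat 0),31,(.ofNat 0,.ofNat 0),11,(.ofNat 0,.ofNat 0)⟩,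
  ⟨(.ofNat 137916,.negSucc 376625),(.ofNat 304512,.negSucc 288323),(.ofNat 278088,.negSucc 63935),1,1,(.ofNat 0,.ofNat 0),10,(.ofNat 0,.ofNat 0),12,(.ofNat 0,.ofNat 0)⟩,
  ⟨(.ofNat 137916,.negSucc 376625),(.ofNat 278088,.negSucc 63935),(.ofNat 59025,.ofNat 38898),1,11,(.ofNat 0,.ofNat 0),30,(.ofNat 0,.ofNat 0),13,(.ofNat 0,.ofNat 0)⟩,
  ⟨(.ofNat 15077,.negSucc 371391),(.ofNat 137916,.negSucc 376625),(.ofNat 59025,.ofNat 38898),1,65,(.ofNat 0,.ofNat 0),12,(.ofNat 0,.ofNat 0),15,(.ofNat 0,.ofNat 0)⟩,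
  ⟨(.negSucc 79156,.negSucc 15079),(.negSucc 125759,.negSucc 140056),(.negSucc 55876,.negSucc 326107),1,54,(.ofNat 0,.ofNat 0),50,(.ofNat 0,.ofNat 0),17,(.ofNat 0,.ofNat 0)⟩,
  ⟨(.ofNat 15077,.negSucc 371391),(.ofNat 59025,.ofNat 38898),(.negSucc 24600,.ofNat 23608),1,13,(.ofNat 0,.ofNat 0),23,(.ofNat 0,.ofNat 0),16,(.ofNat 0,.ofNat 0)⟩,
  ⟨(.negSucc 55876,.negSucc 326107),(.ofNat 15077,.negSucc 371391),(.negSucc 24600,.ofNat 23608),1,72,(.ofNat 0,.ofNat 0),15,(.ofNat 0,.ofNat 0),17,(.ofNat 0,.ofNat 0)⟩,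
  ⟨(.negSucc 24600,.ofNat 23608),(.negSucc 79156,.negSucc 15079),(.negSucc 55876,.negSucc 326107),1,29,(.ofNat 0,.ofNat 0),14,(.ofNat 0,.ofNat 0),16,(.ofNat 0,.ofNat 0)⟩,
  ⟨(.negSucc 593135,.ofNat 475184),(.negSucc 660828,.ofNat 314284),(.negSucc 376098,.ofNat 179980),3,78,(.ofNat 0,.ofNat 0),56,(.ofNat 0,.ofNat 0),21,(.ofNat 0,.ofNat 0)⟩,
  ⟨(.ofNat 235282,.ofNat 739307),(.ofNat 77028,.ofNat 877369),(.negSucc 201198,.ofNat 775018),3,46,(.ofNat 1,.ofNat 1),2,(.ofNat 0,.ofNat 1),27,(.ofNat 0,.ofNat 0)⟩,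
  ⟨(.negSucc 626939,.ofNat 739300),(.negSucc 679739,.ofNat 556649),(.negSucc 593135,.ofNat 475184),3,63,(.ofNat 0,.ofNat 1),79,(.ofNat 0,.ofNat 0),21,(.ofNat 0,.ofNat 0)⟩,
  ⟨(.negSucc 626939,.ofNat 739300),(.negSucc 593135,.ofNat 475184),(.negSucc 376098,.ofNat 179980),3,20,(.ofNat 0,.ofNat 0),18,(.ofNat 0,.ofNat 0),22,(.ofNat 0,.ofNat 0)⟩,
  ⟨(.negSucc 626939,.ofNat 739300),(.negSucc 376098,.ofNat 179980),(.negSucc 79156,.negSucc 15079),3,21,(.ofNat 0,.ofNat 0),54,(.ofNat 0,.ofNat 0),26,(.ofNat 0,.ofNat 0)⟩,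
  ⟨(.negSucc 24600,.ofNat 23608),(.ofNat 59025,.ofNat 38898),(.ofNat 193453,.ofNat 325348),2,15,(.ofNat 0,.ofNat 0),30,(.ofNat 0,.ofNat 0),24,(.ofNat 0,.ofNat 0)⟩,
  ⟨(.negSucc 24600,.ofNat 23608),(.ofNat 193453,.ofNat 325348),(.ofNat 272913,.ofNat 672202),3,23,(.ofNat 0,.ofNat 0),33,(.ofNat 0,.ofNat 0),28,(.ofNat 0,.ofNat 0)⟩,
  ⟨(.negSucc 201198,.ofNat 775018),(.negSucc 584471,.ofNat 804248),(.negSucc 626939,.ofNat 739300),3,3,(.ofNat 0,.ofNat 1),68,(.ofNat 0,.ofNat 1),26,(.ofNat 0,.ofNat 0)⟩,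
  ⟨(.negSucc 201198,.ofNat 775018),(.negSucc 626939,.ofNat 739300),(.negSucc 79156,.negSucc 15079),3,25,(.ofNat 0,.ofNat 0),22,(.ofNat 0,.ofNat 0),27,(.ofNat 0,.ofNat 0)⟩,
  ⟨(.ofNat 235282,.ofNat 739307),(.negSucc 201198,.ofNat 775018),(.negSucc 79156,.negSucc 15079),3,19,(.ofNat 0,.ofNat 0),26,(.ofNat 0,.ofNat 0),29,(.ofNat 0,.ofNat 0)⟩,
  ⟨(.negSucc 24600,.ofNat 23608),(.ofNat 272913,.ofNat 672202),(.ofNat 235282,.ofNat 739307),3,24,(.ofNat 0,.ofNat 0),43,(.ofNat 1,.ofNat 1),29,(.ofNat 0,.ofNat 0)⟩,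
  ⟨(.ofNat 235282,.ofNat 739307),(.negSucc 79156,.negSucc 15079),(.negSucc 24600,.ofNat 23608),3,27,(.ofNat 0,.ofNat 0),17,(.ofNat 0,.ofNat 0),28,(.ofNat 0,.ofNat 0)⟩,
  ⟨(.ofNat 193453,.ofNat 325348),(.ofNat 59025,.ofNat 38898),(.ofNat 278088,.negSucc 63935),5,23,(.ofNat 0,.ofNat 0),12,(.ofNat 0,.ofNat 0),32,(.ofNat 0,.ofNat 0)⟩,
  ⟨(.ofNat 278088,.negSucc 63935),(.ofNat 343778,.negSucc 196833),(.ofNat 681698,.negSucc 166472),5,10,(.ofNat 0,.ofNat 0),7,(.ofNat 0,.ofNat 0),32,(.ofNat 0,.ofNat 0)⟩,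
  ⟨(.ofNat 193453,.ofNat 325348),(.ofNat 278088,.negSucc 63935),(.ofNat 681698,.negSucc 166472),5,30,(.ofNat 0,.ofNat 0),31,(.ofNat 0,.ofNat 0),33,(.ofNat 0,.ofNat 0)⟩,
  ⟨(.ofNat 272913,.ofNat 672202),(.ofNat 193453,.ofNat 325348),(.ofNat 681698,.negSucc 166472),5,24,(.ofNat 0,.ofNat 0),32,(.ofNat 0,.ofNat 0),36,(.ofNat 0,.ofNat 0)⟩,
  ⟨(.ofNat 989139,.ofNat 291262),(.ofNat 993097,.ofNat 395954),(.ofNat 719690,.ofNat 533017),5,75,(.ofNat 1,.ofNat 0),62,(.ofNat 1,.ofNat 1),38,(.ofNat 0,.ofNat 0)⟩,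
  ⟨(.ofNat 681698,.negSucc 166472),(.ofNat 917891,.negSucc 91986),(.ofNat 1000862,.ofNat 38275),5,0,(.ofNat 0,.ofNat 0),52,(.ofNat 1,.ofNat 0),36,(.ofNat 0,.ofNat 0)⟩,
  ⟨(.ofNat 272913,.ofNat 672202),(.ofNat 681698,.negSucc 166472),(.ofNat 1000862,.ofNat 38275),5,33,(.ofNat 0,.ofNat 0),35,(.ofNat 0,.ofNat 0),41,(.ofNat 0,.ofNat 0)⟩,
  ⟨(.ofNat 719690,.ofNat 533017),(.ofNat 412576,.ofNat 727341),(.ofNat 357924,.ofNat 661724),4,66,(.ofNat 1,.ofNat 1),42,(.ofNat 1,.ofNat 1),39,(.ofNat 0,.ofNat 0)⟩,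
  ⟨(.ofNat 1010957,.ofNat 150166),(.ofNat 989139,.ofNat 291262),(.ofNat 719690,.ofNat 533017),5,74,(.ofNat 1,.ofNat 0),34,(.ofNat 0,.ofNat 0),39,(.ofNat 0,.ofNat 0)⟩,
  ⟨(.ofNat 1010957,.ofNat 150166),(.ofNat 719690,.ofNat 533017),(.ofNat 357924,.ofNat 661724),5,38,(.ofNat 0,.ofNat 0),37,(.ofNat 0,.ofNat 0),40,(.ofNat 0,.ofNat 0)⟩,
  ⟨(.ofNat 1000862,.ofNat 38275),(.ofNat 1010957,.ofNat 150166),(.ofNat 357924,.ofNat 661724),5,61,(.ofNat 1,.ofNat 0),39,(.ofNat 0,.ofNat 0),41,(.ofNat 0,.ofNat 0)⟩,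
  ⟨(.ofNat 1000862,.ofNat 38275),(.ofNat 357924,.ofNat 661724),(.ofNat 272913,.ofNat 672202),5,40,(.ofNat 0,.ofNat 0),42,(.ofNat 1,.ofNat 1),36,(.ofNat 0,.ofNat 0)⟩,
  ⟨(.negSucc 735795,.negSucc 1049038),(.negSucc 650784,.negSucc 1059516),(.negSucc 596132,.negSucc 993899),6,41,(.negSucc 0,.negSucc 0),37,(.negSucc 0,.negSucc 0),43,(.ofNat 0,.ofNat 0)⟩,
  ⟨(.negSucc 773426,.negSucc 981933),(.negSucc 735795,.negSucc 1049038),(.negSucc 596132,.negSucc 993899),6,28,(.negSucc 0,.negSucc 0),42,(.ofNat 0,.ofNat 0),44,(.ofNat 0,.ofNat 0)⟩,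
  ⟨(.negSucc 773426,.negSucc 981933),(.negSucc 596132,.negSucc 993899),(.negSucc 566787,.negSucc 883641),6,43,(.ofNat 0,.ofNat 0),73,(.ofNat 0,.ofNat 0),45,(.ofNat 0,.ofNat 0)⟩,
  ⟨(.negSucc 773426,.negSucc 981933),(.negSucc 566787,.negSucc 883641),(.negSucc 619891,.negSucc 684867),6,44,(.ofNat 0,.ofNat 0),64,(.ofNat 0,.ofNat 0),46,(.ofNat 0,.ofNat 0)⟩,
  ⟨(.negSucc 931680,.negSucc 843871),(.negSucc 773426,.negSucc 981933),(.negSucc 619891,.negSucc 684867),6,19,(.negSucc 0,.negSucc 0),45,(.ofNat 0,.ofNat 0),47,(.ofNat 0,.ofNat 0)⟩,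
  ⟨(.negSucc 916735,.negSucc 659940),(.negSucc 931680,.negSucc 843871),(.negSucc 619891,.negSucc 684867),6,2,(.negSucc 0,.ofNat 0),46,(.ofNat 0,.ofNat 0),48,(.ofNat 0,.ofNat 0)⟩,
  ⟨(.negSucc 916735,.negSucc 659940),(.negSucc 619891,.negSucc 684867),(.negSucc 757516,.negSucc 591543),6,47,(.ofNat 0,.ofNat 0),51,(.ofNat 0,.ofNat 0),49,(.ofNat 0,.ofNat 0)⟩,
  ⟨(.negSucc 757516,.negSucc 591543),(.negSucc 852291,.negSucc 623872),(.negSucc 916735,.negSucc 659940),6,57,(.ofNat 0,.ofNat 0),9,(.negSucc 0,.ofNat 0),48,(.ofNat 0,.ofNat 0)⟩,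
  ⟨(.negSucc 348060,.negSucc 475225),(.negSucc 55876,.negSucc 326107),(.negSucc 125759,.negSucc 140056),7,67,(.ofNat 0,.ofNat 0),14,(.ofNat 0,.ofNat 0),53,(.ofNat 0,.ofNat 0)⟩,
  ⟨(.negSucc 757516,.negSucc 591543),(.negSucc 619891,.negSucc 684867),(.negSucc 348060,.negSucc 475225),8,48,(.ofNat 0,.ofNat 0),64,(.ofNat 0,.ofNat 0),53,(.ofNat 0,.ofNat 0)⟩,
  ⟨(.negSucc 945102,.ofNat 38275),(.negSucc 1028073,.negSucc 91986),(.negSucc 931729,.negSucc 329857),8,35,(.negSucc 0,.ofNat 0),0,(.negSucc 0,.ofNat 0),60,(.ofNat 0,.ofNat 0)⟩,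
  ⟨(.negSucc 757516,.negSucc 591543),(.negSucc 348060,.negSucc 475225),(.negSucc 125759,.negSucc 140056),8,51,(.ofNat 0,.ofNat 0),50,(.ofNat 0,.ofNat 0),55,(.ofNat 0,.ofNat 0)⟩,
  ⟨(.negSucc 125759,.negSucc 140056),(.negSucc 79156,.negSucc 15079),(.negSucc 376098,.ofNat 179980),8,14,(.ofNat 0,.ofNat 0),22,(.ofNat 0,.ofNat 0),55,(.ofNat 0,.ofNat 0)⟩,
  ⟨(.negSucc 757516,.negSucc 591543),(.negSucc 125759,.negSucc 140056),(.negSucc 376098,.ofNat 179980),8,53,(.ofNat 0,.ofNat 0),54,(.ofNat 0,.ofNat 0),56,(.ofNat 0,.ofNat 0)⟩,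
  ⟨(.negSucc 757516,.negSucc 591543),(.negSucc 376098,.ofNat 179980),(.negSucc 660828,.ofNat 314284),8,55,(.ofNat 0,.ofNat 0),18,(.ofNat 0,.ofNat 0),59,(.ofNat 0,.ofNat 0)⟩,
  ⟨(.negSucc 931729,.negSucc 329857),(.negSucc 852291,.negSucc 623872),(.negSucc 757516,.negSucc 591543),8,4,(.negSucc 0,.ofNat 0),49,(.ofNat 0,.ofNat 0),60,(.ofNat 0,.ofNat 0)⟩,
  ⟨(.negSucc 660828,.ofNat 314284),(.negSucc 861615,.ofNat 266147),(.negSucc 935007,.ofNat 150166),8,76,(.ofNat 0,.ofNat 0),74,(.ofNat 0,.ofNat 0),59,(.ofNat 0,.ofNat 0)⟩,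
  ⟨(.negSucc 757516,.negSucc 591543),(.negSucc 660828,.ofNat 314284),(.negSucc 935007,.ofNat 150166),8,56,(.ofNat 0,.ofNat 0),58,(.ofNat 0,.ofNat 0),61,(.ofNat 0,.ofNat 0)⟩,
  ⟨(.negSucc 945102,.ofNat 38275),(.negSucc 931729,.negSucc 329857),(.negSucc 757516,.negSucc 591543),8,52,(.ofNat 0,.ofNat 0),57,(.ofNat 0,.ofNat 0),61,(.ofNat 0,.ofNat 0)⟩,
  ⟨(.negSucc 757516,.negSucc 591543),(.negSucc 935007,.ofNat 150166),(.negSucc 945102,.ofNat 38275),8,59,(.ofNat 0,.ofNat 0),40,(.negSucc 0,.ofNat 0),60,(.ofNat 0,.ofNat 0)⟩,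
  ⟨(.negSucc 289018,.negSucc 1188223),(.negSucc 15611,.negSucc 1325286),(.ofNat 143547,.negSucc 1126107),10,34,(.negSucc 0,.negSucc 0),77,(.ofNat 0,.negSucc 0),66,(.ofNat 0,.ofNat 0)⟩,
  ⟨(.ofNat 143547,.negSucc 1126107),(.ofNat 257516,.negSucc 1164591),(.ofNat 310316,.negSucc 981940),10,79,(.ofNat 0,.negSucc 0),20,(.ofNat 0,.negSucc 0),69,(.ofNat 0,.ofNat 0)⟩,
  ⟨(.negSucc 348060,.negSucc 475225),(.negSucc 619891,.negSucc 684867),(.negSucc 566787,.negSucc 883641),9,51,(.ofNat 0,.ofNat 0),45,(.ofNat 0,.ofNat 0),67,(.ofNat 0,.ofNat 0)⟩,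
  ⟨(.ofNat 185672,.negSucc 669050),(.ofNat 137916,.negSucc 376625),(.ofNat 15077,.negSucc 371391),10,1,(.ofNat 0,.ofNat 0),13,(.ofNat 0,.ofNat 0),71,(.ofNat 0,.ofNat 0)⟩,
  ⟨(.negSucc 596132,.negSucc 993899),(.negSucc 289018,.negSucc 1188223),(.ofNat 143547,.negSucc 1126107),10,37,(.negSucc 0,.negSucc 0),62,(.ofNat 0,.ofNat 0),70,(.ofNat 0,.ofNat 0)⟩,
  ⟨(.negSucc 55876,.negSucc 326107),(.negSucc 348060,.negSucc 475225),(.negSucc 566787,.negSucc 883641),10,50,(.ofNat 0,.ofNat 0),64,(.ofNat 0,.ofNat 0),72,(.ofNat 0,.ofNat 0)⟩,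
  ⟨(.ofNat 310316,.negSucc 981940),(.ofNat 352784,.negSucc 916992),(.ofNat 185672,.negSucc 669050),10,25,(.ofNat 0,.negSucc 0),5,(.ofNat 0,.ofNat 0),69,(.ofNat 0,.ofNat 0)⟩,
  ⟨(.ofNat 143547,.negSucc 1126107),(.ofNat 310316,.negSucc 981940),(.ofNat 185672,.negSucc 669050),10,63,(.ofNat 0,.ofNat 0),68,(.ofNat 0,.ofNat 0),70,(.ofNat 0,.ofNat 0)⟩,
  ⟨(.negSucc 596132,.negSucc 993899),(.ofNat 143547,.negSucc 1126107),(.ofNat 185672,.negSucc 669050),10,66,(.ofNat 0,.ofNat 0),69,(.ofNat 0,.ofNat 0),71,(.ofNat 0,.ofNat 0)⟩,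
  ⟨(.negSucc 596132,.negSucc 993899),(.ofNat 185672,.negSucc 669050),(.ofNat 15077,.negSucc 371391),10,70,(.ofNat 0,.ofNat 0),65,(.ofNat 0,.ofNat 0),73,(.ofNat 0,.ofNat 0)⟩,
  ⟨(.ofNat 15077,.negSucc 371391),(.negSucc 55876,.negSucc 326107),(.negSucc 566787,.negSucc 883641),10,16,(.ofNat 0,.ofNat 0),67,(.ofNat 0,.ofNat 0),73,(.ofNat 0,.ofNat 0)⟩,
  ⟨(.ofNat 15077,.negSucc 371391),(.negSucc 566787,.negSucc 883641),(.negSucc 596132,.negSucc 993899),10,72,(.ofNat 0,.ofNat 0),44,(.ofNat 0,.ofNat 0),71,(.ofNat 0,.ofNat 0)⟩,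
  ⟨(.negSucc 956825,.ofNat 291262),(.negSucc 935007,.ofNat 150166),(.negSucc 861615,.ofNat 266147),11,38,(.negSucc 0,.ofNat 0),58,(.ofNat 0,.ofNat 0),75,(.ofNat 0,.ofNat 0)⟩,
  ⟨(.negSucc 952867,.ofNat 395954),(.negSucc 956825,.ofNat 291262),(.negSucc 861615,.ofNat 266147),11,34,(.negSucc 0,.ofNat 0),74,(.ofNat 0,.ofNat 0),76,(.ofNat 0,.ofNat 0)⟩,
  ⟨(.negSucc 952867,.ofNat 395954),(.negSucc 861615,.ofNat 266147),(.negSucc 660828,.ofNat 314284),11,75,(.ofNat 0,.ofNat 0),58,(.ofNat 0,.ofNat 0),77,(.ofNat 0,.ofNat 0)⟩,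
  ⟨(.negSucc 793708,.ofNat 595133),(.negSucc 952867,.ofNat 395954),(.negSucc 660828,.ofNat 314284),11,62,(.ofNat 0,.ofNat 1),76,(.ofNat 0,.ofNat 0),78,(.ofNat 0,.ofNat 0)⟩,
  ⟨(.negSucc 793708,.ofNat 595133),(.negSucc 660828,.ofNat 314284),(.negSucc 593135,.ofNat 475184),11,77,(.ofNat 0,.ofNat 0),18,(.ofNat 0,.ofNat 0),79,(.ofNat 0,.ofNat 0)⟩,
  ⟨(.negSucc 593135,.ofNat 475184),(.negSucc 679739,.ofNat 556649),(.negSucc 793708,.ofNat 595133),11,20,(.ofNat 0,.ofNat 0),63,(.ofNat 0,.ofNat 1),78,(.ofNat 0,.ofNat 0)⟩]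

def E7G : List Grp := [
  ⟨4,[(.ofNat 1014235,.negSucc 329857),(.ofNat 917891,.negSucc 91986),(.ofNat 681698,.negSucc 166472),(.ofNat 304512,.negSucc 288323),(.ofNat 137916,.negSucc 376625),(.ofNat 185672,.negSucc 669050),(.ofNat 736057,.negSucc 946222),(.ofNat 1014284,.negSucc 843871),(.ofNat 1029229,.negSucc 659940),(.ofNat 352784,.negSucc 916992),(.ofNat 1093673,.negSucc 623872),(.ofNat 343778,.negSucc 196833)]⟩,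
  ⟨5,[(.ofNat 304512,.negSucc 288323),(.ofNat 343778,.negSucc 196833),(.ofNat 278088,.negSucc 63935),(.ofNat 137916,.negSucc 376625),(.ofNat 59025,.ofNat 38898),(.ofNat 15077,.negSucc 371391),(.negSucc 79156,.negSucc 15079),(.negSucc 125759,.negSucc 140056),(.negSucc 55876,.negSucc 326107),(.negSucc 24600,.ofNat 23608)]⟩,
  ⟨0,[(.negSucc 24600,.ofNat 23608),(.ofNat 59025,.ofNat 38898),(.ofNat 193453,.ofNat 325348)]⟩,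
  ⟨0,[(.negSucc 593135,.ofNat 475184),(.negSucc 660828,.ofNat 314284),(.negSucc 376098,.ofNat 179980),(.ofNat 235282,.ofNat 739307),(.ofNat 77028,.ofNat 877369),(.negSucc 201198,.ofNat 775018),(.negSucc 626939,.ofNat 739300),(.negSucc 679739,.ofNat 556649),(.negSucc 79156,.negSucc 15079),(.negSucc 24600,.ofNat 23608),(.ofNat 193453,.ofNat 325348),(.ofNat 272913,.ofNat 672202),(.negSucc 584471,.ofNat 804248)]⟩,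
  ⟨3,[(.ofNat 719690,.ofNat 533017),(.ofNat 412576,.ofNat 727341),(.ofNat 357924,.ofNat 661724)]⟩,
  ⟨3,[(.ofNat 193453,.ofNat 325348),(.ofNat 59025,.ofNat 38898),(.ofNat 278088,.negSucc 63935),(.ofNat 343778,.negSucc 196833),(.ofNat 681698,.negSucc 166472),(.ofNat 272913,.ofNat 672202),(.ofNat 989139,.ofNat 291262),(.ofNat 993097,.ofNat 395954),(.ofNat 719690,.ofNat 533017),(.ofNat 917891,.negSucc 91986),(.ofNat 1000862,.ofNat 38275),(.ofNat 1010957,.ofNat 150166),(.ofNat 357924,.ofNat 661724)]⟩,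
  ⟨5,[(.negSucc 735795,.negSucc 1049038),(.negSucc 650784,.negSucc 1059516),(.negSucc 596132,.negSucc 993899),(.negSucc 773426,.negSucc 981933),(.negSucc 566787,.negSucc 883641),(.negSucc 619891,.negSucc 684867),(.negSucc 931680,.negSucc 843871),(.negSucc 916735,.negSucc 659940),(.negSucc 757516,.negSucc 591543),(.negSucc 852291,.negSucc 623872)]⟩,
  ⟨1,[(.negSucc 348060,.negSucc 475225),(.negSucc 55876,.negSucc 326107),(.negSucc 125759,.negSucc 140056)]⟩,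
  ⟨1,[(.negSucc 757516,.negSucc 591543),(.negSucc 619891,.negSucc 684867),(.negSucc 348060,.negSucc 475225),(.negSucc 945102,.ofNat 38275),(.negSucc 1028073,.negSucc 91986),(.negSucc 931729,.negSucc 329857),(.negSucc 125759,.negSucc 140056),(.negSucc 79156,.negSucc 15079),(.negSucc 376098,.ofNat 179980),(.negSucc 660828,.ofNat 314284),(.negSucc 852291,.negSucc 623872),(.negSucc 861615,.ofNat 266147),(.negSucc 935007,.ofNat 150166)]⟩,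
  ⟨2,[(.negSucc 348060,.negSucc 475225),(.negSucc 619891,.negSucc 684867),(.negSucc 566787,.negSucc 883641)]⟩,
  ⟨2,[(.negSucc 289018,.negSucc 1188223),(.negSucc 15611,.negSucc 1325286),(.ofNat 143547,.negSucc 1126107),(.ofNat 257516,.negSucc 1164591),(.ofNat 310316,.negSucc 981940),(.ofNat 185672,.negSucc 669050),(.ofNat 137916,.negSucc 376625),(.ofNat 15077,.negSucc 371391),(.negSucc 596132,.negSucc 993899),(.negSucc 55876,.negSucc 326107),(.negSucc 348060,.negSucc 475225),(.negSucc 566787,.negSucc 883641),(.ofNat 352784,.negSucc 916992)]⟩,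
  ⟨5,[(.negSucc 956825,.ofNat 291262),(.negSucc 935007,.ofNat 150166),(.negSucc 861615,.ofNat 266147),(.negSucc 952867,.ofNat 395954),(.negSucc 660828,.ofNat 314284),(.negSucc 793708,.ofNat 595133),(.negSucc 593135,.ofNat 475184),(.negSucc 679739,.ofNat 556649)]⟩]

def E7C : List (ℤ × ℤ) := [
  (.negSucc 0,.negSucc 0),(.negSucc 0,.ofNat 0),(.negSucc 0,.ofNat 0),(.negSucc 17,.negSucc 35),(.negSucc 38,.negSucc 5),(.negSucc 0,.ofNat 1),(.ofNat 1,.negSucc 2),(.ofNat 0,.ofNat 0),(.negSucc 0,.ofNat 3),(.ofNat 1,.negSucc 0),(.ofNat 39,.ofNat 6),(.ofNat 18,.ofNat 36),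
  (.ofNat 1,.ofNat 0),(.ofNat 1,.ofNat 0),(.ofNat 1,.ofNat 1),(.negSucc 0,.negSucc 0),(.negSucc 0,.ofNat 0),(.negSucc 0,.ofNat 0),(.negSucc 0,.negSucc 0),(.negSucc 0,.ofNat 0),(.negSucc 0,.ofNat 1),(.ofNat 0,.negSucc 0),(.ofNat 0,.ofNat 0),(.ofNat 0,.ofNat 1),
  (.ofNat 1,.negSucc 0),(.ofNat 1,.ofNat 0),(.ofNat 1,.ofNat 1),(.ofNat 1,.ofNat 0),(.ofNat 1,.ofNat 0),(.ofNat 1,.ofNat 1),(.negSucc 0,.negSucc 0),(.negSucc 0,.ofNat 0),(.negSucc 0,.ofNat 0),(.negSucc 0,.negSucc 0),(.negSucc 0,.ofNat 0),(.negSucc 0,.ofNat 0),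
  (.ofNat 0,.negSucc 0),(.negSucc 7,.negSucc 5),(.negSucc 0,.ofNat 1),(.ofNat 1,.negSucc 0),(.ofNat 1,.negSucc 0),(.ofNat 1,.ofNat 3),(.ofNat 1,.negSucc 0),(.ofNat 1,.ofNat 0),(.ofNat 1,.ofNat 0),(.negSucc 0,.ofNat 0),(.negSucc 0,.ofNat 0),(.negSucc 0,.ofNat 0),
  (.negSucc 0,.negSucc 0),(.negSucc 0,.ofNat 0),(.negSucc 0,.ofNat 1),(.ofNat 0,.negSucc 0),(.negSucc 2,.ofNat 2),(.negSucc 0,.ofNat 1),(.ofNat 1,.ofNat 0),(.ofNat 3,.ofNat 1),(.ofNat 0,.ofNat 1),(.ofNat 1,.ofNat 0),(.ofNat 1,.ofNat 0),(.ofNat 1,.ofNat 1),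
  (.negSucc 0,.negSucc 0),(.negSucc 0,.ofNat 0),(.negSucc 0,.ofNat 0),(.negSucc 0,.negSucc 0),(.negSucc 0,.ofNat 0),(.negSucc 0,.ofNat 1),(.ofNat 0,.negSucc 0),(.ofNat 0,.ofNat 0),(.ofNat 0,.ofNat 1),(.ofNat 1,.negSucc 0),(.ofNat 1,.ofNat 0),(.ofNat 1,.ofNat 1),
  (.ofNat 1,.ofNat 0),(.ofNat 1,.ofNat 0),(.ofNat 1,.ofNat 1),(.negSucc 0,.ofNat 0),(.negSucc 0,.ofNat 0),(.negSucc 0,.ofNat 0),(.negSucc 0,.negSucc 0),(.negSucc 0,.ofNat 0),(.negSucc 0,.ofNat 1),(.ofNat 88,.negSucc 286),(.ofNat 0,.ofNat 0),(.ofNat 0,.ofNat 1),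
  (.ofNat 1,.ofNat 0),(.ofNat 1,.ofNat 0),(.ofNat 0,.ofNat 1),(.ofNat 1,.ofNat 0),(.ofNat 1,.ofNat 0),(.ofNat 1,.ofNat 1),(.negSucc 0,.negSucc 0),(.negSucc 0,.ofNat 0),(.negSucc 0,.ofNat 0),(.ofNat 0,.negSucc 0),(.negSucc 0,.ofNat 0),(.negSucc 0,.ofNat 0),
  (.ofNat 0,.negSucc 0),(.ofNat 0,.ofNat 0),(.negSucc 87,.ofNat 287),(.ofNat 1,.negSucc 0),(.ofNat 1,.ofNat 0),(.ofNat 1,.ofNat 1),(.ofNat 1,.ofNat 0),(.ofNat 1,.ofNat 0),(.ofNat 1,.ofNat 0),(.negSucc 0,.negSucc 0),(.negSucc 0,.ofNat 0),(.negSucc 0,.ofNat 0),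
  (.negSucc 1,.negSucc 2),(.negSucc 297,.ofNat 35),(.negSucc 0,.ofNat 1),(.ofNat 130,.negSucc 270),(.ofNat 0,.ofNat 0),(.negSucc 129,.ofNat 271),(.ofNat 1,.negSucc 0),(.ofNat 298,.negSucc 34),(.ofNat 2,.ofNat 3),(.ofNat 1,.ofNat 0),(.ofNat 1,.ofNat 0),(.ofNat 1,.ofNat 1),
  (.negSucc 0,.negSucc 0),(.negSucc 0,.ofNat 0),(.negSucc 0,.ofNat 0),(.negSucc 0,.negSucc 0),(.negSucc 0,.ofNat 0),(.negSucc 0,.ofNat 1),(.ofNat 0,.negSucc 0),(.ofNat 0,.ofNat 0),(.ofNat 0,.ofNat 1),(.ofNat 1,.negSucc 0),(.ofNat 1,.ofNat 0),(.ofNat 1,.ofNat 1),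
  (.ofNat 1,.ofNat 0),(.ofNat 1,.ofNat 0),(.ofNat 1,.ofNat 1),(.negSucc 0,.negSucc 0),(.negSucc 0,.ofNat 0),(.negSucc 0,.ofNat 0),(.ofNat 0,.negSucc 0),(.negSucc 0,.ofNat 0),(.negSucc 0,.ofNat 0),(.ofNat 0,.negSucc 0),(.ofNat 0,.ofNat 0),(.negSucc 129,.ofNat 271),
  (.ofNat 1,.negSucc 0),(.ofNat 1,.ofNat 0),(.ofNat 1,.ofNat 1),(.ofNat 1,.ofNat 0),(.ofNat 1,.ofNat 0),(.ofNat 1,.ofNat 0),(.negSucc 0,.ofNat 0),(.negSucc 0,.ofNat 0),(.negSucc 0,.ofNat 0),(.negSucc 0,.negSucc 0),(.negSucc 0,.ofNat 0),(.negSucc 0,.ofNat 1),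
  (.ofNat 130,.negSucc 270),(.ofNat 0,.ofNat 0),(.ofNat 0,.ofNat 1),(.ofNat 1,.ofNat 0),(.ofNat 1,.ofNat 0),(.ofNat 0,.ofNat 1),(.ofNat 1,.ofNat 0),(.ofNat 1,.ofNat 0),(.ofNat 1,.ofNat 1),(.negSucc 0,.negSucc 0),(.negSucc 0,.ofNat 0),(.negSucc 0,.ofNat 0),
  (.negSucc 0,.negSucc 0),(.negSucc 298,.ofNat 27),(.negSucc 0,.ofNat 1),(.ofNat 1,.negSucc 2),(.ofNat 0,.ofNat 0),(.negSucc 0,.ofNat 3),(.ofNat 1,.negSucc 0),(.ofNat 299,.negSucc 26),(.ofNat 1,.ofNat 1),(.ofNat 1,.ofNat 0),(.ofNat 1,.ofNat 0),(.ofNat 1,.ofNat 1),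
  (.negSucc 0,.ofNat 0),(.negSucc 0,.ofNat 0),(.negSucc 0,.ofNat 1),(.negSucc 0,.negSucc 2),(.negSucc 0,.ofNat 1),(.negSucc 0,.ofNat 1),(.ofNat 1,.negSucc 0),(.ofNat 8,.ofNat 6),(.ofNat 0,.ofNat 1),(.ofNat 1,.ofNat 0),(.ofNat 1,.ofNat 0),(.ofNat 1,.ofNat 1),
  (.ofNat 1,.ofNat 0),(.ofNat 1,.ofNat 0),(.ofNat 1,.ofNat 1),(.negSucc 0,.negSucc 0),(.negSucc 0,.ofNat 0),(.negSucc 0,.ofNat 0),(.negSucc 0,.negSucc 0),(.negSucc 0,.ofNat 0),(.negSucc 0,.ofNat 1),(.ofNat 0,.negSucc 0),(.ofNat 0,.ofNat 0),(.ofNat 0,.ofNat 1),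
  (.ofNat 1,.negSucc 0),(.ofNat 1,.ofNat 0),(.ofNat 1,.ofNat 1),(.ofNat 1,.ofNat 0),(.ofNat 1,.ofNat 0),(.ofNat 1,.ofNat 1),(.negSucc 0,.ofNat 0),(.negSucc 0,.ofNat 0),(.negSucc 0,.ofNat 1),(.negSucc 0,.ofNat 0),(.negSucc 0,.ofNat 1),(.negSucc 0,.ofNat 1),
  (.ofNat 9,.negSucc 4),(.ofNat 0,.ofNat 1),(.ofNat 0,.ofNat 1),(.ofNat 1,.ofNat 0),(.ofNat 1,.ofNat 1),(.ofNat 0,.ofNat 1),(.ofNat 1,.ofNat 0),(.ofNat 1,.ofNat 0),(.ofNat 1,.ofNat 1),(.negSucc 0,.negSucc 0),(.negSucc 0,.ofNat 0),(.negSucc 0,.ofNat 0),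
  (.negSucc 0,.negSucc 0),(.negSucc 0,.ofNat 0),(.negSucc 0,.ofNat 1),(.ofNat 0,.negSucc 0),(.ofNat 0,.ofNat 0),(.ofNat 0,.ofNat 1),(.ofNat 1,.negSucc 0),(.ofNat 1,.ofNat 0),(.ofNat 1,.ofNat 1),(.ofNat 1,.ofNat 0),(.ofNat 1,.ofNat 0),(.ofNat 1,.ofNat 1),
  (.negSucc 0,.ofNat 0),(.negSucc 0,.ofNat 0),(.negSucc 0,.ofNat 0),(.negSucc 0,.negSucc 0),(.negSucc 0,.ofNat 0),(.negSucc 0,.ofNat 1),(.ofNat 1,.negSucc 2),(.ofNat 0,.ofNat 0),(.negSucc 0,.ofNat 1),(.ofNat 1,.negSucc 0),(.ofNat 39,.ofNat 9),(.ofNat 0,.ofNat 1),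
  (.ofNat 1,.ofNat 0),(.ofNat 1,.ofNat 0),(.ofNat 1,.ofNat 1),(.negSucc 0,.negSucc 0),(.negSucc 0,.ofNat 0),(.negSucc 0,.ofNat 0),(.ofNat 0,.negSucc 0),(.negSucc 38,.negSucc 8),(.negSucc 0,.ofNat 1),(.ofNat 1,.negSucc 0),(.ofNat 0,.ofNat 0),(.negSucc 0,.ofNat 3),
  (.ofNat 1,.negSucc 0),(.ofNat 1,.ofNat 0),(.ofNat 1,.ofNat 1),(.ofNat 1,.ofNat 0),(.ofNat 1,.ofNat 0),(.ofNat 1,.ofNat 0),(.negSucc 0,.negSucc 0),(.negSucc 0,.ofNat 0),(.negSucc 0,.ofNat 0),(.negSucc 1,.negSucc 2),(.negSucc 39,.ofNat 3),(.negSucc 0,.ofNat 1),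
  (.ofNat 5,.negSucc 8),(.ofNat 0,.ofNat 0),(.negSucc 4,.ofNat 9),(.ofNat 1,.negSucc 0),(.ofNat 40,.negSucc 2),(.ofNat 2,.ofNat 3),(.ofNat 1,.ofNat 0),(.ofNat 1,.ofNat 0),(.ofNat 1,.ofNat 1),(.negSucc 0,.negSucc 0),(.negSucc 0,.ofNat 0),(.negSucc 0,.ofNat 0),
  (.negSucc 0,.negSucc 0),(.negSucc 0,.ofNat 0),(.negSucc 0,.ofNat 1),(.ofNat 0,.negSucc 0),(.ofNat 0,.ofNat 0),(.ofNat 0,.ofNat 1),(.ofNat 1,.negSucc 0),(.ofNat 1,.ofNat 0),(.ofNat 1,.ofNat 1),(.ofNat 1,.ofNat 0),(.ofNat 1,.ofNat 0),(.ofNat 1,.ofNat 1),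
  (.negSucc 0,.negSucc 0),(.negSucc 0,.ofNat 0),(.negSucc 0,.ofNat 0),(.ofNat 0,.negSucc 0),(.negSucc 38,.negSucc 8),(.negSucc 0,.ofNat 1),(.ofNat 1,.negSucc 0),(.ofNat 0,.ofNat 0),(.negSucc 0,.ofNat 3),(.ofNat 1,.negSucc 0),(.ofNat 1,.ofNat 0),(.ofNat 1,.ofNat 1),
  (.ofNat 1,.ofNat 0),(.ofNat 1,.ofNat 0),(.ofNat 1,.ofNat 0),(.negSucc 0,.ofNat 0),(.negSucc 0,.ofNat 0),(.negSucc 0,.ofNat 0),(.negSucc 0,.negSucc 0),(.negSucc 0,.ofNat 0),(.negSucc 0,.ofNat 1),(.ofNat 1,.negSucc 2),(.ofNat 0,.ofNat 0),(.negSucc 0,.ofNat 1),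
  (.ofNat 1,.negSucc 0),(.ofNat 39,.ofNat 9),(.ofNat 0,.ofNat 1),(.ofNat 1,.ofNat 0),(.ofNat 1,.ofNat 0),(.ofNat 1,.ofNat 1),(.negSucc 0,.negSucc 0),(.negSucc 0,.ofNat 0),(.negSucc 0,.ofNat 0),(.negSucc 1,.negSucc 2),(.negSucc 39,.ofNat 3),(.negSucc 0,.ofNat 1),
  (.ofNat 5,.negSucc 8),(.ofNat 0,.ofNat 0),(.negSucc 4,.ofNat 9),(.ofNat 1,.negSucc 0),(.ofNat 40,.negSucc 2),(.ofNat 2,.ofNat 3),(.ofNat 1,.ofNat 0),(.ofNat 1,.ofNat 0),(.ofNat 1,.ofNat 1),(.negSucc 0,.negSucc 0),(.negSucc 0,.ofNat 0),(.negSucc 0,.ofNat 0),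
  (.ofNat 0,.negSucc 0),(.negSucc 2,.negSucc 0),(.negSucc 0,.ofNat 0),(.ofNat 1,.negSucc 0),(.ofNat 3,.negSucc 1),(.ofNat 0,.ofNat 1),(.ofNat 1,.negSucc 0),(.ofNat 1,.ofNat 0),(.ofNat 1,.ofNat 1),(.ofNat 1,.ofNat 0),(.ofNat 1,.ofNat 0),(.ofNat 1,.ofNat 0),
  (.negSucc 0,.negSucc 0),(.negSucc 0,.ofNat 0),(.negSucc 0,.ofNat 0),(.ofNat 0,.negSucc 0),(.negSucc 0,.negSucc 0),(.negSucc 0,.ofNat 0),(.ofNat 0,.negSucc 0),(.ofNat 0,.negSucc 0),(.negSucc 8,.ofNat 5),(.ofNat 1,.negSucc 0),(.ofNat 1,.negSucc 0),(.ofNat 1,.ofNat 0),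
  (.ofNat 1,.negSucc 0),(.ofNat 1,.ofNat 0),(.ofNat 1,.ofNat 0),(.negSucc 0,.negSucc 0),(.negSucc 0,.ofNat 0),(.negSucc 0,.ofNat 0),(.negSucc 0,.negSucc 0),(.negSucc 0,.ofNat 0),(.negSucc 0,.ofNat 1),(.ofNat 0,.negSucc 0),(.ofNat 0,.ofNat 0),(.ofNat 0,.ofNat 1),
  (.ofNat 1,.negSucc 0),(.ofNat 1,.ofNat 0),(.ofNat 1,.ofNat 1),(.ofNat 1,.ofNat 0),(.ofNat 1,.ofNat 0),(.ofNat 1,.ofNat 1)]

def E7 : Data where
  La := 1945965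
  Lb := -937256
  Lc := 1721241
  T := E7T
  G := E7G
  M := 1000000
  lo := 500000
  hi := 665000
  Y0 := -1325287
  Y1 := 877369
  X0 := -1028074
  X1 := 1093673
  Mm := 2
  Nn := 1
  S := [(.negSucc 1,.negSucc 0),(.negSucc 1,.ofNat 0),(.negSucc 1,.ofNat 1),(.negSucc 0,.negSucc 0),(.negSucc 0,.ofNat 0),(.negSucc 0,.ofNat 1),(.ofNat 0,.negSucc 0),(.ofNat 0,.ofNat 0),(.ofNat 0,.ofNat 1),(.ofNat 1,.negSucc 0),(.ofNat 1,.ofNat 0),(.ofNat 1,.ofNat 1),(.ofNat 2,.negSucc 0),(.ofNat 2,.ofNat 0),(.ofNat 2,.ofNat 1)]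
  cert := E7C

theorem E7_ok : E7.OK = true := by decide +kernel

end Pool.Agent.Lib.MP_776035_co.Tiling
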