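import Pool.Agent.Lib.MP_776035_co.Tiling.Colour

/-! Data of a periodic colouring. -/

set_option autoImplicit false
set_option maxRecDepth 100000

namespace Pool.Agent.Lib.MP_776035_co.Tiling

def E8T : List Tri := [
  ⟨(.ofNat 201482,.ofNat 213640),(.ofNat 295156,.negSucc 21414),(.ofNat 507353,.ofNat 13352),1,22,(.ofNat 0,.ofNat 0),48,(.ofNat 0,.ofNat 0),3,(.ofNat 0,.ofNat 0)⟩,
  ⟨(.ofNat 507353,.ofNat 13352),(.ofNat 682992,.negSucc 34925),(.ofNat 819441,.ofNat 40058),1,50,(.ofNat 0,.ofNat 0),64,(.ofNat 1,.ofNat 0),3,(.ofNat 0,.ofNat 0)⟩,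
  ⟨(.ofNat 933645,.ofNat 453985),(.ofNat 903535,.ofNat 772228),(.ofNat 774103,.ofNat 826008),0,60,(.ofNat 1,.ofNat 0),35,(.ofNat 0,.ofNat 1),5,(.ofNat 0,.ofNat 0)⟩,
  ⟨(.ofNat 201482,.ofNat 213640),(.ofNat 507353,.ofNat 13352),(.ofNat 819441,.ofNat 40058),1,0,(.ofNat 0,.ofNat 0),1,(.ofNat 0,.ofNat 0),8,(.ofNat 0,.ofNat 0)⟩,
  ⟨(.ofNat 774103,.ofNat 826008),(.ofNat 678281,.ofNat 902279),(.ofNat 400839,.ofNat 721035),1,36,(.ofNat 0,.ofNat 1),18,(.ofNat 0,.ofNat 1),5,(.ofNat 0,.ofNat 0)⟩,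
  ⟨(.ofNat 933645,.ofNat 453985),(.ofNat 774103,.ofNat 826008),(.ofNat 400839,.ofNat 721035),1,2,(.ofNat 0,.ofNat 0),4,(.ofNat 0,.ofNat 0),6,(.ofNat 0,.ofNat 0)⟩,
  ⟨(.ofNat 937531,.ofNat 91211),(.ofNat 933645,.ofNat 453985),(.ofNat 400839,.ofNat 721035),1,55,(.ofNat 1,.ofNat 0),5,(.ofNat 0,.ofNat 0),7,(.ofNat 0,.ofNat 0)⟩,
  ⟨(.ofNat 937531,.ofNat 91211),(.ofNat 400839,.ofNat 721035),(.ofNat 71509,.ofNat 591209),1,6,(.ofNat 0,.ofNat 0),14,(.ofNat 0,.ofNat 1),9,(.ofNat 0,.ofNat 0)⟩,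
  ⟨(.ofNat 75195,.ofNat 400575),(.ofNat 201482,.ofNat 213640),(.ofNat 819441,.ofNat 40058),1,28,(.ofNat 0,.ofNat 0),3,(.ofNat 0,.ofNat 0),10,(.ofNat 0,.ofNat 0)⟩,
  ⟨(.ofNat 819441,.ofNat 40058),(.ofNat 937531,.ofNat 91211),(.ofNat 71509,.ofNat 591209),1,67,(.ofNat 1,.ofNat 0),7,(.ofNat 0,.ofNat 0),10,(.ofNat 0,.ofNat 0)⟩,
  ⟨(.ofNat 75195,.ofNat 400575),(.ofNat 819441,.ofNat 40058),(.ofNat 71509,.ofNat 591209),1,8,(.ofNat 0,.ofNat 0),9,(.ofNat 0,.ofNat 0),11,(.ofNat 0,.ofNat 0)⟩,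
  ⟨(.ofNat 71509,.ofNat 591209),(.ofNat 66733,.ofNat 494042),(.ofNat 75195,.ofNat 400575),1,78,(.ofNat 0,.ofNat 0),72,(.ofNat 0,.ofNat 0),10,(.ofNat 0,.ofNat 0)⟩,
  ⟨(.negSucc 227252,.negSucc 680281),(.negSucc 123566,.negSucc 521416),(.negSucc 392366,.negSucc 328680),2,38,(.ofNat 0,.ofNat 0),26,(.ofNat 0,.ofNat 0),19,(.ofNat 0,.ofNat 0)⟩,
  ⟨(.negSucc 853270,.negSucc 144520),(.negSucc 1045483,.negSucc 134038),(.negSucc 1106584,.negSucc 515595),2,68,(.ofNat 0,.ofNat 0),42,(.negSucc 0,.ofNat 0),17,(.ofNat 0,.ofNat 0)⟩,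
  ⟨(.negSucc 999055,.negSucc 970731),(.negSucc 919997,.negSucc 1126131),(.negSucc 590667,.negSucc 996305),2,76,(.ofNat 0,.negSucc 0),7,(.ofNat 0,.negSucc 0),15,(.ofNat 0,.ofNat 0)⟩,
  ⟨(.negSucc 1079478,.negSucc 815057),(.negSucc 999055,.negSucc 970731),(.negSucc 590667,.negSucc 996305),2,74,(.ofNat 0,.negSucc 0),14,(.ofNat 0,.ofNat 0),16,(.ofNat 0,.ofNat 0)⟩,
  ⟨(.negSucc 1106584,.negSucc 515595),(.negSucc 1079478,.negSucc 815057),(.negSucc 590667,.negSucc 996305),2,43,(.negSucc 0,.ofNat 0),15,(.ofNat 0,.ofNat 0),17,(.ofNat 0,.ofNat 0)⟩,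
  ⟨(.negSucc 853270,.negSucc 144520),(.negSucc 1106584,.negSucc 515595),(.negSucc 590667,.negSucc 996305),2,13,(.ofNat 0,.ofNat 0),16,(.ofNat 0,.ofNat 0),18,(.ofNat 0,.ofNat 0)⟩,
  ⟨(.negSucc 853270,.negSucc 144520),(.negSucc 590667,.negSucc 996305),(.negSucc 313225,.negSucc 815061),2,17,(.ofNat 0,.ofNat 0),4,(.ofNat 0,.negSucc 0),21,(.ofNat 0,.ofNat 0)⟩,
  ⟨(.negSucc 227252,.negSucc 680281),(.negSucc 392366,.negSucc 328680),(.negSucc 696346,.negSucc 151464),2,12,(.ofNat 0,.ofNat 0),23,(.ofNat 0,.ofNat 0),20,(.ofNat 0,.ofNat 0)⟩,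
  ⟨(.negSucc 313225,.negSucc 815061),(.negSucc 227252,.negSucc 680281),(.negSucc 696346,.negSucc 151464),2,36,(.ofNat 0,.ofNat 0),19,(.ofNat 0,.ofNat 0),21,(.ofNat 0,.ofNat 0)⟩,
  ⟨(.negSucc 313225,.negSucc 815061),(.negSucc 696346,.negSucc 151464),(.negSucc 853270,.negSucc 144520),2,20,(.ofNat 0,.ofNat 0),66,(.ofNat 0,.ofNat 0),18,(.ofNat 0,.ofNat 0)⟩,
  ⟨(.ofNat 91166,.negSucc 248565),(.ofNat 295156,.negSucc 21414),(.ofNat 201482,.ofNat 213640),4,48,(.ofNat 0,.ofNat 0),0,(.ofNat 0,.ofNat 0),29,(.ofNat 0,.ofNat 0)⟩,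
  ⟨(.negSucc 655844,.ofNat 0),(.negSucc 696346,.negSucc 151464),(.negSucc 392366,.negSucc 328680),3,66,(.ofNat 0,.ofNat 0),19,(.ofNat 0,.ofNat 0),25,(.ofNat 0,.ofNat 0)⟩,
  ⟨(.negSucc 392281,.ofNat 267050),(.negSucc 696346,.ofNat 108638),(.negSucc 655844,.ofNat 0),4,58,(.ofNat 0,.ofNat 0),70,(.ofNat 0,.ofNat 0),25,(.ofNat 0,.ofNat 0)⟩,
  ⟨(.negSucc 392281,.ofNat 267050),(.negSucc 655844,.ofNat 0),(.negSucc 392366,.negSucc 328680),4,24,(.ofNat 0,.ofNat 0),23,(.ofNat 0,.ofNat 0),26,(.ofNat 0,.ofNat 0)⟩,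
  ⟨(.negSucc 392281,.ofNat 267050),(.negSucc 392366,.negSucc 328680),(.negSucc 123566,.negSucc 521416),4,25,(.ofNat 0,.ofNat 0),12,(.ofNat 0,.ofNat 0),27,(.ofNat 0,.ofNat 0)⟩,
  ⟨(.negSucc 123568,.ofNat 478579),(.negSucc 392281,.ofNat 267050),(.negSucc 123566,.negSucc 521416),4,56,(.ofNat 0,.ofNat 0),26,(.ofNat 0,.ofNat 0),32,(.ofNat 0,.ofNat 0)⟩,
  ⟨(.ofNat 201482,.ofNat 213640),(.ofNat 75195,.ofNat 400575),(.negSucc 49901,.ofNat 427280),4,8,(.ofNat 0,.ofNat 0),72,(.ofNat 0,.ofNat 0),29,(.ofNat 0,.ofNat 0)⟩,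
  ⟨(.ofNat 91166,.negSucc 248565),(.ofNat 201482,.ofNat 213640),(.negSucc 49901,.ofNat 427280),4,22,(.ofNat 0,.ofNat 0),28,(.ofNat 0,.ofNat 0),31,(.ofNat 0,.ofNat 0)⟩,
  ⟨(.negSucc 63100,.negSucc 515615),(.ofNat 2195,.negSucc 487793),(.ofNat 91166,.negSucc 248565),4,34,(.ofNat 0,.ofNat 0),49,(.ofNat 0,.ofNat 0),31,(.ofNat 0,.ofNat 0)⟩,
  ⟨(.negSucc 63100,.negSucc 515615),(.ofNat 91166,.negSucc 248565),(.negSucc 49901,.ofNat 427280),4,30,(.ofNat 0,.ofNat 0),29,(.ofNat 0,.ofNat 0),33,(.ofNat 0,.ofNat 0)⟩,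
  ⟨(.negSucc 49901,.ofNat 427280),(.negSucc 123568,.ofNat 478579),(.negSucc 123566,.negSucc 521416),4,79,(.ofNat 0,.ofNat 0),27,(.ofNat 0,.ofNat 0),33,(.ofNat 0,.ofNat 0)⟩,
  ⟨(.negSucc 123566,.negSucc 521416),(.negSucc 63100,.negSucc 515615),(.negSucc 49901,.ofNat 427280),4,41,(.ofNat 0,.ofNat 0),31,(.ofNat 0,.ofNat 0),32,(.ofNat 0,.ofNat 0)⟩,
  ⟨(.ofNat 35965,.negSucc 566675),(.ofNat 2195,.negSucc 487793),(.negSucc 63100,.negSucc 515615),5,53,(.ofNat 0,.ofNat 0),30,(.ofNat 0,.ofNat 0),41,(.ofNat 0,.ofNat 0)⟩,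
  ⟨(.negSucc 217403,.negSucc 891332),(.negSucc 87971,.negSucc 945112),(.negSucc 9816,.negSucc 794371),5,2,(.ofNat 0,.negSucc 0),61,(.ofNat 1,.negSucc 0),37,(.ofNat 0,.ofNat 0)⟩,
  ⟨(.negSucc 227252,.negSucc 680281),(.negSucc 313225,.negSucc 815061),(.negSucc 217403,.negSucc 891332),5,20,(.ofNat 0,.ofNat 0),4,(.ofNat 0,.negSucc 0),37,(.ofNat 0,.ofNat 0)⟩,
  ⟨(.negSucc 227252,.negSucc 680281),(.negSucc 217403,.negSucc 891332),(.negSucc 9816,.negSucc 794371),5,36,(.ofNat 0,.ofNat 0),35,(.ofNat 0,.ofNat 0),38,(.ofNat 0,.ofNat 0)⟩,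
  ⟨(.negSucc 123566,.negSucc 521416),(.negSucc 227252,.negSucc 680281),(.negSucc 9816,.negSucc 794371),5,12,(.ofNat 0,.ofNat 0),37,(.ofNat 0,.ofNat 0),39,(.ofNat 0,.ofNat 0)⟩,
  ⟨(.negSucc 123566,.negSucc 521416),(.negSucc 9816,.negSucc 794371),(.ofNat 71507,.negSucc 634036),5,38,(.ofNat 0,.ofNat 0),54,(.ofNat 1,.negSucc 0),40,(.ofNat 0,.ofNat 0)⟩,
  ⟨(.negSucc 123566,.negSucc 521416),(.ofNat 71507,.negSucc 634036),(.ofNat 35965,.negSucc 566675),5,39,(.ofNat 0,.ofNat 0),53,(.ofNat 0,.ofNat 0),41,(.ofNat 0,.ofNat 0)⟩,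
  ⟨(.ofNat 35965,.negSucc 566675),(.negSucc 63100,.negSucc 515615),(.negSucc 123566,.negSucc 521416),5,34,(.ofNat 0,.ofNat 0),33,(.ofNat 0,.ofNat 0),40,(.ofNat 0,.ofNat 0)⟩,
  ⟨(.ofNat 876429,.negSucc 515595),(.ofNat 937530,.negSucc 134038),(.ofNat 777236,.negSucc 115040),7,13,(.ofNat 1,.ofNat 0),65,(.ofNat 1,.ofNat 0),46,(.ofNat 0,.ofNat 0)⟩,
  ⟨(.ofNat 782386,.negSucc 862581),(.ofNat 903535,.negSucc 815057),(.ofNat 876429,.negSucc 515595),6,74,(.ofNat 1,.negSucc 0),16,(.ofNat 1,.ofNat 0),45,(.ofNat 0,.ofNat 0)⟩,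
  ⟨(.ofNat 391569,.negSucc 782665),(.ofNat 678282,.negSucc 945106),(.ofNat 782386,.negSucc 862581),7,63,(.ofNat 1,.negSucc 0),73,(.ofNat 1,.negSucc 0),45,(.ofNat 0,.ofNat 0)⟩,
  ⟨(.ofNat 391569,.negSucc 782665),(.ofNat 782386,.negSucc 862581),(.ofNat 876429,.negSucc 515595),7,44,(.ofNat 0,.ofNat 0),43,(.ofNat 0,.ofNat 0),46,(.ofNat 0,.ofNat 0)⟩,
  ⟨(.ofNat 391569,.negSucc 782665),(.ofNat 876429,.negSucc 515595),(.ofNat 777236,.negSucc 115040),7,45,(.ofNat 0,.ofNat 0),42,(.ofNat 0,.ofNat 0),47,(.ofNat 0,.ofNat 0)⟩,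
  ⟨(.ofNat 71507,.negSucc 634036),(.ofNat 391569,.negSucc 782665),(.ofNat 777236,.negSucc 115040),7,54,(.ofNat 1,.negSucc 0),46,(.ofNat 0,.ofNat 0),51,(.ofNat 0,.ofNat 0)⟩,
  ⟨(.ofNat 507353,.ofNat 13352),(.ofNat 295156,.negSucc 21414),(.ofNat 91166,.negSucc 248565),7,0,(.ofNat 0,.ofNat 0),22,(.ofNat 0,.ofNat 0),49,(.ofNat 0,.ofNat 0)⟩,
  ⟨(.ofNat 507353,.ofNat 13352),(.ofNat 91166,.negSucc 248565),(.ofNat 2195,.negSucc 487793),7,48,(.ofNat 0,.ofNat 0),30,(.ofNat 0,.ofNat 0),50,(.ofNat 0,.ofNat 0)⟩,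
  ⟨(.ofNat 682992,.negSucc 34925),(.ofNat 507353,.ofNat 13352),(.ofNat 2195,.negSucc 487793),7,1,(.ofNat 0,.ofNat 0),49,(.ofNat 0,.ofNat 0),52,(.ofNat 0,.ofNat 0)⟩,
  ⟨(.ofNat 71507,.negSucc 634036),(.ofNat 777236,.negSucc 115040),(.ofNat 682992,.negSucc 34925),7,47,(.ofNat 0,.ofNat 0),64,(.ofNat 1,.ofNat 0),52,(.ofNat 0,.ofNat 0)⟩,
  ⟨(.ofNat 71507,.negSucc 634036),(.ofNat 682992,.negSucc 34925),(.ofNat 2195,.negSucc 487793),7,51,(.ofNat 0,.ofNat 0),50,(.ofNat 0,.ofNat 0),53,(.ofNat 0,.ofNat 0)⟩,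
  ⟨(.ofNat 2195,.negSucc 487793),(.ofNat 35965,.negSucc 566675),(.ofNat 71507,.negSucc 634036),7,34,(.ofNat 0,.ofNat 0),40,(.ofNat 0,.ofNat 0),52,(.ofNat 0,.ofNat 0)⟩,
  ⟨(.negSucc 599937,.ofNat 934675),(.negSucc 919999,.ofNat 1083304),(.negSucc 1001323,.ofNat 922969),8,47,(.negSucc 0,.ofNat 1),39,(.negSucc 0,.ofNat 1),61,(.ofNat 0,.ofNat 0)⟩,
  ⟨(.negSucc 1049368,.ofNat 453985),(.negSucc 1045482,.ofNat 91211),(.negSucc 874725,.ofNat 100446),8,6,(.negSucc 0,.ofNat 0),71,(.ofNat 0,.ofNat 0),57,(.ofNat 0,.ofNat 0)⟩,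
  ⟨(.negSucc 392281,.ofNat 267050),(.negSucc 123568,.ofNat 478579),(.negSucc 204785,.ofNat 632653),8,27,(.ofNat 0,.ofNat 0),77,(.ofNat 0,.ofNat 0),59,(.ofNat 0,.ofNat 0)⟩,
  ⟨(.negSucc 1049368,.ofNat 453985),(.negSucc 874725,.ofNat 100446),(.negSucc 696346,.ofNat 108638),8,55,(.ofNat 0,.ofNat 0),70,(.ofNat 0,.ofNat 0),58,(.ofNat 0,.ofNat 0)⟩,
  ⟨(.negSucc 1049368,.ofNat 453985),(.negSucc 696346,.ofNat 108638),(.negSucc 392281,.ofNat 267050),8,57,(.ofNat 0,.ofNat 0),24,(.ofNat 0,.ofNat 0),59,(.ofNat 0,.ofNat 0)⟩,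
  ⟨(.negSucc 1049368,.ofNat 453985),(.negSucc 392281,.ofNat 267050),(.negSucc 204785,.ofNat 632653),8,58,(.ofNat 0,.ofNat 0),56,(.ofNat 0,.ofNat 0),60,(.ofNat 0,.ofNat 0)⟩,
  ⟨(.negSucc 1079478,.ofNat 772228),(.negSucc 1049368,.ofNat 453985),(.negSucc 204785,.ofNat 632653),8,2,(.negSucc 0,.ofNat 0),59,(.ofNat 0,.ofNat 0),62,(.ofNat 0,.ofNat 0)⟩,
  ⟨(.negSucc 599937,.ofNat 934675),(.negSucc 1001323,.ofNat 922969),(.negSucc 1079478,.ofNat 772228),8,54,(.ofNat 0,.ofNat 0),35,(.negSucc 0,.ofNat 1),62,(.ofNat 0,.ofNat 0)⟩,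
  ⟨(.negSucc 599937,.ofNat 934675),(.negSucc 1079478,.ofNat 772228),(.negSucc 204785,.ofNat 632653),8,61,(.ofNat 0,.ofNat 0),60,(.ofNat 0,.ofNat 0),63,(.ofNat 0,.ofNat 0)⟩,
  ⟨(.negSucc 204785,.ofNat 632653),(.negSucc 313224,.ofNat 772234),(.negSucc 599937,.ofNat 934675),8,73,(.ofNat 0,.ofNat 0),44,(.negSucc 0,.ofNat 1),62,(.ofNat 0,.ofNat 0)⟩,
  ⟨(.negSucc 1163572,.ofNat 40058),(.negSucc 1300021,.negSucc 34925),(.negSucc 1205777,.negSucc 115040),9,1,(.negSucc 0,.ofNat 0),51,(.negSucc 0,.ofNat 0),65,(.ofNat 0,.ofNat 0)⟩,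
  ⟨(.negSucc 1163572,.ofNat 40058),(.negSucc 1205777,.negSucc 115040),(.negSucc 1045483,.negSucc 134038),9,64,(.ofNat 0,.ofNat 0),42,(.negSucc 0,.ofNat 0),67,(.ofNat 0,.ofNat 0)⟩,
  ⟨(.negSucc 853270,.negSucc 144520),(.negSucc 696346,.negSucc 151464),(.negSucc 655844,.ofNat 0),9,21,(.ofNat 0,.ofNat 0),23,(.ofNat 0,.ofNat 0),69,(.ofNat 0,.ofNat 0)⟩,
  ⟨(.negSucc 1045482,.ofNat 91211),(.negSucc 1163572,.ofNat 40058),(.negSucc 1045483,.negSucc 134038),9,9,(.negSucc 0,.ofNat 0),65,(.ofNat 0,.ofNat 0),68,(.ofNat 0,.ofNat 0)⟩,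
  ⟨(.negSucc 1045482,.ofNat 91211),(.negSucc 1045483,.negSucc 134038),(.negSucc 853270,.negSucc 144520),9,67,(.ofNat 0,.ofNat 0),13,(.ofNat 0,.ofNat 0),69,(.ofNat 0,.ofNat 0)⟩,
  ⟨(.negSucc 1045482,.ofNat 91211),(.negSucc 853270,.negSucc 144520),(.negSucc 655844,.ofNat 0),9,68,(.ofNat 0,.ofNat 0),66,(.ofNat 0,.ofNat 0),71,(.ofNat 0,.ofNat 0)⟩,
  ⟨(.negSucc 655844,.ofNat 0),(.negSucc 696346,.ofNat 108638),(.negSucc 874725,.ofNat 100446),9,24,(.ofNat 0,.ofNat 0),57,(.ofNat 0,.ofNat 0),71,(.ofNat 0,.ofNat 0)⟩,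
  ⟨(.negSucc 655844,.ofNat 0),(.negSucc 874725,.ofNat 100446),(.negSucc 1045482,.ofNat 91211),9,70,(.ofNat 0,.ofNat 0),55,(.ofNat 0,.ofNat 0),69,(.ofNat 0,.ofNat 0)⟩,
  ⟨(.negSucc 49901,.ofNat 427280),(.ofNat 75195,.ofNat 400575),(.ofNat 66733,.ofNat 494042),10,28,(.ofNat 0,.ofNat 0),11,(.ofNat 0,.ofNat 0),79,(.ofNat 0,.ofNat 0)⟩,
  ⟨(.negSucc 209120,.ofNat 854759),(.negSucc 313224,.ofNat 772234),(.negSucc 204785,.ofNat 632653),10,44,(.negSucc 0,.ofNat 1),63,(.ofNat 0,.ofNat 0),75,(.ofNat 0,.ofNat 0)⟩,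
  ⟨(.negSucc 7548,.ofNat 746609),(.negSucc 87971,.ofNat 902283),(.negSucc 209120,.ofNat 854759),10,15,(.ofNat 0,.ofNat 1),43,(.negSucc 0,.ofNat 1),75,(.ofNat 0,.ofNat 0)⟩,
  ⟨(.negSucc 7548,.ofNat 746609),(.negSucc 209120,.ofNat 854759),(.negSucc 204785,.ofNat 632653),10,74,(.ofNat 0,.ofNat 0),73,(.ofNat 0,.ofNat 0),76,(.ofNat 0,.ofNat 0)⟩,
  ⟨(.ofNat 71509,.ofNat 591209),(.negSucc 7548,.ofNat 746609),(.negSucc 204785,.ofNat 632653),10,14,(.ofNat 0,.ofNat 1),75,(.ofNat 0,.ofNat 0),77,(.ofNat 0,.ofNat 0)⟩,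
  ⟨(.ofNat 71509,.ofNat 591209),(.negSucc 204785,.ofNat 632653),(.negSucc 123568,.ofNat 478579),10,76,(.ofNat 0,.ofNat 0),56,(.ofNat 0,.ofNat 0),78,(.ofNat 0,.ofNat 0)⟩,
  ⟨(.ofNat 66733,.ofNat 494042),(.ofNat 71509,.ofNat 591209),(.negSucc 123568,.ofNat 478579),10,11,(.ofNat 0,.ofNat 0),77,(.ofNat 0,.ofNat 0),79,(.ofNat 0,.ofNat 0)⟩,
  ⟨(.negSucc 123568,.ofNat 478579),(.negSucc 49901,.ofNat 427280),(.ofNat 66733,.ofNat 494042),10,32,(.ofNat 0,.ofNat 0),72,(.ofNat 0,.ofNat 0),78,(.ofNat 0,.ofNat 0)⟩]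

def E8G : List Grp := [
  ⟨2,[(.ofNat 933645,.ofNat 453985),(.ofNat 903535,.ofNat 772228),(.ofNat 774103,.ofNat 826008)]⟩,
  ⟨2,[(.ofNat 201482,.ofNat 213640),(.ofNat 295156,.negSucc 21414),(.ofNat 507353,.ofNat 13352),(.ofNat 682992,.negSucc 34925),(.ofNat 819441,.ofNat 40058),(.ofNat 774103,.ofNat 826008),(.ofNat 678281,.ofNat 902279),(.ofNat 400839,.ofNat 721035),(.ofNat 933645,.ofNat 453985),(.ofNat 937531,.ofNat 91211),(.ofNat 71509,.ofNat 591209),(.ofNat 75195,.ofNat 400575),(.ofNat 66733,.ofNat 494042)]⟩,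
  ⟨0,[(.negSucc 227252,.negSucc 680281),(.negSucc 123566,.negSucc 521416),(.negSucc 392366,.negSucc 328680),(.negSucc 853270,.negSucc 144520),(.negSucc 1045483,.negSucc 134038),(.negSucc 1106584,.negSucc 515595),(.negSucc 999055,.negSucc 970731),(.negSucc 919997,.negSucc 1126131),(.negSucc 590667,.negSucc 996305),(.negSucc 1079478,.negSucc 815057),(.negSucc 313225,.negSucc 815061),(.negSucc 696346,.negSucc 151464)]⟩,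
  ⟨3,[(.negSucc 655844,.ofNat 0),(.negSucc 696346,.negSucc 151464),(.negSucc 392366,.negSucc 328680)]⟩,
  ⟨3,[(.ofNat 91166,.negSucc 248565),(.ofNat 295156,.negSucc 21414),(.ofNat 201482,.ofNat 213640),(.negSucc 392281,.ofNat 267050),(.negSucc 696346,.ofNat 108638),(.negSucc 655844,.ofNat 0),(.negSucc 392366,.negSucc 328680),(.negSucc 123566,.negSucc 521416),(.negSucc 123568,.ofNat 478579),(.ofNat 75195,.ofNat 400575),(.negSucc 49901,.ofNat 427280),(.negSucc 63100,.negSucc 515615),(.ofNat 2195,.negSucc 487793)]⟩,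
  ⟨5,[(.ofNat 35965,.negSucc 566675),(.ofNat 2195,.negSucc 487793),(.negSucc 63100,.negSucc 515615),(.negSucc 217403,.negSucc 891332),(.negSucc 87971,.negSucc 945112),(.negSucc 9816,.negSucc 794371),(.negSucc 227252,.negSucc 680281),(.negSucc 313225,.negSucc 815061),(.negSucc 123566,.negSucc 521416),(.ofNat 71507,.negSucc 634036)]⟩,
  ⟨1,[(.ofNat 782386,.negSucc 862581),(.ofNat 903535,.negSucc 815057),(.ofNat 876429,.negSucc 515595)]⟩,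
  ⟨1,[(.ofNat 876429,.negSucc 515595),(.ofNat 937530,.negSucc 134038),(.ofNat 777236,.negSucc 115040),(.ofNat 391569,.negSucc 782665),(.ofNat 678282,.negSucc 945106),(.ofNat 782386,.negSucc 862581),(.ofNat 71507,.negSucc 634036),(.ofNat 507353,.ofNat 13352),(.ofNat 295156,.negSucc 21414),(.ofNat 91166,.negSucc 248565),(.ofNat 2195,.negSucc 487793),(.ofNat 682992,.negSucc 34925),(.ofNat 35965,.negSucc 566675)]⟩,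
  ⟨4,[(.negSucc 599937,.ofNat 934675),(.negSucc 919999,.ofNat 1083304),(.negSucc 1001323,.ofNat 922969),(.negSucc 1049368,.ofNat 453985),(.negSucc 1045482,.ofNat 91211),(.negSucc 874725,.ofNat 100446),(.negSucc 392281,.ofNat 267050),(.negSucc 123568,.ofNat 478579),(.negSucc 204785,.ofNat 632653),(.negSucc 696346,.ofNat 108638),(.negSucc 1079478,.ofNat 772228),(.negSucc 313224,.ofNat 772234)]⟩,
  ⟨5,[(.negSucc 1163572,.ofNat 40058),(.negSucc 1300021,.negSucc 34925),(.negSucc 1205777,.negSucc 115040),(.negSucc 1045483,.negSucc 134038),(.negSucc 853270,.negSucc 144520),(.negSucc 696346,.negSucc 151464),(.negSucc 655844,.ofNat 0),(.negSucc 1045482,.ofNat 91211),(.negSucc 696346,.ofNat 108638),(.negSucc 874725,.ofNat 100446)]⟩,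
  ⟨5,[(.negSucc 49901,.ofNat 427280),(.ofNat 75195,.ofNat 400575),(.ofNat 66733,.ofNat 494042),(.negSucc 209120,.ofNat 854759),(.negSucc 313224,.ofNat 772234),(.negSucc 204785,.ofNat 632653),(.negSucc 7548,.ofNat 746609),(.negSucc 87971,.ofNat 902283),(.ofNat 71509,.ofNat 591209),(.negSucc 123568,.ofNat 478579)]⟩]

def E8C : List (ℤ × ℤ) := [
  (.negSucc 0,.ofNat 0),(.negSucc 0,.ofNat 0),(.negSucc 0,.ofNat 1),(.negSucc 0,.negSucc 0),(.negSucc 0,.ofNat 0),(.ofNat 0,.ofNat 1),(.ofNat 0,.negSucc 0),(.ofNat 0,.ofNat 0),(.ofNat 0,.ofNat 1),(.ofNat 0,.negSucc 0),(.ofNat 1,.ofNat 0),(.ofNat 1,.ofNat 1),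
  (.ofNat 1,.negSucc 0),(.ofNat 1,.ofNat 0),(.ofNat 1,.ofNat 0),(.negSucc 0,.ofNat 0),(.negSucc 0,.ofNat 0),(.negSucc 0,.ofNat 0),(.negSucc 0,.negSucc 0),(.negSucc 0,.ofNat 0),(.negSucc 0,.ofNat 1),(.negSucc 0,.negSucc 0),(.ofNat 0,.ofNat 0),(.ofNat 1151,.ofNat 2770),
  (.ofNat 0,.negSucc 0),(.ofNat 1,.ofNat 0),(.ofNat 1,.ofNat 0),(.ofNat 1,.negSucc 0),(.ofNat 1,.ofNat 0),(.ofNat 1,.ofNat 0),(.negSucc 0,.ofNat 0),(.negSucc 0,.ofNat 0),(.negSucc 0,.ofNat 1),(.negSucc 0,.ofNat 0),(.negSucc 0,.ofNat 0),(.ofNat 0,.ofNat 1),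
  (.negSucc 1150,.negSucc 2769),(.ofNat 0,.ofNat 0),(.ofNat 1,.ofNat 1),(.ofNat 1,.negSucc 0),(.ofNat 1,.ofNat 0),(.ofNat 1,.ofNat 1),(.ofNat 1,.ofNat 0),(.ofNat 1,.ofNat 0),(.ofNat 1,.ofNat 0),(.negSucc 0,.ofNat 0),(.negSucc 0,.ofNat 0),(.negSucc 0,.ofNat 1),
  (.negSucc 0,.negSucc 0),(.negSucc 0,.ofNat 0),(.negSucc 0,.ofNat 3),(.negSucc 182,.negSucc 237),(.ofNat 0,.ofNat 0),(.ofNat 183,.ofNat 238),(.ofNat 1,.negSucc 2),(.ofNat 1,.ofNat 0),(.ofNat 1,.ofNat 1),(.ofNat 1,.negSucc 0),(.ofNat 1,.ofNat 0),(.ofNat 1,.ofNat 0),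
  (.negSucc 0,.ofNat 0),(.negSucc 0,.ofNat 0),(.negSucc 0,.ofNat 1),(.negSucc 0,.negSucc 0),(.negSucc 299,.negSucc 1),(.negSucc 4,.ofNat 9),(.negSucc 4,.negSucc 8),(.ofNat 0,.ofNat 0),(.ofNat 5,.ofNat 9),(.ofNat 5,.negSucc 8),(.ofNat 300,.ofNat 2),(.ofNat 1,.ofNat 1),
  (.ofNat 1,.negSucc 0),(.ofNat 1,.ofNat 0),(.ofNat 1,.ofNat 0),(.negSucc 0,.ofNat 0),(.negSucc 0,.ofNat 0),(.negSucc 0,.ofNat 1),(.negSucc 0,.negSucc 0),(.negSucc 0,.ofNat 0),(.ofNat 0,.ofNat 1),(.ofNat 0,.negSucc 0),(.ofNat 0,.ofNat 0),(.ofNat 0,.ofNat 1),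
  (.ofNat 0,.negSucc 0),(.ofNat 1,.ofNat 0),(.ofNat 1,.ofNat 1),(.ofNat 1,.negSucc 0),(.ofNat 1,.ofNat 0),(.ofNat 1,.ofNat 0),(.negSucc 0,.ofNat 0),(.negSucc 0,.ofNat 0),(.negSucc 0,.ofNat 1),(.negSucc 0,.negSucc 0),(.negSucc 296,.ofNat 39),(.ofNat 0,.ofNat 1),
  (.negSucc 0,.negSucc 2),(.ofNat 0,.ofNat 0),(.ofNat 1,.ofNat 1),(.ofNat 1,.negSucc 0),(.ofNat 1,.ofNat 0),(.ofNat 1,.ofNat 0),(.ofNat 1,.ofNat 0),(.ofNat 1,.ofNat 0),(.ofNat 1,.ofNat 0),(.negSucc 0,.ofNat 0),(.negSucc 0,.ofNat 0),(.negSucc 0,.ofNat 0),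
  (.negSucc 0,.ofNat 0),(.negSucc 0,.ofNat 0),(.negSucc 0,.ofNat 1),(.negSucc 0,.negSucc 0),(.ofNat 0,.ofNat 0),(.ofNat 1,.ofNat 3),(.ofNat 0,.negSucc 0),(.ofNat 297,.negSucc 38),(.ofNat 1,.ofNat 1),(.ofNat 1,.negSucc 0),(.ofNat 1,.ofNat 0),(.ofNat 1,.ofNat 0),
  (.negSucc 0,.ofNat 0),(.negSucc 0,.ofNat 0),(.negSucc 0,.ofNat 1),(.negSucc 0,.negSucc 0),(.negSucc 296,.negSucc 38),(.negSucc 4,.ofNat 9),(.negSucc 4,.negSucc 8),(.ofNat 0,.ofNat 0),(.ofNat 5,.ofNat 9),(.ofNat 5,.negSucc 8),(.ofNat 297,.ofNat 39),(.ofNat 1,.ofNat 1),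
  (.ofNat 1,.negSucc 0),(.ofNat 1,.ofNat 0),(.ofNat 1,.ofNat 0),(.negSucc 0,.ofNat 0),(.negSucc 0,.ofNat 0),(.negSucc 0,.ofNat 1),(.negSucc 0,.negSucc 0),(.negSucc 0,.ofNat 0),(.ofNat 0,.ofNat 1),(.ofNat 0,.negSucc 0),(.ofNat 0,.ofNat 0),(.ofNat 0,.ofNat 1),
  (.ofNat 0,.negSucc 0),(.ofNat 1,.ofNat 0),(.ofNat 1,.ofNat 1),(.ofNat 1,.negSucc 0),(.ofNat 1,.ofNat 0),(.ofNat 1,.ofNat 0),(.negSucc 0,.ofNat 0),(.negSucc 0,.ofNat 0),(.negSucc 0,.ofNat 1),(.negSucc 0,.ofNat 0),(.negSucc 0,.ofNat 0),(.negSucc 0,.ofNat 1),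
  (.negSucc 0,.ofNat 0),(.negSucc 250,.ofNat 164),(.ofNat 0,.ofNat 1),(.ofNat 162,.negSucc 2995),(.ofNat 1,.ofNat 1),(.ofNat 1,.ofNat 1),(.ofNat 1,.ofNat 0),(.ofNat 1,.ofNat 0),(.ofNat 1,.ofNat 1),(.negSucc 0,.ofNat 0),(.negSucc 0,.ofNat 0),(.negSucc 0,.ofNat 1),
  (.negSucc 0,.ofNat 0),(.negSucc 0,.ofNat 1),(.ofNat 0,.ofNat 1),(.negSucc 35,.negSucc 17),(.ofNat 0,.ofNat 1),(.ofNat 0,.ofNat 1),(.ofNat 36,.negSucc 17),(.ofNat 1,.ofNat 1),(.ofNat 1,.ofNat 1),(.ofNat 1,.ofNat 0),(.ofNat 1,.ofNat 0),(.ofNat 1,.ofNat 1),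
  (.negSucc 0,.ofNat 0),(.negSucc 0,.ofNat 0),(.negSucc 0,.ofNat 1),(.negSucc 0,.negSucc 0),(.negSucc 0,.ofNat 0),(.ofNat 0,.ofNat 1),(.ofNat 0,.negSucc 0),(.ofNat 0,.ofNat 0),(.ofNat 0,.ofNat 1),(.ofNat 0,.negSucc 0),(.ofNat 1,.ofNat 0),(.ofNat 1,.ofNat 1),
  (.ofNat 1,.negSucc 0),(.ofNat 1,.ofNat 0),(.ofNat 1,.ofNat 0),(.negSucc 0,.ofNat 0),(.negSucc 0,.ofNat 0),(.negSucc 0,.ofNat 1),(.negSucc 0,.ofNat 0),(.negSucc 0,.ofNat 0),(.negSucc 0,.ofNat 1),(.negSucc 0,.negSucc 0),(.ofNat 0,.ofNat 0),(.ofNat 0,.ofNat 1),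
  (.ofNat 115,.negSucc 276),(.ofNat 1,.ofNat 0),(.ofNat 1,.ofNat 1),(.ofNat 1,.ofNat 0),(.ofNat 1,.ofNat 0),(.ofNat 1,.ofNat 0),(.negSucc 0,.ofNat 0),(.negSucc 0,.ofNat 0),(.negSucc 0,.ofNat 0),(.negSucc 0,.negSucc 0),(.negSucc 0,.ofNat 0),(.negSucc 114,.ofNat 277),
  (.ofNat 0,.negSucc 0),(.ofNat 0,.ofNat 0),(.ofNat 1,.ofNat 1),(.ofNat 1,.negSucc 0),(.ofNat 1,.ofNat 0),(.ofNat 1,.ofNat 0),(.ofNat 1,.negSucc 0),(.ofNat 1,.ofNat 0),(.ofNat 1,.ofNat 0),(.negSucc 0,.ofNat 0),(.negSucc 0,.ofNat 0),(.negSucc 0,.ofNat 1),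
  (.negSucc 0,.negSucc 0),(.negSucc 0,.ofNat 0),(.negSucc 182,.ofNat 238),(.negSucc 0,.negSucc 2),(.ofNat 0,.ofNat 0),(.ofNat 1,.ofNat 3),(.ofNat 183,.negSucc 237),(.ofNat 1,.ofNat 0),(.ofNat 1,.ofNat 1),(.ofNat 1,.negSucc 0),(.ofNat 1,.ofNat 0),(.ofNat 1,.ofNat 0),
  (.negSucc 0,.ofNat 0),(.negSucc 0,.ofNat 0),(.negSucc 0,.ofNat 1),(.negSucc 0,.negSucc 0),(.negSucc 0,.ofNat 0),(.negSucc 4,.ofNat 9),(.negSucc 4,.negSucc 8),(.ofNat 0,.ofNat 0),(.ofNat 5,.ofNat 9),(.ofNat 5,.negSucc 8),(.ofNat 1,.ofNat 0),(.ofNat 1,.ofNat 1),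
  (.ofNat 1,.negSucc 0),(.ofNat 1,.ofNat 0),(.ofNat 1,.ofNat 0),(.negSucc 0,.negSucc 0),(.negSucc 0,.ofNat 0),(.negSucc 0,.ofNat 0),(.negSucc 0,.negSucc 0),(.negSucc 0,.negSucc 0),(.negSucc 161,.ofNat 2996),(.ofNat 0,.negSucc 0),(.ofNat 251,.negSucc 163),(.ofNat 1,.ofNat 0),
  (.ofNat 1,.negSucc 0),(.ofNat 1,.ofNat 0),(.ofNat 1,.ofNat 0),(.ofNat 1,.negSucc 0),(.ofNat 1,.ofNat 0),(.ofNat 1,.ofNat 0),(.negSucc 0,.ofNat 0),(.negSucc 0,.ofNat 0),(.negSucc 0,.ofNat 1),(.negSucc 0,.negSucc 0),(.negSucc 0,.ofNat 0),(.ofNat 0,.ofNat 1),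
  (.ofNat 0,.negSucc 0),(.ofNat 0,.ofNat 0),(.ofNat 0,.ofNat 1),(.ofNat 0,.negSucc 0),(.ofNat 1,.ofNat 0),(.ofNat 1,.ofNat 1),(.ofNat 1,.negSucc 0),(.ofNat 1,.ofNat 0),(.ofNat 1,.ofNat 0),(.negSucc 0,.ofNat 0),(.negSucc 0,.ofNat 0),(.negSucc 0,.ofNat 1),
  (.negSucc 0,.ofNat 0),(.negSucc 0,.ofNat 1),(.ofNat 0,.ofNat 1),(.negSucc 162,.negSucc 2995),(.ofNat 34,.ofNat 22),(.ofNat 1,.ofNat 1),(.ofNat 1,.ofNat 0),(.ofNat 1,.ofNat 0),(.ofNat 1,.ofNat 1),(.ofNat 1,.ofNat 0),(.ofNat 1,.ofNat 0),(.ofNat 1,.ofNat 0),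
  (.negSucc 0,.negSucc 0),(.negSucc 0,.ofNat 0),(.negSucc 0,.ofNat 0),(.negSucc 0,.negSucc 0),(.negSucc 0,.negSucc 0),(.negSucc 35,.ofNat 18),(.ofNat 0,.negSucc 0),(.ofNat 0,.negSucc 0),(.ofNat 36,.ofNat 18),(.ofNat 0,.negSucc 0),(.ofNat 1,.negSucc 0),(.ofNat 1,.ofNat 0),
  (.ofNat 1,.negSucc 0),(.ofNat 1,.ofNat 0),(.ofNat 1,.ofNat 0),(.negSucc 0,.ofNat 0),(.negSucc 0,.ofNat 0),(.negSucc 0,.ofNat 0),(.negSucc 0,.negSucc 0),(.negSucc 0,.ofNat 0),(.negSucc 0,.ofNat 0),(.negSucc 0,.negSucc 0),(.negSucc 33,.negSucc 21),(.ofNat 163,.ofNat 2996),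
  (.ofNat 0,.negSucc 0),(.ofNat 1,.negSucc 0),(.ofNat 1,.ofNat 0),(.ofNat 1,.negSucc 0),(.ofNat 1,.ofNat 0),(.ofNat 1,.ofNat 0),(.negSucc 0,.ofNat 0),(.negSucc 0,.ofNat 0),(.negSucc 0,.ofNat 1),(.negSucc 0,.negSucc 0),(.negSucc 0,.ofNat 0),(.ofNat 0,.ofNat 1),
  (.ofNat 0,.negSucc 0),(.ofNat 0,.ofNat 0),(.ofNat 0,.ofNat 1),(.ofNat 0,.negSucc 0),(.ofNat 1,.ofNat 0),(.ofNat 1,.ofNat 1),(.ofNat 1,.negSucc 0),(.ofNat 1,.ofNat 0),(.ofNat 1,.ofNat 0)]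

def E8 : Data where
  La := 1983014
  Lb := 991507
  Lc := 1717341
  T := E8T
  G := E8G
  M := 1000000
  lo := 655000
  hi := 681800
  Y0 := -1126132
  Y1 := 1083304
  X0 := -1300022
  X1 := 937531
  Mm := 2
  Nn := 1
  S := [(.negSucc 1,.negSucc 0),(.negSucc 1,.ofNat 0),(.negSucc 1,.ofNat 1),(.negSucc 0,.negSucc 0),(.negSucc 0,.ofNat 0),(.negSucc 0,.ofNat 1),(.ofNat 0,.negSucc 0),(.ofNat 0,.ofNat 0),(.ofNat 0,.ofNat 1),(.ofNat 1,.negSucc 0),(.ofNat 1,.ofNat 0),(.ofNat 1,.ofNat 1),(.ofNat 2,.negSucc 0),(.ofNat 2,.ofNat 0),(.ofNat 2,.ofNat 1)]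
  cert := E8C

theorem E8_ok : E8.OK = true := by decide +kernel

end Pool.Agent.Lib.MP_776035_co.Tiling
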